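import Mathlib

/-!
# ANC / Const: the exponents of the Anderson project (MP_28b024_mp) and all linear inequalities between them

See /team-store/and_numbers_h20.md.  ORDER OF CHOICE: `nu2` (operator noise of the form component, `ν² ≤ κ^nu2`), `eF` (form
error), `e` (start: `dl = γ^(e/4)`, `K = C γ^(1-2e)`, `C0 = C/γ`), `v` (errors of a step: err, be, al κ, g5), `s` ((H5)),
`th` (`η_* = κ_J^th`), `v2` (radius `κ'^(-v2)` of the annulus), `vi` (ALL errors of an insertion), `vt` (ONLY the field of tau),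
`vb` (block averages in T4), `van` (tolerance of the reading of the annulus), `CM` (sum of all polynomial degrees of the leak
scale, may depend on `d`, `s`), `v1`, `al`, `J` (number of SEPARATED cells), `K1`, `Kp`.

Names of the inequalities: as in the note.
-/

namespace Pool.Agent.ANC

/-- the exponents and their relations -/
structure Ex (d : ℕ) (CM : ℝ) where
  a : ℝ
  e3 : ℝ
  nu2 : ℝ
  eF : ℝ
  e : ℝ
  v : ℝ
  s : ℝ
  th : ℝ
  v2 : ℝ
  vi : ℝ
  vt : ℝ
  vb : ℝ
  van : ℝ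
  v1 : ℝ
  al : ℕ
  J : ℕ
  K1 : ℝ
  Kp : ℝ
  a_eq : a = 3 / 64
  e3_eq : e3 = 1 / 40
  nu2_eq : nu2 = 1 / 64
  eF_eq : eF = 1 / 150
  e_eq : e = 1 / 700
  v_eq : v = min (1 / 400 : ℝ) (1 / (100 * (d : ℝ)))
  s_eq : s = v / 4
  th_eq : th = 1 / (20 * d)
  v2_eq : v2 = 1 / (100 * d ^ 2)
  vi_eq : vi = s * v2 / 64
  vt_eq : vt = min (e / 4) vi / 4
  vb_eq : vb = 4 * vt
  van_eq : van = 1 / (40 * d)
  v1_eq : v1 = vi / 8
  J_eq : J = 11 * al
  K1_eq : K1 = (4 * d + 1) * al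
  Kp_eq : Kp = 6 * al * K1 + 10 * d * al
  v_pos : 0 < v
  s_pos : 0 < s
  th_pos : 0 < th
  v2_pos : 0 < v2
  vi_pos : 0 < vi
  vt_pos : 0 < vt
  vb_pos : 0 < vb
  van_pos : 0 < van
  v1_pos : 0 < v1
  K1_pos : 0 < K1
  Kp_pos : 0 < Kp
  v_lt : v < 1 / 300
  v2_lt : v2 ≤ 1 / 900
  v2_le : v2 ≤ 1
  s_lt : s < v
  vi_lt : vi < v
  vt_lt : vt < vi
  /-- step -/
  S1 : 2 * a < 1 / 8
  S2 : v < a
  S3 : v < e3
  S4 : 2 * eF < nu2
  S4b : 0 < 3 / 2 * (1 - 2 * e) + 1 / 2
  S4c : nu2 < 2 * a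
  S5 : v + 2 * e < eF
  S6 : v < eF / 2
  S7a : 2 * vt < e / 4
  S7b : 2 * vt < v
  S7c : 2 * vt < vi
  S8 : 2 * vt < vb
  S9 : 2 * vt + 10 * d * vb < 1 / 2
  S10 : vt < 5 / 8
  H5 : s < v / 2
  /-- annulus -/
  A1 : (d + 1) * v2 + van < th
  A1' : 3 / 2 * (d + 1) * v2 + van < th
  A2 : (d + 1) * v2 + van < 1 / 2
  A2' : th ≤ 1 / 2
  A5 : 2 * (d + 1) * v2 + 1 / (100 * d) < th
  A3 : v1 < v2
  A4 : v < van
  /-- insertion -/
  I0 : s * v2 = 64 * vi
  I1 : s * v2 / 2 < 2 * s * v2 - 3 * v1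
  I2 : 2 * vi < s * v2 / 2
  I3 : 2 * vi < s * v2 / 2 - s * v2 / 8
  I4 : 2 * vi < s * v2 / 16 - v1
  I4b : 2 * vi + 2 * e / al < s * v2 / 16 - v1
  I5 : vi < (s * v2 / 2 - v1) / 2
  I6 : 2 * vi < van
  I6' : 64 * vi < van
  I7 : vt < s * v2 / 2 - v1
  I8 : (1 + s * v2 / 8) / 2 < 11 / 10
  /-- leak -/
  L0 : 1000 ≤ al
  al2 : 2 ≤ al
  J1 : 1 ≤ J
  L1 : 2 * CM < al
  L3 : CM + 64 ≤ al * v1
  /-- recursion -/
  R1 : 5 * al * K1 < J * (K1 - 2 * d * al)
  R1' : 5 * K1 + 2 * d * J < K1 * J / al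
  R2 : 5 * al * K1 + d * al ≤ Kp
  R3 : 10 * d < K1
  R4 : 2 * al * d + 1 ≤ K1
  /-- end -/
  E1 : 3 * d + 2 < 1 / (2 * th)
  E2 : 3 * d * th < K1
  P4 : 4 < 2 * al * vi

/-- **The exponents exist.** -/
theorem ex_exists (d : ℕ) (hd : 3 ≤ d) (CM : ℝ) (hCM : 0 ≤ CM) : Nonempty (Ex d CM) := by
  have hd3 : (3 : ℝ) ≤ d := by exact_mod_cast hd
  have hd0 : (0 : ℝ) < d := by linarith
  obtain ⟨x, hx⟩ : ∃ x : ℝ, x = 1 / d := ⟨_, rfl⟩
  have hx0 : 0 < x := by rw [hx]; positivity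
  have hdx : (d : ℝ) * x = 1 := by rw [hx]; field_simp
  have hx3 : x ≤ 1 / 3 := by
    rw [hx]
    exact one_div_le_one_div_of_le (by norm_num) hd3
  obtain ⟨v, hv⟩ : ∃ v : ℝ, v = min (1 / 400) (1 / (100 * (d : ℝ))) := ⟨_, rfl⟩
  have hvx : (1 : ℝ) / (100 * d) = x / 100 := by rw [hx]; field_simp
  have hv0 : 0 < v := by
    rw [hv]; exact lt_min (by norm_num) (by positivity)
  have hv4 : v ≤ 1 / 400 := by rw [hv]; exact min_le_left _ _
  have hv5 : v ≤ x / 100 := by rw [hv, ← hvx]; exact min_le_right _ _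
  obtain ⟨w, hw⟩ : ∃ w : ℝ, w = 1 / (100 * (d : ℝ) ^ 2) := ⟨_, rfl⟩
  have hwx : w = x ^ 2 / 100 := by rw [hw, hx]; field_simp
  have hw0 : 0 < w := by rw [hwx]; positivity
  have hw9 : w ≤ 1 / 900 := by rw [hwx]; nlinarith
  have hth : (1 : ℝ) / (20 * d) = x / 20 := by rw [hx]; field_simp
  have han : (1 : ℝ) / (40 * d) = x / 40 := by rw [hx]; field_simp
  obtain ⟨vi, hvi⟩ : ∃ vi : ℝ, vi = v / 4 * w / 64 := ⟨_, rfl⟩
  have hvi0 : 0 < vi := by rw [hvi]; positivity
  have hsw : v / 4 * w = 64 * vi := by rw [hvi]; ring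
  have hviv : 256 * vi ≤ v / 900 := by rw [hvi]; nlinarith
  have hviw : vi ≤ w / 1000 := by rw [hvi]; nlinarith
  obtain ⟨vt, hvt⟩ : ∃ vt : ℝ, vt = min ((1 : ℝ) / 700 / 4) vi / 4 := ⟨_, rfl⟩
  have hvt0 : 0 < vt := by
    rw [hvt]
    have : 0 < min ((1 : ℝ) / 700 / 4) vi := lt_min (by norm_num) hvi0
    positivity
  have hvt1 : vt ≤ vi / 4 := by
    rw [hvt]
    have := min_le_right ((1 : ℝ) / 700 / 4) vi
    linarith
  have hvt2 : vt ≤ 1 / 11200 := by
    rw [hvt]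
    have := min_le_left ((1 : ℝ) / 700 / 4) vi
    linarith
  have hdw : (d : ℝ) * w = x / 100 := by
    rw [hwx]
    have : (d : ℝ) * (x ^ 2 / 100) = ((d : ℝ) * x) * x / 100 := by ring
    rw [this, hdx]; ring
  have hdvt : (d : ℝ) * vt ≤ 1 / 10000 := by
    have h1 : vt ≤ w := by linarith
    have h2 : (d : ℝ) * vt ≤ d * (w / 1000) :=
      mul_le_mul_of_nonneg_left (by linarith) hd0.le
    have h3 : (d : ℝ) * (w / 1000) = x / 100000 := by
      rw [mul_div_assoc', hdw]; ring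
    linarith
  obtain ⟨al, hal⟩ : ∃ al : ℕ, al = ⌈(CM + 64) / (vi / 8)⌉₊ + 1000 := ⟨_, rfl⟩
  have ha1 : (CM + 64) / (vi / 8) + 1000 ≤ (al : ℝ) := by
    rw [hal]
    push_cast
    have := Nat.le_ceil ((CM + 64) / (vi / 8))
    linarith
  have hv10 : 0 < vi / 8 := by positivity
  have ha2 : CM + 64 ≤ (al : ℝ) * (vi / 8) := by
    have h1 : (CM + 64) / (vi / 8) ≤ (al : ℝ) := by linarith
    rwa [div_le_iff₀ hv10] at h1
  have ha3 : (1000 : ℝ) ≤ al := by
    have : 0 ≤ (CM + 64) / (vi / 8) := by positivity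
    linarith
  have ha0 : (0 : ℝ) < al := by linarith
  have haN : 1000 ≤ al := by exact_mod_cast ha3
  have hvi8 : vi / 8 ≤ 1 / 100 := by linarith
  have ha4 : 2 * CM < (al : ℝ) := by
    have h1 : (al : ℝ) * (vi / 8) ≤ al * (1 / 100) := mul_le_mul_of_nonneg_left hvi8 ha0.le
    linarith
  have hdal : (0 : ℝ) < d * al := by positivity
  refine ⟨{ a := 3 / 64, e3 := 1 / 40, nu2 := 1 / 64, eF := 1 / 150, e := 1 / 700, v := v,
            s := v / 4, th := 1 / (20 * d), v2 := w, vi := vi, vt := vt, vb := 4 * vt,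
            van := 1 / (40 * d), v1 := vi / 8, al := al, J := 11 * al,
            K1 := (4 * d + 1) * al, Kp := 6 * al * ((4 * d + 1) * al) + 10 * d * al,
            a_eq := rfl, e3_eq := rfl, nu2_eq := rfl, eF_eq := rfl, e_eq := rfl, v_eq := hv,
            s_eq := rfl, th_eq := rfl, v2_eq := hw, vi_eq := hvi, vt_eq := hvt, vb_eq := rfl,
            van_eq := rfl, v1_eq := rfl, J_eq := rfl, K1_eq := rfl, Kp_eq := rfl,
            v_pos := hv0, s_pos := by positivity, th_pos := by positivity, v2_pos := hw0,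
            vi_pos := hvi0, vt_pos := hvt0, vb_pos := by positivity, van_pos := by positivity,
            v1_pos := hv10, K1_pos := by positivity, Kp_pos := by positivity,
            v_lt := by linarith only [hv4], v2_lt := hw9, v2_le := by linarith only [hw9], s_lt := by linarith only [hv0], vi_lt := by linarith only [hviv, hv0],
            vt_lt := by linarith only [hvt1, hvi0],
            S1 := by norm_num, S2 := by linarith only [hv4], S3 := by linarith only [hv4], S4 := by norm_num,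
            S4b := by norm_num, S4c := by norm_num, S5 := by linarith only [hv4], S6 := by linarith only [hv4],
            S7a := by linarith only [hvt2], S7b := by linarith only [hvt1, hviv, hv0, hvi0], S7c := by linarith only [hvt1, hvi0], S8 := by linarith only [hvt0],
            S9 := ?_, S10 := by linarith only [hvt2], H5 := by linarith only [hv0], A1 := ?_, A1' := ?_, A2 := ?_, A2' := ?_, A5 := ?_, A3 := by linarith only [hviw, hw0, hvi0],
            A4 := ?_, I0 := ?_, I1 := ?_, I2 := ?_, I3 := ?_, I4 := ?_, I4b := ?_, I5 := ?_,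
            I6 := ?_, I6' := ?_, I7 := ?_, I8 := ?_, L0 := haN, al2 := by omega, J1 := by omega, L1 := ha4, L3 := ha2,
            R1 := ?_, R1' := ?_, R2 := ?_, R3 := ?_, R4 := ?_, E1 := ?_, E2 := ?_, P4 := ?_ }⟩
  · have : 10 * (d : ℝ) * (4 * vt) = 40 * (d * vt) := by ring
    linarith only [this, hdvt, hvt2]
  · rw [hth, han, add_mul, hdw, hwx, one_mul]
    nlinarith only [hx0, hx3]
  · rw [hth, han, mul_assoc, add_mul, hdw, hwx, one_mul]
    nlinarith only [hx0, hx3]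
  · rw [han, add_mul, hdw, one_mul]
    linarith only [hx3, hw9]
  · rw [hth]; linarith only [hx3]
  · rw [hth, hvx, mul_assoc, add_mul, hdw, hwx, one_mul]
    nlinarith only [hx0, hx3]
  · rw [han]; linarith only [hv5, hx0]
  · exact hsw
  · rw [hsw, mul_assoc, hsw]; linarith only [hvi0]
  · rw [hsw]; linarith only [hvi0]
  · rw [hsw]; linarith only [hvi0]
  · rw [hsw]; linarith only [hvi0]
  · rw [hsw]
    have h2 : 2 * ((1 : ℝ) / 700) / al < vi / 8 := by
      rw [div_lt_iff₀ ha0]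
      linarith only [ha2, hCM]
    linarith only [h2, hvi0]
  · rw [hsw]; linarith only [hvi0]
  · rw [han]
    have : x ^ 2 ≤ x := by nlinarith only [hx0, hx3]
    linarith only [this, hwx, hviw, hvi0, hw0, hx0]
  · rw [han]
    have : x ^ 2 ≤ x := by nlinarith only [hx0, hx3]
    linarith only [this, hwx, hviw, hvi0, hw0, hx0]
  · rw [hsw]; linarith only [hvi0, hvt1]
  · rw [hsw]; linarith only [hvi8]
  · push_cast
    have h1 : 11 * (al : ℝ) * ((4 * d + 1) * al - 2 * d * al) -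
        5 * al * ((4 * d + 1) * al) = (2 * d + 6) * (al * al) := by ring
    have h2 : (0 : ℝ) < (2 * d + 6) * (al * al) := by positivity
    linarith only [h1, h2]
  · push_cast
    have h0 : (4 * (d : ℝ) + 1) * al * (11 * al) / al = 11 * ((4 * d + 1) * al) := by
      field_simp
    rw [h0]
    have h1 : 11 * ((4 * (d : ℝ) + 1) * al) - (5 * ((4 * d + 1) * al) + 2 * d * (11 * al)) =
        (2 * d + 6) * al := by ring
    have h2 : (0 : ℝ) < (2 * d + 6) * al := by positivity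
    linarith only [h1, h2]
  · have h1 : 6 * (al : ℝ) * ((4 * d + 1) * al) + 10 * d * al -
        (5 * al * ((4 * d + 1) * al) + d * al) = al * ((4 * d + 1) * al) + 9 * (d * al) := by ring
    have h2 : (0 : ℝ) < al * ((4 * d + 1) * al) := by positivity
    linarith only [h1, h2, hdal]
  · nlinarith only [ha3, hd0]
  · have h1 : (4 * (d : ℝ) + 1) * al = 2 * al * d + 2 * (d * al) + al := by ring
    rw [h1]; linarith only [hdal, ha3]
  · rw [hth]
    have h1 : (1 : ℝ) / (2 * (x / 20)) = 10 * d := by rw [hx]; field_simp; norm_num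
    rw [h1]; linarith only [hd3]
  · rw [hth]
    have h1 : 3 * (d : ℝ) * (x / 20) = 3 / 20 * (d * x) := by ring
    rw [h1, hdx]
    nlinarith only [ha3, hd0]
  · have : 2 * (al : ℝ) * vi = 16 * (al * (vi / 8)) := by ring
    rw [this]; linarith only [ha2, hCM]

end Pool.Agent.ANC
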