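import Pool.Agent.ANC.StepN3
import Pool.Agent.ANS.KerRel

/-!
# ANC / FarN: numbers of the far rows with weak outcomes and of the relative kernels (helper3)

`AB d al = 2 al d + 3`: exponent of the number of the sites of a cell; Part B: `K = κ^(-KB)`, `KB = al d + 3`,
`q = κ^(-AB)`, `om = κ^AB`, `0 ≤ Lm ≤ κ^(-1)`.
* `LvN.side_le` : `side ≤ 32 κ^(-2 al)`; `card_cell`: the number of the sites of a ball of radius `side`.
* `FarNum_mono`, `ev_farNB` : `FarNum` for Part B;  `ev_wnum` : `WNum`.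
* `farQ_eqA`, `ev_QsA` : `farQ` for `K = κ^(-A)`;  `ev_decC`, `ev_kerC` : `decC`, `kerC` against `exp (-θ κ side)`.
* `ev_schB` : `FarSch` for Part B.
-/

open Filter Topology Real

namespace Pool.Agent.ANC

/-- exponent of the number of the sites of a cell -/
noncomputable def AB (d al : ℕ) : ℝ := 2 * al * d + 3

/-- exponent of `K` in Part B -/
noncomputable def KB (d al : ℕ) : ℝ := al * d + 3

theorem LvN.side_le {k0 : ℝ} {al j n cc : ℕ} (h : LvN k0 al j n cc) (hk : 0 < k0)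
    (hk1 : k0 < 1) (hal : 2 ≤ al) :
    (side k0 al j : ℝ) ≤ 32 * kap k0 n ^ (-(2 * al) : ℝ) := by
  have h1 := (side_rpow hk hk1 al j).2
  have h2 := ks_succ_gt hk hk1 hal j
  have h3 := (kap_mem hk h.lo h.hi).2
  have hκ := kap_pos hk n
  have h4 : kap k0 n ^ al ≤ ks k0 al j ^ al := pow_le_pow_left₀ hκ.le h3 al
  have h5 : kap k0 n ^ al / 4 ≤ ks k0 al (j + 1) := by linarith
  have h6 : 0 < kap k0 n ^ al / 4 := by positivity
  have h7 := Real.rpow_le_rpow_of_nonpos h6 h5 (show (-2 : ℝ) ≤ 0 by norm_num)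
  have h8 : (kap k0 n ^ al / 4) ^ (-2 : ℝ) = 16 * kap k0 n ^ (-(2 * al) : ℝ) := by
    rw [Real.div_rpow (by positivity) (by norm_num), ← Real.rpow_natCast, ← Real.rpow_mul hκ.le]
    have e1 : (4 : ℝ) ^ (-2 : ℝ) = 1 / 16 := by
      rw [Real.rpow_neg (by norm_num)]
      norm_num
    rw [e1]
    have e2 : ((al : ℝ) * -2) = (-(2 * al) : ℝ) := by ring
    rw [e2]
    ring
  rw [h8] at h7
  linarith

/-- the number of the sites of a ball of radius `s` -/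
theorem card_cell {d L : ℕ} [NeZero L] {W : Finset (Kin.Tor d L)} {c : Kin.Tor d L} {s : ℕ}
    (hs : 1 ≤ s) (hW : ∀ w ∈ W, ANP.dT w c ≤ s) : (W.card : ℝ) ≤ (3 * (s : ℝ)) ^ d := by
  classical
  have h1 : W.card ≤ (2 * s + 1) ^ d := by
    refine le_trans (Finset.card_le_card ?_) (ANM.card_ball c s)
    intro w hw
    rw [Finset.mem_filter]
    refine ⟨Finset.mem_univ _, ?_⟩
    have h2 := hW w hw
    rw [ANM.td_met.symm c w]
    exact h2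
  have h2 : (W.card : ℝ) ≤ ((2 * s + 1 : ℕ) : ℝ) ^ d := by exact_mod_cast h1
  refine h2.trans (pow_le_pow_left₀ (by positivity) ?_ d)
  push_cast
  have h3 : (1 : ℝ) ≤ s := by exact_mod_cast hs
  linarith

variable {d : ℕ} {CM : ℝ} {c : Cst} {C1 c1 rho ρ : ℝ}

theorem FarNum_mono {L : ℕ} [NeZero L] {f : AND.Fix} {t : AND.Tol d L} {u : AND.UTol}
    {r kl' k' μ K Bd q K2 q2 : ℝ} (h : AND.FarNum f t u r kl' k' μ K Bd q) (hc : 0 ≤ f.c1)
    (hK : K ≤ K2) (hq : q ≤ q2) : AND.FarNum f t u r kl' k' μ K2 Bd q2 := by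
  have h1 := h.ok.one
  have hK0 : 0 < K := by linarith
  have h2 : 1 / K2 ≤ 1 / K := one_div_le_one_div_of_le hK0 hK
  have hkl : 0 ≤ kl' * (f.c1 / 2) := mul_nonneg h.kl0.le (by linarith)
  exact
    { rho := h.rho, rho2 := h.rho2, k1 := h.k1, one := h.one, kl0 := h.kl0, klt := h.klt
      kk := h.kk, r0 := h.r0, r2 := h.r2, mu := h.mu, mu1 := h.mu1, m1 := h.m1, m2 := h.m2
      ok :=
        { one := h1.trans hK
          kl := h2.trans h.ok.kl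
          e := h2.trans h.ok.e
          c1 := h2.trans h.ok.c1
          C1 := h.ok.C1.trans (mul_le_mul_of_nonneg_right hK (by linarith))
          C1' := h.ok.C1'.trans hK }
      inc := h.inc.trans (mul_le_mul_of_nonneg_right hK hkl)
      et := h.et
      q1 := h.q1.trans hq
      qk := h.qk.trans (mul_le_mul_of_nonneg_right hq hkl) }

/-- `FarNum` for Part B -/
theorem ev_farNB (x : Ex d CM) (h : StC d c C1 c1 rho ρ) (al : ℕ) :
    ∀ᶠ k0 in 𝓝[>] (0 : ℝ), ∀ (eta : ℝ), 0 < eta → eta ≤ k0 → ∀ (n : ℕ) (f : AND.Fix)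
      (u : AND.UTol), f.C1 = C1 → f.c1 = c1 → u.rho = rho →
      ∀ {L : ℕ} [NeZero L] {X : Type} (Sf : AND.SiteF X) (F : AND.Fld (Kin.Tor d L))
        (p : AND.Prof (Kin.Tor d L)) (v : Kin.Tor d L → X) (M : AND.Med (Kin.Tor d L)),
      AND.FarNum f (AND.tolAt (parV x c k0 eta) Sf n F p v M) u (rV d ρ C1 c1 (kap k0 n))
        (c.cl * kap k0 (n + 1)) (kap k0 n) (mu0 d c c1 * kap k0 n) (kap k0 n ^ (-KB d al)) 1
        (kap k0 n ^ (-AB d al)) := by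
  have hB : (0 : ℝ) < AB d al := by unfold AB; positivity
  have hall := ev_kap (ev_pow' (C := 8 * C1 / (c.cl * c1)) (show -AB d al < 0 by linarith))
  filter_upwards [ev_farN x h, hall, ev_small (show (0 : ℝ) < 1 / 256 by norm_num)]
    with k0 h1 h2 hk eta he1 he2 n f u hf1 hf2 hu L _ X Sf F p v M
  have hκ := kap_pos hk.1 n
  have hκ1 : kap k0 n ≤ 1 := (kap_le hk.1 n).trans (hk.2.trans (by norm_num))
  refine FarNum_mono (h1 eta he1 he2 n f u hf1 hf2 hu Sf F p v M) (by rw [hf2]; exact h.hc1.le)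
    ?_ ?_
  · apply Real.rpow_le_rpow_of_exponent_ge hκ hκ1
    unfold KB
    have : (0 : ℝ) ≤ al * d := by positivity
    linarith
  · have h3 := h2 n
    rwa [Real.rpow_zero, mul_one] at h3

/-- `WNum` for all sets of weak outcomes in a cell -/
theorem ev_wnum (h : StC d c C1 c1 rho ρ) {al : ℕ} (hal : 2 ≤ al) :
    ∀ᶠ k0 in 𝓝[>] (0 : ℝ), ∀ j n cc : ℕ, LvN k0 al j n cc → ∀ f : AND.Fix,
      f.C1 = C1 → f.c1 = c1 → ∀ Lm : ℝ, 0 ≤ Lm → Lm ≤ kap k0 n ^ (-1 : ℝ) →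
      ∀ {L : ℕ} [NeZero L] (W : Finset (Kin.Tor d L)),
      (W.card : ℝ) ≤ (3 * (side k0 al j : ℝ)) ^ d →
      AND.WNum f (rV d ρ C1 c1 (kap k0 n)) (c.cl * kap k0 (n + 1)) (kap k0 n)
        (kap k0 n ^ (-KB d al)) 1 (kap k0 n ^ (-AB d al)) Lm (kap k0 n ^ AB d al) W := by
  have hc1 := h.hc1
  have hC1 : 0 < C1 := by linarith [h.hC1]
  have hcl := h.pos.cl
  have a1 := ev_le (96 ^ d * (2 * C1)) (b := 1) one_pos one_pos 0
  have a2 := ev_le (96 ^ d) (b := 1) one_pos (show (0 : ℝ) < c1 / 2 by positivity) 0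
  have a3 := ev_le (4 * (8 / (c.cl * c1))) (b := 2) (by norm_num) one_pos 0
  have a4 := ev_le (2 * 96 ^ d / C1) (b := 1) one_pos one_pos 0
  have a5 := ev_r d ρ C1 c1 1 (show (0 : ℝ) < 9 / 256 by norm_num)
  have hall := ev_kap (a1.and (a2.and (a3.and (a4.and a5))))
  filter_upwards [hall, ev_small (show (0 : ℝ) < 1 / 256 by norm_num)]
    with k0 hall hk j n cc hn f hf1 hf2 Lm hL0 hL L _ W hW
  obtain ⟨a1, a2, a3, a4, a5⟩ := hall n
  have hk0 := hk.1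
  have hk1 : k0 < 1 := by linarith [hk.2]
  have hκ := kap_pos hk0 n
  have hκ1 : kap k0 n ≤ 1 := (kap_le hk0 n).trans (hk.2.trans (by norm_num))
  have hs : kap k0 (n + 1) = kap k0 n / 4 := kap_succ k0 n
  have hr0 : 0 ≤ rV d ρ C1 c1 (kap k0 n) := rV_nonneg hC1 hc1 hκ
  have hside := hn.side_le hk0 hk1 hal
  rw [pow_zero, mul_one, Real.rpow_one] at a1 a2 a4
  rw [pow_zero, mul_one] at a3
  rw [Real.rpow_zero, one_mul] at a5
  set κ := kap k0 n with hκd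
  -- the number of the sites
  have hW2 : (W.card : ℝ) ≤ 96 ^ d * κ ^ (-(2 * al * d) : ℝ) := by
    refine hW.trans ?_
    have e1 : (3 * (side k0 al j : ℝ)) ^ d ≤ (96 * κ ^ (-(2 * al) : ℝ)) ^ d :=
      pow_le_pow_left₀ (by positivity) (by linarith) d
    refine e1.trans (le_of_eq ?_)
    rw [mul_pow]
    congr 1
    rw [← Real.rpow_natCast, ← Real.rpow_mul hκ.le]
    congr 1
    ring
  have hP : κ ^ AB d al * κ ^ (-(2 * al * d) : ℝ) = κ ^ (3 : ℝ) := by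
    rw [← Real.rpow_add hκ]
    congr 1
    unfold AB
    ring
  have hP0 : 0 < κ ^ AB d al := Real.rpow_pos_of_pos hκ _
  have h3p : 0 < κ ^ (3 : ℝ) := Real.rpow_pos_of_pos hκ _
  have hoW : κ ^ AB d al * (W.card : ℝ) ≤ 96 ^ d * κ ^ (3 : ℝ) := by
    calc κ ^ AB d al * (W.card : ℝ) ≤ κ ^ AB d al * (96 ^ d * κ ^ (-(2 * al * d) : ℝ)) :=
          mul_le_mul_of_nonneg_left hW2 hP0.le
      _ = 96 ^ d * (κ ^ AB d al * κ ^ (-(2 * al * d) : ℝ)) := by ring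
      _ = _ := by rw [hP]
  have h31 : κ ^ (3 : ℝ) ≤ κ := by
    have := Real.rpow_le_rpow_of_exponent_ge hκ hκ1 (show (1 : ℝ) ≤ 3 by norm_num)
    rwa [Real.rpow_one] at this
  have hL2 : Lm ^ 2 ≤ κ ^ (-2 : ℝ) := by
    calc Lm ^ 2 ≤ (κ ^ (-1 : ℝ)) ^ 2 := pow_le_pow_left₀ hL0 hL 2
      _ = κ ^ (-2 : ℝ) := by
        rw [← Real.rpow_natCast, ← Real.rpow_mul hκ.le]
        norm_num
  have h23 : κ ^ (3 : ℝ) * κ ^ (-2 : ℝ) = κ := by
    rw [← Real.rpow_add hκ]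
    norm_num
  refine ⟨hP0, ?_, ?_, ?_, ?_⟩
  · rw [hf1]
    calc κ ^ AB d al * (W.card : ℝ) * (2 * C1) ≤ (96 ^ d * κ ^ (3 : ℝ)) * (2 * C1) :=
          mul_le_mul_of_nonneg_right hoW (by linarith)
      _ ≤ (96 ^ d * κ) * (2 * C1) := by gcongr
      _ = 96 ^ d * (2 * C1) * κ := by ring
      _ ≤ 1 := a1
  · rw [hf2]
    calc κ ^ AB d al * (W.card : ℝ) * Lm ^ 2 ≤ (96 ^ d * κ ^ (3 : ℝ)) * κ ^ (-2 : ℝ) :=
          mul_le_mul hoW hL2 (sq_nonneg _) (by positivity)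
      _ = 96 ^ d * (κ ^ (3 : ℝ) * κ ^ (-2 : ℝ)) := by ring
      _ = 96 ^ d * κ := by rw [h23]
      _ ≤ c1 / 2 := a2
  · intro _ _
    rw [hs, hf2]
    have e1 : κ * rV d ρ C1 c1 κ ≤ 1 := by nlinarith
    have e2 : (1 + κ * rV d ρ C1 c1 κ) ^ 2 ≤ 4 := by
      have e3 : 0 ≤ κ * rV d ρ C1 c1 κ := mul_nonneg hκ.le hr0
      nlinarith
    have e4 : (κ ^ (-KB d al)) ^ 2 * (c.cl * (κ / 4) * (c1 / 2) * κ ^ AB d al) =
        c.cl * c1 / 8 * κ ^ (-2 : ℝ) := by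
      have e5 : (κ ^ (-KB d al)) ^ 2 = κ ^ (-(2 * KB d al)) := by
        rw [← Real.rpow_natCast, ← Real.rpow_mul hκ.le]
        congr 1
        push_cast
        ring
      have e6 : κ ^ (-(2 * KB d al)) * (κ * κ ^ AB d al) = κ ^ (-2 : ℝ) := by
        rw [← Real.rpow_one_add' hκ.le (by unfold AB; positivity), ← Real.rpow_add hκ]
        congr 1
        unfold KB AB
        ring
      rw [e5, ← e6]
      ring
    rw [e4]
    refine e2.trans ?_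
    have e7 : κ ^ (2 : ℝ) * κ ^ (-2 : ℝ) = 1 := by
      rw [← Real.rpow_add hκ]
      norm_num
    have e8 : 0 < κ ^ (-2 : ℝ) := Real.rpow_pos_of_pos hκ _
    have e9 : 4 * (8 / (c.cl * c1)) ≤ κ ^ (-2 : ℝ) := by
      have := mul_le_mul_of_nonneg_right a3 e8.le
      calc 4 * (8 / (c.cl * c1)) = 4 * (8 / (c.cl * c1)) * (κ ^ (2 : ℝ) * κ ^ (-2 : ℝ)) := by
            rw [e7, mul_one]
        _ = 4 * (8 / (c.cl * c1)) * κ ^ (2 : ℝ) * κ ^ (-2 : ℝ) := by ring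
        _ ≤ 1 * κ ^ (-2 : ℝ) := this
        _ = _ := one_mul _
    have e10 : (4 : ℝ) = c.cl * c1 / 8 * (4 * (8 / (c.cl * c1))) := by field_simp
    rw [e10]
    exact mul_le_mul_of_nonneg_left e9 (by positivity)
  · rw [hf1]
    have e1 : 2 * (W.card : ℝ) * Lm ≤ 2 * (96 ^ d * κ ^ (-(2 * al * d) : ℝ)) * κ ^ (-1 : ℝ) :=
      mul_le_mul (by linarith) hL hL0 (by positivity)
    refine e1.trans ?_
    have e2 : κ ^ (-(2 * al * d) : ℝ) * κ ^ (-1 : ℝ) = κ ^ (-AB d al) * κ ^ (2 : ℝ) := by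
      rw [← Real.rpow_add hκ, ← Real.rpow_add hκ]
      congr 1
      unfold AB
      ring
    have e3 : 0 < κ ^ (-AB d al) := Real.rpow_pos_of_pos hκ _
    have e4 : κ ^ (2 : ℝ) ≤ κ := by
      have := Real.rpow_le_rpow_of_exponent_ge hκ hκ1 (show (1 : ℝ) ≤ 2 by norm_num)
      rwa [Real.rpow_one] at this
    calc 2 * (96 ^ d * κ ^ (-(2 * al * d) : ℝ)) * κ ^ (-1 : ℝ)
        = 2 * 96 ^ d * (κ ^ (-(2 * al * d) : ℝ) * κ ^ (-1 : ℝ)) := by ring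
      _ = κ ^ (-AB d al) * (2 * 96 ^ d * κ ^ (2 : ℝ)) := by rw [e2]; ring
      _ ≤ κ ^ (-AB d al) * (2 * 96 ^ d * κ) := by gcongr
      _ = κ ^ (-AB d al) * C1 * (2 * 96 ^ d / C1 * κ) := by field_simp
      _ ≤ κ ^ (-AB d al) * C1 * 1 := mul_le_mul_of_nonneg_left a4 (by positivity)
      _ = _ := mul_one _

/-- `farQ` for `K = κ^(-A)` -/
theorem farQ_eqA (h : StC d c C1 c1 rho ρ) {κ : ℝ} (hκ : 0 < κ) {f : AND.Fix}
    {u : AND.UTol} (hf1 : f.C1 = C1) (hf2 : f.c1 = c1) (hu : u.rho = rho) (A : ℝ) (cc : ℕ) :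
    AND.farQ d f u (mu0 d c c1 * κ) (κ ^ (-A)) 4 cc =
      CQ d c C1 c1 rho * κ ^ (-(7 * A + 6 * (d : ℝ))) *
        Real.exp (AQ d c C1 c1 rho * (κ * cc)) := by
  have hm := mu0_pos h.d0 h.pos h.hc1
  obtain ⟨ht0, ht1⟩ := tHc_pos h
  unfold AND.farQ ANM.KL
  rw [tH_eq hf1 hf2 hu]
  have e1 : (4 * ((4 : ℕ) : ℝ) / (tHc c1 C1 rho * (mu0 d c c1 * κ))) ^ (6 * d) =
      (16 / (tHc c1 C1 rho * mu0 d c c1)) ^ (6 * d) * κ ^ (-(6 * (d : ℝ))) := by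
    have e2 : (4 * ((4 : ℕ) : ℝ) / (tHc c1 C1 rho * (mu0 d c c1 * κ))) =
        16 / (tHc c1 C1 rho * mu0 d c c1) * κ⁻¹ := by
      push_cast
      field_simp
      norm_num
    rw [e2, mul_pow, Real.rpow_neg hκ.le, inv_pow]
    congr 2
    rw [← Real.rpow_natCast]
    push_cast
    rfl
  have e3 : (κ ^ (-A)) * (κ ^ (-A)) ^ 6 = κ ^ (-(7 * A)) := by
    rw [← Real.rpow_natCast, ← Real.rpow_mul hκ.le, ← Real.rpow_add hκ]
    congr 1
    push_cast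
    ring
  have e4 : κ ^ (-(7 * A + 6 * (d : ℝ))) = κ ^ (-(7 * A)) * κ ^ (-(6 * (d : ℝ))) := by
    rw [← Real.rpow_add hκ]
    ring_nf
  have e5 : Real.exp (AQ d c C1 c1 rho * (κ * cc)) * Real.exp 1 =
      Real.exp (tHc c1 C1 rho * (mu0 d c c1 * κ) * cc / (4 : ℕ) + 1) *
        Real.exp (2 * (mu0 d c c1 * κ) * cc / (4 : ℕ)) := by
    rw [← Real.exp_add, ← Real.exp_add]
    congr 1
    unfold AQ
    push_cast
    ring
  rw [e1, e4, CQ, ← e3]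
  calc 6 * κ ^ (-A) * (4 * (κ ^ (-A)) ^ 6 * (((6 * d).factorial : ℝ) *
        ((16 / (tHc c1 C1 rho * mu0 d c c1)) ^ (6 * d) * κ ^ (-(6 * (d : ℝ))))) *
        Real.exp (tHc c1 C1 rho * (mu0 d c c1 * κ) * cc / (4 : ℕ) + 1)) *
        Real.exp (2 * (mu0 d c c1 * κ) * cc / (4 : ℕ))
      = 24 * (((6 * d).factorial : ℝ) * (16 / (tHc c1 C1 rho * mu0 d c c1)) ^ (6 * d)) *
        (κ ^ (-A) * (κ ^ (-A)) ^ 6 * κ ^ (-(6 * (d : ℝ)))) *
        (Real.exp (tHc c1 C1 rho * (mu0 d c c1 * κ) * cc / (4 : ℕ) + 1) *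
        Real.exp (2 * (mu0 d c c1 * κ) * cc / (4 : ℕ))) := by ring
    _ = _ := by
      rw [← e5]
      ring

/-- `farQ exp (-θ κ side)` is smaller than every power of `κ` -/
theorem ev_QsA (h : StC d c C1 c1 rho ρ) (A C N M : ℝ) {θ : ℝ} (hθ : 0 < θ) {al : ℕ}
    (hal : 2 ≤ al) :
    ∀ᶠ k0 in 𝓝[>] (0 : ℝ), ∀ j n cc : ℕ, LvN k0 al j n cc → ∀ (f : AND.Fix) (u : AND.UTol),
      f.C1 = C1 → f.c1 = c1 → u.rho = rho →
      C * kap k0 n ^ (-N) * (AND.farQ d f u (mu0 d c c1 * kap k0 n) (kap k0 n ^ (-A)) 4 cc *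
        Real.exp (-(θ * (kap k0 n * side k0 al j)))) ≤ kap k0 n ^ M := by
  filter_upwards [ev_tail (C * CQ d c C1 c1 rho) (AQ_pos h).le hθ
    (N + (7 * A + 6 * (d : ℝ))) M hal, ev_small one_pos] with k0 h1 hk j n cc hn f u hf1 hf2 hu
  have hκ := kap_pos hk.1 n
  have h2 := h1 j n hn.lo hn.hi cc hn.cc
  rw [farQ_eqA h hκ hf1 hf2 hu]
  refine le_trans (le_of_eq ?_) h2
  have e1 : kap k0 n ^ (-(N + (7 * A + 6 * (d : ℝ)))) =
      kap k0 n ^ (-N) * kap k0 n ^ (-(7 * A + 6 * (d : ℝ))) := by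
    rw [← Real.rpow_add hκ]
    ring_nf
  rw [e1]
  ring

/-- the constant of `decC` -/
noncomputable def CDec (d : ℕ) (c : Cst) (C1 c1 : ℝ) : ℝ :=
  3 * (2 * C1) * Real.exp 1 / (4 * mu0 d c c1) + 1

theorem CDec_pos (h : StC d c C1 c1 rho ρ) : 0 < CDec d c C1 c1 := by
  have hm := mu0_pos h.d0 h.pos h.hc1
  have h1 := h.hC1
  unfold CDec
  have : 0 < 3 * (2 * C1) * Real.exp 1 / (4 * mu0 d c c1) := by
    have : 0 < C1 := by linarith
    positivity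
  linarith

/-- bound of `decC` -/
theorem decC_le (h : StC d c C1 c1 rho ρ) {κ : ℝ} (hκ : 0 < κ)
    (hμ : mu0 d c c1 * κ ≤ 1) {Lm : ℝ} (hL : Lm ≤ κ ^ (-1 : ℝ)) (cc : ℕ) :
    AND.decC C1 Lm (mu0 d c c1 * κ) 4 cc ≤
      CDec d c C1 c1 * κ ^ (-1 : ℝ) * Real.exp (mu0 d c c1 / 4 * (κ * cc)) := by
  have hm := mu0_pos h.d0 h.pos h.hc1
  have h1 := h.hC1
  have hC : 0 < C1 := by linarith
  unfold AND.decC
  have e1 : Real.exp (mu0 d c c1 * κ * cc / (4 : ℕ)) = Real.exp (mu0 d c c1 / 4 * (κ * cc)) := by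
    congr 1
    push_cast
    ring
  rw [e1]
  refine mul_le_mul_of_nonneg_right ?_ (Real.exp_pos _).le
  have e4 : Real.exp (mu0 d c c1 * κ) ≤ Real.exp 1 := Real.exp_le_exp.2 hμ
  rw [Real.rpow_neg_one] at hL ⊢
  unfold CDec
  have e5 : 3 * (2 * C1) * Real.exp (mu0 d c c1 * κ) / (4 * (mu0 d c c1 * κ)) ≤
      3 * (2 * C1) * Real.exp 1 / (4 * mu0 d c c1) * κ⁻¹ := by
    calc 3 * (2 * C1) * Real.exp (mu0 d c c1 * κ) / (4 * (mu0 d c c1 * κ))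
        ≤ 3 * (2 * C1) * Real.exp 1 / (4 * (mu0 d c c1 * κ)) := by gcongr
      _ = _ := by field_simp
  linarith

theorem decC_nn (h : StC d c C1 c1 rho ρ) {κ : ℝ} (hκ : 0 < κ) {Lm : ℝ} (hL0 : 0 ≤ Lm)
    (cc : ℕ) : 0 ≤ AND.decC C1 Lm (mu0 d c c1 * κ) 4 cc := by
  have hm := mu0_pos h.d0 h.pos h.hc1
  have h1 := h.hC1
  have hC : 0 < C1 := by linarith
  unfold AND.decC
  positivity

/-- `decC² exp (-θ κ side)` is smaller than every power of `κ` -/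
theorem ev_decC (h : StC d c C1 c1 rho ρ) {C : ℝ} (hC0 : 0 ≤ C) (N M : ℝ) {θ : ℝ}
    (hθ : 0 < θ) {al : ℕ} (hal : 2 ≤ al) :
    ∀ᶠ k0 in 𝓝[>] (0 : ℝ), ∀ j n cc : ℕ, LvN k0 al j n cc →
      ∀ Lm : ℝ, 0 ≤ Lm → Lm ≤ kap k0 n ^ (-1 : ℝ) →
      C * kap k0 n ^ (-N) * (AND.decC C1 Lm (mu0 d c c1 * kap k0 n) 4 cc ^ 2 *
        Real.exp (-(θ * (kap k0 n * side k0 al j)))) ≤ kap k0 n ^ M := by
  have hm := mu0_pos h.d0 h.pos h.hc1
  have a11 := ev_kap (ev_le (mu0 d c c1) (b := 1) one_pos one_pos 0)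
  filter_upwards [ev_tail (C * CDec d c C1 c1 ^ 2) (A := mu0 d c c1 / 2) (by positivity) hθ
    (N + 2) M hal, a11, ev_small (show (0 : ℝ) < 1 / 256 by norm_num)]
    with k0 h1 a11 hk j n cc hn Lm hL0 hL
  have hκ := kap_pos hk.1 n
  have a11 := a11 n
  rw [pow_zero, mul_one, Real.rpow_one] at a11
  have h2 := h1 j n hn.lo hn.hi cc hn.cc
  have h3 := decC_le h hκ a11 hL cc
  have h4 := decC_nn h hκ hL0 cc
  set κ := kap k0 n with hκd
  refine le_trans ?_ h2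
  have e1 : AND.decC C1 Lm (mu0 d c c1 * κ) 4 cc ^ 2 ≤
      CDec d c C1 c1 ^ 2 * κ ^ (-2 : ℝ) * Real.exp (mu0 d c c1 / 2 * (κ * cc)) := by
    refine (pow_le_pow_left₀ h4 h3 2).trans (le_of_eq ?_)
    rw [mul_pow, mul_pow]
    have e2 : (κ ^ (-1 : ℝ)) ^ 2 = κ ^ (-2 : ℝ) := by
      rw [← Real.rpow_natCast, ← Real.rpow_mul hκ.le]
      norm_num
    have e3 : Real.exp (mu0 d c c1 / 4 * (κ * cc)) ^ 2 =
        Real.exp (mu0 d c c1 / 2 * (κ * cc)) := by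
      rw [sq, ← Real.exp_add]
      congr 1
      ring
    rw [e2, e3]
  have hp : 0 ≤ κ ^ (-N) := Real.rpow_nonneg hκ.le _
  have e4 : κ ^ (-(N + 2)) = κ ^ (-N) * κ ^ (-2 : ℝ) := by
    rw [← Real.rpow_add hκ]
    ring_nf
  calc C * κ ^ (-N) * (AND.decC C1 Lm (mu0 d c c1 * κ) 4 cc ^ 2 *
        Real.exp (-(θ * (κ * side k0 al j))))
      ≤ C * κ ^ (-N) * ((CDec d c C1 c1 ^ 2 * κ ^ (-2 : ℝ) *
        Real.exp (mu0 d c c1 / 2 * (κ * cc))) * Real.exp (-(θ * (κ * side k0 al j)))) := by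
        refine mul_le_mul_of_nonneg_left ?_ (mul_nonneg hC0 hp)
        exact mul_le_mul_of_nonneg_right e1 (Real.exp_pos _).le
    _ = _ := by rw [e4]; ring

/-- `kerC exp (-θ κ side)` is smaller than every power of `κ` -/
theorem ev_kerC (h : StC d c C1 c1 rho ρ) (A : ℝ) {C : ℝ} (hC0 : 0 ≤ C) (N M : ℝ) {θ : ℝ}
    (hθ : 0 < θ) {al : ℕ} (hal : 2 ≤ al) :
    ∀ᶠ k0 in 𝓝[>] (0 : ℝ), ∀ j n cc : ℕ, LvN k0 al j n cc → ∀ (f : AND.Fix) (u : AND.UTol),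
      f.C1 = C1 → f.c1 = c1 → u.rho = rho →
      ∀ Lm : ℝ, 0 ≤ Lm → Lm ≤ kap k0 n ^ (-1 : ℝ) →
      C * kap k0 n ^ (-N) * (AND.kerC C1 Lm
        (AND.farQ d f u (mu0 d c c1 * kap k0 n) (kap k0 n ^ (-A)) 4 cc)
        (mu0 d c c1 * kap k0 n) 4 cc *
        Real.exp (-(θ * (kap k0 n * side k0 al j)))) ≤ kap k0 n ^ M := by
  have a1 := ev_QsA h A (C * 4) N (M + 1) (θ := θ / 2) (by positivity) hal
  have a2 := ev_decC h (C := 1) zero_le_one 0 0 (θ := θ / 2) (by positivity) hal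
  have a3 := ev_QsA h A (C * 4) (N + 1) (M + 1) hθ hal
  filter_upwards [a1, a2, a3, ev_small (show (0 : ℝ) < 1 / 256 by norm_num)]
    with k0 a1 a2 a3 hk j n cc hn f u hf1 hf2 hu Lm hL0 hL
  have hκ := kap_pos hk.1 n
  have hκ1 : kap k0 n ≤ 1 := (kap_le hk.1 n).trans (hk.2.trans (by norm_num))
  have hκ2 : kap k0 n ≤ 1 / 2 := (kap_le hk.1 n).trans (hk.2.trans (by norm_num))
  have a1 := a1 j n cc hn f u hf1 hf2 hu
  have a2 := a2 j n cc hn Lm hL0 hL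
  have a3 := a3 j n cc hn f u hf1 hf2 hu
  set κ := kap k0 n with hκd
  set Q := AND.farQ d f u (mu0 d c c1 * κ) (κ ^ (-A)) 4 cc with hQ
  have hQ0 : 0 ≤ Q := by
    rw [hQ, farQ_eqA h hκ hf1 hf2 hu]
    have := CQ_pos h
    positivity
  set Dc := AND.decC C1 Lm (mu0 d c c1 * κ) 4 cc with hDc
  set s : ℝ := (side k0 al j : ℝ) with hs
  have hp : 0 ≤ κ ^ (-N) := Real.rpow_nonneg hκ.le _
  rw [neg_zero, Real.rpow_zero, one_mul, one_mul] at a2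
  have e1 : Real.exp (-(θ * (κ * s))) = Real.exp (-(θ / 2 * (κ * s))) *
      Real.exp (-(θ / 2 * (κ * s))) := by
    rw [← Real.exp_add]
    congr 1
    ring
  have e2 : κ ^ (M + 1) = κ ^ M * κ := Real.rpow_add_one hκ.ne' M
  have hM : 0 < κ ^ M := Real.rpow_pos_of_pos hκ M
  have t1 : C * κ ^ (-N) * (2 * Q * Dc ^ 2 * Real.exp (-(θ * (κ * s)))) ≤ κ ^ (M + 1) := by
    rw [e1]
    calc C * κ ^ (-N) * (2 * Q * Dc ^ 2 * (Real.exp (-(θ / 2 * (κ * s))) *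
          Real.exp (-(θ / 2 * (κ * s)))))
        = C * κ ^ (-N) * (2 * Q * Real.exp (-(θ / 2 * (κ * s)))) *
          (Dc ^ 2 * Real.exp (-(θ / 2 * (κ * s)))) := by ring
      _ ≤ C * κ ^ (-N) * (2 * Q * Real.exp (-(θ / 2 * (κ * s)))) * 1 :=
          mul_le_mul_of_nonneg_left a2 (by positivity)
      _ ≤ C * 4 * κ ^ (-N) * (Q * Real.exp (-(θ / 2 * (κ * s)))) := by
          have : 0 ≤ C * κ ^ (-N) * (Q * Real.exp (-(θ / 2 * (κ * s)))) := by positivity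
          nlinarith
      _ ≤ _ := a1
  have t2 : C * κ ^ (-N) * (2 * Lm * Q * Real.exp (-(θ * (κ * s)))) ≤ κ ^ (M + 1) := by
    refine le_trans ?_ a3
    have e4 : κ ^ (-(N + 1)) = κ ^ (-N) * κ ^ (-1 : ℝ) := by
      rw [← Real.rpow_add hκ]
      ring_nf
    rw [e4]
    calc C * κ ^ (-N) * (2 * Lm * Q * Real.exp (-(θ * (κ * s))))
        = C * κ ^ (-N) * (2 * Q * Real.exp (-(θ * (κ * s)))) * Lm := by ring
      _ ≤ C * κ ^ (-N) * (2 * Q * Real.exp (-(θ * (κ * s)))) * κ ^ (-1 : ℝ) :=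
          mul_le_mul_of_nonneg_left hL (by positivity)
      _ = C * 2 * (κ ^ (-N) * κ ^ (-1 : ℝ)) * (Q * Real.exp (-(θ * (κ * s)))) := by ring
      _ ≤ C * 4 * (κ ^ (-N) * κ ^ (-1 : ℝ)) * (Q * Real.exp (-(θ * (κ * s)))) := by gcongr; norm_num
  have e3 : AND.kerC C1 Lm Q (mu0 d c c1 * κ) 4 cc = 2 * Q * Dc ^ 2 + 2 * Lm * Q := rfl
  rw [e3]
  calc C * κ ^ (-N) * ((2 * Q * Dc ^ 2 + 2 * Lm * Q) * Real.exp (-(θ * (κ * s))))
      = C * κ ^ (-N) * (2 * Q * Dc ^ 2 * Real.exp (-(θ * (κ * s)))) +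
        C * κ ^ (-N) * (2 * Lm * Q * Real.exp (-(θ * (κ * s)))) := by ring
    _ ≤ κ ^ (M + 1) + κ ^ (M + 1) := add_le_add t1 t2
    _ = κ ^ M * (2 * κ) := by rw [e2]; ring
    _ ≤ κ ^ M * 1 := mul_le_mul_of_nonneg_left (by linarith) hM.le
    _ = _ := mul_one _

/-- `FarSch` for Part B -/
theorem ev_schB (h : StC d c C1 c1 rho ρ) (hCg : c.Cg = 5 / 2) {v : ℝ} (hv : 0 < v)
    {al : ℕ} (hal : 2 ≤ al) :
    ∀ᶠ k0 in 𝓝[>] (0 : ℝ), ∀ j n cc : ℕ, LvN k0 al j n cc → ∀ (f : AND.Fix) (u : AND.UTol),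
      f.C1 = C1 → f.c1 = c1 → u.rho = rho → ∀ Lm : ℝ, 0 ≤ Lm → Lm ≤ kap k0 n ^ (-1 : ℝ) →
      AND.FarSch (kap k0 n) c.b v c.Cg (side k0 al j)
        (AND.farQ d f u (mu0 d c c1 * kap k0 n) (kap k0 n ^ (-KB d al)) 4 cc)
        (AND.farν f u (mu0 d c c1 * kap k0 n) 4) (mu0 d c c1 * kap k0 n) 4 cc C1 c1
        (c.cl * kap k0 (n + 1) * (c1 / 2)) Lm (kap k0 n ^ (-AB d al))
        (kap k0 n ^ (1 / 64 : ℝ)) 1 := by
  have hm := mu0_pos h.d0 h.pos h.hc1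
  obtain ⟨ht0, ht1⟩ := tHc_pos h
  have hc1 := h.hc1
  have hC1 : 0 < C1 := by linarith [h.hC1]
  have hcl := h.pos.cl
  have hθ : 0 < tHc c1 C1 rho * mu0 d c c1 / 16 := by positivity
  have a1 := ev_QsA h (KB d al) 1 0 (1 / 64 + v) hθ hal
  have a2 := ev_QsA h (KB d al) (8 * C1 / (c.cl / 4 * (c1 / 2))) (AB d al) 3 hθ hal
  filter_upwards [ev_sch h hCg hv hal, a1, a2, ev_small (show (0 : ℝ) < 1 / 256 by norm_num)]
    with k0 h0 a1 a2 hk j n cc hn f u hf1 hf2 hu Lm hL0 hL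
  have hk0 := hk.1
  have hκ := kap_pos hk0 n
  have hκ1 : kap k0 n ≤ 1 := (kap_le hk0 n).trans (hk.2.trans (by norm_num))
  have h0 := h0 j n cc hn f u hf1 hf2 hu Lm hL0 hL
  have a1 := a1 j n cc hn f u hf1 hf2 hu
  have a2 := a2 j n cc hn f u hf1 hf2 hu
  have hs : kap k0 (n + 1) = kap k0 n / 4 := kap_succ k0 n
  have hν := farν_eq (d := d) (c := c) hf1 hf2 hu (kap k0 n)
  set κ := kap k0 n with hκd
  set Q := AND.farQ d f u (mu0 d c c1 * κ) (κ ^ (-KB d al)) 4 cc with hQd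
  set ν := AND.farν f u (mu0 d c c1 * κ) 4 with hνd
  set S : ℝ := (side k0 al j : ℝ) with hSd
  have hE : Real.exp (-(tHc c1 C1 rho * mu0 d c c1 / 16 * (κ * S))) =
      Real.exp (-(ν * S / 2)) := by
    rw [hν]
    congr 1
    ring
  rw [hE] at a1 a2
  rw [neg_zero, Real.rpow_zero, one_mul, one_mul] at a1
  have hQ0 : 0 ≤ Q := by
    rw [hQd, farQ_eqA h hκ hf1 hf2 hu]
    have := CQ_pos h
    positivity
  have hL2 : Lm ^ 2 ≤ κ ^ (-2 : ℝ) := by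
    calc Lm ^ 2 ≤ (κ ^ (-1 : ℝ)) ^ 2 := pow_le_pow_left₀ hL0 hL 2
      _ = κ ^ (-2 : ℝ) := by
        rw [← Real.rpow_natCast, ← Real.rpow_mul hκ.le]
        norm_num
  have h23 : κ ^ (-2 : ℝ) * κ ^ (3 : ℝ) = κ := by
    rw [← Real.rpow_add hκ]
    norm_num
  exact
    { kap0 := h0.kap0, kap1 := h0.kap1, v0 := h0.v0, b0 := h0.b0, bnu := h0.bnu, ze0 := h0.ze0
      zeB := by
        rw [← Real.rpow_add hκ]
        exact a1
      one := a1.trans (Real.rpow_le_one hκ.le hκ1 (by positivity))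
      tau := by
        rw [hs]
        have e1 : 8 * κ ^ (-AB d al) * C1 * Lm ^ 2 / (c.cl * (κ / 4) * (c1 / 2)) *
            (Q * Real.exp (-(ν * S / 2))) = κ⁻¹ * (Lm ^ 2 * (8 * C1 /
            (c.cl / 4 * (c1 / 2)) * κ ^ (-AB d al) * (Q * Real.exp (-(ν * S / 2))))) := by
          field_simp
        rw [e1]
        have e2 : κ⁻¹ * κ = 1 := inv_mul_cancel₀ hκ.ne'
        have e4 : Lm ^ 2 * (8 * C1 / (c.cl / 4 * (c1 / 2)) * κ ^ (-AB d al) *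
            (Q * Real.exp (-(ν * S / 2)))) ≤ κ := by
          refine le_trans ?_ h23.le
          exact mul_le_mul hL2 a2 (by positivity) (Real.rpow_nonneg hκ.le _)
        have e3 := mul_le_mul_of_nonneg_left e4 (inv_nonneg.2 hκ.le)
        rw [e2] at e3
        exact e3.trans (Real.one_le_rpow_of_pos_of_le_one_of_nonpos hκ hκ1 (by norm_num))
      ct1 := h0.ct1, ct2 := h0.ct2, ct3 := h0.ct3, t1 := h0.t1, t2 := h0.t2 }

end Pool.Agent.ANC
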