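import Pool.Agent.ANC.Lev

/-!
# ANC / RecN: numbers of the probability recursion (ANQ.Seq.qq_le) and the final sum

`y j = ks (j + 1) ^ K1`.  `rec_r`: contribution of the rejections and of the leak tests (`r j ≤ Cr ks j ^ ar`,
`ar > al K1`; `l j ≤ Cl exp (- c ks j ^ (-b))`).  `rec_n`: the `m`-tuples of marked cells (`nn (j + 1) ≤ Cn ks (j + 2) ^ (-Nn)`,
`K1 + Nn < K1 m / al`).  `rec_sum`: `∑_j C ks (j + 1) ^ p ≤ k0 ^ p`.
-/

open Filter Topology Real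

namespace Pool.Agent.ANC

/-- rejections and leak tests -/
theorem rec_r (B Cr Cl : ℝ) {K1 ar b c : ℝ} {al : ℕ} (hal : 2 ≤ al) (hK : 0 ≤ K1) (hB : 0 ≤ B)
    (har : al * K1 < ar) (hb : 0 < b) (hc : 0 < c) :
    ∀ᶠ k0 in 𝓝[>] (0 : ℝ), ∀ j : ℕ, ∀ r l : ℝ, r ≤ Cr * ks k0 al j ^ ar →
      l ≤ Cl * Real.exp (-c * ks k0 al j ^ (-b)) → B * (r + l) ≤ ks k0 al (j + 1) ^ K1 / 2 := by
  have h1 := ev_all (ev_pow' (C := B * Cr * 4 * 4 ^ K1) har) al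
  have h2 := ev_all (ev_exp (C := B * Cl * 4 * 4 ^ K1) 0 (al * K1) hb hc) al
  filter_upwards [h1, h2, ev_small (show (0 : ℝ) < 1 / 4 by norm_num)] with k0 h1 h2 hk j r l hr hl
  have hk0 := hk.1
  have hk1 : k0 < 1 := by linarith [hk.2]
  have h1 := h1 j
  have h2 := h2 j
  rw [neg_zero, Real.rpow_zero, mul_one] at h2
  have h3 : ks k0 al j ^ (K1 * al) ≤ 4 ^ K1 * ks k0 al (j + 1) ^ K1 :=
    ks_pow_le hk0 hk1 hal j hK
  rw [mul_comm K1] at h3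
  have h4 : (0 : ℝ) < 4 ^ K1 := Real.rpow_pos_of_pos (by norm_num) K1
  have h5 : 4 * 4 ^ K1 * (B * r) ≤ 4 ^ K1 * ks k0 al (j + 1) ^ K1 := by
    have h6 : B * r ≤ B * (Cr * ks k0 al j ^ ar) := mul_le_mul_of_nonneg_left hr hB
    have h7 : 4 * 4 ^ K1 * (B * r) ≤ 4 * 4 ^ K1 * (B * (Cr * ks k0 al j ^ ar)) :=
      mul_le_mul_of_nonneg_left h6 (by positivity)
    have h8 : 4 * 4 ^ K1 * (B * (Cr * ks k0 al j ^ ar)) = B * Cr * 4 * 4 ^ K1 * ks k0 al j ^ ar := by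
      ring
    linarith
  have h6 : 4 * 4 ^ K1 * (B * l) ≤ 4 ^ K1 * ks k0 al (j + 1) ^ K1 := by
    have h6 : B * l ≤ B * (Cl * Real.exp (-c * ks k0 al j ^ (-b))) :=
      mul_le_mul_of_nonneg_left hl hB
    have h7 : 4 * 4 ^ K1 * (B * l) ≤ 4 * 4 ^ K1 * (B * (Cl * Real.exp (-c * ks k0 al j ^ (-b)))) :=
      mul_le_mul_of_nonneg_left h6 (by positivity)
    have h8 : 4 * 4 ^ K1 * (B * (Cl * Real.exp (-c * ks k0 al j ^ (-b)))) =
        B * Cl * 4 * 4 ^ K1 * Real.exp (-c * ks k0 al j ^ (-b)) := by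
      ring
    linarith
  have h7 : 4 ^ K1 * (4 * (B * (r + l))) ≤ 4 ^ K1 * (2 * ks k0 al (j + 1) ^ K1) := by
    have h8 : 4 ^ K1 * (4 * (B * (r + l))) = 4 * 4 ^ K1 * (B * r) + 4 * 4 ^ K1 * (B * l) := by ring
    rw [h8]
    linarith
  have h8 := le_of_mul_le_mul_left h7 h4
  linarith

/-- tuples of marked cells -/
theorem rec_n (B Cn : ℝ) {K1 Nn : ℝ} {al m : ℕ} (hal : 2 ≤ al) (hK : 0 ≤ K1) (hB : 0 ≤ B)
    (hm : K1 + Nn < K1 * m / al) :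
    ∀ᶠ k0 in 𝓝[>] (0 : ℝ), ∀ j : ℕ, ∀ nn : ℝ, nn ≤ Cn * ks k0 al (j + 2) ^ (-Nn) →
      B * (nn * (ks k0 al (j + 1) ^ K1) ^ m) ≤ ks k0 al (j + 2) ^ K1 / 2 := by
  have h1 := ev_all (ev_pow' (C := 2 * B * |Cn| * 4 ^ (K1 * m / al)) hm) al
  filter_upwards [h1, ev_small (show (0 : ℝ) < 1 / 4 by norm_num)] with k0 h1 hk j nn hnn
  have hk0 := hk.1
  have hk1 : k0 < 1 := by linarith [hk.2]
  have h1 := h1 (j + 2)
  have hal0 : (0 : ℝ) < al := by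
    have : 0 < al := by omega
    exact_mod_cast this
  set k := ks k0 al (j + 2) with hkd
  have hkp : 0 < k := ks_pos hk0 al _
  have hkp' : 0 < ks k0 al (j + 1) := ks_pos hk0 al _
  have h2 : (ks k0 al (j + 1) ^ K1) ^ m ≤ 4 ^ (K1 * m / al) * k ^ (K1 * m / al) := by
    have h3 := ks_pow_le hk0 hk1 hal (j + 1) (a := K1 * m / al) (by positivity)
    rw [div_mul_cancel₀ _ hal0.ne'] at h3
    rw [← Real.rpow_natCast, ← Real.rpow_mul hkp'.le]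
    exact h3
  have h3 : nn ≤ |Cn| * k ^ (-Nn) :=
    hnn.trans (mul_le_mul_of_nonneg_right (le_abs_self Cn) (by positivity))
  have h4 : B * (nn * (ks k0 al (j + 1) ^ K1) ^ m) ≤
      B * (|Cn| * k ^ (-Nn) * (4 ^ (K1 * m / al) * k ^ (K1 * m / al))) := by
    apply mul_le_mul_of_nonneg_left _ hB
    have h5 : (0 : ℝ) ≤ (ks k0 al (j + 1) ^ K1) ^ m := by positivity
    exact mul_le_mul h3 h2 h5 (by positivity)
  have h5 : k ^ (K1 * m / al) = k ^ (K1 * m / al - Nn) * k ^ Nn := by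
    rw [← Real.rpow_add hkp]
    ring_nf
  have h6 : k ^ (-Nn) * k ^ Nn = 1 := by
    rw [← Real.rpow_add hkp]
    simp
  have h7 : k ^ (K1 * m / al) = k ^ (K1 + Nn) * k ^ (K1 * m / al - (K1 + Nn)) := by
    rw [← Real.rpow_add hkp]
    ring_nf
  have h8 : k ^ (K1 + Nn) = k ^ K1 * k ^ Nn := Real.rpow_add hkp _ _
  have h9 : 2 * (B * (|Cn| * k ^ (-Nn) * (4 ^ (K1 * m / al) * k ^ (K1 * m / al)))) ≤ k ^ K1 := by
    have h10 : 2 * (B * (|Cn| * k ^ (-Nn) * (4 ^ (K1 * m / al) * k ^ (K1 * m / al)))) =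
        (2 * B * |Cn| * 4 ^ (K1 * m / al) * k ^ (K1 * m / al)) * k ^ (-Nn) := by ring
    rw [h10]
    calc (2 * B * |Cn| * 4 ^ (K1 * m / al) * k ^ (K1 * m / al)) * k ^ (-Nn)
        ≤ k ^ (K1 + Nn) * k ^ (-Nn) := by gcongr
      _ = k ^ K1 := by
        rw [← Real.rpow_add hkp]
        ring_nf
  linarith

/-- sums over the super-stages -/
theorem rec_sum (C : ℝ) {p : ℝ} (hp : 0 < p) {al : ℕ} (hal : 2 ≤ al) :
    ∀ᶠ k0 in 𝓝[>] (0 : ℝ), ∀ J : ℕ,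
      ∑ j ∈ Finset.range J, C * ks k0 al (j + 1) ^ p ≤ k0 ^ p := by
  filter_upwards [ev_le (|C| * 2) hp one_pos 0, ev_le 1 hp (show (0 : ℝ) < 1 / 2 by norm_num) 0,
    ev_small (show (0 : ℝ) < 1 / 4 by norm_num)] with k0 h1 h2 hk J
  have hk0 := hk.1
  have hk1 : k0 < 1 := by linarith [hk.2]
  rw [pow_zero, mul_one] at h1 h2
  rw [one_mul] at h2
  have hkp : 0 < k0 ^ p := Real.rpow_pos_of_pos hk0 p
  have h3 : ∀ j : ℕ, C * ks k0 al (j + 1) ^ p ≤ |C| * (k0 ^ p * k0 ^ p) * (1 / 2) ^ j := by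
    intro j
    have h4 : ks k0 al (j + 1) ^ p ≤ (k0 ^ p) ^ (j + 2) := by
      have h5 := ks_le_pow hk0 hk1 hal (j + 1)
      calc ks k0 al (j + 1) ^ p ≤ (k0 ^ (j + 2)) ^ p :=
            Real.rpow_le_rpow (ks_pos hk0 al _).le h5 hp.le
        _ = (k0 ^ p) ^ (j + 2) := by
          rw [← Real.rpow_natCast, ← Real.rpow_natCast, ← Real.rpow_mul hk0.le,
            ← Real.rpow_mul hk0.le, mul_comm]
    have h6 : (k0 ^ p) ^ (j + 2) ≤ (k0 ^ p * k0 ^ p) * (1 / 2) ^ j := by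
      rw [pow_add, pow_two, mul_comm]
      apply mul_le_mul_of_nonneg_left _ (by positivity)
      exact pow_le_pow_left₀ hkp.le h2 j
    have h7 : (0 : ℝ) ≤ ks k0 al (j + 1) ^ p := Real.rpow_nonneg (ks_pos hk0 al _).le p
    calc C * ks k0 al (j + 1) ^ p ≤ |C| * ks k0 al (j + 1) ^ p :=
          mul_le_mul_of_nonneg_right (le_abs_self C) h7
      _ ≤ |C| * ((k0 ^ p * k0 ^ p) * (1 / 2) ^ j) :=
          mul_le_mul_of_nonneg_left (h4.trans h6) (abs_nonneg C)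
      _ = _ := by ring
  calc ∑ j ∈ Finset.range J, C * ks k0 al (j + 1) ^ p
      ≤ ∑ j ∈ Finset.range J, |C| * (k0 ^ p * k0 ^ p) * (1 / 2) ^ j :=
        Finset.sum_le_sum fun j _ => h3 j
    _ = |C| * (k0 ^ p * k0 ^ p) * ∑ j ∈ Finset.range J, (1 / 2 : ℝ) ^ j := by
        rw [Finset.mul_sum]
    _ ≤ |C| * (k0 ^ p * k0 ^ p) * 2 := by
        apply mul_le_mul_of_nonneg_left _ (by positivity)
        have h8 := Summable.sum_le_tsum (f := fun n : ℕ => (1 / 2 : ℝ) ^ n) (Finset.range J)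
          (fun n _ => by positivity) summable_geometric_two
        rwa [tsum_geometric_two] at h8
    _ = (|C| * 2 * k0 ^ p) * k0 ^ p := by ring
    _ ≤ 1 * k0 ^ p := mul_le_mul_of_nonneg_right h1 hkp.le
    _ = k0 ^ p := one_mul _

/-- sums over the levels of one super-stage (and of all the later ones) -/
theorem sum_lv {k0 v : ℝ} (hk : 0 < k0) (hv : 0 < v) (al j n : ℕ) :
    ∑ i ∈ Finset.Ico (lv k0 al j) n, kap k0 i ^ v ≤ ks k0 al j ^ v / (1 - (1 / 4 : ℝ) ^ v) := by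
  have h1 := sum_rpow_le (ks_pos hk al j).le hv (n - lv k0 al j)
  refine le_trans (le_of_eq ?_) h1
  rw [Finset.sum_Ico_eq_sum_range]
  refine Finset.sum_congr rfl fun i _ => ?_
  unfold ks kap
  rw [pow_add, mul_assoc]

end Pool.Agent.ANC
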