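import Pool.Agent.AND.FldBd
import Pool.Agent.AND.TolIn
import Pool.Agent.AND.StartTop
import Pool.Agent.ANC.RecN

/-!
# ANC / FldN: numbers of the fields

All statements hold for all small `k0` (levels `kap k0 n`) and all `0 < eta ≤ k0`.

* `ev_tl`: the field `tl` of `AND.FH`;  `ev_mn`, `ev_mx`: the fields `mn`, `mx` (for one `κ`).
* `sum_kap`: `∑_{k ≤ n} kap k ^ e ≤ k0 ^ e / (1 - 4 ^ (-e))`.
* `an k0 eta vi n = k0 ^ (vi / 32) (eta + kap n) ^ (15 vi / 16 - 1)` = bound of `ae`; `sum_ae`.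
* `fldIn_of_bd`: `Fld.Bd` ⇒ `FldIn` with `e1 = k0 ^ (vi / 2)`, `e2`, `an`, `Lam + 1`, `C2 = 1`.
* `g50_far`: the initial pair field beyond `γ ^ (-2)`.
-/

open Filter Topology Real

namespace Pool.Agent.ANC

/-- tail of the sums over the corners -/
theorem ev_tl (d : ℕ) {v b : ℝ} (hv : 0 ≤ v) (hb : 0 < b) {al : ℕ} :
    ∀ᶠ k0 in 𝓝[>] (0 : ℝ), ∀ j n : ℕ, n ≤ lv k0 al (j + 1) →
      AND.tl d (kap k0 n) b (side k0 al j) ≤ kap k0 n ^ v := by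
  have h1 := ev_all (ev_exp (C := 8 ^ d * d.factorial * 8 / (b / 2) ^ (d + 1)) (d + 1 : ℝ) v
    (b := 1) (c := b) one_pos hb) al
  filter_upwards [h1, ev_small (show (0 : ℝ) < 1 / 4 by norm_num)] with k0 h1 hk j n hn
  have hk0 := hk.1
  have hk1 : k0 < 1 := by linarith [hk.2]
  have h1 := h1 (j + 1)
  set k := ks k0 al (j + 1) with hkd
  have hkp : 0 < k := ks_pos hk0 al _
  have hκ : k ≤ kap k0 n := kap_anti hk0 hn
  set κ := kap k0 n with hκd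
  have hκp : 0 < κ := kap_pos hk0 n
  have hs := (side_rpow hk0 hk1 al j).1
  have h2 : k ^ (-1 : ℝ) ≤ κ * side k0 al j := by
    calc k ^ (-1 : ℝ) = k * k ^ (-2 : ℝ) := by
          nth_rewrite 2 [← Real.rpow_one k]
          rw [← Real.rpow_add hkp]
          norm_num
      _ ≤ κ * side k0 al j := mul_le_mul hκ hs (Real.rpow_nonneg hkp.le _) hκp.le
  have h3 : Real.exp (-(b * κ * side k0 al j)) ≤ Real.exp (-b * k ^ (-1 : ℝ)) := by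
    apply Real.exp_le_exp.2
    rw [neg_mul]
    apply neg_le_neg
    rw [mul_assoc]
    exact mul_le_mul_of_nonneg_left h2 hb.le
  have h4 : ANM.sumC d 0 (b * κ / 2) ≤
      8 ^ d * d.factorial * 8 / (b / 2) ^ (d + 1) * k ^ (-(d + 1 : ℝ)) := by
    unfold ANM.sumC
    have h5 : (b / 2) ^ (d + 1) * k ^ (d + 1) ≤ (b * κ / 2) ^ (d + 1) := by
      rw [← mul_pow]
      apply pow_le_pow_left₀ (by positivity)
      have : b / 2 * k ≤ b / 2 * κ := mul_le_mul_of_nonneg_left hκ (by positivity)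
      linarith
    have h6 : k ^ (-(d + 1 : ℝ)) = (k ^ (d + 1))⁻¹ := by
      rw [Real.rpow_neg hkp.le]
      congr 1
      exact_mod_cast Real.rpow_natCast k (d + 1)
    rw [h6]
    calc (2 * ((0 : ℕ) : ℝ) + 1) ^ d * (8 ^ d * d.factorial * 8) / (b * κ / 2) ^ (d + 1)
        ≤ (2 * ((0 : ℕ) : ℝ) + 1) ^ d * (8 ^ d * d.factorial * 8) /
          ((b / 2) ^ (d + 1) * k ^ (d + 1)) := by
          apply div_le_div_of_nonneg_left (by positivity) (by positivity) h5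
      _ = 8 ^ d * d.factorial * 8 / (b / 2) ^ (d + 1) * (k ^ (d + 1))⁻¹ := by
          rw [Nat.cast_zero, mul_zero, zero_add, one_pow, one_mul]
          field_simp
  unfold AND.tl
  calc Real.exp (-(b * κ * side k0 al j)) * ANM.sumC d 0 (b * κ / 2)
      ≤ Real.exp (-b * k ^ (-1 : ℝ)) *
        (8 ^ d * d.factorial * 8 / (b / 2) ^ (d + 1) * k ^ (-(d + 1 : ℝ))) := by
        apply mul_le_mul h3 h4 _ (Real.exp_pos _).le
        unfold ANM.sumC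
        positivity
    _ = 8 ^ d * d.factorial * 8 / (b / 2) ^ (d + 1) * k ^ (-(d + 1 : ℝ)) *
        Real.exp (-b * k ^ (-1 : ℝ)) := by ring
    _ ≤ k ^ v := h1
    _ ≤ κ ^ v := Real.rpow_le_rpow hkp.le hκ hv

/-- exponentials beyond `κ ^ (-3/2)` -/
theorem ev_far {b : ℝ} (hb : 0 < b) (Cg w : ℝ) {s5 : ℝ} (hs1 : s5 ≤ 1) :
    ∀ᶠ κ in 𝓝[>] (0 : ℝ), ∀ R : ℝ, κ ^ (-(3 / 2) : ℝ) ≤ R →
      κ ^ (-Cg) * Real.exp (-(b * κ * R)) ≤ κ ^ w * R ^ (-s5) := by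
  have h1 := ev_exp (C := 2 / b) (1 + Cg) w (b := 1 / 2) (c := b / 2) (by norm_num)
    (by positivity)
  filter_upwards [h1, ev_small one_pos] with κ h1 hk R hR
  have hκ := hk.1
  have hR1 : 1 ≤ R := by
    refine le_trans ?_ hR
    rw [Real.rpow_neg hκ.le]
    exact (one_le_inv₀ (Real.rpow_pos_of_pos hκ _)).2
      (Real.rpow_le_one hκ.le hk.2 (by norm_num))
  have hR0 : 0 < R := by linarith
  have h2 : R ^ s5 ≤ R := by
    calc R ^ s5 ≤ R ^ (1 : ℝ) := Real.rpow_le_rpow_of_exponent_le hR1 hs1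
      _ = R := Real.rpow_one R
  have h3 : κ ^ (-(1 / 2) : ℝ) ≤ κ * R := by
    calc κ ^ (-(1 / 2) : ℝ) = κ * κ ^ (-(3 / 2) : ℝ) := by
          nth_rewrite 2 [← Real.rpow_one κ]
          rw [← Real.rpow_add hκ]
          norm_num
      _ ≤ κ * R := mul_le_mul_of_nonneg_left hR hκ.le
  have h4 : Real.exp (-(b * κ * R)) =
      Real.exp (-(b / 2 * (κ * R))) * Real.exp (-(b / 2 * (κ * R))) := by
    rw [← Real.exp_add]
    congr 1
    ring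
  have h5 : Real.exp (-(b / 2 * (κ * R))) ≤ Real.exp (-(b / 2) * κ ^ (-(1 / 2) : ℝ)) := by
    apply Real.exp_le_exp.2
    rw [neg_mul]
    exact neg_le_neg (mul_le_mul_of_nonneg_left h3 (by positivity))
  have h6 : R * Real.exp (-(b / 2 * (κ * R))) ≤ 2 / b * κ ^ (-1 : ℝ) := by
    have h7 : b / 2 * (κ * R) ≤ Real.exp (b / 2 * (κ * R)) := by
      have := Real.add_one_le_exp (b / 2 * (κ * R))
      linarith
    rw [Real.exp_neg, ← div_eq_mul_inv, div_le_iff₀ (Real.exp_pos _)]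
    have h8 : (2 / b * κ ^ (-1 : ℝ)) * (b / 2 * (κ * R)) = R := by
      rw [Real.rpow_neg_one]
      field_simp
    calc R = (2 / b * κ ^ (-1 : ℝ)) * (b / 2 * (κ * R)) := h8.symm
      _ ≤ _ := mul_le_mul_of_nonneg_left h7 (by
          have := Real.rpow_nonneg hκ.le (-1 : ℝ)
          positivity)
  have hR2 : 0 < R ^ s5 := Real.rpow_pos_of_pos hR0 _
  rw [Real.rpow_neg hR0.le, ← div_eq_mul_inv, le_div_iff₀ hR2]
  calc κ ^ (-Cg) * Real.exp (-(b * κ * R)) * R ^ s5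
      ≤ κ ^ (-Cg) * Real.exp (-(b * κ * R)) * R := by
        apply mul_le_mul_of_nonneg_left h2
        have := Real.rpow_nonneg hκ.le (-Cg)
        positivity
    _ = κ ^ (-Cg) * (R * Real.exp (-(b / 2 * (κ * R)))) * Real.exp (-(b / 2 * (κ * R))) := by
        rw [h4]
        ring
    _ ≤ κ ^ (-Cg) * (2 / b * κ ^ (-1 : ℝ)) * Real.exp (-(b / 2) * κ ^ (-(1 / 2) : ℝ)) := by
        have h7 : 0 ≤ κ ^ (-Cg) := Real.rpow_nonneg hκ.le _
        have h8 : 0 ≤ κ ^ (-1 : ℝ) := Real.rpow_nonneg hκ.le _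
        apply mul_le_mul _ h5 (Real.exp_pos _).le (by positivity)
        exact mul_le_mul_of_nonneg_left h6 h7
    _ = 2 / b * κ ^ (-(1 + Cg)) * Real.exp (-(b / 2) * κ ^ (-(1 / 2) : ℝ)) := by
        have h7 : κ ^ (-(1 + Cg)) = κ ^ (-Cg) * κ ^ (-1 : ℝ) := by
          rw [← Real.rpow_add hκ]
          ring_nf
        rw [h7]
        ring
    _ ≤ κ ^ w := h1

/-- powers up to `2 κ ^ (-5/2)` -/
theorem ev_near {v w s5 : ℝ} (hs : 0 ≤ s5) (hs1 : s5 ≤ 1) (hv : w + 5 / 2 * s5 < v) :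
    ∀ᶠ κ in 𝓝[>] (0 : ℝ), ∀ R : ℝ, 0 < R → R ≤ 2 * κ ^ (-(5 / 2) : ℝ) →
      κ ^ v ≤ κ ^ w * R ^ (-s5) := by
  filter_upwards [ev_pow' (C := 2) hv, ev_small one_pos] with κ h1 hk R hR0 hR
  have hκ := hk.1
  have h2 : (2 * κ ^ (-(5 / 2) : ℝ)) ^ (-s5) ≤ R ^ (-s5) :=
    Real.rpow_le_rpow_of_nonpos hR0 hR (by linarith)
  have h3 : (2 * κ ^ (-(5 / 2) : ℝ)) ^ (-s5) = 2 ^ (-s5) * κ ^ (5 / 2 * s5) := by
    rw [Real.mul_rpow (by norm_num) (Real.rpow_nonneg hκ.le _), ← Real.rpow_mul hκ.le]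
    ring_nf
  rw [h3] at h2
  have h4 : (1 / 2 : ℝ) ≤ 2 ^ (-s5) := by
    rw [Real.rpow_neg (by norm_num), one_div]
    apply inv_anti₀ (Real.rpow_pos_of_pos (by norm_num) _)
    calc (2 : ℝ) ^ s5 ≤ 2 ^ (1 : ℝ) := Real.rpow_le_rpow_of_exponent_le (by norm_num) hs1
      _ = 2 := Real.rpow_one 2
  have h5 : 0 ≤ κ ^ (5 / 2 * s5) := Real.rpow_nonneg hκ.le _
  have h6 : 0 ≤ κ ^ w := Real.rpow_nonneg hκ.le _
  have h7 : κ ^ (w + 5 / 2 * s5) = κ ^ w * κ ^ (5 / 2 * s5) := Real.rpow_add hκ _ _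
  rw [h7] at h1
  calc κ ^ v ≤ κ ^ w * (1 / 2 * κ ^ (5 / 2 * s5)) := by linarith
    _ ≤ κ ^ w * (2 ^ (-s5) * κ ^ (5 / 2 * s5)) := by gcongr
    _ ≤ κ ^ w * R ^ (-s5) := mul_le_mul_of_nonneg_left h2 h6

/-- the field `mn` of `AND.FH` -/
theorem ev_mn {v b Cg vi s5 : ℝ} (hb : 0 < b) (hCg : Cg ≤ 5 / 2) (hs : 0 ≤ s5) (hs1 : s5 ≤ 1)
    (hv : vi / 2 + 5 / 2 * s5 < v) :
    ∀ᶠ κ in 𝓝[>] (0 : ℝ), ∀ r : ℕ,
      min (κ ^ v) (AND.pf κ b Cg * Real.exp (-(b * κ * r))) ≤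
      κ ^ (vi / 2) * (max 1 (r : ℝ)) ^ (-s5) := by
  filter_upwards [ev_far (b := b / 2) (by positivity) 0 (vi / 2) hs1, ev_near hs hs1 hv,
    ev_small (show (0 : ℝ) < 1 / 2 by norm_num)] with κ h1 h0 hk r
  have hκ := hk.1
  have hκ1 : κ ≤ 1 := by linarith [hk.2]
  have hR0 : (0 : ℝ) < max 1 (r : ℝ) := lt_max_of_lt_left one_pos
  rcases le_or_gt (max 1 (r : ℝ)) (2 * κ ^ (-(5 / 2) : ℝ)) with h2 | h2
  · exact (min_le_left _ _).trans (h0 _ hR0 h2)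
  · refine (min_le_right _ _).trans ?_
    have h3 : 1 ≤ κ ^ (-(5 / 2) : ℝ) := by
      rw [Real.rpow_neg hκ.le]
      exact (one_le_inv₀ (Real.rpow_pos_of_pos hκ _)).2
        (Real.rpow_le_one hκ.le hκ1 (by norm_num))
    have h4 : max 1 (r : ℝ) = r := by
      rcases max_choice (1 : ℝ) (r : ℝ) with h | h
      · rw [h] at h2
        linarith
      · exact h
    rw [h4] at h2 ⊢
    have h5 : κ ^ (-(3 / 2) : ℝ) ≤ r := by
      have h6 : κ ^ (-(3 / 2) : ℝ) ≤ κ ^ (-(5 / 2) : ℝ) :=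
        Real.rpow_le_rpow_of_exponent_ge hκ hκ1 (by norm_num)
      linarith
    have h6 := h1 r h5
    rw [neg_zero, Real.rpow_zero, one_mul] at h6
    refine le_trans ?_ h6
    unfold AND.pf
    rw [← Real.exp_add]
    apply Real.exp_le_exp.2
    have h7 : κ ^ (-Cg) ≤ κ ^ (-(5 / 2) : ℝ) :=
      Real.rpow_le_rpow_of_exponent_ge hκ hκ1 (by linarith)
    have h8 : κ ^ (-Cg) ≤ r / 2 := by linarith
    have h9 : b * κ * κ ^ (-Cg) ≤ b * κ * (r / 2) :=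
      mul_le_mul_of_nonneg_left h8 (by positivity)
    linarith

/-- the field `mx` of `AND.FH` -/
theorem ev_mx {v b vi s5 : ℝ} (hb : 0 < b) (hs : 0 ≤ s5) (hs1 : s5 ≤ 1) (hv0 : 0 ≤ v)
    (hv : vi / 2 + 5 / 2 * s5 < v) :
    ∀ᶠ κ in 𝓝[>] (0 : ℝ), ∀ r : ℕ, Real.exp (-(b * κ * r)) * κ ^ v ≤
      κ ^ (vi / 2) * (max 1 (r : ℝ)) ^ (-s5) := by
  filter_upwards [ev_mn (Cg := 0) hb (by norm_num) hs hs1 hv, ev_small one_pos] with κ h1 hk r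
  have hκ := hk.1
  refine le_trans (le_min ?_ ?_) (h1 r)
  · have h3 : Real.exp (-(b * κ * r)) ≤ 1 := by
      rw [Real.exp_le_one_iff]
      have : 0 ≤ b * κ * r := by positivity
      linarith
    exact mul_le_of_le_one_left (Real.rpow_nonneg hk.1.le _) h3
  · have h3 : κ ^ v ≤ 1 := Real.rpow_le_one hk.1.le hk.2 hv0
    have h4 : 1 ≤ AND.pf κ b 0 := by
      unfold AND.pf
      rw [Real.one_le_exp_iff, neg_zero, Real.rpow_zero]
      positivity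
    have h5 : 0 ≤ Real.exp (-(b * κ * r)) := (Real.exp_pos _).le
    calc Real.exp (-(b * κ * r)) * κ ^ v ≤ Real.exp (-(b * κ * r)) * 1 :=
          mul_le_mul_of_nonneg_left h3 h5
      _ ≤ AND.pf κ b 0 * Real.exp (-(b * κ * r)) := by
          rw [mul_one]
          exact le_mul_of_one_le_left h5 h4

/-- sums over the levels -/
theorem sum_kap {k0 e : ℝ} (hk : 0 < k0) (he : 0 < e) (n : ℕ) :
    ∑ k ∈ Finset.range (n + 1), kap k0 k ^ e ≤ k0 ^ e / (1 - (1 / 4 : ℝ) ^ e) :=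
  sum_rpow_le hk.le he (n + 1)

/-- bound of the field `ae` -/
noncomputable def aeB (k0 eta vi : ℝ) (n : ℕ) : ℝ :=
  k0 ^ (vi / 32) * (eta + kap k0 n) ^ (15 * vi / 16 - 1)

theorem aeB_pos {k0 eta vi : ℝ} (hk : 0 < k0) (he : 0 ≤ eta) (n : ℕ) : 0 < aeB k0 eta vi n := by
  have h1 := kap_pos hk n
  unfold aeB
  have h2 : 0 < eta + kap k0 n := by linarith
  have h3 := Real.rpow_pos_of_pos h2 (15 * vi / 16 - 1)
  have h4 := Real.rpow_pos_of_pos hk (vi / 32)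
  exact mul_pos h4 h3

/-- one term of the field `ae` -/
theorem term_ae {κ κn eta vi : ℝ} (hκ : 0 < κ) (hn : 0 < κn) (hle : κn ≤ κ) (he : 0 ≤ eta)
    (hvi : 0 < vi) (hvi1 : vi ≤ 1) :
    (eta + κ)⁻¹ * κ ^ vi ≤ κ ^ (vi / 16) * (eta + κn) ^ (15 * vi / 16 - 1) := by
  have h1 : 0 < eta + κ := by linarith
  have h2 : 0 < eta + κn := by linarith
  have h3 : κ ^ vi = κ ^ (vi / 16) * κ ^ (15 * vi / 16) := by
    rw [← Real.rpow_add hκ]
    ring_nf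
  have h4 : κ ^ (15 * vi / 16) ≤ (eta + κ) ^ (15 * vi / 16) :=
    Real.rpow_le_rpow hκ.le (by linarith) (by positivity)
  have h5 : (eta + κ)⁻¹ * (eta + κ) ^ (15 * vi / 16) = (eta + κ) ^ (15 * vi / 16 - 1) := by
    rw [Real.rpow_sub_one h1.ne', mul_comm]
    rfl
  have h6 : (eta + κ) ^ (15 * vi / 16 - 1) ≤ (eta + κn) ^ (15 * vi / 16 - 1) :=
    Real.rpow_le_rpow_of_nonpos h2 (by linarith) (by linarith)
  have h7 : 0 ≤ κ ^ (vi / 16) := Real.rpow_nonneg hκ.le _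
  calc (eta + κ)⁻¹ * κ ^ vi = κ ^ (vi / 16) * ((eta + κ)⁻¹ * κ ^ (15 * vi / 16)) := by
        rw [h3]
        ring
    _ ≤ κ ^ (vi / 16) * ((eta + κ)⁻¹ * (eta + κ) ^ (15 * vi / 16)) := by
        apply mul_le_mul_of_nonneg_left _ h7
        exact mul_le_mul_of_nonneg_left h4 (by positivity)
    _ ≤ κ ^ (vi / 16) * (eta + κn) ^ (15 * vi / 16 - 1) := by
        rw [h5]
        exact mul_le_mul_of_nonneg_left h6 h7

/-- the sum of the field `ae` -/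
theorem sum_ae {k0 eta vi : ℝ} (hk : 0 < k0) (he : 0 ≤ eta) (hvi : 0 < vi) (hvi1 : vi ≤ 1)
    (n : ℕ) :
    ∑ k ∈ Finset.range (n + 1), (eta + kap k0 k)⁻¹ * kap k0 k ^ vi ≤
      k0 ^ (vi / 16) / (1 - (1 / 4 : ℝ) ^ (vi / 16)) * (eta + kap k0 n) ^ (15 * vi / 16 - 1) := by
  have h1 : 0 ≤ (eta + kap k0 n) ^ (15 * vi / 16 - 1) :=
    Real.rpow_nonneg (by have := kap_pos hk n; linarith) _
  calc ∑ k ∈ Finset.range (n + 1), (eta + kap k0 k)⁻¹ * kap k0 k ^ vi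
      ≤ ∑ k ∈ Finset.range (n + 1), kap k0 k ^ (vi / 16) *
        (eta + kap k0 n) ^ (15 * vi / 16 - 1) := by
        refine Finset.sum_le_sum fun k hkn => ?_
        have h2 : k ≤ n := Nat.lt_succ_iff.1 (Finset.mem_range.1 hkn)
        exact term_ae (kap_pos hk k) (kap_pos hk n) (kap_anti hk h2) he hvi hvi1
    _ = (∑ k ∈ Finset.range (n + 1), kap k0 k ^ (vi / 16)) *
        (eta + kap k0 n) ^ (15 * vi / 16 - 1) := by rw [Finset.sum_mul]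
    _ ≤ _ := mul_le_mul_of_nonneg_right (sum_kap hk (by positivity) n) h1

variable {d L : ℕ}

/-- the numerical facts for the fields (all small `k0`) -/
structure FN (d mJ : ℕ) (k0 vi vt vp be0 : ℝ) : Prop where
  err : (1 + mJ) * (AND.cF d * (k0 ^ vi / (1 - (1 / 4 : ℝ) ^ vi))) ≤ k0 ^ (vi / 2)
  et : (1 + mJ) * (AND.cF d * (k0 ^ vt / (1 - (1 / 4 : ℝ) ^ vt))) ≤ 1
  be : be0 + (1 + mJ) * (AND.cF d * (k0 ^ (vi - vp) / (1 - (1 / 4 : ℝ) ^ (vi - vp)))) ≤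
    k0 ^ (vp / 2)
  ae : (1 + mJ) * (AND.cF d * (k0 ^ (vi / 16) / (1 - (1 / 4 : ℝ) ^ (vi / 16)))) ≤ k0 ^ (vi / 32)
  g5 : (1 + mJ) * (AND.cF d * (k0 ^ (vi / 2) / (1 - (1 / 4 : ℝ) ^ (vi / 2)))) ≤ 1 / 2

theorem ev_FN (d mJ : ℕ) {vi vt vp eb : ℝ} (hvi : 0 < vi) (hvt : 0 < vt) (hvp : 0 < vp)
    (hvpi : vp < 2 / 3 * vi) (heb : vp / 2 < eb) (Cb : ℝ) :
    ∀ᶠ k0 in 𝓝[>] (0 : ℝ), FN d mJ k0 vi vt vp (Cb * k0 ^ eb) := by
  have g1 : ∀ e e' : ℝ, e' < e → ∀ᶠ k0 in 𝓝[>] (0 : ℝ),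
      (1 + mJ) * (AND.cF d * (k0 ^ e / (1 - (1 / 4 : ℝ) ^ e))) ≤ k0 ^ e' := by
    intro e e' h
    filter_upwards [ev_pow' (C := (1 + mJ) * (AND.cF d * (1 / (1 - (1 / 4 : ℝ) ^ e)))) h]
      with k h1
    refine le_trans (le_of_eq ?_) h1
    ring
  have h3 : ∀ᶠ k0 in 𝓝[>] (0 : ℝ),
      (1 + mJ) * (AND.cF d * (k0 ^ (vi - vp) / (1 - (1 / 4 : ℝ) ^ (vi - vp)))) ≤
        k0 ^ (vp / 2) / 2 := by
    filter_upwards [ev_pow' (C := 2 * ((1 + mJ) * (AND.cF d * (1 / (1 - (1 / 4 : ℝ) ^ (vi - vp))))))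
      (show vp / 2 < vi - vp by linarith)] with k h1
    have h2 : (1 + mJ) * (AND.cF d * (k ^ (vi - vp) / (1 - (1 / 4 : ℝ) ^ (vi - vp)))) =
      (2 * ((1 + mJ) * (AND.cF d * (1 / (1 - (1 / 4 : ℝ) ^ (vi - vp))))) * k ^ (vi - vp)) / 2 := by
      ring
    rw [h2]
    linarith
  have h4 : ∀ᶠ k0 in 𝓝[>] (0 : ℝ), Cb * k0 ^ eb ≤ k0 ^ (vp / 2) / 2 := by
    filter_upwards [ev_pow' (C := 2 * Cb) heb] with k h1
    linarith
  have h5 : ∀ᶠ k0 in 𝓝[>] (0 : ℝ),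
      (1 + mJ) * (AND.cF d * (k0 ^ (vi / 2) / (1 - (1 / 4 : ℝ) ^ (vi / 2)))) ≤ 1 / 2 := by
    filter_upwards [ev_le (C := (1 + mJ) * (AND.cF d * (1 / (1 - (1 / 4 : ℝ) ^ (vi / 2)))))
      (show 0 < vi / 2 by positivity) (show (0 : ℝ) < 1 / 2 by norm_num) 0] with k h1
    rw [pow_zero, mul_one] at h1
    refine le_trans (le_of_eq ?_) h1
    ring
  have h6 : ∀ᶠ k0 in 𝓝[>] (0 : ℝ),
      (1 + mJ) * (AND.cF d * (k0 ^ vt / (1 - (1 / 4 : ℝ) ^ vt))) ≤ 1 := by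
    filter_upwards [g1 vt 0 hvt] with k h1
    rwa [Real.rpow_zero] at h1
  filter_upwards [g1 vi (vi / 2) (by linarith), h6, h3, h4, g1 (vi / 16) (vi / 32) (by linarith),
    h5] with k a1 a2 a3 a4 a5 a6
  exact ⟨a1, a2, by linarith, a5, a6⟩

/-- BOUNDS OF THE FIELDS -/
theorem fldIn_of_bd {f : AND.Fix} {P : AND.Par} {mJ : ℕ} {F0 F : AND.Fld (Kin.Tor d L)} {n : ℕ}
    {k0 be0 Lam : ℝ} (hk : 0 < k0) (hk1 : k0 ≤ 1) (hkap : P.kap = kap k0) (heta : 0 ≤ P.eta)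
    (hvi : 0 < P.vi) (hvi1 : P.vi ≤ 1) (hvt : 0 < P.vt) (hvp : P.vp < P.vi)
    (hN : FN d mJ k0 P.vi P.vt P.vp be0) (hs : f.s = P.s5) (hs0 : 0 ≤ P.s5) (hr0 : 1 ≤ f.r0)
    (h0 : ∀ x, F0.err x ≤ 0) (h1 : ∀ x, F0.et x ≤ 0) (h2 : ∀ x, F0.be x ≤ be0)
    (h3 : ∀ x, F0.ae x ≤ 0) (h4 : ∀ x y, F0.g5 x y ≤ Lam)
    (h5 : ∀ x y, f.r0 ≤ (ANM.td x y : ℝ) → F0.g5 x y ≤ 1 / 2 * (ANM.td x y : ℝ) ^ (-f.s))
    (hB : AND.Fld.Bd P mJ F0 F n) :
    AND.FldIn f F (k0 ^ (P.vi / 2)) (k0 ^ (P.vp / 2)) (aeB k0 P.eta P.vi n) (Lam + 1) 1 := by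
  have hm : (0 : ℝ) ≤ 1 + mJ := by positivity
  have hc : 0 ≤ AND.cF d := (AND.cF_pos d).le
  have hsum : ∀ e : ℝ, 0 < e → (1 + (mJ : ℝ)) * ∑ k ∈ Finset.range (n + 1),
      AND.cF d * kap k0 k ^ e ≤ (1 + mJ) * (AND.cF d * (k0 ^ e / (1 - (1 / 4 : ℝ) ^ e))) := by
    intro e he
    rw [← Finset.mul_sum]
    exact mul_le_mul_of_nonneg_left (mul_le_mul_of_nonneg_left (sum_kap hk he n) hc) hm
  have hg : ∀ x y, F.g5 x y ≤ F0.g5 x y + 1 / 2 * (max 1 (ANP.dT x y : ℝ)) ^ (-P.s5) := by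
    intro x y
    refine (hB.g5 x y).trans ?_
    rw [hkap]
    have e1 := hsum (P.vi / 2) (by positivity)
    have e2 : ∑ k ∈ Finset.range (n + 1), AND.cF d * (kap k0 k ^ (P.vi / 2) *
        (max 1 (ANP.dT x y : ℝ)) ^ (-P.s5)) =
        (∑ k ∈ Finset.range (n + 1), AND.cF d * kap k0 k ^ (P.vi / 2)) *
        (max 1 (ANP.dT x y : ℝ)) ^ (-P.s5) := by
      rw [Finset.sum_mul]
      exact Finset.sum_congr rfl fun k _ => by ring
    rw [e2, ← mul_assoc]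
    have e3 : (0 : ℝ) ≤ (max 1 (ANP.dT x y : ℝ)) ^ (-P.s5) :=
      Real.rpow_nonneg (le_max_of_le_left zero_le_one) _
    have e4 := mul_le_mul_of_nonneg_right (e1.trans hN.g5) e3
    linarith
  refine ⟨fun x => ?_, fun x => ?_, fun x => ?_, fun x => ?_, fun x y => ?_, fun x y hxy => ?_⟩
  · have e1 := hB.err x
    rw [hkap] at e1
    have e2 := (hsum P.vi hvi).trans hN.err
    have := h0 x
    linarith
  · have e1 := hB.et x
    rw [hkap] at e1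
    have e2 := (hsum P.vt hvt).trans hN.et
    have := h1 x
    linarith
  · have e1 := hB.be x
    rw [hkap] at e1
    have e2 : ∑ k ∈ Finset.range (n + 1), kap k0 k ^ (-P.vp) * (AND.cF d * kap k0 k ^ P.vi) =
        ∑ k ∈ Finset.range (n + 1), AND.cF d * kap k0 k ^ (P.vi - P.vp) := by
      refine Finset.sum_congr rfl fun k _ => ?_
      have e3 : kap k0 k ^ (P.vi - P.vp) = kap k0 k ^ (-P.vp) * kap k0 k ^ P.vi := by
        rw [← Real.rpow_add (kap_pos hk k)]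
        ring_nf
      rw [e3]
      ring
    rw [e2] at e1
    have e3 := hsum (P.vi - P.vp) (by linarith)
    have e4 := hN.be
    have := h2 x
    linarith
  · have e1 := hB.ae x
    rw [hkap] at e1
    have e2 : ∑ k ∈ Finset.range (n + 1), (P.eta + kap k0 k)⁻¹ * (AND.cF d * kap k0 k ^ P.vi) =
        AND.cF d * ∑ k ∈ Finset.range (n + 1), (P.eta + kap k0 k)⁻¹ * kap k0 k ^ P.vi := by
      rw [Finset.mul_sum]
      exact Finset.sum_congr rfl fun k _ => by ring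
    rw [e2] at e1
    have e3 := sum_ae hk heta hvi hvi1 n
    have e4 := mul_le_mul_of_nonneg_left (mul_le_mul_of_nonneg_left e3 hc) hm
    have e5 : 0 ≤ (P.eta + kap k0 n) ^ (15 * P.vi / 16 - 1) :=
      Real.rpow_nonneg (by have := kap_pos hk n; linarith) _
    have e6 := mul_le_mul_of_nonneg_right hN.ae e5
    have := h3 x
    unfold aeB
    calc F.ae x ≤ F0.ae x + (1 + mJ) * (AND.cF d * ∑ k ∈ Finset.range (n + 1),
          (P.eta + kap k0 k)⁻¹ * kap k0 k ^ P.vi) := e1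
      _ ≤ 0 + (1 + mJ) * (AND.cF d * (k0 ^ (P.vi / 16) / (1 - (1 / 4 : ℝ) ^ (P.vi / 16)) *
          (P.eta + kap k0 n) ^ (15 * P.vi / 16 - 1))) := add_le_add this e4
      _ = (1 + mJ) * (AND.cF d * (k0 ^ (P.vi / 16) / (1 - (1 / 4 : ℝ) ^ (P.vi / 16)))) *
          (P.eta + kap k0 n) ^ (15 * P.vi / 16 - 1) := by ring
      _ ≤ _ := e6
  · have e1 := hg x y
    have e2 := h4 x y
    have e3 : (max 1 (ANP.dT x y : ℝ)) ^ (-P.s5) ≤ 1 :=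
      Real.rpow_le_one_of_one_le_of_nonpos (le_max_left _ _) (by linarith)
    linarith
  · have e1 := hg x y
    have e2 := h5 x y hxy
    have e3 : max 1 (ANP.dT x y : ℝ) = (ANM.td x y : ℝ) := by
      have e4 : (1 : ℝ) ≤ (ANM.td x y : ℝ) := hr0.trans hxy
      exact max_eq_right e4
    rw [e3, ← hs] at e1
    linarith

end Pool.Agent.ANC
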