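import Pool.Agent.ANC.Pow

/-!
# ANC / InsT0: exponentials beat everything (helper20)

`ev_kill`: `C k ^ (-G) s ^ p exp (-(δ ν s)) ≤ k ^ M` for `cν k ≤ ν`, `k ^ (-2) / 2 ≤ s`.
-/

open Filter Topology Real

namespace Pool.Agent.ANC

theorem ev_kill (C G M : ℝ) (p : ℕ) {cν δ : ℝ} (hC : 0 ≤ C) (hcν : 0 < cν) (hδ : 0 < δ) :
    ∀ᶠ k in 𝓝[>] (0 : ℝ), ∀ s ν : ℝ, cν * k ≤ ν → 1 / 2 * k ^ (-2 : ℝ) ≤ s →
      C * k ^ (-G) * s ^ p * Real.exp (-(δ * ν * s)) ≤ k ^ M := by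
  filter_upwards [ev_small one_pos,
    ev_exp (C * (p.factorial / (δ / 2 * cν) ^ p)) (G + p) M (b := 1) (c := δ * cν / 4) one_pos
      (by positivity)] with k hk h1
  have hk0 := hk.1
  intro s ν hν hs
  have hν0 : 0 < ν := lt_of_lt_of_le (by positivity) hν
  have hk2 : 0 < k ^ (-2 : ℝ) := Real.rpow_pos_of_pos hk0 _
  have hs0 : 0 < s := lt_of_lt_of_le (by positivity) hs
  have hkG : 0 ≤ k ^ (-G) := Real.rpow_nonneg hk0.le _
  have hy0 : 0 ≤ δ / 2 * ν * s := by positivity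
  have h2 : (δ / 2 * ν * s) ^ p ≤ p.factorial * Real.exp (δ / 2 * ν * s) := by
    have h3 := Real.pow_div_factorial_le_exp _ hy0 p
    rw [mul_comm (p.factorial : ℝ)]
    exact (div_le_iff₀ (by positivity)).1 h3
  have h3 : (δ / 2 * cν * k) ^ p ≤ (δ / 2 * ν) ^ p := by
    apply pow_le_pow_left₀ (by positivity)
    calc δ / 2 * cν * k = δ / 2 * (cν * k) := by ring
      _ ≤ δ / 2 * ν := mul_le_mul_of_nonneg_left hν (by positivity)
  have h4 : s ^ p ≤ (p.factorial / (δ / 2 * cν) ^ p) * k ^ (-(p : ℝ)) *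
      Real.exp (δ / 2 * ν * s) := by
    have e1 : k ^ (-(p : ℝ)) = 1 / k ^ p := by
      rw [Real.rpow_neg hk0.le, Real.rpow_natCast, one_div]
    have e2 : (p.factorial / (δ / 2 * cν) ^ p) * (1 / k ^ p) * Real.exp (δ / 2 * ν * s) =
        (p.factorial * Real.exp (δ / 2 * ν * s)) / (δ / 2 * cν * k) ^ p := by
      rw [mul_pow (δ / 2 * cν) k p]
      field_simp
    rw [e1, e2, le_div_iff₀ (by positivity)]
    calc s ^ p * (δ / 2 * cν * k) ^ p ≤ s ^ p * (δ / 2 * ν) ^ p :=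
          mul_le_mul_of_nonneg_left h3 (by positivity)
      _ = (δ / 2 * ν * s) ^ p := by
        rw [← mul_pow]
        congr 1
        ring
      _ ≤ _ := h2
  have h5 : Real.exp (δ / 2 * ν * s) * Real.exp (-(δ * ν * s)) ≤
      Real.exp (-(δ * cν / 4) * k ^ (-(1 : ℝ))) := by
    rw [← Real.exp_add]
    apply Real.exp_le_exp.2
    have e1 : k * k ^ (-2 : ℝ) = k ^ (-(1 : ℝ)) := by
      calc k * k ^ (-2 : ℝ) = k ^ (1 : ℝ) * k ^ (-2 : ℝ) := by rw [Real.rpow_one]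
        _ = _ := by
          rw [← Real.rpow_add hk0]
          norm_num
    have e2 : cν * k * (1 / 2 * k ^ (-2 : ℝ)) ≤ ν * s :=
      mul_le_mul hν hs (by positivity) hν0.le
    have e3 : cν * k * (1 / 2 * k ^ (-2 : ℝ)) = cν / 2 * k ^ (-(1 : ℝ)) := by
      rw [← e1]
      ring
    rw [e3] at e2
    have e4 := mul_le_mul_of_nonneg_left e2 (by positivity : 0 ≤ δ / 2)
    linarith
  have e3 : k ^ (-G) * k ^ (-(p : ℝ)) = k ^ (-(G + p)) := by
    rw [← Real.rpow_add hk0]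
    congr 1
    ring
  have hE0 := Real.exp_pos (-(δ * ν * s))
  calc C * k ^ (-G) * s ^ p * Real.exp (-(δ * ν * s)) ≤
      C * k ^ (-G) * ((p.factorial / (δ / 2 * cν) ^ p) * k ^ (-(p : ℝ)) *
        Real.exp (δ / 2 * ν * s)) * Real.exp (-(δ * ν * s)) := by gcongr
    _ = C * (p.factorial / (δ / 2 * cν) ^ p) * (k ^ (-G) * k ^ (-(p : ℝ))) *
        (Real.exp (δ / 2 * ν * s) * Real.exp (-(δ * ν * s))) := by ring
    _ ≤ C * (p.factorial / (δ / 2 * cν) ^ p) * (k ^ (-G) * k ^ (-(p : ℝ))) *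
        Real.exp (-(δ * cν / 4) * k ^ (-(1 : ℝ))) := by
        have : 0 ≤ k ^ (-(p : ℝ)) := Real.rpow_nonneg hk0.le _
        gcongr
    _ = C * (p.factorial / (δ / 2 * cν) ^ p) * k ^ (-(G + p)) *
        Real.exp (-(δ * cν / 4) * k ^ (-(1 : ℝ))) := by rw [e3]
    _ ≤ _ := h1

end Pool.Agent.ANC
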