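import Pool.Agent.ANC.InsS
import Pool.Agent.ANC.InsT0
import Pool.Agent.ANI.RemH3

/-!
# ANC / InsH: the numbers `H3M` of (H3) after a removal, for ONE small `k` (helper75, statement of helper20)
-/

open Filter Topology Real

namespace Pool.Agent.ANC

open Pool.Agent.Kin Pool.Agent.AND Pool.Agent.ANI Pool.Agent.ANM

variable {d : ℕ} {CM : ℝ}

theorem sqrt_le_add {y : ℝ} (hy : 0 ≤ y) : √y ≤ 1 + y := by
  refine Real.sqrt_le_iff.2 ⟨by linarith, ?_⟩
  have h1 : (1 + y) ^ 2 = 1 + 2 * y + y ^ 2 := by ring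
  have h2 := sq_nonneg y
  linarith

set_option maxHeartbeats 1000000 in
theorem h3mNum (x : Ex d CM) (G : ℝ) {c1 C1 cν b Cz B1 B2 errm bem c3 : ℝ} (hc1 : 0 < c1)
    (hc2 : c1 ≤ 2) (hC1 : 1 / 4 ≤ C1) (hcν : 0 < cν) (hb : 0 < b) (hb1 : 16 * b ≤ cν)
    (hCz : 0 < Cz) (hB1 : 0 ≤ B1) (hB2 : 0 ≤ B2) (he : 0 ≤ errm) (hbe : 0 ≤ bem) (hc3 : 0 < c3)
    (hc31 : c3 ≤ 1) :
    ∀ᶠ k in 𝓝[>] (0 : ℝ), ∀ (P : AND.Par) (n s a cw : ℕ) (ν ε Kf μ ρc : ℝ), P.kap n = k →
      P.b = b → P.vi = x.vi → P.vp = x.vi / 2 → P.Cz = Cz → 0 ≤ ε → ε ≤ k ^ (13 * x.vi) →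
      0 ≤ Kf → Kf ≤ k ^ (-G) * Real.exp (ν * s / 10) → cν * k ≤ ν → ν ≤ 1 →
      1 / 2 * k ^ (-2 : ℝ) ≤ s → 1 ≤ a → 0 < μ → μ ≤ k → (cw : ℝ) ≤ k ^ (-(1 / 2) : ℝ) →
      4 * ρc ≤ 5 * s →
      H3M P n s 1 ν ε Kf (c1 / 2) (4 * C1 * Real.exp (μ * cw / a)) (sumC d 0 ν) ρc B1 B2 errm
        bem c3 := by
  have hvi := x.vi_pos
  set Cs : ℝ := (8 ^ d * d.factorial * 8) / cν ^ (d + 1) with hCs
  have hCs0 : 0 < Cs := by positivity
  set B3 : ℝ := B1 + Cz * (errm + bem * B2) with hB3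
  have hB30 : 0 ≤ B3 := by positivity
  set T1 : ℝ := Cz * c3 / 2 * (c1 / 2 / 2) with hT1
  have hT10 : 0 < T1 := by positivity
  set CF : ℝ := B3 * (4 * ((1 + Cs) * (1 + 24 * C1)) + 2 * (12 * C1) / (c1 / 2) + 2 * (12 * C1))
    with hCF
  have hCF0 : 0 ≤ CF := by positivity
  filter_upwards [ev_small (show 0 < min 1 (min (T1 / (CF + 1)) (c1 / (48 * C1))) by positivity),
    ev_le 1 (b := 13 * x.vi) (by positivity) (show 0 < c1 / 2 by positivity) 0,
    ev_exp (a := 0) 1 x.vi (b := 1) (c := b / 2) one_pos (by positivity),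
    ev_kill 1 G (d + 2) 0 (cν := cν) (δ := 1 / 40) zero_le_one hcν (by norm_num),
    ev_kill 1 0 1 0 (cν := cν) (δ := 1 / 8) zero_le_one hcν (by norm_num),
    ev_le (26 * (B3 * (12 * C1)) + 2 * bem + 4 * B3) (b := 12 * x.vi) (by positivity)
      (show 0 < min (c1 / 2 * T1) (min (c1 / 2) (c1 / 2 * Cz)) by positivity) 0,
    ev_le (2 * bem + 4 * B3) (b := 1) one_pos
      (show 0 < min (c1 / 2) (c1 / 2 * Cz) by positivity) 0]
    with k hk h1 h2 h3 h4 h5 h6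
  intro P n s a cw ν ε Kf μ ρc hκ hPb hPvi hPvp hPCz hε0 hε hKf0 hKf hνl hν1 hs ha hμ0 hμ hcw hρ
  simp only [pow_zero, mul_one, one_mul] at h1 h2 h3 h4 h5 h6
  simp only [neg_zero, Real.rpow_zero, one_mul] at h2 h4
  have hk0 := hk.1
  have hk1 : k ≤ 1 := hk.2.trans (min_le_left _ _)
  have hkT : k ≤ T1 / (CF + 1) := hk.2.trans ((min_le_right _ _).trans (min_le_left _ _))
  have hkC : k ≤ c1 / (48 * C1) := hk.2.trans ((min_le_right _ _).trans (min_le_right _ _))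
  have hν0 : 0 < ν := lt_of_lt_of_le (by positivity) hνl
  have hk2 : 0 < k ^ (-2 : ℝ) := Real.rpow_pos_of_pos hk0 _
  have hs0 : (0 : ℝ) < s := lt_of_lt_of_le (by positivity) hs
  have e1 : k * k ^ (-2 : ℝ) = k ^ (-1 : ℝ) := by
    calc k * k ^ (-2 : ℝ) = k ^ (1 : ℝ) * k ^ (-2 : ℝ) := by rw [Real.rpow_one]
      _ = _ := by
        rw [← Real.rpow_add hk0]
        norm_num
  -- the constant `Kw`
  have ha1 : (1 : ℝ) ≤ a := by exact_mod_cast ha
  have hx0 : 0 ≤ μ * cw / a := by positivity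
  have hx1 : μ * cw / a ≤ 1 := by
    rw [div_le_one (by linarith)]
    have h7 : μ * cw ≤ k * k ^ (-(1 / 2) : ℝ) := mul_le_mul hμ hcw (Nat.cast_nonneg _) hk0.le
    have h8 : k * k ^ (-(1 / 2) : ℝ) = k ^ (1 / 2 : ℝ) := by
      calc k * k ^ (-(1 / 2) : ℝ) = k ^ (1 : ℝ) * k ^ (-(1 / 2) : ℝ) := by rw [Real.rpow_one]
        _ = _ := by
          rw [← Real.rpow_add hk0]
          norm_num
    have h9 : k ^ (1 / 2 : ℝ) ≤ 1 := Real.rpow_le_one hk0.le hk1 (by norm_num)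
    linarith
  have hE1 : 1 ≤ Real.exp (μ * cw / a) := Real.one_le_exp hx0
  have hE3 : Real.exp (μ * cw / a) ≤ 3 := by
    have := Real.exp_one_lt_d9
    have h7 : Real.exp (μ * cw / a) ≤ Real.exp 1 := Real.exp_le_exp.2 hx1
    linarith
  set Kw : ℝ := 4 * C1 * Real.exp (μ * cw / a) with hKw
  have hC10 : 0 < C1 := by linarith
  have hKw1 : 1 ≤ Kw := by
    have h7 : 4 * C1 * 1 ≤ Kw := mul_le_mul_of_nonneg_left hE1 (by linarith)
    linarith
  have hKw2 : Kw ≤ 12 * C1 := by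
    have h7 : Kw ≤ 4 * C1 * 3 := mul_le_mul_of_nonneg_left hE3 (by linarith)
    linarith
  have hKw0 : 0 ≤ Kw := by linarith
  -- powers
  have hvk : k ^ (13 * x.vi) = k ^ x.vi * k ^ (12 * x.vi) := by
    rw [← Real.rpow_add hk0]
    congr 1
    ring
  have hkv0 : 0 < k ^ x.vi := Real.rpow_pos_of_pos hk0 _
  have hkvp : 1 ≤ k ^ (-(x.vi / 2)) := one_le_rpow hk0 hk1 (by linarith)
  have hk12 : 0 < k ^ (12 * x.vi) := Real.rpow_pos_of_pos hk0 _
  -- exponentials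
  have hEs : Kf * Real.exp (-(ν * (s / 8))) ≤ k ^ ((d : ℝ) + 2) := by
    refine le_trans ?_ (h3 s ν hνl hs)
    calc Kf * Real.exp (-(ν * (s / 8))) ≤
          (k ^ (-G) * Real.exp (ν * s / 10)) * Real.exp (-(ν * (s / 8))) :=
          mul_le_mul_of_nonneg_right hKf (Real.exp_pos _).le
      _ = k ^ (-G) * (Real.exp (ν * s / 10) * Real.exp (-(ν * (s / 8)))) := by ring
      _ = k ^ (-G) * Real.exp (-(1 / 40 * ν * s)) := by
          rw [← Real.exp_add]
          congr 2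
          ring
  have hEs1 : Kf * Real.exp (-(ν * s)) ≤ k := by
    have h7 : Real.exp (-(ν * s)) ≤ Real.exp (-(ν * (s / 8))) := by
      refine Real.exp_le_exp.2 ?_
      have : 0 < ν * s := by positivity
      linarith
    have h8 : k ^ ((d : ℝ) + 2) ≤ k ^ (1 : ℝ) := rpow_anti hk0 hk1 (by
      have : (0 : ℝ) ≤ d := Nat.cast_nonneg _
      linarith)
    rw [Real.rpow_one] at h8
    exact (mul_le_mul_of_nonneg_left h7 hKf0).trans (hEs.trans h8)
  have h4' : Real.exp (-(ν * (s / 8))) ≤ k := by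
    have h7 := h4 s ν hνl hs
    rw [Real.rpow_one] at h7
    have h8 : -(1 / 8 * ν * s) = -(ν * (s / 8)) := by ring
    rwa [h8] at h7
  have hSν := sumC_le d hcν hk0 hνl
  rw [← hCs] at hSν
  have hSν0 : 0 ≤ sumC d 0 ν := ANF.Heat.sumC_nonneg d 0 hν0
  have hsq : ∀ y : ℝ, 0 ≤ y → √y ≤ 1 + y := fun y hy => sqrt_le_add hy
  have hSq : k ^ ((d : ℝ) + 2) * √(sumC d 0 ν) ≤ k * (1 + Cs) := by
    have h7 := hsq _ hSν0
    have h8 : k ^ ((d : ℝ) + 2) = k * k ^ ((d : ℝ) + 1) := by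
      calc k ^ ((d : ℝ) + 2) = k ^ (1 + ((d : ℝ) + 1)) := by congr 1; ring
        _ = _ := by rw [Real.rpow_add hk0, Real.rpow_one]
    have h9 : k ^ ((d : ℝ) + 1) * k ^ (-((d : ℝ) + 1)) = 1 := by
      rw [← Real.rpow_add hk0]
      simp
    have h10 : 0 < k ^ ((d : ℝ) + 1) := Real.rpow_pos_of_pos hk0 _
    have h11 : k ^ ((d : ℝ) + 1) ≤ 1 := Real.rpow_le_one hk0.le hk1 (by positivity)
    calc k ^ ((d : ℝ) + 2) * √(sumC d 0 ν) ≤
          k ^ ((d : ℝ) + 2) * (1 + Cs * k ^ (-((d : ℝ) + 1))) := by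
          refine mul_le_mul_of_nonneg_left (h7.trans (by linarith)) (by positivity)
      _ = k * (k ^ ((d : ℝ) + 1) + Cs * (k ^ ((d : ℝ) + 1) * k ^ (-((d : ℝ) + 1)))) := by
          rw [h8]; ring
      _ ≤ k * (1 + Cs) := by
          rw [h9, mul_one]
          gcongr
  have hcast : ((1 : ℕ) : ℝ) = 1 := Nat.cast_one
  -- targets
  have h5a := h5.trans (min_le_left _ _)
  have h5b := h5.trans ((min_le_right _ _).trans (min_le_left _ _))
  have h5c := h5.trans ((min_le_right _ _).trans (min_le_right _ _))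
  have h6a := h6.trans (min_le_left _ _)
  have h6b := h6.trans (min_le_right _ _)
  have hmul : ∀ A T : ℝ, 0 ≤ A → A * k ^ (12 * x.vi) ≤ T → A * ε ≤ k ^ x.vi * T := by
    intro A T hA hT
    calc A * ε ≤ A * (k ^ x.vi * k ^ (12 * x.vi)) := by
          rw [← hvk]
          exact mul_le_mul_of_nonneg_left hε hA
      _ = k ^ x.vi * (A * k ^ (12 * x.vi)) := by ring
      _ ≤ _ := mul_le_mul_of_nonneg_left hT hkv0.le
  refine ⟨by linarith, hKw1, hε.trans h1, hB1, hB2, he, hbe, hc3.le, hc31, ?_, ?_, hρ, ?_, ?_,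
    ?_, ?_, ?_, ?_, ?_⟩
  · rw [hκ, hPb]
    calc 16 * (b * k) = 16 * b * k := by ring
      _ ≤ cν * k := mul_le_mul_of_nonneg_right hb1 hk0.le
      _ ≤ _ := hνl
  · rw [hκ, hPb, hPvi]
    refine le_trans (Real.exp_le_exp.2 ?_) h2
    have h7 : b / 2 * k ^ (-1 : ℝ) = b * k * (1 / 2 * k ^ (-2 : ℝ)) := by
      rw [← e1]; ring
    have h8 : b * k * (1 / 2 * k ^ (-2 : ℝ)) ≤ b * k * s :=
      mul_le_mul_of_nonneg_left hs (by positivity)
    linarith
  · have h7 : Real.exp (-(ν * (s / 2))) ≤ Real.exp (-(ν * (s / 8))) := by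
      refine Real.exp_le_exp.2 ?_
      have : 0 < ν * s := by positivity
      linarith
    calc Kw * Real.exp (-(ν * (s / 2))) ≤ 12 * C1 * k :=
          mul_le_mul hKw2 (h7.trans h4') (Real.exp_pos _).le (by positivity)
      _ ≤ 12 * C1 * (c1 / (48 * C1)) := mul_le_mul_of_nonneg_left hkC (by positivity)
      _ = c1 / 2 / 2 := by field_simp; ring
  · rw [hκ, hPvi, hPCz, hcast]
    have h7 : 26 * (B3 * (12 * C1)) * k ^ (12 * x.vi) ≤ c1 / 2 * T1 := by
      refine le_trans (mul_le_mul_of_nonneg_right ?_ hk12.le) h5a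
      have : 0 ≤ 2 * bem + 4 * B3 := by positivity
      linarith
    have h8 := hmul _ _ (by positivity) h7
    calc 26 * ((B1 + Cz * (errm + bem * B2)) * Kw * ε) ≤
          26 * (B3 * (12 * C1) * ε) := by
          rw [← hB3]
          gcongr
      _ = 26 * (B3 * (12 * C1)) * ε := by ring
      _ ≤ k ^ x.vi * (c1 / 2 * T1) := h8
      _ = _ := by rw [hT1]; ring
  · rw [hPCz, hcast, ← hB3]
    have hE0 := Real.exp_pos (-(ν * (s / 8)))
    have h7 : (4 * (Kf * √(sumC d 0 ν) * √(2 * Kw)) + 2 * (Kf * Kw) / (c1 / 2) + 2 * Kw) *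
        Real.exp (-(ν * (s / 8))) ≤
        (4 * ((1 + Cs) * (1 + 24 * C1)) + 2 * (12 * C1) / (c1 / 2) + 2 * (12 * C1)) * k := by
      have t1 : Kf * √(sumC d 0 ν) * √(2 * Kw) * Real.exp (-(ν * (s / 8))) ≤
          (1 + Cs) * (1 + 24 * C1) * k := by
        have h8 := hsq (2 * Kw) (by positivity)
        calc Kf * √(sumC d 0 ν) * √(2 * Kw) * Real.exp (-(ν * (s / 8))) =
              (Kf * Real.exp (-(ν * (s / 8)))) * √(sumC d 0 ν) * √(2 * Kw) := by ring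
          _ ≤ k ^ ((d : ℝ) + 2) * √(sumC d 0 ν) * (1 + 24 * C1) := by
              have h9 : √(2 * Kw) ≤ 1 + 24 * C1 := h8.trans (by linarith)
              gcongr
          _ ≤ k * (1 + Cs) * (1 + 24 * C1) :=
              mul_le_mul_of_nonneg_right hSq (by positivity)
          _ = _ := by ring
      have t2 : 2 * (Kf * Kw) / (c1 / 2) * Real.exp (-(ν * (s / 8))) ≤
          2 * (12 * C1) / (c1 / 2) * k := by
        have h8 : k ^ ((d : ℝ) + 2) ≤ k ^ (1 : ℝ) := rpow_anti hk0 hk1 (by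
          have : (0 : ℝ) ≤ d := Nat.cast_nonneg _
          linarith)
        rw [Real.rpow_one] at h8
        calc 2 * (Kf * Kw) / (c1 / 2) * Real.exp (-(ν * (s / 8))) =
              2 * Kw / (c1 / 2) * (Kf * Real.exp (-(ν * (s / 8)))) := by ring
          _ ≤ 2 * (12 * C1) / (c1 / 2) * k := by
              have h9 := hEs.trans h8
              have h10 : 0 ≤ Kf * Real.exp (-(ν * (s / 8))) := by positivity
              gcongr
      have t3 : 2 * Kw * Real.exp (-(ν * (s / 8))) ≤ 2 * (12 * C1) * k := by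
        gcongr
      calc (4 * (Kf * √(sumC d 0 ν) * √(2 * Kw)) + 2 * (Kf * Kw) / (c1 / 2) + 2 * Kw) *
            Real.exp (-(ν * (s / 8))) =
            4 * (Kf * √(sumC d 0 ν) * √(2 * Kw) * Real.exp (-(ν * (s / 8)))) +
            2 * (Kf * Kw) / (c1 / 2) * Real.exp (-(ν * (s / 8))) +
            2 * Kw * Real.exp (-(ν * (s / 8))) := by ring
        _ ≤ 4 * ((1 + Cs) * (1 + 24 * C1) * k) + 2 * (12 * C1) / (c1 / 2) * k +
            2 * (12 * C1) * k := by linarith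
        _ = _ := by ring
    calc B3 * (4 * (Kf * √(sumC d 0 ν) * √(2 * Kw)) + 2 * (Kf * Kw) / (c1 / 2) + 2 * Kw) *
          Real.exp (-(ν * (s / 8))) =
          B3 * ((4 * (Kf * √(sumC d 0 ν) * √(2 * Kw)) + 2 * (Kf * Kw) / (c1 / 2) + 2 * Kw) *
            Real.exp (-(ν * (s / 8)))) := by ring
      _ ≤ B3 * ((4 * ((1 + Cs) * (1 + 24 * C1)) + 2 * (12 * C1) / (c1 / 2) + 2 * (12 * C1)) * k) :=
          mul_le_mul_of_nonneg_left h7 hB30
      _ = CF * k := by rw [hCF]; ring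
      _ ≤ CF * (T1 / (CF + 1)) := mul_le_mul_of_nonneg_left hkT hCF0
      _ ≤ T1 := by
          rw [← mul_div_assoc, div_le_iff₀ (by linarith)]
          have h9 : T1 * (CF + 1) = CF * T1 + T1 := by ring
          linarith only [h9, hT10]
      _ = _ := by rw [hT1]; ring
  · rw [hκ, hPvi, hPvp, hcast]
    have h7 : 2 * bem * k ^ (12 * x.vi) ≤ c1 / 2 := by
      refine le_trans (mul_le_mul_of_nonneg_right ?_ hk12.le) h5b
      have : 0 ≤ 26 * (B3 * (12 * C1)) + 4 * B3 := by positivity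
      linarith
    have h8 := hmul _ _ (by positivity) h7
    calc 2 * (bem * ε) = 2 * bem * ε := by ring
      _ ≤ k ^ x.vi * (c1 / 2) := h8
      _ = c1 / 2 * (k ^ x.vi * (1 * 1)) := by ring
      _ ≤ _ := by gcongr
  · rw [hκ, hPvp, hcast]
    have h7 : 2 * bem * k ≤ c1 / 2 := by
      rw [Real.rpow_one] at h6a
      refine le_trans (mul_le_mul_of_nonneg_right ?_ hk0.le) h6a
      linarith
    calc 2 * (bem * (Kf * Real.exp (-(ν * s)))) ≤ 2 * (bem * k) := by gcongr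
      _ = 2 * bem * k := by ring
      _ ≤ c1 / 2 * (1 * 1) := by linarith
      _ ≤ _ := by gcongr
  · rw [hκ, hPvi, hPCz, hcast, ← hB3]
    have h7 : 4 * B3 * k ^ (12 * x.vi) ≤ c1 / 2 * Cz := by
      refine le_trans (mul_le_mul_of_nonneg_right ?_ hk12.le) h5c
      have : 0 ≤ 26 * (B3 * (12 * C1)) + 2 * bem := by positivity
      linarith
    have h8 := hmul _ _ (by positivity) h7
    calc 4 * (B3 * ε) = 4 * B3 * ε := by ring
      _ ≤ k ^ x.vi * (c1 / 2 * Cz) := h8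
      _ = _ := by ring
  · rw [hPCz, hcast, ← hB3]
    have h7 : 4 * B3 * k ≤ c1 / 2 * Cz := by
      rw [Real.rpow_one] at h6b
      refine le_trans (mul_le_mul_of_nonneg_right ?_ hk0.le) h6b
      linarith
    calc 4 * (B3 * (Kf * Real.exp (-(ν * s)))) ≤ 4 * (B3 * k) := by gcongr
      _ = 4 * B3 * k := by ring
      _ ≤ c1 / 2 * Cz := h7
      _ = _ := by ring

end Pool.Agent.ANC
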