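import Mathlib

/-!
# ANC / Pow: powers of a small parameter

`∀ᶠ k in 𝓝[>] (0 : ℝ), P k` means: for all sufficiently small `k > 0`; such statements are combined with `filter_upwards` and
`Filter.Eventually.and`, `ev_iff` extracts a threshold.  Facts: `ev_pow` (a higher power beats a constant, logarithms and a lower power),
`ev_exp` (stretched exponentials beat powers), `ev_le` (positive powers are small), `ev_log`.
-/

open Filter Topology Real

namespace Pool.Agent.ANC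

/-- thresholds -/
theorem ev_iff {P : ℝ → Prop} :
    (∀ᶠ k in 𝓝[>] (0 : ℝ), P k) ↔ ∃ k0 : ℝ, 0 < k0 ∧ k0 ≤ 1 ∧ ∀ k, 0 < k → k ≤ k0 → P k := by
  constructor
  · intro h
    rw [eventually_nhdsWithin_iff, Metric.eventually_nhds_iff] at h
    obtain ⟨e, he, h⟩ := h
    refine ⟨min (e / 2) 1, lt_min (by linarith) one_pos, min_le_right _ _, fun k hk hk' => ?_⟩
    refine h ?_ hk
    rw [Real.dist_eq, sub_zero, abs_of_pos hk]
    have := hk'.trans (min_le_left _ _)
    linarith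
  · rintro ⟨k0, hk0, -, h⟩
    rw [eventually_nhdsWithin_iff, Metric.eventually_nhds_iff]
    refine ⟨k0, hk0, fun k hk hk' => h k hk' ?_⟩
    rw [Real.dist_eq, sub_zero] at hk
    exact (le_abs_self k).trans hk.le

/-- small parameters are positive and below any positive number -/
theorem ev_small {e : ℝ} (he : 0 < e) : ∀ᶠ k in 𝓝[>] (0 : ℝ), 0 < k ∧ k ≤ e :=
  ev_iff.2 ⟨min e 1, lt_min he one_pos, min_le_right _ _,
    fun _ hk hk' => ⟨hk, hk'.trans (min_le_left _ _)⟩⟩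

theorem tendsto_inv : Tendsto (fun k : ℝ => 1 / k) (𝓝[>] 0) atTop := by
  simpa [one_div] using tendsto_inv_nhdsGT_zero (𝕜 := ℝ)

theorem ev_inv {P : ℝ → Prop} (h : ∀ᶠ y in atTop, P y) :
    ∀ᶠ k in 𝓝[>] (0 : ℝ), P (1 / k) := tendsto_inv.eventually h

/-- logarithms are beaten by powers -/
theorem ev_log (C : ℝ) {e : ℝ} (he : 0 < e) (m : ℕ) :
    ∀ᶠ k in 𝓝[>] (0 : ℝ), C * Real.log (1 / k) ^ m * k ^ e ≤ 1 := by
  have h1 : (fun y : ℝ => C * Real.log y ^ m) =o[atTop] fun y => y ^ e := by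
    have h2 : (fun y : ℝ => Real.log y ^ (m : ℝ)) =o[atTop] fun y => y ^ e :=
      isLittleO_log_rpow_rpow_atTop (m : ℝ) he
    have h3 : (fun y : ℝ => Real.log y ^ m) =o[atTop] fun y => y ^ e := by
      refine h2.congr_left fun y => ?_
      rw [Real.rpow_natCast]
    exact h3.const_mul_left C
  have h4 := h1.bound one_pos
  filter_upwards [ev_inv h4, ev_small one_pos] with k hk hk1
  have hk0 : 0 < k := hk1.1
  rw [one_mul, Real.norm_eq_abs, Real.norm_eq_abs,
    abs_of_nonneg (Real.rpow_nonneg (by positivity : (0 : ℝ) ≤ 1 / k) e)] at hk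
  have h5 : (1 / k) ^ e * k ^ e = 1 := by
    rw [← Real.mul_rpow (by positivity) hk0.le, one_div, inv_mul_cancel₀ hk0.ne', Real.one_rpow]
  calc C * Real.log (1 / k) ^ m * k ^ e ≤ (1 / k) ^ e * k ^ e := by
        apply mul_le_mul_of_nonneg_right ((le_abs_self _).trans hk)
        exact Real.rpow_nonneg hk0.le e
    _ = 1 := h5

/-- a higher power of a small number beats constants, logarithms and a lower power -/
theorem ev_pow (C : ℝ) {a b : ℝ} (h : a < b) (m : ℕ) :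
    ∀ᶠ k in 𝓝[>] (0 : ℝ), C * Real.log (1 / k) ^ m * k ^ b ≤ k ^ a := by
  filter_upwards [ev_log C (sub_pos.2 h) m, ev_small one_pos] with k hk hk1
  have hk0 : 0 < k := hk1.1
  have h1 : k ^ b = k ^ (b - a) * k ^ a := by
    rw [← Real.rpow_add hk0]
    ring_nf
  rw [h1, ← mul_assoc]
  calc C * Real.log (1 / k) ^ m * k ^ (b - a) * k ^ a ≤ 1 * k ^ a := by
        apply mul_le_mul_of_nonneg_right hk
        exact Real.rpow_nonneg hk0.le a
    _ = k ^ a := one_mul _

/-- without logarithms -/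
theorem ev_pow' (C : ℝ) {a b : ℝ} (h : a < b) :
    ∀ᶠ k in 𝓝[>] (0 : ℝ), C * k ^ b ≤ k ^ a := by
  filter_upwards [ev_pow C h 0] with k hk
  simpa using hk

/-- positive powers are small -/
theorem ev_le (C : ℝ) {b e : ℝ} (hb : 0 < b) (he : 0 < e) (m : ℕ) :
    ∀ᶠ k in 𝓝[>] (0 : ℝ), C * Real.log (1 / k) ^ m * k ^ b ≤ e := by
  filter_upwards [ev_log (C / e) hb m] with k hk
  have h1 : C * Real.log (1 / k) ^ m * k ^ b = e * (C / e * Real.log (1 / k) ^ m * k ^ b) := by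
    field_simp
  rw [h1]
  calc e * (C / e * Real.log (1 / k) ^ m * k ^ b) ≤ e * 1 := by
        apply mul_le_mul_of_nonneg_left hk he.le
    _ = e := mul_one e

/-- negative powers are large -/
theorem ev_ge (C : ℝ) {b : ℝ} (hb : 0 < b) (m : ℕ) :
    ∀ᶠ k in 𝓝[>] (0 : ℝ), C * Real.log (1 / k) ^ m ≤ k ^ (-b) := by
  filter_upwards [ev_pow C (neg_lt_zero.2 hb) m] with k hk
  simpa using hk

/-- stretched exponentials beat powers -/
theorem ev_exp (C a N : ℝ) {b c : ℝ} (hb : 0 < b) (hc : 0 < c) :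
    ∀ᶠ k in 𝓝[>] (0 : ℝ), C * k ^ (-a) * Real.exp (-c * k ^ (-b)) ≤ k ^ N := by
  -- `y = k ^ (-b)`, `k = y ^ (-1/b)`
  have h1 : Tendsto (fun k : ℝ => k ^ (-b)) (𝓝[>] 0) atTop := by
    have h2 : Tendsto (fun y : ℝ => y ^ b) atTop atTop := tendsto_rpow_atTop hb
    have h3 := h2.comp tendsto_inv
    refine h3.congr' ?_
    filter_upwards [ev_small one_pos] with k hk
    rw [Function.comp_apply, one_div, Real.inv_rpow hk.1.le, Real.rpow_neg hk.1.le]
  have h4 : (fun y : ℝ => C * y ^ ((a + N) / b)) =o[atTop] fun y => Real.exp (c * y) :=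
    (isLittleO_rpow_exp_pos_mul_atTop ((a + N) / b) hc).const_mul_left C
  have h5 := h1.eventually (h4.bound one_pos)
  filter_upwards [h5, ev_small one_pos] with k hk hk1
  have hk0 : 0 < k := hk1.1
  rw [one_mul, Real.norm_eq_abs, Real.norm_eq_abs, abs_of_pos (Real.exp_pos _)] at hk
  have h6 : (k ^ (-b)) ^ ((a + N) / b) = k ^ (-(a + N)) := by
    rw [← Real.rpow_mul hk0.le]
    congr 1
    field_simp
  rw [h6] at hk
  have h7 : C * k ^ (-(a + N)) ≤ Real.exp (c * k ^ (-b)) := (le_abs_self _).trans hk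
  have h8 : k ^ (-a) = k ^ (-(a + N)) * k ^ N := by
    rw [← Real.rpow_add hk0]
    ring_nf
  rw [h8]
  calc C * (k ^ (-(a + N)) * k ^ N) * Real.exp (-c * k ^ (-b))
      = (C * k ^ (-(a + N))) * Real.exp (-c * k ^ (-b)) * k ^ N := by ring
    _ ≤ Real.exp (c * k ^ (-b)) * Real.exp (-c * k ^ (-b)) * k ^ N := by gcongr
    _ = k ^ N := by rw [← Real.exp_add]; simp

/-- geometric sums of powers of the levels -/
theorem sum_rpow_le {k v : ℝ} (hk : 0 ≤ k) (hv : 0 < v) (N : ℕ) :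
    ∑ n ∈ Finset.range N, (k * (1 / 4 : ℝ) ^ n) ^ v ≤ k ^ v / (1 - (1 / 4 : ℝ) ^ v) := by
  have h0 : (0 : ℝ) < (1 / 4 : ℝ) ^ v := Real.rpow_pos_of_pos (by norm_num) v
  have h1 : (1 / 4 : ℝ) ^ v < 1 := Real.rpow_lt_one (by norm_num) (by norm_num) hv
  have h2 : ∀ n : ℕ, (k * (1 / 4 : ℝ) ^ n) ^ v = k ^ v * ((1 / 4 : ℝ) ^ v) ^ n := by
    intro n
    rw [Real.mul_rpow hk (by positivity), ← Real.rpow_natCast, ← Real.rpow_mul (by norm_num),
      mul_comm (n : ℝ) v, Real.rpow_mul (by norm_num), Real.rpow_natCast]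
  simp_rw [h2]
  rw [← Finset.mul_sum, div_eq_mul_inv]
  apply mul_le_mul_of_nonneg_left _ (Real.rpow_nonneg hk v)
  have h3 := Summable.sum_le_tsum (f := fun n : ℕ => ((1 / 4 : ℝ) ^ v) ^ n) (Finset.range N)
    (fun n _ => by positivity) (summable_geometric_of_lt_one h0.le h1)
  rwa [tsum_geometric_of_lt_one h0.le h1] at h3

end Pool.Agent.ANC
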