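import Pool.Agent.ANC.Const
import Pool.Agent.ANC.Pow

/-!
# ANC / InsN: the numbers of the insertion theorem (annulus, content, re-freezing), for ONE small `k = κ'`

All statements have the form for all small `k > 0`, for all parameters with the stated size.
`x : Ex d CM` are the exponents.  Sizes: polynomial quantities of the cluster (`P`, entries times pair weights, ..) are `≤ k ^ (-v1)`.

* `ann_num`  : hypotheses of `ANI.rd_cls` with `ε = k ^ van`, `q = k ^ (2 vi) τ`, `W = 1`, `Kf = Kg`.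
* `cont_num` : hypotheses of `ANI.Blb.main` and the size of its output.
* `rf_num`   : hypotheses of `ANI.RawIn.cls2` and the size of the total closeness.
-/

open Filter Topology Real

namespace Pool.Agent.ANC

variable {d : ℕ} {CM : ℝ}

theorem rpow_nn {k : ℝ} (hk : 0 < k) (a : ℝ) : 0 ≤ k ^ a := Real.rpow_nonneg hk.le a

/-- product of two bounds -/
theorem mul_le_rpow {k a b A B : ℝ} (hk : 0 < k) (hA0 : 0 ≤ A) (hB0 : 0 ≤ B) {ca cb : ℝ}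
    (hA : A ≤ ca * k ^ a) (hB : B ≤ cb * k ^ b) : A * B ≤ ca * cb * k ^ (a + b) := by
  have h1 : 0 ≤ ca * k ^ a := hA0.trans hA
  calc A * B ≤ (ca * k ^ a) * (cb * k ^ b) := mul_le_mul hA hB hB0 h1
    _ = ca * cb * (k ^ a * k ^ b) := by ring
    _ = ca * cb * k ^ (a + b) := by rw [Real.rpow_add hk]

theorem Ex.c0 (_x : Ex d CM) (hd : 3 ≤ d) : (0 : ℝ) < d := by
  have : 0 < d := by omega
  exact_mod_cast this

/-- **annulus** (`u` = change of the diagonal, `n` = number of sites) -/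
theorem ann_num (x : Ex d CM) (hd : 3 ≤ d) (Cu Cn CI c : ℝ) (hCu : 0 ≤ Cu) (hCn : 0 ≤ Cn)
    (_hCI : 0 ≤ CI) (hc : 0 < c) :
    ∀ᶠ k in 𝓝[>] (0 : ℝ), ∀ u n C1 I τ K0 Cω Kg : ℝ,
      0 ≤ u → u ≤ Cu * k ^ x.th → 0 ≤ n → n ≤ Cn * k ^ (-(d * x.v2 + x.v1)) →
      0 ≤ C1 → C1 ≤ k ^ (-x.v1) → 0 ≤ I → I ≤ CI → 0 ≤ τ → 0 ≤ K0 → K0 ≤ 2 →
      0 ≤ Cω → Cω ≤ k ^ (-x.v1) → 0 ≤ Kg →
      K0 * (2 * u * n * C1) ≤ 1 / 2 ∧ (2 * u * n * C1) ^ 2 * (n * I) ≤ (k ^ x.van) ^ 2 ∧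
      4 * K0 * Cω * (2 * u * n * C1) ≤ k ^ x.van ∧
      (2 * u * n * C1) ^ 4 * (n * τ) ≤ k ^ (2 * x.vi) * τ ∧
      (2 * u * n) ^ 2 * (n * I) ^ 2 ≤ 1 ∧ 2 * u * n * (n * I) / c ≤ 1 ∧
      2 * u * n * C1 * Kg ≤ Kg := by
  have hd0 := x.c0 hd
  have hdv : 0 < d * x.v2 := mul_pos hd0 x.v2_pos
  have hv1 := x.v1_pos
  -- exponents
  set N := d * x.v2 + x.v1 with hN
  set E := x.th - N - x.v1 with hE
  have a1 : x.van + x.v2 - 2 * x.v1 < E := by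
    have := x.A1
    have e : ((d : ℝ) + 1) * x.v2 = d * x.v2 + x.v2 := by ring
    rw [e] at this
    rw [hE, hN]; linarith
  have hv12 : 6 * x.v1 < x.v2 := by
    have h1 := x.I0
    have h2 := x.v1_eq
    have h3 := x.s_eq
    have h4 := x.v_lt
    have h5 := x.s_pos
    have h6 := x.v2_pos
    have h7 : x.s * x.v2 ≤ 1 * x.v2 := mul_le_mul_of_nonneg_right (by linarith) h6.le
    linarith
  have a2 : x.van < E := by linarith
  have a3 : 2 * x.van < 2 * E - N := by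
    have := x.A1'
    have e : 3 / 2 * ((d : ℝ) + 1) * x.v2 = 3 / 2 * (d * x.v2) + 3 / 2 * x.v2 := by ring
    rw [e] at this
    rw [hE, hN]; linarith
  have a4 : x.van < E - x.v1 := by linarith
  have a5 : 2 * x.vi < 4 * E - N := by
    have h1 := x.I6
    have h2 := x.van_pos
    linarith
  have a6 : 0 < 2 * (x.th - N) - 2 * N := by
    have := x.A5
    have e : 2 * ((d : ℝ) + 1) * x.v2 = 2 * (d * x.v2) + 2 * x.v2 := by ring
    rw [e] at this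
    have h8 : (0 : ℝ) < 1 / (100 * d) := by positivity
    rw [hN]; linarith
  have a7 : 0 < E := x.van_pos.trans a2
  filter_upwards [ev_small one_pos, ev_pow' (4 * Cu * Cn) (a := 0) (b := E) a7,
    ev_pow' ((2 * Cu * Cn) ^ 2 * (Cn * CI)) (a := 2 * x.van) (b := 2 * E - N) a3,
    ev_pow' (16 * Cu * Cn) (a := x.van) (b := E - x.v1) a4,
    ev_pow' ((2 * Cu * Cn) ^ 4 * Cn) (a := 2 * x.vi) (b := 4 * E - N) a5,
    ev_pow' ((2 * Cu * Cn) ^ 2 * (Cn * CI) ^ 2) (a := 0) (b := 2 * (x.th - N) - 2 * N) a6,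
    ev_pow' (2 * Cu * Cn * (Cn * CI) / c) (a := 0) (b := (x.th - N) - N) (by linarith),
    ev_pow' (4 * (2 * Cu * Cn)) (a := 0) (b := E) a7]
    with k hk h1 h2 h3 h4 h5 h6 h7
  have hk0 := hk.1
  simp only [Real.rpow_zero] at h1 h5 h6 h7
  intro u n C1 I τ K0 Cω Kg hu0 hu hn0 hn hC0 hC hI0 hI hτ hK0 hK hω0 hω hKg
  have hE0 := rpow_nn hk0 E
  have hun0 : 0 ≤ 2 * u * n := by positivity
  have b0 : 2 * u * n ≤ 2 * Cu * Cn * k ^ (x.th - N) := by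
    have e1 := mul_le_rpow (ca := 2 * Cu) (cb := Cn) hk0 (by positivity : 0 ≤ 2 * u) hn0
      (by linarith : 2 * u ≤ 2 * Cu * k ^ x.th) hn
    rwa [← sub_eq_add_neg] at e1
  have b1 : 2 * u * n * C1 ≤ 2 * Cu * Cn * k ^ E := by
    have e1 := mul_le_rpow (cb := 1) hk0 hun0 hC0 b0 (by rw [one_mul]; exact hC)
    rw [mul_one, ← sub_eq_add_neg] at e1
    exact e1
  have b10 : 0 ≤ 2 * u * n * C1 := by positivity
  have hX0 : 0 ≤ 2 * Cu * Cn := by positivity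
  have b2 : n * I ≤ Cn * CI * k ^ (-N) := by
    calc n * I ≤ (Cn * k ^ (-N)) * CI := mul_le_mul hn hI hI0 (hn0.trans hn)
      _ = _ := by ring
  have hnI : 0 ≤ n * I := by positivity
  have b3 : (2 * u * n * C1) ^ 2 ≤ (2 * Cu * Cn) ^ 2 * k ^ (2 * E) := by
    calc (2 * u * n * C1) ^ 2 ≤ (2 * Cu * Cn * k ^ E) ^ 2 := pow_le_pow_left₀ b10 b1 2
      _ = (2 * Cu * Cn) ^ 2 * (k ^ E) ^ 2 := by ring
      _ = _ := by
        rw [← Real.rpow_natCast (k ^ E), ← Real.rpow_mul hk0.le]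
        congr 2
        push_cast
        ring
  have b4 : (2 * u * n * C1) ^ 4 ≤ (2 * Cu * Cn) ^ 4 * k ^ (4 * E) := by
    calc (2 * u * n * C1) ^ 4 ≤ (2 * Cu * Cn * k ^ E) ^ 4 := pow_le_pow_left₀ b10 b1 4
      _ = (2 * Cu * Cn) ^ 4 * (k ^ E) ^ 4 := by ring
      _ = _ := by
        rw [← Real.rpow_natCast (k ^ E), ← Real.rpow_mul hk0.le]
        congr 2
        push_cast
        ring
  refine ⟨?_, ?_, ?_, ?_, ?_, ?_, ?_⟩
  · calc K0 * (2 * u * n * C1) ≤ 2 * (2 * Cu * Cn * k ^ E) := mul_le_mul hK b1 b10 (by norm_num)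
      _ = 1 / 2 * (4 * (2 * Cu * Cn) * k ^ E) := by ring
      _ ≤ 1 / 2 * 1 := by linarith
      _ = 1 / 2 := mul_one _
  · have e1 := mul_le_rpow hk0 (sq_nonneg _) hnI b3 b2
    rw [← sub_eq_add_neg] at e1
    refine e1.trans (h2.trans (le_of_eq ?_))
    rw [← Real.rpow_natCast (k ^ x.van), ← Real.rpow_mul hk0.le]
    congr 1
    push_cast
    ring
  · have e0 : 4 * K0 * Cω ≤ 8 * k ^ (-x.v1) := by
      calc 4 * K0 * Cω ≤ 8 * Cω := mul_le_mul_of_nonneg_right (by linarith) hω0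
        _ ≤ _ := by linarith
    have e1 := mul_le_rpow hk0 (by positivity : 0 ≤ 4 * K0 * Cω) b10 e0 b1
    have e2 : 8 * (2 * Cu * Cn) * k ^ (-x.v1 + E) = 16 * Cu * Cn * k ^ (E - x.v1) := by
      rw [neg_add_eq_sub]; ring
    rw [e2] at e1
    exact e1.trans h3
  · have e1 := mul_le_rpow hk0 (by positivity : 0 ≤ (2 * u * n * C1) ^ 4) hn0 b4 hn
    rw [← sub_eq_add_neg] at e1
    calc (2 * u * n * C1) ^ 4 * (n * τ) = ((2 * u * n * C1) ^ 4 * n) * τ := by ring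
      _ ≤ k ^ (2 * x.vi) * τ := mul_le_mul_of_nonneg_right (e1.trans h4) hτ
  · have e0 : (2 * u * n) ^ 2 ≤ (2 * Cu * Cn) ^ 2 * k ^ (2 * (x.th - N)) := by
      calc (2 * u * n) ^ 2 ≤ (2 * Cu * Cn * k ^ (x.th - N)) ^ 2 := pow_le_pow_left₀ hun0 b0 2
        _ = (2 * Cu * Cn) ^ 2 * (k ^ (x.th - N)) ^ 2 := by ring
        _ = _ := by
          rw [← Real.rpow_natCast (k ^ (x.th - N)), ← Real.rpow_mul hk0.le]
          congr 2
          push_cast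
          ring
    have e1 : (n * I) ^ 2 ≤ (Cn * CI) ^ 2 * k ^ (-(2 * N)) := by
      calc (n * I) ^ 2 ≤ (Cn * CI * k ^ (-N)) ^ 2 := pow_le_pow_left₀ hnI b2 2
        _ = (Cn * CI) ^ 2 * (k ^ (-N)) ^ 2 := by ring
        _ = _ := by
          rw [← Real.rpow_natCast (k ^ (-N)), ← Real.rpow_mul hk0.le]
          congr 2
          push_cast
          ring
    have e2 := mul_le_rpow hk0 (sq_nonneg _) (sq_nonneg _) e0 e1
    rw [← sub_eq_add_neg] at e2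
    exact e2.trans h5
  · have e2 := mul_le_rpow hk0 hun0 hnI b0 b2
    rw [← sub_eq_add_neg] at e2
    calc 2 * u * n * (n * I) / c ≤ (2 * Cu * Cn * (Cn * CI) * k ^ (x.th - N - N)) / c :=
          div_le_div_of_nonneg_right e2 hc.le
      _ = 2 * Cu * Cn * (Cn * CI) / c * k ^ (x.th - N - N) := by ring
      _ ≤ 1 := h6
  · have : 2 * u * n * C1 ≤ 1 := by
      have := mul_nonneg hX0 hE0
      linarith
    calc 2 * u * n * C1 * Kg ≤ 1 * Kg := mul_le_mul_of_nonneg_right this hKg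
      _ = Kg := one_mul _

/-- powers of a bound `c k^a` -/
theorem pow_le_rpow {k a A c : ℝ} (hk : 0 < k) (hA0 : 0 ≤ A) (hA : A ≤ c * k ^ a) (n : ℕ) :
    A ^ n ≤ c ^ n * k ^ (n * a) := by
  calc A ^ n ≤ (c * k ^ a) ^ n := pow_le_pow_left₀ hA0 hA n
    _ = c ^ n * (k ^ a) ^ n := mul_pow _ _ _
    _ = _ := by
      rw [← Real.rpow_natCast (k ^ a), ← Real.rpow_mul hk.le, mul_comm a (n : ℝ)]

/-- `s v2 = 512 v1 = 64 vi` -/
theorem Ex.sv2 (x : Ex d CM) : x.s * x.v2 = 512 * x.v1 := by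
  have h1 := x.I0
  have h2 := x.v1_eq
  linarith

theorem Ex.vi8 (x : Ex d CM) : x.vi = 8 * x.v1 := by
  have h2 := x.v1_eq
  linarith

/-- **content** (hypotheses of `ANI.Blb.main` and the size of its output); `J` bounds the number of blobs,
`wR ≥ cw k ^ (-s v2)` the weight at the distance `R` -/
theorem cont_num (x : Ex d CM) (J : ℕ) (CK cw c1 : ℝ) (hCK : 0 ≤ CK) (hcw : 0 < cw)
    (hc1 : 0 < c1) :
    ∀ᶠ k in 𝓝[>] (0 : ℝ), ∀ (m : ℕ) (P C0 Kd wR τ : ℝ), m ≤ J → 0 ≤ P → P ≤ k ^ (-x.v1) →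
      0 ≤ C0 → C0 ≤ k ^ (-x.v1) → 0 ≤ Kd → Kd ≤ CK → cw * k ^ (-(x.s * x.v2)) ≤ wR → 0 ≤ τ →
      m * (2 * (P + 1) * (2 * C0 / wR + Kd * (2 * C0) * (2 * C0 / wR))) ≤ C0 ∧
      m * (2 * (P + 1) * (2 * C0 / wR + Kd * (2 * C0) * (2 * C0 / wR))) ≤ k ^ (32 * x.vi) ∧
      (16 : ℝ) ^ m * (256 * P ^ 4 * (2 * C0 / wR) ^ 4 * τ) ≤ τ ∧
      (16 : ℝ) ^ m * (256 * P ^ 4 * (2 * C0 / wR) ^ 4 * τ) ≤ k ^ (128 * x.vi) * τ ∧
      2 * P * (2 * C0 / wR) ≤ 1 ∧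
      (4 : ℝ) ^ m * ((4 + 2 / c1) * (P * (2 * C0))) ≤ k ^ (-(3 * x.v1)) := by
  have hv1 := x.v1_pos
  have hsv := x.sv2
  have hvi := x.vi8
  filter_upwards [ev_small one_pos,
    ev_pow' (J * (8 * (1 + 2 * CK) / cw)) (a := 0) (b := 510 * x.v1) (by positivity),
    ev_pow' (J * (8 * (1 + 2 * CK) / cw)) (a := 256 * x.v1) (b := 509 * x.v1) (by linarith),
    ev_pow' ((16 : ℝ) ^ J * (256 * (2 / cw) ^ 4)) (a := 0) (b := 2040 * x.v1) (by positivity),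
    ev_pow' ((16 : ℝ) ^ J * (256 * (2 / cw) ^ 4)) (a := 1024 * x.v1) (b := 2040 * x.v1)
      (by linarith),
    ev_pow' (4 / cw) (a := 0) (b := 510 * x.v1) (by positivity),
    ev_pow' ((4 : ℝ) ^ J * ((4 + 2 / c1) * 2)) (a := -(3 * x.v1)) (b := -(2 * x.v1)) (by linarith)]
    with k hk h1 h2 h3 h4 h5 h6
  have hk0 := hk.1
  simp only [Real.rpow_zero] at h1 h3 h5
  intro m P C0 Kd wR τ hm hP0 hP hC00 hC0 hKd0 hKd hwR hτ
  have hmJ : (m : ℝ) ≤ J := by exact_mod_cast hm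
  have hm0 : (0 : ℝ) ≤ m := Nat.cast_nonneg m
  have hw0 : 0 < wR := lt_of_lt_of_le (mul_pos hcw (Real.rpow_pos_of_pos hk0 _)) hwR
  have hkv : 1 ≤ k ^ (-x.v1) := by
    rw [Real.rpow_neg hk0.le]
    exact (one_le_inv₀ (Real.rpow_pos_of_pos hk0 _)).2
      (Real.rpow_le_one hk0.le hk.2 hv1.le)
  have hy : 1 / wR ≤ 1 / cw * k ^ (512 * x.v1) := by
    rw [← hsv]
    have e1 : 1 / cw * k ^ (x.s * x.v2) = 1 / (cw * k ^ (-(x.s * x.v2))) := by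
      rw [Real.rpow_neg hk0.le, one_div_mul_eq_div, ← div_eq_mul_inv, one_div_div]
    rw [e1]
    exact one_div_le_one_div_of_le (mul_pos hcw (Real.rpow_pos_of_pos hk0 _)) hwR
  have hy0 : 0 ≤ 1 / wR := by positivity
  have hP1 : P + 1 ≤ 2 * k ^ (-x.v1) := by linarith
  have hKC : 1 + Kd * (2 * C0) ≤ (1 + 2 * CK) * k ^ (-x.v1) := by
    have e1 : Kd * (2 * C0) ≤ CK * (2 * k ^ (-x.v1)) :=
      mul_le_mul hKd (by linarith) (by positivity) hCK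
    linarith
  have hKC0 : 0 ≤ 1 + Kd * (2 * C0) := by positivity
  -- the small factor
  have hF0 : 0 ≤ 4 * (P + 1) * (1 + Kd * (2 * C0)) * (1 / wR) := by positivity
  have hF : 4 * (P + 1) * (1 + Kd * (2 * C0)) * (1 / wR) ≤
      8 * (1 + 2 * CK) / cw * k ^ (510 * x.v1) := by
    have e1 := mul_le_rpow hk0 (by positivity : 0 ≤ 4 * (P + 1)) hKC0
      (by linarith : 4 * (P + 1) ≤ 8 * k ^ (-x.v1)) hKC
    have e2 := mul_le_rpow hk0 (by positivity) hy0 e1 hy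
    refine e2.trans (le_of_eq ?_)
    rw [show -x.v1 + -x.v1 + 512 * x.v1 = 510 * x.v1 by ring]
    ring
  have heq : m * (2 * (P + 1) * (2 * C0 / wR + Kd * (2 * C0) * (2 * C0 / wR))) =
      m * (4 * (P + 1) * (1 + Kd * (2 * C0)) * (1 / wR)) * C0 := by ring
  have hmF : m * (4 * (P + 1) * (1 + Kd * (2 * C0)) * (1 / wR)) ≤
      J * (8 * (1 + 2 * CK) / cw) * k ^ (510 * x.v1) := by
    calc m * (4 * (P + 1) * (1 + Kd * (2 * C0)) * (1 / wR)) ≤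
          J * (8 * (1 + 2 * CK) / cw * k ^ (510 * x.v1)) :=
          mul_le_mul hmJ hF hF0 (hm0.trans hmJ)
      _ = _ := by ring
  have hmF0 : 0 ≤ m * (4 * (P + 1) * (1 + Kd * (2 * C0)) * (1 / wR)) := mul_nonneg hm0 hF0
  have hr0 : 0 ≤ 2 * C0 / wR := by positivity
  have hr : 2 * C0 / wR ≤ 2 / cw * k ^ (511 * x.v1) := by
    have e1 := mul_le_rpow hk0 (by positivity : 0 ≤ 2 * C0) hy0
      (by linarith : 2 * C0 ≤ 2 * k ^ (-x.v1)) hy
    have e2 : 2 * C0 / wR = 2 * C0 * (1 / wR) := by ring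
    rw [e2]
    refine e1.trans (le_of_eq ?_)
    rw [show -x.v1 + 512 * x.v1 = 511 * x.v1 by ring]
    ring
  have hq0 : 0 ≤ 256 * P ^ 4 * (2 * C0 / wR) ^ 4 := by positivity
  have hq : 256 * P ^ 4 * (2 * C0 / wR) ^ 4 ≤ 256 * (2 / cw) ^ 4 * k ^ (2040 * x.v1) := by
    have e1 := pow_le_rpow (c := 1) hk0 hP0 (by rw [one_mul]; exact hP) 4
    have e2 := pow_le_rpow hk0 hr0 hr 4
    have e3 := mul_le_rpow hk0 (by positivity) (by positivity) e1 e2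
    have e4 : ((4 : ℕ) : ℝ) * -x.v1 + ((4 : ℕ) : ℝ) * (511 * x.v1) = 2040 * x.v1 := by
      push_cast; ring
    rw [e4] at e3
    calc 256 * P ^ 4 * (2 * C0 / wR) ^ 4 = 256 * (P ^ 4 * (2 * C0 / wR) ^ 4) := by ring
      _ ≤ 256 * (1 ^ 4 * (2 / cw) ^ 4 * k ^ (2040 * x.v1)) := by linarith
      _ = _ := by ring
  have h16 : (16 : ℝ) ^ m ≤ 16 ^ J := pow_le_pow_right₀ (by norm_num) hm
  have hmq : (16 : ℝ) ^ m * (256 * P ^ 4 * (2 * C0 / wR) ^ 4) ≤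
      (16 : ℝ) ^ J * (256 * (2 / cw) ^ 4) * k ^ (2040 * x.v1) := by
    calc (16 : ℝ) ^ m * (256 * P ^ 4 * (2 * C0 / wR) ^ 4) ≤
          (16 : ℝ) ^ J * (256 * (2 / cw) ^ 4 * k ^ (2040 * x.v1)) :=
          mul_le_mul h16 hq hq0 (by positivity)
      _ = _ := by ring
  refine ⟨?_, ?_, ?_, ?_, ?_, ?_⟩
  · rw [heq]
    calc m * (4 * (P + 1) * (1 + Kd * (2 * C0)) * (1 / wR)) * C0 ≤ 1 * C0 :=
          mul_le_mul_of_nonneg_right (hmF.trans h1) hC00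
      _ = C0 := one_mul _
  · rw [heq]
    have e1 := mul_le_rpow (cb := 1) hk0 hmF0 hC00 hmF (by rw [one_mul]; exact hC0)
    rw [mul_one, show 510 * x.v1 + -x.v1 = 509 * x.v1 by ring] at e1
    refine e1.trans (h2.trans (le_of_eq ?_))
    rw [hvi]
    congr 1
    ring
  · calc (16 : ℝ) ^ m * (256 * P ^ 4 * (2 * C0 / wR) ^ 4 * τ) =
          (16 : ℝ) ^ m * (256 * P ^ 4 * (2 * C0 / wR) ^ 4) * τ := by ring
      _ ≤ 1 * τ := mul_le_mul_of_nonneg_right (hmq.trans h3) hτ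
      _ = τ := one_mul _
  · calc (16 : ℝ) ^ m * (256 * P ^ 4 * (2 * C0 / wR) ^ 4 * τ) =
          (16 : ℝ) ^ m * (256 * P ^ 4 * (2 * C0 / wR) ^ 4) * τ := by ring
      _ ≤ k ^ (1024 * x.v1) * τ := mul_le_mul_of_nonneg_right (hmq.trans h4) hτ
      _ = _ := by
        rw [hvi]
        congr 2
        ring
  · have e1 := mul_le_rpow hk0 (by positivity : 0 ≤ 2 * P) hr0
      (by linarith : 2 * P ≤ 2 * k ^ (-x.v1)) hr
    rw [show -x.v1 + 511 * x.v1 = 510 * x.v1 by ring] at e1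
    refine e1.trans (le_trans (le_of_eq ?_) h5)
    ring
  · have e1 := mul_le_rpow (ca := 1) hk0 hP0 (by positivity : 0 ≤ 2 * C0)
      (by rw [one_mul]; exact hP) (by linarith : 2 * C0 ≤ 2 * k ^ (-x.v1))
    rw [show -x.v1 + -x.v1 = -(2 * x.v1) by ring] at e1
    have h44 : (4 : ℝ) ^ m ≤ 4 ^ J := pow_le_pow_right₀ (by norm_num) hm
    have hc2 : 0 ≤ 4 + 2 / c1 := by positivity
    calc (4 : ℝ) ^ m * ((4 + 2 / c1) * (P * (2 * C0))) ≤
          (4 : ℝ) ^ J * ((4 + 2 / c1) * (1 * 2 * k ^ (-(2 * x.v1)))) := by gcongr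
      _ = (4 : ℝ) ^ J * ((4 + 2 / c1) * 2) * k ^ (-(2 * x.v1)) := by ring
      _ ≤ _ := h6

end Pool.Agent.ANC
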