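import Pool.Agent.ANC.InsN
import Pool.Agent.ANI.RemFin
import Pool.Agent.ANI.AnnIn
import Pool.Agent.ANI.RemH125
import Pool.Agent.ANI.ContIn
import Pool.Agent.ANI.InsLe

/-!
# ANC / InsS: the numbers of the insertion theorem as the structures of ANI, for ONE small `k = κ'` (helper20)

`InK` = sizes of the medium before the removal (`k` = level).  Exponents in units of `v1 / 8`.
* `exNum` : `ExNum` with `K = k ^ (-2)` and `l ~ log (1/k)`, `l ≤ k ^ (-(v1/8))`.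
* `rfNum` : `RfNum` with `ρ = k ^ (15 vi)`, `Kb = k ^ (-2)`, `ε2 = k ^ (14 vi)`, `q2 = k ^ (2 vi) τ`, `W2 = k ^ (-(4 v1))`.
* `annNum`: `AnnNum` with `ε = k ^ van`, `q = k ^ (2 vi) τ`, `W = 1`.
-/

open Filter Topology Real

namespace Pool.Agent.ANC

open Pool.Agent.Kin Pool.Agent.AND Pool.Agent.ANI Pool.Agent.ANM

variable {d : ℕ} {CM : ℝ}

/-- sizes of the medium before a removal at level `k` -/
structure InK (x : Ex d CM) {L : ℕ} (c1 C1 rho0 ck k : ℝ) (f : Fix) (t : Tol d L) (u : UTol) :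
    Prop where
  fc1 : f.c1 = c1
  fC1 : f.C1 = C1
  fs : f.s = x.s
  r0 : 1 ≤ f.r0
  r0s : f.r0 ^ x.s ≤ k ^ (-(4 * (x.v1 / 8)))
  rho0 : rho0 ≤ u.rho
  rho2 : u.rho ≤ 2
  Lam0 : 0 ≤ u.Lam
  Lam : u.Lam ≤ k ^ (-(2 * (x.v1 / 8)))
  C20 : 0 ≤ u.C2
  C2 : u.C2 ≤ k ^ (-(2 * (x.v1 / 8)))
  tau0 : 0 ≤ u.tau
  kl : ck * k ≤ t.kl

theorem one_le_rpow {k a : ℝ} (hk : 0 < k) (hk1 : k ≤ 1) (ha : a ≤ 0) : 1 ≤ k ^ a :=
  Real.one_le_rpow_of_pos_of_le_one_of_nonpos hk hk1 ha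

theorem rpow_anti {k a b : ℝ} (hk : 0 < k) (hk1 : k ≤ 1) (h : a ≤ b) : k ^ b ≤ k ^ a :=
  Real.rpow_le_rpow_of_exponent_ge hk hk1 h

/-- the number of steps -/
noncomputable def lN (d : ℕ) (rho0 k : ℝ) : ℕ :=
  ⌈32 / rho0 * ((3 * d + 3) * (2 * Real.log (1 / k)))⌉₊

theorem lN_le (d : ℕ) {rho0 w : ℝ} (hr : 0 < rho0) (hw : 0 < w) :
    ∀ᶠ k in 𝓝[>] (0 : ℝ), (lN d rho0 k : ℝ) ≤ k ^ (-w) := by
  filter_upwards [ev_ge (2 * (32 / rho0 * ((3 * d + 3) * 2))) hw 1,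
    ev_ge 2 hw 0, ev_small one_pos] with k h1 h2 hk
  have hL : 0 ≤ Real.log (1 / k) := by
    apply Real.log_nonneg
    rw [le_div_iff₀ hk.1]
    linarith [hk.2]
  have h0 : 0 ≤ 32 / rho0 * ((3 * d + 3) * (2 * Real.log (1 / k))) := by positivity
  have h3 := (Nat.ceil_lt_add_one h0).le
  rw [pow_one] at h1
  rw [pow_zero, mul_one] at h2
  have h4 : 32 / rho0 * ((3 * (d : ℝ) + 3) * (2 * Real.log (1 / k))) =
      1 / 2 * (2 * (32 / rho0 * ((3 * d + 3) * 2)) * Real.log (1 / k)) := by ring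
  unfold lN
  linarith

/-- `ExNum` -/
theorem exNum (x : Ex d CM) {c1 C1 rho0 ck cμ : ℝ} (hc1 : 0 < c1) (hcC : c1 ≤ C1)
    (hr : 0 < rho0) (hcμ : 0 < cμ) :
    ∀ᶠ k in 𝓝[>] (0 : ℝ), ∀ (L : ℕ) (f : Fix) (t : Tol d L) (u : UTol)
      (ε μ : ℝ) (a cw : ℕ), InK x c1 C1 rho0 ck k f t u → 0 ≤ ε → ε ≤ k ^ (32 * x.vi) →
      a ≤ 32 → (cw : ℝ) ≤ k ^ (-2 : ℝ) → cμ * k ≤ μ →
      ExNum f u ε (k ^ (-2 : ℝ)) (a / (2 * μ)) cw d (lN d rho0 k) := by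
  have hv1 := x.v1_pos
  have hvi := x.vi8
  have hvi0 := x.vi_pos
  have hC1 : 0 < C1 := hc1.trans_le hcC
  have hw : 0 < x.v1 / 8 := by positivity
  have hw2 : x.v1 / 8 < 1 / 2 := by
    have h1 := x.v1_eq
    have h2 := x.vi_lt
    have h3 := x.v_lt
    linarith
  filter_upwards [ev_small one_pos, lN_le d hr hw,
    ev_le (16 / c1) (b := 31 * x.vi) (by positivity) one_pos 0,
    ev_le (16 / c1) (b := 32 * x.vi) (by positivity) (show 0 < (rho0 / 4) ^ 2 by positivity) 0,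
    ev_le (768 * (2 * C1) ^ 3) (b := 31 * x.vi) (by positivity) (show 0 < c1 ^ 4 by positivity) 0,
    ev_ge 16 (b := 2) (by norm_num) 0,
    ev_ge (Real.log (4 * (2 * C1) / c1 + 1)) (b := 2) (by norm_num) 0,
    ev_ge (64 * √(2 * C1 / c1) * C1 / c1) (b := 1) (by norm_num) 0,
    ev_ge (16 / cμ) (b := 1) (by norm_num) 0]
    with k hk hl h1 h2 h3 h4 h5 h6 h7
  simp only [pow_zero, mul_one] at h1 h2 h3 h4 h5 h6 h7
  have hk0 := hk.1
  intro L f t u ε μ a cw hI he0 he ha hcw hμ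
  have hLp : 0 ≤ Real.log (1 / k) := by
    apply Real.log_nonneg
    rw [le_div_iff₀ hk.1]
    linarith [hk.2]
  have hrho : 0 < u.rho := hr.trans_le hI.rho0
  have hμ0 : 0 < μ := lt_of_lt_of_le (by positivity) hμ
  have hl0 : (0 : ℝ) ≤ lN d rho0 k := Nat.cast_nonneg _
  have hle : (lN d rho0 k : ℝ) * ε ≤ k ^ (31 * x.vi) := by
    calc (lN d rho0 k : ℝ) * ε ≤ k ^ (-(x.v1 / 8)) * k ^ (32 * x.vi) :=
          mul_le_mul hl he he0 (rpow_nn hk0 _)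
      _ = k ^ (-(x.v1 / 8) + 32 * x.vi) := by rw [Real.rpow_add hk0]
      _ ≤ _ := rpow_anti hk0 hk.2 (by linarith)
  have hle2 : (lN d rho0 k : ℝ) ^ 2 * ε ≤ k ^ (31 * x.vi) := by
    calc (lN d rho0 k : ℝ) ^ 2 * ε ≤ (k ^ (-(x.v1 / 8))) ^ 2 * k ^ (32 * x.vi) :=
          mul_le_mul (pow_le_pow_left₀ hl0 hl 2) he he0 (by positivity)
      _ = k ^ (2 * -(x.v1 / 8) + 32 * x.vi) := by
        rw [Real.rpow_add hk0, ← Real.rpow_natCast (k ^ (-(x.v1 / 8))), ← Real.rpow_mul hk0.le]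
        congr 2
        push_cast
        ring
      _ ≤ _ := rpow_anti hk0 hk.2 (by linarith)
  have hε1 : ε ≤ 1 := he.trans (Real.rpow_le_one hk0.le hk.2 (by positivity))
  have hkk : k ^ (-1 : ℝ) * k ^ (-1 : ℝ) = k ^ (-2 : ℝ) := by
    rw [← Real.rpow_add hk0]
    norm_num
  have hk1' : 1 ≤ k ^ (-1 : ℝ) := one_le_rpow hk0 hk.2 (by norm_num)
  have hk2' : 1 ≤ k ^ (-2 : ℝ) := one_le_rpow hk0 hk.2 (by norm_num)
  refine ⟨?_, ?_, ?_, ?_⟩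
  · rw [hI.fc1]
    calc 16 * (lN d rho0 k : ℝ) * (ε / c1) = 16 / c1 * (lN d rho0 k * ε) := by ring
      _ ≤ 16 / c1 * k ^ (31 * x.vi) := mul_le_mul_of_nonneg_left hle (by positivity)
      _ ≤ 1 := h1
  · rw [hI.fc1]
    calc 16 * (ε / c1) = 16 / c1 * ε := by ring
      _ ≤ 16 / c1 * k ^ (32 * x.vi) := mul_le_mul_of_nonneg_left he (by positivity)
      _ ≤ (rho0 / 4) ^ 2 := h2
      _ ≤ (u.rho / 4) ^ 2 := pow_le_pow_left₀ (by positivity) (by linarith [hI.rho0]) 2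
  · refine ⟨by positivity, by linarith [hI.rho2], by rw [hI.fc1]; exact hc1, ?_, ?_, by positivity,
      h4, ?_, ?_, ?_, ?_, Nat.cast_nonneg _, hcw, ?_, ?_⟩
    · rw [hI.fc1, hI.fC1]; linarith
    · rw [hI.fC1]; positivity
    · rw [hI.fc1, hI.fC1]
      have hLe : u.Lam + ε ≤ 2 * k ^ (-1 : ℝ) := by
        have e1 : k ^ (-(2 * (x.v1 / 8))) ≤ k ^ (-1 : ℝ) := rpow_anti hk0 hk.2 (by linarith)
        linarith [hI.Lam]
      have hLe0 : 0 ≤ u.Lam + ε := add_nonneg hI.Lam0 he0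
      have e2 : √(4 * (u.Lam + ε) ^ 2 * (2 * C1) / c1) = 2 * (u.Lam + ε) * √(2 * C1 / c1) := by
        rw [show 4 * (u.Lam + ε) ^ 2 * (2 * C1) / c1 = (2 * (u.Lam + ε)) ^ 2 * (2 * C1 / c1) by
          ring, Real.sqrt_mul (sq_nonneg _), Real.sqrt_sq (by positivity)]
      rw [e2]
      have hs0 := Real.sqrt_nonneg (2 * C1 / c1)
      have h6' : 64 * √(2 * C1 / c1) * C1 ≤ c1 * k ^ (-1 : ℝ) := by
        rw [div_le_iff₀ hc1] at h6
        linarith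
      calc 8 * (2 * (u.Lam + ε) * √(2 * C1 / c1)) * (2 * C1) =
            (u.Lam + ε) * (32 * √(2 * C1 / c1) * C1) := by ring
        _ ≤ (2 * k ^ (-1 : ℝ)) * (32 * √(2 * C1 / c1) * C1) :=
            mul_le_mul_of_nonneg_right hLe (by positivity)
        _ = k ^ (-1 : ℝ) * (64 * √(2 * C1 / c1) * C1) := by ring
        _ ≤ k ^ (-1 : ℝ) * (c1 * k ^ (-1 : ℝ)) :=
            mul_le_mul_of_nonneg_left h6' (by positivity)
        _ = c1 * (k ^ (-1 : ℝ) * k ^ (-1 : ℝ)) := by ring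
        _ = _ := by rw [hkk]
    · rw [hI.fc1, hI.fC1]
      exact h5
    · positivity
    · have ha' : (a : ℝ) ≤ 32 := by exact_mod_cast ha
      have e1 : (a : ℝ) / (2 * μ) ≤ 16 / cμ * k ^ (-1 : ℝ) := by
        rw [Real.rpow_neg_one, div_mul_eq_mul_div, ← div_eq_mul_inv, div_div,
          div_le_div_iff₀ (by positivity) (by positivity)]
        nlinarith
      calc (a : ℝ) / (2 * μ) ≤ 16 / cμ * k ^ (-1 : ℝ) := e1
        _ ≤ k ^ (-1 : ℝ) * k ^ (-1 : ℝ) := mul_le_mul_of_nonneg_right h7 (by positivity)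
        _ = k ^ (-2 : ℝ) := hkk
        _ ≤ (k ^ (-2 : ℝ)) ^ 2 := by nlinarith
    · have e1 : Real.log (k ^ (-2 : ℝ)) = 2 * Real.log (1 / k) := by
        rw [Real.log_rpow hk0, one_div, Real.log_inv]
        ring
      rw [e1]
      refine le_trans ?_ (Nat.le_ceil _)
      have e2 : 8 / (u.rho / 4) ≤ 32 / rho0 := by
        rw [div_le_div_iff₀ (by positivity) hr]
        linarith [hI.rho0]
      exact mul_le_mul_of_nonneg_right e2 (by positivity)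
    · refine hl.trans (rpow_anti hk0 hk.2 (by linarith))
  · rw [hI.fc1, hI.fC1]
    calc 768 * (lN d rho0 k : ℝ) ^ 2 * (2 * C1) ^ 3 * ε =
          768 * (2 * C1) ^ 3 * ((lN d rho0 k : ℝ) ^ 2 * ε) := by ring
      _ ≤ 768 * (2 * C1) ^ 3 * k ^ (31 * x.vi) := mul_le_mul_of_nonneg_left hle2 (by positivity)
      _ ≤ _ := h3

/-- `2 ^ s ≤ 2` -/
theorem two_rpow_s (x : Ex d CM) : (2 : ℝ) ^ x.s ≤ 2 := by
  have h1 := x.s_lt
  have h2 := x.v_lt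
  calc (2 : ℝ) ^ x.s ≤ 2 ^ (1 : ℝ) := Real.rpow_le_rpow_of_exponent_le (by norm_num) (by linarith)
    _ = 2 := Real.rpow_one 2

/-- `RfNum` -/
theorem rfNum (x : Ex d CM) {c1 C1 rho0 ck : ℝ} (hc1 : 0 < c1) (hcC : c1 ≤ C1)
    (hr : 0 < rho0) (hck : 0 < ck) :
    ∀ᶠ k in 𝓝[>] (0 : ℝ), ∀ (L : ℕ) (f : Fix) (t : Tol d L) (u : UTol)
      (ε q W : ℝ) (a : ℕ), InK x c1 C1 rho0 ck k f t u → 0 ≤ ε → ε ≤ k ^ (32 * x.vi) →
      0 ≤ q → q ≤ k ^ (2 * x.vi) * u.tau → 0 ≤ W → W ≤ k ^ (-(3 * x.v1)) → a ≤ 32 →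
      RfNum f t u x.s ε q W (k ^ (15 * x.vi)) (k ^ (-2 : ℝ)) (k ^ (14 * x.vi))
        (k ^ (2 * x.vi) * u.tau) (k ^ (-(4 * x.v1))) a (lN d rho0 k) := by
  have hv1 := x.v1_pos
  have hvi := x.vi8
  have hvi0 := x.vi_pos
  have hC1 : 0 < C1 := hc1.trans_le hcC
  have hw : 0 < x.v1 / 8 := by positivity
  filter_upwards [ev_small one_pos, lN_le d hr hw,
    ev_le 8 (b := 60 * x.vi) (by positivity) (show (0 : ℝ) < 1 / 2 by norm_num) 0,
    ev_le 2 (b := 15 * x.vi) (by positivity) (show (0 : ℝ) < 1 / 2 by norm_num) 0,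
    ev_pow' (4 * (16 * C1 / c1 ^ 2) * (2 * C1) * (16 * C1 / c1))
      (show 30 * x.vi < 31 * x.vi by linarith),
    ev_ge (4 / (rho0 / 4)) (b := 2) (by norm_num) 0,
    ev_ge (2 / c1) (b := 2) (by norm_num) 0,
    ev_le (1 / ck) (b := 1) (by norm_num) one_pos 0,
    ev_pow' (2 * (16 * C1 / c1 ^ 2) ^ 2 * (2 * C1)) (show 28 * x.vi < 62 * x.vi by linarith),
    ev_pow' (24 : ℝ) (show 14 * x.vi < -(6 * (x.v1 / 8)) + 15 * x.vi by linarith),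
    ev_pow' (256 : ℝ) (show 2 * x.vi < 60 * x.vi by linarith),
    ev_pow' (2 * (16 * C1 / c1 ^ 2) * (2 * C1) * (16 * C1 / c1))
      (show -(4 * x.v1) < 31 * x.vi by linarith),
    ev_pow' (16 * C1 / c1 + 1) (show -(4 * x.v1) < -(25 * (x.v1 / 8)) by linarith)]
    with k hk hl h1 h2 h3 h4 h5 h6 h7 h8 h9 h10 h11
  simp only [pow_zero, mul_one] at h1 h2 h4 h5 h6
  have hk0 := hk.1
  intro L f t u ε q W a hI he0 he hq0 hq hW0 hW ha
  have hrho : 0 < u.rho := hr.trans_le hI.rho0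
  have hl0 : (0 : ℝ) ≤ lN d rho0 k := Nat.cast_nonneg _
  have hτ := hI.tau0
  have hε1 : ε ≤ 1 := he.trans (Real.rpow_le_one hk0.le hk.2 (by positivity))
  have hs2 := two_rpow_s x
  have hs0 : (0 : ℝ) ≤ 2 ^ x.s := Real.rpow_nonneg (by norm_num) _
  -- the two factors
  have hR0 : 0 ≤ rRf f ε (lN d rho0 k) := by
    unfold rRf
    rw [hI.fC1]
    positivity
  have hR : rRf f ε (lN d rho0 k) ≤ 16 * C1 / c1 ^ 2 * k ^ (32 * x.vi - x.v1 / 8) := by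
    unfold rRf
    rw [hI.fc1, hI.fC1]
    have e1 := mul_le_rpow (ca := 1) (cb := 1) hk0 hl0 he0 (by rw [one_mul]; exact hl)
      (by rw [one_mul]; exact he)
    rw [mul_one, one_mul, neg_add_eq_sub] at e1
    calc 8 * (lN d rho0 k : ℝ) * (2 * C1) * ε / c1 ^ 2 =
          16 * C1 / c1 ^ 2 * (lN d rho0 k * ε) := by ring
      _ ≤ _ := mul_le_mul_of_nonneg_left e1 (by positivity)
  have hP0 : 0 ≤ pRf f (lN d rho0 k) := by
    unfold pRf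
    rw [hI.fc1, hI.fC1]
    positivity
  have hP : pRf f (lN d rho0 k) ≤ 16 * C1 / c1 * k ^ (-(x.v1 / 8)) := by
    unfold pRf
    rw [hI.fc1, hI.fC1]
    calc 2 * (4 * (lN d rho0 k : ℝ) * (2 * C1) / c1) = 16 * C1 / c1 * lN d rho0 k := by ring
      _ ≤ _ := mul_le_mul_of_nonneg_left hl (by positivity)
  have hPW0 : 0 ≤ pRf f (lN d rho0 k) * W := mul_nonneg hP0 hW0
  have hPW : pRf f (lN d rho0 k) * W ≤ 16 * C1 / c1 * k ^ (-(25 * (x.v1 / 8))) := by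
    have e1 := mul_le_rpow (cb := 1) hk0 hP0 hW0 hP (by rw [one_mul]; exact hW)
    rw [mul_one, show -(x.v1 / 8) + -(3 * x.v1) = -(25 * (x.v1 / 8)) by ring] at e1
    exact e1
  have hRPW : rRf f ε (lN d rho0 k) * (pRf f (lN d rho0 k) * W) ≤
      (16 * C1 / c1 ^ 2) * (16 * C1 / c1) * k ^ (31 * x.vi) := by
    refine (mul_le_rpow hk0 hR0 hPW0 hR hPW).trans ?_
    refine mul_le_mul_of_nonneg_left (rpow_anti hk0 hk.2 ?_) (by positivity)
    linarith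
  have hp4 : (k ^ (15 * x.vi)) ^ 4 = k ^ (60 * x.vi) := by
    rw [← Real.rpow_natCast (k ^ (15 * x.vi)), ← Real.rpow_mul hk0.le]
    congr 1
    push_cast
    ring
  refine ⟨hI.fs.symm, hI.r0, hI.Lam0, hI.C20, add_nonneg hτ hq0, rpow_nn hk0 _, ?_, ?_, ?_,
    one_le_rpow hk0 hk.2 (by norm_num), ?_, ?_, ?_, ?_, rpow_nn hk0 _, ?_, ?_, ?_, ?_, ?_⟩
  · rw [hp4]
    exact h1
  · calc (2 : ℝ) ^ x.s * k ^ (15 * x.vi) ≤ 2 * k ^ (15 * x.vi) :=
          mul_le_mul_of_nonneg_right hs2 (rpow_nn hk0 _)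
      _ ≤ 1 / 2 := h2
  · rw [hI.fC1]
    have e1 : (k ^ (15 * x.vi)) ^ 2 = k ^ (30 * x.vi) := by
      rw [← Real.rpow_natCast (k ^ (15 * x.vi)), ← Real.rpow_mul hk0.le]
      congr 1
      push_cast
      ring
    rw [e1]
    calc 4 * rRf f ε (lN d rho0 k) * (2 * C1) * (pRf f (lN d rho0 k) * W) =
          4 * (2 * C1) * (rRf f ε (lN d rho0 k) * (pRf f (lN d rho0 k) * W)) := by ring
      _ ≤ 4 * (2 * C1) * ((16 * C1 / c1 ^ 2) * (16 * C1 / c1) * k ^ (31 * x.vi)) :=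
          mul_le_mul_of_nonneg_left hRPW (by positivity)
      _ = 4 * (16 * C1 / c1 ^ 2) * (2 * C1) * (16 * C1 / c1) * k ^ (31 * x.vi) := by ring
      _ ≤ _ := h3
  · rw [one_div, ← Real.rpow_neg hk0.le, neg_neg]
    refine le_trans ?_ hI.kl
    have e1 : k ^ (2 : ℝ) = k * k := by
      rw [Real.rpow_two, sq]
    rw [e1]
    refine mul_le_mul_of_nonneg_right ?_ hk0.le
    rw [Real.rpow_one, div_mul_eq_mul_div, one_mul, div_le_iff₀ hck, one_mul] at h6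
    exact h6
  · have e1 : 0 < u.rho / 4 := by positivity
    have e2 : 4 / (u.rho / 4) ≤ 4 / (rho0 / 4) := by
      refine div_le_div_of_nonneg_left (by norm_num) (by positivity) (by linarith [hI.rho0])
    have e3 := e2.trans h4
    rwa [div_le_iff₀ e1] at e3
  · rw [hI.fc1]
    rwa [div_le_iff₀ hc1] at h5
  · unfold tRf
    rw [hI.fc1, hI.fC1]
    have ha' : (a : ℝ) ≤ 32 := by exact_mod_cast ha
    have e0 : 0 ≤ u.rho / 4 * c1 / (16 * (2 * C1)) := by positivity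
    have e1 : u.rho / 4 * c1 / (16 * (2 * C1)) ≤ 1 / 64 := by
      rw [div_le_div_iff₀ (by positivity) (by norm_num)]
      have := hI.rho2
      nlinarith
    nlinarith
  · have e1 : (k ^ (14 * x.vi)) ^ 2 = k ^ (28 * x.vi) := by
      rw [← Real.rpow_natCast (k ^ (14 * x.vi)), ← Real.rpow_mul hk0.le]
      congr 1
      push_cast
      ring
    rw [e1, hI.fC1]
    have e2 : rRf f ε (lN d rho0 k) ^ 2 ≤ (16 * C1 / c1 ^ 2) ^ 2 * k ^ (62 * x.vi) := by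
      refine (pow_le_rpow hk0 hR0 hR 2).trans ?_
      refine mul_le_mul_of_nonneg_left (rpow_anti hk0 hk.2 ?_) (by positivity)
      push_cast
      linarith
    calc 2 * rRf f ε (lN d rho0 k) ^ 2 * (2 * C1) =
          2 * (2 * C1) * rRf f ε (lN d rho0 k) ^ 2 := by ring
      _ ≤ 2 * (2 * C1) * ((16 * C1 / c1 ^ 2) ^ 2 * k ^ (62 * x.vi)) :=
          mul_le_mul_of_nonneg_left e2 (by positivity)
      _ = 2 * (16 * C1 / c1 ^ 2) ^ 2 * (2 * C1) * k ^ (62 * x.vi) := by ring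
      _ ≤ _ := h7
  · have hr0s : 0 ≤ f.r0 ^ x.s := Real.rpow_nonneg (by linarith [hI.r0]) _
    have e1 := mul_le_rpow (ca := 1) (cb := 1) hk0 hI.Lam0 hr0s
      (by rw [one_mul]; exact hI.Lam) (by rw [one_mul]; exact hI.r0s)
    rw [mul_one, one_mul, show -(2 * (x.v1 / 8)) + -(4 * (x.v1 / 8)) = -(6 * (x.v1 / 8)) by
      ring] at e1
    have e2 : u.C2 ≤ k ^ (-(6 * (x.v1 / 8))) := hI.C2.trans (rpow_anti hk0 hk.2 (by linarith))
    have e3 : 1 ≤ k ^ (-(6 * (x.v1 / 8))) := one_le_rpow hk0 hk.2 (by linarith)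
    have e4 : u.Lam * f.r0 ^ x.s + u.C2 + ε ≤ 3 * k ^ (-(6 * (x.v1 / 8))) := by linarith
    have e40 : 0 ≤ u.Lam * f.r0 ^ x.s + u.C2 + ε :=
      add_nonneg (add_nonneg (mul_nonneg hI.Lam0 hr0s) hI.C20) he0
    have e5 : 4 * (2 : ℝ) ^ x.s ≤ 8 := by linarith
    calc 4 * 2 ^ x.s * (u.Lam * f.r0 ^ x.s + u.C2 + ε) * k ^ (15 * x.vi) ≤
          8 * (3 * k ^ (-(6 * (x.v1 / 8)))) * k ^ (15 * x.vi) := by
          refine mul_le_mul_of_nonneg_right ?_ (rpow_nn hk0 _)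
          exact mul_le_mul e5 e4 e40 (by norm_num)
      _ = 24 * (k ^ (-(6 * (x.v1 / 8))) * k ^ (15 * x.vi)) := by ring
      _ = 24 * k ^ (-(6 * (x.v1 / 8)) + 15 * x.vi) := by rw [Real.rpow_add hk0]
      _ ≤ _ := h8
  · rw [hp4]
    have e1 : q ≤ u.tau := by
      refine hq.trans ?_
      have : k ^ (2 * x.vi) ≤ 1 := Real.rpow_le_one hk0.le hk.2 (by positivity)
      nlinarith
    calc k ^ (60 * x.vi) * (16 * (8 * (u.tau + q))) ≤
          k ^ (60 * x.vi) * (16 * (8 * (u.tau + u.tau))) := by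
          refine mul_le_mul_of_nonneg_left (by linarith) (rpow_nn hk0 _)
      _ = 256 * k ^ (60 * x.vi) * u.tau := by ring
      _ ≤ k ^ (2 * x.vi) * u.tau := mul_le_mul_of_nonneg_right h9 hτ
  · rw [hI.fC1]
    calc 2 * rRf f ε (lN d rho0 k) * (2 * C1 * (pRf f (lN d rho0 k) * W)) =
          2 * (2 * C1) * (rRf f ε (lN d rho0 k) * (pRf f (lN d rho0 k) * W)) := by ring
      _ ≤ 2 * (2 * C1) * ((16 * C1 / c1 ^ 2) * (16 * C1 / c1) * k ^ (31 * x.vi)) :=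
          mul_le_mul_of_nonneg_left hRPW (by positivity)
      _ = 2 * (16 * C1 / c1 ^ 2) * (2 * C1) * (16 * C1 / c1) * k ^ (31 * x.vi) := by ring
      _ ≤ _ := h10
  · have e1 : W ≤ k ^ (-(25 * (x.v1 / 8))) := hW.trans (rpow_anti hk0 hk.2 (by linarith))
    calc pRf f (lN d rho0 k) * W + W ≤
          16 * C1 / c1 * k ^ (-(25 * (x.v1 / 8))) + k ^ (-(25 * (x.v1 / 8))) := by linarith
      _ = (16 * C1 / c1 + 1) * k ^ (-(25 * (x.v1 / 8))) := by ring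
      _ ≤ _ := h11

/-- `AnnNum`, the annulus (`m` = number of its sites, `uu` = change of the diagonal) -/
theorem annNum (x : Ex d CM) (hd : 3 ≤ d) (Cu Cn : ℝ) {c1 C1 rho0 ck : ℝ} (hCu : 0 ≤ Cu)
    (hCn : 0 ≤ Cn) (hc1 : 0 < c1) (hcC : c1 ≤ C1) (hr : 0 < rho0) :
    ∀ᶠ k in 𝓝[>] (0 : ℝ), ∀ (L : ℕ) (f : Fix) (t : Tol d L) (u : UTol)
      (m uu μ : ℝ) (a cw : ℕ), InK x c1 C1 rho0 ck k f t u →
      0 ≤ uu → uu ≤ Cu * k ^ x.th → 0 ≤ m → m ≤ Cn * k ^ (-(d * x.v2 + x.v1)) →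
      0 < μ →
      AnnNum f t u m uu x.s (k ^ x.van) (k ^ (2 * x.vi) * u.tau) 1
        (4 / μ * (u.Lam * f.r0 ^ x.s + u.C2) * Real.exp (μ * cw / a)) a cw μ := by
  have hv1 := x.v1_pos
  have hC1 : 0 < C1 := hc1.trans_le hcC
  have hva := x.van_pos
  filter_upwards [ev_small one_pos, ann_num x hd Cu Cn C1 c1 hCu hCn hC1.le hc1,
    ev_le 1 hva hC1 0, ev_le (8 * (2 * √C1 + 1)) hva (show 0 < rho0 * c1 by positivity) 0,
    ev_pow' (2 : ℝ) (show -x.v1 < -(6 * (x.v1 / 8)) by linarith)]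
    with k hk h1 h2 h3 h4
  simp only [pow_zero, mul_one] at h2 h3
  rw [one_mul] at h2
  have hk0 := hk.1
  intro L f t u m uu μ a cw hI hu0 hu hm0 hm hμ0
  have hr0s : 0 ≤ f.r0 ^ x.s := Real.rpow_nonneg (by linarith [hI.r0]) _
  have hCω0 : 0 ≤ u.Lam * f.r0 ^ x.s + u.C2 :=
    add_nonneg (mul_nonneg hI.Lam0 hr0s) hI.C20
  have hCω : u.Lam * f.r0 ^ x.s + u.C2 ≤ k ^ (-x.v1) := by
    have e1 := mul_le_rpow (ca := 1) (cb := 1) hk0 hI.Lam0 hr0s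
      (by rw [one_mul]; exact hI.Lam) (by rw [one_mul]; exact hI.r0s)
    rw [mul_one, one_mul, show -(2 * (x.v1 / 8)) + -(4 * (x.v1 / 8)) = -(6 * (x.v1 / 8)) by
      ring] at e1
    have e2 : u.C2 ≤ k ^ (-(6 * (x.v1 / 8))) := hI.C2.trans (rpow_anti hk0 hk.2 (by linarith))
    linarith
  have hLam : u.Lam ≤ k ^ (-x.v1) := hI.Lam.trans (rpow_anti hk0 hk.2 (by linarith))
  have hs2 := two_rpow_s x
  have hs1 : (1 : ℝ) ≤ 2 ^ x.s := Real.one_le_rpow (by norm_num) x.s_pos.le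
  obtain ⟨g1, g2, g3, g4, g5, g6, g7⟩ := h1 uu m u.Lam C1 u.tau (2 ^ x.s)
    (u.Lam * f.r0 ^ x.s + u.C2) (4 / μ * (u.Lam * f.r0 ^ x.s + u.C2) * Real.exp (μ * cw / a))
    hu0 hu hm0 hm hI.Lam0 hLam hC1.le le_rfl hI.tau0 (by linarith) hs2 hCω0 hCω (by positivity)
  have hX0 : 0 ≤ 2 * uu * m * u.Lam := by
    have := hI.Lam0
    positivity
  have hva1 : k ^ x.van ≤ 1 := Real.rpow_le_one hk0.le hk.2 hva.le
  have hva0 : 0 ≤ k ^ x.van := rpow_nn hk0 _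
  refine ⟨hva0, ?_, g1, ?_, g3, g4, ?_, ?_, ?_, ?_, ?_⟩
  · have e1 : 2 * uu * m * u.Lam ≤ 2 ^ x.s * (2 * uu * m * u.Lam) := le_mul_of_one_le_left hX0 hs1
    nlinarith
  · rw [hI.fC1]; exact g2
  · rw [hI.fC1]; exact g5
  · rw [hI.fC1, hI.fc1]; exact g6
  · exact g7
  · rw [hI.fC1]; exact h2
  · rw [hI.fC1, hI.fc1]
    have e1 : 8 * (2 * k ^ x.van * √C1 + (k ^ x.van) ^ 2) ≤ 8 * (2 * √C1 + 1) * k ^ x.van := by
      have : (k ^ x.van) ^ 2 ≤ k ^ x.van := by nlinarith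
      linarith
    refine e1.trans (h3.trans ?_)
    exact mul_le_mul_of_nonneg_right hI.rho0 hc1.le

/-- polynomial bound of `sumC` -/
theorem sumC_le (d : ℕ) {c k ν : ℝ} (hc : 0 < c) (hk : 0 < k) (hν : c * k ≤ ν) :
    sumC d 0 ν ≤ (8 ^ d * d.factorial * 8) / c ^ (d + 1) * k ^ (-((d : ℝ) + 1)) := by
  have hck : 0 < c * k := mul_pos hc hk
  have e1 : k ^ (-((d : ℝ) + 1)) = 1 / k ^ (d + 1) := by
    rw [Real.rpow_neg hk.le, one_div]
    congr 1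
    have : ((d : ℝ) + 1) = ((d + 1 : ℕ) : ℝ) := by push_cast; ring
    rw [this, Real.rpow_natCast]
  unfold sumC
  rw [e1]
  have e2 : (2 * ((0 : ℕ) : ℝ) + 1) ^ d * (8 ^ d * (d.factorial : ℝ) * 8) =
      8 ^ d * d.factorial * 8 := by
    simp
  rw [e2]
  have e3 : (c * k) ^ (d + 1) ≤ ν ^ (d + 1) := pow_le_pow_left₀ hck.le hν _
  calc 8 ^ d * (d.factorial : ℝ) * 8 / ν ^ (d + 1) ≤ 8 ^ d * d.factorial * 8 / (c * k) ^ (d + 1) := by
        gcongr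
    _ = _ := by
      rw [mul_pow]
      field_simp

/-- bounds of the rate of the re-freezing -/
theorem tRf_bd {x : Ex d CM} {L : ℕ} {c1 C1 rho0 ck k : ℝ} {f : Fix} {t : Tol d L} {u : UTol}
    (hI : InK x c1 C1 rho0 ck k f t u) (hc1 : 0 < c1) (hcC : c1 ≤ C1) :
    rho0 / 4 * c1 / (32 * C1) ≤ tRf f u ∧ tRf f u ≤ 1 / 64 := by
  have hC1 : 0 < C1 := hc1.trans_le hcC
  unfold tRf
  rw [hI.fc1, hI.fC1]
  constructor
  · rw [show 16 * (2 * C1) = 32 * C1 by ring]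
    refine div_le_div_of_nonneg_right ?_ (by positivity)
    exact mul_le_mul_of_nonneg_right (by linarith [hI.rho0]) hc1.le
  · rw [div_le_div_iff₀ (by positivity) (by norm_num)]
    have := hI.rho2
    nlinarith

/-- the far constant is polynomial (before the change to a centre) -/
theorem farK (x : Ex d CM) (g0 : ℝ) {c1 C1 rho0 ck cμ : ℝ} (hc1 : 0 < c1)
    (hcC : c1 ≤ C1) (hcμ : 0 < cμ) :
    ∀ᶠ k in 𝓝[>] (0 : ℝ), ∀ (L : ℕ) (f : Fix) (t : Tol d L) (u : UTol)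
      (Kf μ nB : ℝ) (a cw : ℕ), InK x c1 C1 rho0 ck k f t u → 0 < rho0 → 0 ≤ Kf →
      Kf ≤ k ^ (-g0) →
      1 ≤ a → a ≤ 32 → (cw : ℝ) ≤ k ^ (-(1 / 2) : ℝ) → cμ * k ≤ μ → μ ≤ k →
      0 ≤ nB → nB ≤ k ^ (-1 : ℝ) →
      0 ≤ Kf + kRf f u nB (k ^ (-2 : ℝ)) Kf d a cw μ ∧
      Kf + kRf f u nB (k ^ (-2 : ℝ)) Kf d a cw μ ≤ k ^ (-(g0 + d + 9)) := by
  have hC1 : 0 < C1 := hc1.trans_le hcC
  set Cs : ℝ := (8 ^ d * d.factorial * 8) / (cμ / 32) ^ (d + 1) with hCs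
  have hCs0 : 0 < Cs := by positivity
  filter_upwards [ev_small one_pos, ev_le 1 (b := 1 / 2) (by norm_num)
      (show (0 : ℝ) < 1 / 2 by norm_num) 0,
    ev_ge (1 + 8 * C1 * (1 + Cs)) (b := 1) (by norm_num) 0] with k hk h1 h2
  simp only [pow_zero, mul_one, one_mul] at h1 h2
  have hk0 := hk.1
  intro L f t u Kf μ nB a cw hI hr hKf0 hKf ha1 ha hcw hμ hμk hnB0 hnB
  obtain ⟨ht0, ht1⟩ := tRf_bd hI hc1 hcC
  have hμ0 : 0 < μ := lt_of_lt_of_le (by positivity) hμ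
  have ha1' : (1 : ℝ) ≤ a := by exact_mod_cast ha1
  have ha' : (a : ℝ) ≤ 32 := by exact_mod_cast ha
  have ha0 : (0 : ℝ) < a := by linarith
  have hμa : μ / a ≤ k := (div_le_self hμ0.le ha1').trans hμk
  have hμa0 : 0 < μ / a := div_pos hμ0 ha0
  have htp : 0 < tRf f u := lt_of_lt_of_le (by positivity) ht0
  have hkk : k * k ^ (-(1 / 2) : ℝ) = k ^ (1 / 2 : ℝ) := by
    calc k * k ^ (-(1 / 2) : ℝ) = k ^ (1 : ℝ) * k ^ (-(1 / 2) : ℝ) := by rw [Real.rpow_one]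
      _ = k ^ (1 / 2 : ℝ) := by
        rw [← Real.rpow_add hk0]
        norm_num
  have hexp : ∀ y : ℝ, y ≤ k ^ (1 / 2 : ℝ) → Real.exp y ≤ 2 := by
    intro y hy
    have h3 : Real.exp y ≤ Real.exp (1 / 2) := Real.exp_le_exp.2 (hy.trans h1)
    have h4 : Real.exp (1 / 2) ≤ 2 := by
      have h14 := Real.exp_one_lt_d9
      have h15 : Real.exp (1 / 2) * Real.exp (1 / 2) = Real.exp 1 := by
        rw [← Real.exp_add]
        norm_num
      nlinarith [Real.exp_pos (1 / 2)]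
    exact h3.trans h4
  have hS : sumC d 0 (μ / a) ≤ Cs * k ^ (-((d : ℝ) + 1)) := by
    refine sumC_le d (by positivity) hk0 ?_
    rw [le_div_iff₀ ha0]
    calc cμ / 32 * k * a ≤ cμ / 32 * k * 32 := by gcongr
      _ = cμ * k := by ring
      _ ≤ μ := hμ
  have hS0 : 0 ≤ sumC d 0 (μ / a) := ANF.Heat.sumC_nonneg d 0 hμa0
  have hsq : √(nB * sumC d 0 (μ / a)) ≤ (1 + Cs) * k ^ (-((d : ℝ) + 2)) := by
    have e1 : nB * sumC d 0 (μ / a) ≤ Cs * k ^ (-((d : ℝ) + 2)) := by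
      have e2 := mul_le_rpow (ca := 1) hk0 hnB0 hS0 (by rw [one_mul]; exact hnB) hS
      rw [one_mul, show (-1 : ℝ) + -((d : ℝ) + 1) = -((d : ℝ) + 2) by ring] at e2
      exact e2
    have e3 : 1 ≤ k ^ (-((d : ℝ) + 2)) := one_le_rpow hk0 hk.2 (by
      have : (0 : ℝ) ≤ d := Nat.cast_nonneg d
      linarith)
    have e4 : √(nB * sumC d 0 (μ / a)) ≤ 1 + nB * sumC d 0 (μ / a) := by
      have e5 : 0 ≤ nB * sumC d 0 (μ / a) := mul_nonneg hnB0 hS0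
      rw [Real.sqrt_le_left (by linarith)]
      nlinarith
    calc √(nB * sumC d 0 (μ / a)) ≤ 1 + nB * sumC d 0 (μ / a) := e4
      _ ≤ k ^ (-((d : ℝ) + 2)) + Cs * k ^ (-((d : ℝ) + 2)) := add_le_add e3 e1
      _ = _ := by ring
  have hK3 : (k ^ (-2 : ℝ)) ^ 3 = k ^ (-6 : ℝ) := by
    rw [← Real.rpow_natCast (k ^ (-2 : ℝ)), ← Real.rpow_mul hk0.le]
    norm_num
  have hE1 : Real.exp (tRf f u * (μ * cw / a)) ≤ 2 := by
    apply hexp
    have e1 : μ * cw / a = μ / a * cw := by ring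
    rw [e1]
    have e2 : μ / a * cw ≤ k * k ^ (-(1 / 2) : ℝ) :=
      mul_le_mul hμa hcw (Nat.cast_nonneg _) hk0.le
    rw [hkk] at e2
    have e3 : 0 ≤ μ / a * cw := mul_nonneg hμa0.le (Nat.cast_nonneg _)
    nlinarith
  have hR0 : 0 ≤ kRf f u nB (k ^ (-2 : ℝ)) Kf d a cw μ := by
    unfold kRf
    rw [hI.fC1]
    positivity
  have hR : kRf f u nB (k ^ (-2 : ℝ)) Kf d a cw μ ≤
      8 * C1 * (1 + Cs) * k ^ (-(g0 + d + 8)) := by
    unfold kRf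
    rw [hI.fC1, hK3]
    have e1 := mul_le_rpow (ca := 1) hk0 hKf0 (Real.sqrt_nonneg _) (by rw [one_mul]; exact hKf) hsq
    rw [one_mul] at e1
    have e10 : 0 ≤ Kf * √(nB * sumC d 0 (μ / a)) := by positivity
    have e2 := mul_le_rpow (ca := 4 * C1) (a := -6) hk0 (by positivity) e10 le_rfl e1
    have e3 : 4 * C1 * (1 + Cs) * k ^ (-6 + (-g0 + -((d : ℝ) + 2))) =
        4 * C1 * (1 + Cs) * k ^ (-(g0 + d + 8)) := by
      congr 2
      ring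
    rw [e3] at e2
    calc 4 * C1 * k ^ (-6 : ℝ) * (Kf * √(nB * sumC d 0 (μ / a))) *
          Real.exp (tRf f u * (μ * cw / a)) ≤
        4 * C1 * (1 + Cs) * k ^ (-(g0 + d + 8)) * 2 :=
          mul_le_mul e2 hE1 (Real.exp_pos _).le (by positivity)
      _ = _ := by ring
  refine ⟨add_nonneg hKf0 hR0, ?_⟩
  have hdn : (0 : ℝ) ≤ d := Nat.cast_nonneg d
  have e1 : Kf ≤ k ^ (-(g0 + d + 8)) := hKf.trans (rpow_anti hk0 hk.2 (by linarith))
  have e4 : k ^ (-1 : ℝ) * k ^ (-(g0 + d + 8)) = k ^ (-(g0 + d + 9)) := by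
    rw [← Real.rpow_add hk0]
    congr 1
    ring
  calc Kf + kRf f u nB (k ^ (-2 : ℝ)) Kf d a cw μ ≤
      (1 + 8 * C1 * (1 + Cs)) * k ^ (-(g0 + d + 8)) := by linarith
    _ ≤ k ^ (-1 : ℝ) * k ^ (-(g0 + d + 8)) := mul_le_mul_of_nonneg_right h2 (rpow_nn hk0 _)
    _ = _ := e4

/-- `RNum` (used with the rate `4 b` and the side `s' = s/2`) -/
theorem rNum (x : Ex d CM) (G Cq : ℝ) {cν b vt : ℝ} (hCq : 0 ≤ Cq) (hcν : 0 < cν)
    (hb : 0 < b) (hb1 : 8 * b ≤ cν) (hvt : 0 ≤ vt) (hvt1 : vt ≤ x.vt) :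
    ∀ᶠ k in 𝓝[>] (0 : ℝ), ∀ (ε q τ KF ν : ℝ) (s m : ℕ),
      0 ≤ τ → τ ≤ 2 * k ^ (-(7 / 8) : ℝ) → 0 ≤ ε → ε ≤ k ^ (13 * x.vi) → 0 ≤ q →
      q ≤ Cq * (k ^ (2 * x.vi) * τ) → 0 ≤ KF → KF ≤ k ^ (-G) * Real.exp (ν * s / 10) →
      cν * k ≤ ν → ν ≤ 1 → 1 / 2 * k ^ (-2 : ℝ) ≤ s → 1 ≤ m →
      RNum d k b x.vi vt ν ε q KF s m := by
  have hv1 := x.v1_pos
  have hvi := x.vi_pos
  set Cs : ℝ := (8 ^ d * d.factorial * 8) / cν ^ (d + 1) with hCs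
  have hCs0 : 0 < Cs := by positivity
  have hvt2 : 4 * vt < 2 * x.vi := by
    have h1 := x.vt_eq
    have h2 := min_le_right (x.e / 4) x.vi
    linarith
  filter_upwards [ev_small one_pos,
    ev_pow' (1 : ℝ) (show x.vi < 13 * x.vi by linarith),
    ev_exp (a := G) 1 0 (b := 1) (c := 9 / 10 * (cν / 2)) one_pos (by positivity),
    ev_exp (a := 4 * G + (d + 1)) (29 ^ 3 * Cs * 2) 0 (b := 1) (c := 8 / 5 * (cν / 2)) one_pos
      (by positivity),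
    ev_pow' (29 ^ 3 * Cq * 4 : ℝ) (show vt < 2 * x.vi - 3 * vt by linarith)]
    with k hk h1 h2 h3 h4
  have hk0 := hk.1
  rw [one_mul] at h1
  intro ε q τ KF ν s m hτ hτ2 he0 he hq0 hq hKF0 hKF hνl hν1 hs hm
  have hν0 : 0 < ν := lt_of_lt_of_le (by positivity) hνl
  have hνs : cν / 2 * k ^ (-1 : ℝ) ≤ ν * s := by
    have e1 : k * k ^ (-2 : ℝ) = k ^ (-1 : ℝ) := by
      calc k * k ^ (-2 : ℝ) = k ^ (1 : ℝ) * k ^ (-2 : ℝ) := by rw [Real.rpow_one]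
        _ = _ := by
          rw [← Real.rpow_add hk0]
          norm_num
    calc cν / 2 * k ^ (-1 : ℝ) = cν * k * (1 / 2 * k ^ (-2 : ℝ)) := by
          rw [← e1]; ring
      _ ≤ ν * s := mul_le_mul hνl hs (by positivity) hν0.le
  refine ⟨hk0, hk.2, hb, hvi.le, hvt, hm, hq0, he0, hKF0, hν0, hν1, ?_, he.trans h1, ?_, ?_, ?_⟩
  · calc 8 * (b * k) = 8 * b * k := by ring
      _ ≤ cν * k := mul_le_mul_of_nonneg_right hb1 hk0.le
      _ ≤ _ := hνl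
  · have e1 : Real.exp (ν * s / 10) * Real.exp (-(ν * s)) ≤
        Real.exp (-(9 / 10 * (cν / 2)) * k ^ (-1 : ℝ)) := by
      rw [← Real.exp_add]
      apply Real.exp_le_exp.2
      linarith
    rw [one_mul, Real.rpow_zero] at h2
    calc KF * Real.exp (-(ν * s)) ≤ (k ^ (-G) * Real.exp (ν * s / 10)) * Real.exp (-(ν * s)) :=
          mul_le_mul_of_nonneg_right hKF (Real.exp_pos _).le
      _ = k ^ (-G) * (Real.exp (ν * s / 10) * Real.exp (-(ν * s))) := by ring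
      _ ≤ k ^ (-G) * Real.exp (-(9 / 10 * (cν / 2)) * k ^ (-1 : ℝ)) :=
          mul_le_mul_of_nonneg_left e1 (rpow_nn hk0 _)
      _ ≤ 1 := h2
  · have hkv : 1 ≤ 1 / k ^ vt := by
      rw [one_le_div (Real.rpow_pos_of_pos hk0 _)]
      exact Real.rpow_le_one hk0.le hk.2 hvt
    have e1 : 1 + 28 / k ^ vt ≤ 29 * k ^ (-vt) := by
      rw [Real.rpow_neg hk0.le, ← one_div]
      have : 28 / k ^ vt = 28 * (1 / k ^ vt) := by ring
      rw [this]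
      linarith
    have e10 : 0 ≤ 1 + 28 / k ^ vt := by
      have := Real.rpow_pos_of_pos hk0 vt
      positivity
    have e2 : (1 + 28 / k ^ vt) ^ 3 ≤ 29 ^ 3 * k ^ (-(3 * vt)) := by
      refine (pow_le_rpow hk0 e10 e1 3).trans (le_of_eq ?_)
      congr 2
      push_cast
      ring
    have e3 : q ≤ 2 * Cq * (k ^ (2 * x.vi) * k ^ (-(7 / 8) : ℝ)) := by
      refine hq.trans ?_
      have e4 : k ^ (2 * x.vi) * τ ≤ k ^ (2 * x.vi) * (2 * k ^ (-(7 / 8) : ℝ)) :=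
        mul_le_mul_of_nonneg_left hτ2 (rpow_nn hk0 _)
      calc Cq * (k ^ (2 * x.vi) * τ) ≤ Cq * (k ^ (2 * x.vi) * (2 * k ^ (-(7 / 8) : ℝ))) :=
            mul_le_mul_of_nonneg_left e4 hCq
        _ = _ := by ring
    calc (1 + 28 / k ^ vt) ^ 3 * q ≤
          (29 ^ 3 * k ^ (-(3 * vt))) * (2 * Cq * (k ^ (2 * x.vi) * k ^ (-(7 / 8) : ℝ))) :=
          mul_le_mul e2 e3 hq0 (by positivity)
      _ = 1 / 2 * (29 ^ 3 * Cq * 4 * (k ^ (-(3 * vt)) * k ^ (2 * x.vi))) *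
          k ^ (-(7 / 8) : ℝ) := by ring
      _ = 1 / 2 * (29 ^ 3 * Cq * 4 * k ^ (2 * x.vi - 3 * vt)) * k ^ (-(7 / 8) : ℝ) := by
          rw [← Real.rpow_add hk0, show -(3 * vt) + 2 * x.vi = 2 * x.vi - 3 * vt by ring]
      _ ≤ 1 / 2 * k ^ vt * k ^ (-(7 / 8) : ℝ) := by
          refine mul_le_mul_of_nonneg_right ?_ (rpow_nn hk0 _)
          linarith
  · have e1 : Real.exp (ν * s / 10) ^ 4 * Real.exp (-(2 * ν * s)) ≤
        Real.exp (-(8 / 5 * (cν / 2)) * k ^ (-1 : ℝ)) := by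
      rw [← Real.exp_nat_mul, ← Real.exp_add]
      apply Real.exp_le_exp.2
      push_cast
      linarith
    have e2 : KF ^ 4 ≤ k ^ (-(4 * G)) * Real.exp (ν * s / 10) ^ 4 := by
      calc KF ^ 4 ≤ (k ^ (-G) * Real.exp (ν * s / 10)) ^ 4 := pow_le_pow_left₀ hKF0 hKF 4
        _ = (k ^ (-G)) ^ 4 * Real.exp (ν * s / 10) ^ 4 := mul_pow _ _ _
        _ = _ := by
          rw [← Real.rpow_natCast (k ^ (-G)), ← Real.rpow_mul hk0.le]
          congr 2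
          push_cast
          ring
    have e3 := sumC_le d hcν hk0 hνl
    rw [← hCs] at e3
    have e30 : 0 ≤ sumC d 0 ν := ANF.Heat.sumC_nonneg d 0 hν0
    rw [Real.rpow_zero] at h3
    calc 29 ^ 3 * (KF ^ 4 * sumC d 0 ν * Real.exp (-(2 * ν * s))) ≤
        29 ^ 3 * ((k ^ (-(4 * G)) * Real.exp (ν * s / 10) ^ 4) *
          (Cs * k ^ (-((d : ℝ) + 1))) * Real.exp (-(2 * ν * s))) := by
          have hA : 0 ≤ KF ^ 4 := by positivity
          gcongr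
      _ = 29 ^ 3 * Cs * (k ^ (-(4 * G)) * k ^ (-((d : ℝ) + 1))) *
          (Real.exp (ν * s / 10) ^ 4 * Real.exp (-(2 * ν * s))) := by ring
      _ ≤ 29 ^ 3 * Cs * (k ^ (-(4 * G)) * k ^ (-((d : ℝ) + 1))) *
          Real.exp (-(8 / 5 * (cν / 2)) * k ^ (-1 : ℝ)) :=
          mul_le_mul_of_nonneg_left e1 (by positivity)
      _ = 1 / 2 * (29 ^ 3 * Cs * 2 * k ^ (-(4 * G + ((d : ℝ) + 1))) *
          Real.exp (-(8 / 5 * (cν / 2)) * k ^ (-1 : ℝ))) := by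
          rw [← Real.rpow_add hk0, show -(4 * G) + -((d : ℝ) + 1) = -(4 * G + ((d : ℝ) + 1)) by
            ring]
          ring
      _ ≤ 1 / 2 := by linarith

/-- `ContNum`, the content (`m ≤ J` blobs) -/
theorem contNum (x : Ex d CM) (J : ℕ) (KD : ℝ) {c1 C1 rho0 ck cμ cr Cq : ℝ} (hKD0 : 0 ≤ KD)
    (hc1 : 0 < c1) (hcC : c1 ≤ C1) (hr : 0 < rho0) (hcμ : 0 < cμ) (hcr : 0 < cr) :
    ∀ᶠ k in 𝓝[>] (0 : ℝ), ∀ (L : ℕ) (f : Fix) (t : Tol d L) (u : UTol)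
      (m r1 D1 nb a cw : ℕ) (Ml CV τV τ ρF μ : ℝ), InK x c1 C1 rho0 ck k f t u →
      m ≤ J → 0 ≤ Ml → cP d Ml nb ≤ k ^ (-x.v1) → 0 ≤ CV → CV ≤ k ^ (-x.v1) →
      1 ≤ r1 → (D1 : ℝ) ≤ KD * r1 → cr * k ^ (-x.v2) ≤ r1 → 0 ≤ τV → τV ≤ Cq * τ → 0 ≤ τ →
      ρF ≤ k ^ (-(1 / 2) : ℝ) → (cw : ℝ) ≤ k ^ (-(1 / 2) : ℝ) → 1 ≤ a →
      cμ * k ≤ μ → μ ≤ k →
      ContNum f u m r1 D1 nb d Ml CV τV ρF x.s (k ^ (32 * x.vi)) (k ^ (2 * x.vi) * τ)
        (k ^ (-(3 * x.v1))) (k ^ (-2 : ℝ)) a cw μ := by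
  have hv1 := x.v1_pos
  have hvi := x.vi_pos
  have hC1 : 0 < C1 := hc1.trans_le hcC
  have hv11 : x.v1 < 1 / 2 := by
    have h1 := x.v1_eq
    have h2 := x.vi_lt
    have h3 := x.v_lt
    linarith
  filter_upwards [ev_small one_pos,
    cont_num x J (2 + KD) (cr ^ x.s) c1 (by positivity) (Real.rpow_pos_of_pos hcr _) hc1,
    ev_le 1 (b := 32 * x.vi) (by positivity) hC1 0,
    ev_le (8 * (2 * √C1 + 1)) (b := 32 * x.vi) (by positivity)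
      (show 0 < rho0 * c1 by positivity) 0,
    ev_pow' Cq (show 2 * x.vi < 128 * x.vi by linarith),
    ev_le 2 (b := 1 / 2) (by norm_num) (show (0 : ℝ) < 1 / 2 by norm_num) 0,
    ev_pow' (2 ^ J * (4 / cμ) * 2) (show (-2 : ℝ) < -1 + -x.v1 by linarith)]
    with k hk h1 h2 h3 h4 h5 h6
  simp only [pow_zero, mul_one] at h2 h3 h5
  rw [one_mul] at h2
  have hk0 := hk.1
  intro L f t u m r1 D1 nb a cw Ml CV τV τ ρF μ hI hm hMl hP hCV0 hCV hr1 hD1 hcr1 hτV0 hτV hτ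
    hρF hcw ha1 hμ hμk
  have hP0 : 0 ≤ cP d Ml nb := by
    unfold cP
    positivity
  have hKd0 : 0 ≤ cKd r1 D1 x.s := by
    unfold cKd
    positivity
  have hr1' : (1 : ℝ) ≤ r1 := by exact_mod_cast hr1
  have hs1 : x.s ≤ 1 := by
    have h1 := x.s_lt
    have h2 := x.v_lt
    linarith
  have hKd : cKd r1 D1 x.s ≤ 2 + KD := by
    unfold cKd
    have e1 : (D1 : ℝ) / r1 ≤ KD := by
      rw [div_le_iff₀ (by linarith)]
      exact hD1
    have e2 : (0 : ℝ) ≤ (D1 : ℝ) / r1 := by positivity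
    calc (2 + (D1 : ℝ) / r1) ^ x.s ≤ (2 + KD) ^ x.s :=
          Real.rpow_le_rpow (by linarith) (by linarith) x.s_pos.le
      _ ≤ (2 + KD) ^ (1 : ℝ) := Real.rpow_le_rpow_of_exponent_le (by linarith) hs1
      _ = 2 + KD := Real.rpow_one _
  have hwR : cr ^ x.s * k ^ (-(x.s * x.v2)) ≤ (r1 : ℝ) ^ x.s := by
    have e1 : cr ^ x.s * k ^ (-(x.s * x.v2)) = (cr * k ^ (-x.v2)) ^ x.s := by
      rw [Real.mul_rpow hcr.le (rpow_nn hk0 _), ← Real.rpow_mul hk0.le]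
      congr 2
      ring
    rw [e1]
    exact Real.rpow_le_rpow (mul_nonneg hcr.le (rpow_nn hk0 _)) hcr1 x.s_pos.le
  obtain ⟨g1, g2, g3, g4, g5, g6⟩ := h1 m (cP d Ml nb) CV (cKd r1 D1 x.s) ((r1 : ℝ) ^ x.s) τV
    hm hP0 hP hCV0 hCV hKd0 hKd hwR hτV0
  refine ⟨hr1, g1, g3, g5, g2, ?_, ?_, ?_, ?_, ?_⟩
  · refine le_trans g4 ?_
    calc k ^ (128 * x.vi) * τV ≤ k ^ (128 * x.vi) * (Cq * τ) :=
          mul_le_mul_of_nonneg_left hτV (rpow_nn hk0 _)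
      _ = Cq * k ^ (128 * x.vi) * τ := by ring
      _ ≤ _ := mul_le_mul_of_nonneg_right h4 hτ
  · rw [hI.fc1]
    exact g6
  · unfold cKg
    have hμ0 : 0 < μ := lt_of_lt_of_le (by positivity) hμ
    have ha1' : (1 : ℝ) ≤ a := by exact_mod_cast ha1
    have ha0 : (0 : ℝ) < a := by linarith
    have hμa : μ / a ≤ k := (div_le_self hμ0.le ha1').trans hμk
    have hμa0 : 0 < μ / a := div_pos hμ0 ha0
    have hkk : k * k ^ (-(1 / 2) : ℝ) = k ^ (1 / 2 : ℝ) := by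
      calc k * k ^ (-(1 / 2) : ℝ) = k ^ (1 : ℝ) * k ^ (-(1 / 2) : ℝ) := by rw [Real.rpow_one]
        _ = k ^ (1 / 2 : ℝ) := by
          rw [← Real.rpow_add hk0]
          norm_num
    have hE : Real.exp (μ * (cw + ρF) / a) ≤ 2 := by
      have e1 : μ * (cw + ρF) / a ≤ 1 / 2 := by
        calc μ * (cw + ρF) / a = μ / a * (cw + ρF) := by ring
          _ ≤ μ / a * (k ^ (-(1 / 2) : ℝ) + k ^ (-(1 / 2) : ℝ)) :=
              mul_le_mul_of_nonneg_left (by linarith) hμa0.le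
          _ ≤ k * (k ^ (-(1 / 2) : ℝ) + k ^ (-(1 / 2) : ℝ)) :=
              mul_le_mul_of_nonneg_right hμa (add_nonneg (rpow_nn hk0 _) (rpow_nn hk0 _))
          _ = 2 * (k * k ^ (-(1 / 2) : ℝ)) := by ring
          _ = 2 * k ^ (1 / 2 : ℝ) := by rw [hkk]
          _ ≤ 1 / 2 := h5
      have h3 : Real.exp (μ * (cw + ρF) / a) ≤ Real.exp (1 / 2) := Real.exp_le_exp.2 e1
      have h4 : Real.exp (1 / 2) ≤ 2 := by
        have h14 := Real.exp_one_lt_d9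
        have h15 : Real.exp (1 / 2) * Real.exp (1 / 2) = Real.exp 1 := by
          rw [← Real.exp_add]
          norm_num
        nlinarith [Real.exp_pos (1 / 2)]
      exact h3.trans h4
    have e1 : 4 / μ ≤ 4 / cμ * k ^ (-1 : ℝ) := by
      rw [Real.rpow_neg_one, ← div_eq_mul_inv, div_div]
      exact div_le_div_of_nonneg_left (by norm_num) (by positivity) hμ
    have e2 := mul_le_rpow (cb := 1) hk0 (by positivity : 0 ≤ 4 / μ) hCV0 e1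
      (by rw [one_mul]; exact hCV)
    rw [mul_one] at e2
    have e20 : 0 ≤ 4 / μ * CV := by positivity
    have e3 : (2 : ℝ) ^ m ≤ 2 ^ J := pow_le_pow_right₀ (by norm_num) hm
    calc (2 : ℝ) ^ m * (4 / μ * CV * Real.exp (μ * (cw + ρF) / a)) ≤
          2 ^ J * (4 / cμ * k ^ (-1 + -x.v1) * 2) := by
          refine mul_le_mul e3 ?_ (by positivity) (by positivity)
          exact mul_le_mul e2 hE (Real.exp_pos _).le (e20.trans e2)
      _ = 2 ^ J * (4 / cμ) * 2 * k ^ (-1 + -x.v1) := by ring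
      _ ≤ _ := h6
  · rw [hI.fC1]
    exact h2
  · rw [hI.fC1, hI.fc1]
    have hva1 : k ^ (32 * x.vi) ≤ 1 := Real.rpow_le_one hk0.le hk.2 (by positivity)
    have hva0 : 0 ≤ k ^ (32 * x.vi) := rpow_nn hk0 _
    have e1 : 8 * (2 * k ^ (32 * x.vi) * √C1 + (k ^ (32 * x.vi)) ^ 2) ≤
        8 * (2 * √C1 + 1) * k ^ (32 * x.vi) := by
      have : (k ^ (32 * x.vi)) ^ 2 ≤ k ^ (32 * x.vi) := by nlinarith
      linarith
    refine e1.trans (h3.trans ?_)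
    exact mul_le_mul_of_nonneg_right hI.rho0 hc1.le

/-- `ShNum` : numbers of the change of the centre of an insertion -/
theorem shNum (x : Ex d CM) {b vt : ℝ} (hb : 0 < b) :
    ∀ᶠ k in 𝓝[>] (0 : ℝ), ∀ s s' : ℕ, s = 2 * s' → k ^ (-2 : ℝ) ≤ (s : ℝ) →
      ShNum k x.vi vt b x.s s s' := by
  have hs1 : x.s ≤ 1 := by
    have h1 := x.s_lt
    have h2 := x.v_lt
    linarith
  filter_upwards [ev_small one_pos,
    ev_exp (a := 0) 1 x.vi (b := 1) (c := 4 * b) one_pos (by positivity),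
    ev_exp (a := 0) 1 vt (b := 1) (c := 4 * b) one_pos (by positivity),
    ev_exp (a := 0) 1 (x.vi + 2) (b := 1) (c := 4 * b) one_pos (by positivity),
    ev_ge (1 / (4 * b)) (b := 1) (by norm_num) 0]
    with k hk h1 h2 h3 h5 s s' hss hs
  have hk0 := hk.1
  simp only [pow_zero, mul_one, neg_zero, Real.rpow_zero, one_mul] at h1 h2 h3 h5
  have hks : k ^ (-1 : ℝ) ≤ k * s := by
    have e1 : k * k ^ (-2 : ℝ) = k ^ (-1 : ℝ) := by
      calc k * k ^ (-2 : ℝ) = k ^ (1 : ℝ) * k ^ (-2 : ℝ) := by rw [Real.rpow_one]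
        _ = _ := by
          rw [← Real.rpow_add hk0]
          norm_num
    rw [← e1]
    exact mul_le_mul_of_nonneg_left hs hk0.le
  have hexp : Real.exp (-(4 * (b * k) * s)) ≤ Real.exp (-(4 * b) * k ^ (-1 : ℝ)) := by
    apply Real.exp_le_exp.2
    have := mul_le_mul_of_nonneg_left hks (by positivity : 0 ≤ 4 * b)
    have e : 4 * (b * k) * (s : ℝ) = 4 * b * (k * s) := by ring
    rw [e]
    linarith
  refine ⟨hk0, hb.le, hss, hexp.trans h1, hexp.trans h2, fun D => ?_⟩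
  -- `D ^ s ≤ max 1 D ≤ (1/(4 b k)) e^{4 b k D}`
  have hm1 : (1 : ℝ) ≤ max 1 (D : ℝ) := le_max_left _ _
  have hmp : 0 < (max 1 (D : ℝ)) ^ x.s := Real.rpow_pos_of_pos (by linarith) _
  have e1 : (max 1 (D : ℝ)) ^ x.s ≤ max 1 (D : ℝ) := by
    calc (max 1 (D : ℝ)) ^ x.s ≤ (max 1 (D : ℝ)) ^ (1 : ℝ) :=
          Real.rpow_le_rpow_of_exponent_le hm1 hs1
      _ = _ := Real.rpow_one _
  have hD0 : (0 : ℝ) ≤ D := Nat.cast_nonneg _
  have hbk : 0 < 4 * (b * k) := by positivity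
  have hkinv : 1 ≤ k ^ (-1 : ℝ) := one_le_rpow hk0 hk.2 (by norm_num)
  have hk1 : k * k ^ (-1 : ℝ) = 1 := by
    rw [Real.rpow_neg_one, mul_inv_cancel₀ hk0.ne']
  have e2 : max 1 (D : ℝ) * Real.exp (-(4 * (b * k) * D)) ≤
      k ^ (-1 : ℝ) * k ^ (-1 : ℝ) := by
    have e3 : Real.exp (-(4 * (b * k) * D)) ≤ 1 := by
      rw [Real.exp_le_one_iff]
      have := mul_nonneg hbk.le hD0
      linarith
    have e4 : 4 * (b * k) * D * Real.exp (-(4 * (b * k) * D)) ≤ 1 := by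
      have e5 := Real.add_one_le_exp (4 * (b * k) * D)
      have e6 : Real.exp (4 * (b * k) * D) * Real.exp (-(4 * (b * k) * D)) = 1 := by
        rw [← Real.exp_add]
        simp
      have e7 := (Real.exp_pos (-(4 * (b * k) * D))).le
      nlinarith
    rcases le_total (D : ℝ) 1 with hD | hD
    · rw [max_eq_left hD, one_mul]
      refine e3.trans ?_
      nlinarith
    · rw [max_eq_right hD]
      have e8 : (D : ℝ) * Real.exp (-(4 * (b * k) * D)) ≤ 1 / (4 * b) * k ^ (-1 : ℝ) := by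
        have e9 : (D : ℝ) * Real.exp (-(4 * (b * k) * D)) =
            1 / (4 * b) * k ^ (-1 : ℝ) *
              (4 * (b * k) * D * Real.exp (-(4 * (b * k) * D))) := by
          rw [Real.rpow_neg_one]
          field_simp
        rw [e9]
        have : 0 ≤ 1 / (4 * b) * k ^ (-1 : ℝ) := by positivity
        nlinarith
      exact e8.trans (mul_le_mul_of_nonneg_right h5 (by positivity))
  have e3 : Real.exp (-(4 * (b * k) * (s + D))) =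
      Real.exp (-(4 * (b * k) * s)) * Real.exp (-(4 * (b * k) * D)) := by
    rw [← Real.exp_add]
    congr 1
    ring
  have e4 : (max 1 (D : ℝ)) ^ (-x.s) = 1 / (max 1 (D : ℝ)) ^ x.s := by
    rw [Real.rpow_neg (by linarith), one_div]
  rw [e3, e4, mul_one_div, le_div_iff₀ hmp]
  have e5 : Real.exp (-(4 * (b * k) * s)) ≤ k ^ (x.vi + 2) := hexp.trans h3
  have e6 : (max 1 (D : ℝ)) ^ x.s * Real.exp (-(4 * (b * k) * D)) ≤ k ^ (-2 : ℝ) := by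
    calc (max 1 (D : ℝ)) ^ x.s * Real.exp (-(4 * (b * k) * D)) ≤
          max 1 (D : ℝ) * Real.exp (-(4 * (b * k) * D)) :=
          mul_le_mul_of_nonneg_right e1 (Real.exp_pos _).le
      _ ≤ k ^ (-1 : ℝ) * k ^ (-1 : ℝ) := e2
      _ = k ^ (-2 : ℝ) := by
        rw [← Real.rpow_add hk0]
        norm_num
  calc Real.exp (-(4 * (b * k) * s)) * Real.exp (-(4 * (b * k) * D)) * (max 1 (D : ℝ)) ^ x.s =
        Real.exp (-(4 * (b * k) * s)) *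
          ((max 1 (D : ℝ)) ^ x.s * Real.exp (-(4 * (b * k) * D))) := by ring
    _ ≤ k ^ (x.vi + 2) * k ^ (-2 : ℝ) :=
        mul_le_mul e5 e6 (mul_nonneg hmp.le (Real.exp_pos _).le) (rpow_nn hk0 _)
    _ = k ^ x.vi := by
      rw [← Real.rpow_add hk0]
      congr 1
      ring

end Pool.Agent.ANC
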