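import Pool.Agent.ANC.InsS
import Pool.Agent.ANC.InsT0
import Pool.Agent.ANI.RemDec

/-!
# ANC / InsT: the numbers of the form part of a removal (helper20)

* `numI0` : `NumI` for one small `k`;
* `numR0` : `NumR`.
-/

open Filter Topology Real

namespace Pool.Agent.ANC

open Pool.Agent.Kin Pool.Agent.AND Pool.Agent.ANI Pool.Agent.ANM Pool.Agent.ANF.Heat

variable {d : ℕ} {CM : ℝ}

/-- `rho d l ≤ 1 / l` -/
theorem rho_le (hd : 3 ≤ d) {l : ℝ} (hl : 1 ≤ l) : rho d l ≤ 1 / l := by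
  unfold rho
  have hl0 : 0 < l := by linarith
  rw [div_le_div_iff₀ (by positivity) hl0]
  have h1 : l ^ 3 ≤ l ^ d := pow_le_pow_right₀ hl hd
  calc l ^ 2 * l = l ^ 3 := by ring
    _ ≤ l ^ d := h1
    _ = 1 * l ^ d := (one_mul _).symm

/-- the exponentially small terms -/
theorem formExp (d : ℕ) (G M : ℝ) {cν : ℝ} (hG : 0 ≤ G) (hcν : 0 < cν) :
    ∀ᶠ k in 𝓝[>] (0 : ℝ), ∀ (s : ℕ) (q qd nu nB : ℝ), 0 ≤ q →
      q ≤ k ^ (-G) * Real.exp (nu * s / 10) → 0 ≤ qd → qd ≤ k ^ (-3 : ℝ) → 0 ≤ nB →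
      nB ≤ k ^ (-1 : ℝ) → cν * k ≤ nu → 1 / 2 * k ^ (-2 : ℝ) ≤ (s : ℝ) →
      (3 * (s : ℝ) + 1) ^ d * InsK.eN d q nu (s + s / 2) ≤ k ^ M ∧
      InsK.eN d q nu (s + s / 2) ≤ k ^ M ∧ 0 ≤ InsK.eN d q nu (s + s / 2) ∧
      edF d s q qd nu nB ≤ k ^ M ∧
      InsK.kN d q qd nu nB * Real.exp (-(nu / 4 * ((s + s / 2 : ℕ) : ℝ))) ≤ k ^ M := by
  set C1s : ℝ := (8 ^ d * d.factorial * 8) / (cν / 2) ^ (d + 1) with hC1s
  set C2s : ℝ := (8 ^ d * d.factorial * 8) / (cν / 32) ^ (d + 1) with hC2s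
  set C3s : ℝ := (8 ^ d * d.factorial * 8) / (cν / 8) ^ (d + 1) with hC3s
  have h1s : 0 < C1s := by positivity
  have h2s : 0 < C2s := by positivity
  have h3s : 0 < C3s := by positivity
  filter_upwards [ev_small one_pos,
    ev_kill (4 ^ d * (4 * C1s)) (G + (d + 1)) M d (cν := cν) (δ := 2 / 5) (by positivity) hcν
      (by norm_num),
    ev_kill ((4 * C1s + 2) * (128 * d / cν * C2s + 10 * d * C3s)) (G + (d + 1) + 4 + (d + 2)) M 1
      (cν := cν) (δ := 3 / 20) (by positivity) hcν (by norm_num),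
    ev_kill (4 * C1s + 2) (G + (d + 1) + 4) M 0
      (cν := cν) (δ := 3 / 20) (by positivity) hcν (by norm_num)] with k hk h1 h2 h3
  have hk0 := hk.1
  intro s q qd nu nB hq0 hq hqd0 hqd hnB0 hnB hν hs
  have hν0 : 0 < nu := lt_of_lt_of_le (by positivity) hν
  have hdn : (0 : ℝ) ≤ d := Nat.cast_nonneg d
  have hk2 : 1 ≤ k ^ (-2 : ℝ) := one_le_rpow hk0 hk.2 (by norm_num)
  have hs1 : (1 : ℝ) ≤ s := by
    have h4 : (0 : ℝ) < s := lt_of_lt_of_le (by positivity) hs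
    have h5 : 0 < s := by exact_mod_cast h4
    exact_mod_cast h5
  have hss : (s : ℝ) ≤ ((s + s / 2 : ℕ) : ℝ) := by
    push_cast
    have : (0 : ℝ) ≤ ((s / 2 : ℕ) : ℝ) := Nat.cast_nonneg _
    linarith
  have hS1 : sumC d 0 (nu / 2) ≤ C1s * k ^ (-((d : ℝ) + 1)) :=
    sumC_le d (by positivity) hk0 (by linarith)
  have hS2 : sumC d 0 (nu / 2 / 16) ≤ C2s * k ^ (-((d : ℝ) + 1)) :=
    sumC_le d (by positivity) hk0 (by linarith)
  have hS3 : sumC d 0 (nu / 2 / 4) ≤ C3s * k ^ (-((d : ℝ) + 1)) :=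
    sumC_le d (by positivity) hk0 (by linarith)
  have hS10 : 0 ≤ sumC d 0 (nu / 2) := sumC_nonneg d 0 (by positivity)
  have hS20 : 0 ≤ sumC d 0 (nu / 2 / 16) := sumC_nonneg d 0 (by positivity)
  have hS30 : 0 ≤ sumC d 0 (nu / 2 / 4) := sumC_nonneg d 0 (by positivity)
  set E := Real.exp (nu * s / 10) with hE
  have hE1 : 1 ≤ E := Real.one_le_exp (by positivity)
  -- `tT`
  have hT0 : 0 ≤ tT d q nu := by
    unfold tT
    positivity
  have hT : tT d q nu ≤ C1s * k ^ (-(G + (d + 1))) * E := by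
    unfold tT
    have e1 : k ^ (-(G + (d + 1))) = k ^ (-G) * k ^ (-((d : ℝ) + 1)) := by
      rw [← Real.rpow_add hk0]
      congr 1
      ring
    rw [e1]
    calc q * sumC d 0 (nu / 2) ≤ (k ^ (-G) * E) * (C1s * k ^ (-((d : ℝ) + 1))) :=
          mul_le_mul hq hS1 hS10 (by positivity)
      _ = _ := by ring
  -- `eN`
  have hN0 : 0 ≤ InsK.eN d q nu (s + s / 2) := by
    unfold InsK.eN
    positivity
  have hX1 : E * Real.exp (-(nu / 2 * ((s + s / 2 : ℕ) : ℝ))) ≤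
      Real.exp (-(2 / 5 * nu * s)) := by
    rw [hE, ← Real.exp_add]
    apply Real.exp_le_exp.2
    have := mul_le_mul_of_nonneg_left hss (by positivity : 0 ≤ nu / 2)
    linarith
  have hN1 : (3 * (s : ℝ) + 1) ^ d * InsK.eN d q nu (s + s / 2) ≤ k ^ M := by
    refine le_trans ?_ (h1 s nu hν hs)
    unfold InsK.eN
    have e1 : (3 * (s : ℝ) + 1) ^ d ≤ 4 ^ d * (s : ℝ) ^ d := by
      rw [← mul_pow]
      exact pow_le_pow_left₀ (by positivity) (by linarith) d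
    have e2 : 4 * tT d q nu * Real.exp (-(nu / 2 * ((s + s / 2 : ℕ) : ℝ))) ≤
        4 * C1s * k ^ (-(G + (d + 1))) * Real.exp (-(2 / 5 * nu * s)) := by
      calc 4 * tT d q nu * Real.exp (-(nu / 2 * ((s + s / 2 : ℕ) : ℝ))) ≤
            4 * (C1s * k ^ (-(G + (d + 1))) * E) *
              Real.exp (-(nu / 2 * ((s + s / 2 : ℕ) : ℝ))) := by gcongr
        _ = 4 * C1s * k ^ (-(G + (d + 1))) *
            (E * Real.exp (-(nu / 2 * ((s + s / 2 : ℕ) : ℝ)))) := by ring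
        _ ≤ _ := by gcongr
    calc (3 * (s : ℝ) + 1) ^ d *
          (4 * tT d q nu * Real.exp (-(nu / 2 * ((s + s / 2 : ℕ) : ℝ)))) ≤
          (4 ^ d * (s : ℝ) ^ d) *
          (4 * C1s * k ^ (-(G + (d + 1))) * Real.exp (-(2 / 5 * nu * s))) :=
          mul_le_mul e1 e2 (by positivity) (by positivity)
      _ = 4 ^ d * (4 * C1s) * k ^ (-(G + (d + 1))) * (s : ℝ) ^ d *
          Real.exp (-(2 / 5 * nu * s)) := by ring
  have h31 : 1 ≤ (3 * (s : ℝ) + 1) ^ d := one_le_pow₀ (by linarith)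
  have hN2 : InsK.eN d q nu (s + s / 2) ≤ k ^ M :=
    (le_mul_of_one_le_left hN0 h31).trans hN1
  -- `kN`
  have hK0 : 0 ≤ InsK.kN d q qd nu nB := by
    unfold InsK.kN
    positivity
  have hK : InsK.kN d q qd nu nB ≤ (4 * C1s + 2) * k ^ (-(G + (d + 1) + 4)) * E := by
    unfold InsK.kN
    have e1 : k ^ (-(G + (d + 1))) ≤ k ^ (-(G + (d + 1) + 4)) :=
      rpow_anti hk0 hk.2 (by linarith)
    have e2 : nB * qd ≤ k ^ (-(G + (d + 1) + 4)) := by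
      have e3 := mul_le_rpow (ca := 1) (cb := 1) hk0 hnB0 hqd0 (by rw [one_mul]; exact hnB)
        (by rw [one_mul]; exact hqd)
      rw [mul_one, one_mul] at e3
      exact e3.trans (rpow_anti hk0 hk.2 (by linarith))
    have e4 : tT d q nu ≤ C1s * k ^ (-(G + (d + 1) + 4)) * E := by
      refine hT.trans ?_
      gcongr
    have e5 : nB * qd ≤ k ^ (-(G + (d + 1) + 4)) * E :=
      e2.trans (le_mul_of_one_le_right (rpow_nn hk0 _) hE1)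
    calc 4 * tT d q nu + 2 * (nB * qd) ≤ 4 * (C1s * k ^ (-(G + (d + 1) + 4)) * E) +
          2 * (k ^ (-(G + (d + 1) + 4)) * E) := by linarith
      _ = _ := by ring
  have hX2 : E * Real.exp (-(nu / 4 * ((s + s / 2 : ℕ) : ℝ))) ≤
      Real.exp (-(3 / 20 * nu * s)) := by
    rw [hE, ← Real.exp_add]
    apply Real.exp_le_exp.2
    have := mul_le_mul_of_nonneg_left hss (by positivity : 0 ≤ nu / 4)
    linarith
  have hKE : InsK.kN d q qd nu nB * Real.exp (-(nu / 4 * ((s + s / 2 : ℕ) : ℝ))) ≤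
      (4 * C1s + 2) * k ^ (-(G + (d + 1) + 4)) * Real.exp (-(3 / 20 * nu * s)) := by
    calc InsK.kN d q qd nu nB * Real.exp (-(nu / 4 * ((s + s / 2 : ℕ) : ℝ))) ≤
          (4 * C1s + 2) * k ^ (-(G + (d + 1) + 4)) * E *
            Real.exp (-(nu / 4 * ((s + s / 2 : ℕ) : ℝ))) := by gcongr
      _ = (4 * C1s + 2) * k ^ (-(G + (d + 1) + 4)) *
          (E * Real.exp (-(nu / 4 * ((s + s / 2 : ℕ) : ℝ)))) := by ring
      _ ≤ _ := by gcongr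
  refine ⟨hN1, hN2, hN0, ?_, ?_⟩
  · refine le_trans ?_ (h2 s nu hν hs)
    unfold edF
    have e1 : 64 * (d : ℝ) / (nu / 2) * sumC d 0 (nu / 2 / 16) ≤
        128 * d / cν * C2s * (k ^ (-((d : ℝ) + 2)) * s) := by
      have e2 : 64 * (d : ℝ) / (nu / 2) ≤ 128 * d / cν * k ^ (-1 : ℝ) := by
        have e3 : 64 * (d : ℝ) / (nu / 2) = 128 * d / nu := by
          field_simp
          ring
        rw [e3, Real.rpow_neg_one, ← div_eq_mul_inv, div_div]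
        exact div_le_div_of_nonneg_left (by positivity) (by positivity) hν
      have e4 := mul_le_mul e2 hS2 hS20 (by positivity)
      have e5 : k ^ (-1 : ℝ) * k ^ (-((d : ℝ) + 1)) = k ^ (-((d : ℝ) + 2)) := by
        rw [← Real.rpow_add hk0]
        congr 1
        ring
      refine e4.trans ?_
      calc 128 * d / cν * k ^ (-1 : ℝ) * (C2s * k ^ (-((d : ℝ) + 1))) =
            128 * d / cν * C2s * ((k ^ (-1 : ℝ) * k ^ (-((d : ℝ) + 1))) * 1) := by ring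
        _ ≤ _ := by
          rw [e5]
          gcongr
    have e6 : 2 * (d : ℝ) * (2 * ((2 * s : ℕ) : ℝ) + 1) * sumC d 0 (nu / 2 / 4) ≤
        10 * d * C3s * (k ^ (-((d : ℝ) + 2)) * s) := by
      have e7 : 2 * (d : ℝ) * (2 * ((2 * s : ℕ) : ℝ) + 1) ≤ 10 * d * s := by
        push_cast
        nlinarith
      have e8 : sumC d 0 (nu / 2 / 4) ≤ C3s * k ^ (-((d : ℝ) + 2)) := by
        refine hS3.trans ?_
        have := rpow_anti hk0 hk.2 (show -((d : ℝ) + 2) ≤ -((d : ℝ) + 1) by linarith)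
        gcongr
      calc 2 * (d : ℝ) * (2 * ((2 * s : ℕ) : ℝ) + 1) * sumC d 0 (nu / 2 / 4) ≤
            (10 * d * s) * (C3s * k ^ (-((d : ℝ) + 2))) :=
            mul_le_mul e7 e8 hS30 (by positivity)
        _ = _ := by ring
    have e9 : nu / 2 / 2 = nu / 4 := by ring
    rw [e9]
    have e10 : k ^ (-(G + (d + 1) + 4 + (d + 2))) =
        k ^ (-(G + (d + 1) + 4)) * k ^ (-((d : ℝ) + 2)) := by
      rw [← Real.rpow_add hk0]
      congr 1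
      ring
    set B := 64 * (d : ℝ) / (nu / 2) * sumC d 0 (nu / 2 / 16) +
      2 * (d : ℝ) * (2 * ((2 * s : ℕ) : ℝ) + 1) * sumC d 0 (nu / 2 / 4) with hB
    have hB0 : 0 ≤ B := by positivity
    have hB1 : B ≤ (128 * d / cν * C2s + 10 * d * C3s) * (k ^ (-((d : ℝ) + 2)) * s) := by
      calc B ≤ 128 * d / cν * C2s * (k ^ (-((d : ℝ) + 2)) * s) +
            10 * d * C3s * (k ^ (-((d : ℝ) + 2)) * s) := add_le_add e1 e6
        _ = _ := by ring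
    rw [e10, pow_one]
    calc InsK.kN d q qd nu nB * B * Real.exp (-(nu / 4 * ((s + s / 2 : ℕ) : ℝ))) =
        (InsK.kN d q qd nu nB * Real.exp (-(nu / 4 * ((s + s / 2 : ℕ) : ℝ)))) * B := by ring
      _ ≤ ((4 * C1s + 2) * k ^ (-(G + (d + 1) + 4)) * Real.exp (-(3 / 20 * nu * s))) *
          ((128 * d / cν * C2s + 10 * d * C3s) * (k ^ (-((d : ℝ) + 2)) * s)) :=
          mul_le_mul hKE hB1 hB0 (by positivity)
      _ = _ := by ring
  · refine hKE.trans ((le_of_eq ?_).trans (h3 s nu hν hs))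
    rw [pow_zero, mul_one]

/-- `NumI` -/
theorem numI0 (x : Ex d CM) (hd : 3 ≤ d) (G : ℝ) {c1 cν b δ cc cm : ℝ} (hG : 0 ≤ G)
    (hc1 : 0 < c1) (hcν : 0 < cν) (hb : 0 < b) (hb1 : 16 * b ≤ cν) (hδ : 0 < δ) (hcc : 0 < cc)
    (hcc1 : 9 * cc ≤ 1) :
    ∀ᶠ k in 𝓝[>] (0 : ℝ), ∀ (P : AND.Par) (n s : ℕ) (Cm s0 W0 q qd nu nB srel : ℝ),
      P.kap n = k → 0 ≤ P.eta → P.vi = x.vi → P.b = b → δ ≤ P.D0 * P.CD → δ ≤ P.C00 * P.CD →
      2 * k ^ (9 * x.v1) * Cm * (2 + 144 * (d : ℝ) ^ 2) ≤ 1 / 2 * (P.D0 * P.CD) * k ^ x.vi →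
      2 * k ^ (9 * x.v1) * Cm * (2 + 144 * (d : ℝ) ^ 2) ≤ 1 / 2 * (P.C00 * P.CD) * k ^ x.vi →
      0 ≤ P.dS → 0 ≤ P.Ce → 9 * cc ≤ P.dS → 9 * cc ≤ P.Ce * cm → 0 ≤ Cm → 0 ≤ s0 →
      s0 ≤ k ^ (20 * x.vi) → 0 ≤ W0 → W0 ≤ k ^ (-(15 * x.v1)) → 0 ≤ q →
      q ≤ k ^ (-G) * Real.exp (nu * s / 10) → 0 ≤ qd → qd ≤ k ^ (-3 : ℝ) → 0 ≤ nB →
      nB ≤ k ^ (-1 : ℝ) → cν * k ≤ nu → nu ≤ 1 → 1 / 2 * k ^ (-2 : ℝ) ≤ (s : ℝ) → 0 ≤ srel →
      srel ≤ k ^ (19 * x.vi) →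
      NumI d s n P (k ^ (9 * x.v1)) Cm (k ^ (-(5 * x.vi))) s0 W0 0 q qd nu nB c1 srel cc cc cm := by
  have hv1 := x.v1_pos
  have hvi := x.vi_pos
  have hvi8 := x.vi8
  have hvis : x.vi < 1 / 300 := by
    have h2 := x.vi_lt
    have h3 := x.v_lt
    linarith
  have hCH : 0 < CH d := by
    unfold CH
    have : 0 < d := by omega
    positivity
  filter_upwards [ev_small one_pos, formExp d G (110 * x.v1) hG hcν,
    ev_pow' (12 * CH d + 2) (show 24 * x.v1 < 25 * x.v1 by linarith),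
    ev_le 1 (b := 16 * x.v1) (by positivity) (show 0 < δ / 2 by positivity) 0,
    ev_le (5 + 1 / c1) (b := x.v1) (by positivity) hcc 0,
    ev_ge 8 (b := 1) (by norm_num) 0]
    with k hk h1 h2 h3 h4 h5
  simp only [pow_zero, mul_one] at h3 h4 h5
  rw [one_mul] at h3
  have hk0 := hk.1
  intro P n s Cm s0 W0 q qd nu nB srel hPk heta hPvi hPb hD hC hT1 hT2 hdS hCe hcS hcA hCm hs00
    hs0 hW00 hW0 hq0 hq hqd0 hqd hnB0 hnB hν hν1 hs hsr0 hsr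
  obtain ⟨g1, g2, g3, g4, g5⟩ := h1 s q qd nu nB hq0 hq hqd0 hqd hnB0 hnB hν hs
  have hk2 : k ^ (-1 : ℝ) ≤ k ^ (-2 : ℝ) := rpow_anti hk0 hk.2 (by norm_num)
  have hs4 : (4 : ℝ) ≤ s := by linarith
  have hl1 : 1 ≤ k ^ (-(5 * x.vi)) := one_le_rpow hk0 hk.2 (by linarith)
  have hl0 : 0 < k ^ (-(5 * x.vi)) := Real.rpow_pos_of_pos hk0 _
  have hvk0 : 0 ≤ k ^ x.vi := rpow_nn hk0 _
  -- bound of `edB`
  have hl2 : (k ^ (-(5 * x.vi))) ^ 2 = k ^ (-(80 * x.v1)) := by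
    rw [← Real.rpow_natCast (k ^ (-(5 * x.vi))), ← Real.rpow_mul hk0.le]
    congr 1
    push_cast
    linarith
  have hrl : rho d (k ^ (-(5 * x.vi))) ≤ k ^ (40 * x.v1) := by
    refine (rho_le hd hl1).trans (le_of_eq ?_)
    rw [one_div, ← Real.rpow_neg hk0.le]
    congr 1
    linarith
  have hrl0 : 0 ≤ rho d (k ^ (-(5 * x.vi))) := by
    unfold rho
    positivity
  have hs0' : s0 ≤ k ^ (160 * x.v1) := by
    refine hs0.trans (le_of_eq ?_)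
    congr 1
    linarith
  have q1 : s0 * (k ^ (-(5 * x.vi))) ^ 2 ≤ k ^ (25 * x.v1) := by
    rw [hl2]
    have e1 := mul_le_rpow (ca := 1) (cb := 1) hk0 hs00 (rpow_nn hk0 (-(80 * x.v1)))
      (by rw [one_mul]; exact hs0') (by rw [one_mul])
    rw [mul_one, one_mul] at e1
    exact e1.trans (rpow_anti hk0 hk.2 (by linarith))
  have q2 : W0 * rho d (k ^ (-(5 * x.vi))) ≤ k ^ (25 * x.v1) := by
    have e1 := mul_le_rpow (ca := 1) (cb := 1) hk0 hW00 hrl0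
      (by rw [one_mul]; exact hW0) (by rw [one_mul]; exact hrl)
    rw [mul_one, one_mul] at e1
    exact e1.trans (rpow_anti hk0 hk.2 (by linarith))
  have hK25 : k ^ (110 * x.v1) ≤ k ^ (25 * x.v1) := rpow_anti hk0 hk.2 (by linarith)
  set N := InsK.eN d q nu (s + s / 2) with hN
  have q3 : N * (k ^ (-(5 * x.vi))) ^ 2 ≤ k ^ (25 * x.v1) := by
    rw [hl2]
    have e1 := mul_le_rpow (ca := 1) (cb := 1) hk0 g3 (rpow_nn hk0 (-(80 * x.v1)))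
      (by rw [one_mul]; exact g2) (by rw [one_mul])
    rw [mul_one, one_mul] at e1
    exact e1.trans (rpow_anti hk0 hk.2 (by linarith))
  have hN'0 : 0 ≤ (3 * (s : ℝ) + 1) ^ d * N := by positivity
  have q4 : ((3 * (s : ℝ) + 1) ^ d * N) * rho d (k ^ (-(5 * x.vi))) ≤ k ^ (25 * x.v1) := by
    have e1 : rho d (k ^ (-(5 * x.vi))) ≤ 1 :=
      hrl.trans (Real.rpow_le_one hk0.le hk.2 (by positivity))
    calc ((3 * (s : ℝ) + 1) ^ d * N) * rho d (k ^ (-(5 * x.vi))) ≤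
          ((3 * (s : ℝ) + 1) ^ d * N) * 1 := mul_le_mul_of_nonneg_left e1 hN'0
      _ ≤ _ := by
        rw [mul_one]
        exact g1.trans hK25
  have hrest : 2 * CH d * ((s0 + N) * (k ^ (-(5 * x.vi))) ^ 2 +
      (W0 + (3 * s + 1) ^ d * N) * rho d (k ^ (-(5 * x.vi)))) +
      4 * CH d * (0 + (3 * s + 1) ^ d * N) + 2 * edF d s q qd nu nB ≤
      δ / 2 * k ^ x.vi := by
    have e1 : (s0 + N) * (k ^ (-(5 * x.vi))) ^ 2 ≤ 2 * k ^ (25 * x.v1) := by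
      rw [add_mul]
      linarith
    have e2 : (W0 + (3 * s + 1) ^ d * N) * rho d (k ^ (-(5 * x.vi))) ≤ 2 * k ^ (25 * x.v1) := by
      rw [add_mul]
      linarith
    have e3 : (3 * (s : ℝ) + 1) ^ d * N ≤ k ^ (25 * x.v1) := g1.trans hK25
    have e4 : edF d s q qd nu nB ≤ k ^ (25 * x.v1) := g4.trans hK25
    have e5 : k ^ (24 * x.v1) = k ^ (16 * x.v1) * k ^ x.vi := by
      rw [← Real.rpow_add hk0]
      congr 1
      linarith
    calc 2 * CH d * ((s0 + N) * (k ^ (-(5 * x.vi))) ^ 2 +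
          (W0 + (3 * s + 1) ^ d * N) * rho d (k ^ (-(5 * x.vi)))) +
          4 * CH d * (0 + (3 * s + 1) ^ d * N) + 2 * edF d s q qd nu nB ≤
        2 * CH d * (2 * k ^ (25 * x.v1) + 2 * k ^ (25 * x.v1)) +
          4 * CH d * (0 + k ^ (25 * x.v1)) + 2 * k ^ (25 * x.v1) := by gcongr
      _ = (12 * CH d + 2) * k ^ (25 * x.v1) := by ring
      _ ≤ k ^ (24 * x.v1) := h2
      _ = k ^ (16 * x.v1) * k ^ x.vi := e5
      _ ≤ δ / 2 * k ^ x.vi := mul_le_mul_of_nonneg_right h3 hvk0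
  have hDl : δ / 2 * k ^ x.vi ≤ 1 / 2 * (P.D0 * P.CD) * k ^ x.vi :=
    mul_le_mul_of_nonneg_right (by linarith) hvk0
  have hCl : δ / 2 * k ^ x.vi ≤ 1 / 2 * (P.C00 * P.CD) * k ^ x.vi :=
    mul_le_mul_of_nonneg_right (by linarith) hvk0
  have hsN : 4 ≤ s := by exact_mod_cast hs4
  refine ⟨by omega, by rw [hPk]; exact hk0, by rw [hPk]; exact hk.2, heta,
    by rw [hPvi]; exact hvi.le, by rw [hPb]; exact hb.le, ?_, hCm, hl1, ?_, hs00, hW00, le_rfl,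
    ?_, ?_, hδ.le.trans hD, hδ.le.trans hC, hdS, hc1, ?_, hsr0, hcc.le, hCe, by linarith,
    by linarith, by linarith⟩
  · rw [hPb, hPk]
    have := mul_le_mul_of_nonneg_right hb1 hk0.le
    linarith
  · have e1 : k ^ (-(5 * x.vi)) ≤ k ^ (-2 : ℝ) := rpow_anti hk0 hk.2 (by linarith)
    linarith
  · rw [hPk, hPvi]
    unfold edB
    rw [← hN]
    linarith
  · rw [hPk, hPvi]
    unfold edB
    rw [← hN]
    linarith
  · rw [hPk, hPvi]
    have e1 : k ^ (9 * x.v1) = k ^ x.v1 * k ^ x.vi := by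
      rw [← Real.rpow_add hk0]
      congr 1
      linarith
    have e2 : srel ≤ k ^ (9 * x.v1) := hsr.trans (rpow_anti hk0 hk.2 (by linarith))
    have e3 : InsK.kN d q qd nu nB * Real.exp (-(nu / 4 * ((s + s / 2 : ℕ) : ℝ))) / c1 ≤
        1 / c1 * k ^ (9 * x.v1) := by
      have e4 : InsK.kN d q qd nu nB * Real.exp (-(nu / 4 * ((s + s / 2 : ℕ) : ℝ))) ≤
          k ^ (9 * x.v1) := g5.trans (rpow_anti hk0 hk.2 (by linarith))
      refine (div_le_div_of_nonneg_right e4 hc1.le).trans (le_of_eq ?_)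
      ring
    calc 4 * k ^ (9 * x.v1) + srel + InsK.kN d q qd nu nB *
          Real.exp (-(nu / 4 * ((s + s / 2 : ℕ) : ℝ))) / c1 ≤
          (5 + 1 / c1) * k ^ (9 * x.v1) := by linarith
      _ = ((5 + 1 / c1) * k ^ x.v1) * k ^ x.vi := by rw [e1]; ring
      _ ≤ cc * k ^ x.vi := mul_le_mul_of_nonneg_right h4 hvk0

/-- size of `KdR` -/
theorem kdR_le (x : Ex d CM) {c1 C1 rho0 ck cμ : ℝ} (hC1 : 0 < C1) (hcμ : 0 < cμ) :
    ∀ᶠ k in 𝓝[>] (0 : ℝ), ∀ (L : ℕ) (f : Fix) (t : Tol d L) (u : UTol) (μ : ℝ) (cw : ℕ),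
      InK x c1 C1 rho0 ck k f t u → cμ * k ≤ μ → μ ≤ k → (cw : ℝ) ≤ k ^ (-(1 / 2) : ℝ) →
      KdR f u cw 4 μ ≤ k ^ (-3 : ℝ) := by
  have hv1 := x.v1_pos
  have hv11 : x.v1 < 1 / 2 := by
    have h1 := x.v1_eq
    have h2 := x.vi_lt
    have h3 := x.v_lt
    linarith
  filter_upwards [ev_small one_pos,
    ev_le 1 (b := 1 / 2) (by norm_num) (show (0 : ℝ) < 1 / 2 by norm_num) 0,
    ev_pow' (2 * (9 * C1 / (2 * cμ)) ^ 2) (show (-3 : ℝ) < -2 by norm_num),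
    ev_pow' (8 : ℝ) (show (-3 : ℝ) < -(4 * (x.v1 / 8)) by linarith)]
    with k hk h1 h2 h3
  simp only [pow_zero, mul_one, one_mul] at h1
  have hk0 := hk.1
  intro L f t u μ cw hI hμ hμk hcw
  have hμ0 : 0 < μ := lt_of_lt_of_le (by positivity) hμ
  have hkk : k * k ^ (-(1 / 2) : ℝ) = k ^ (1 / 2 : ℝ) := by
    calc k * k ^ (-(1 / 2) : ℝ) = k ^ (1 : ℝ) * k ^ (-(1 / 2) : ℝ) := by rw [Real.rpow_one]
      _ = k ^ (1 / 2 : ℝ) := by
        rw [← Real.rpow_add hk0]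
        norm_num
  have h4 : Real.exp (1 / 2) ≤ 2 := by
    have h14 := Real.exp_one_lt_d9
    have h15 : Real.exp (1 / 2) * Real.exp (1 / 2) = Real.exp 1 := by
      rw [← Real.exp_add]
      norm_num
    nlinarith [Real.exp_pos (1 / 2)]
  have e0 : μ * cw ≤ 1 / 2 := by
    have e2 : μ * cw ≤ k * k ^ (-(1 / 2) : ℝ) :=
      mul_le_mul hμk hcw (Nat.cast_nonneg _) hk0.le
    rw [hkk] at e2
    linarith
  have hE : Real.exp (μ * cw / (4 : ℕ)) ≤ 2 := by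
    refine (Real.exp_le_exp.2 ?_).trans h4
    have : 0 ≤ μ * cw := by positivity
    push_cast
    linarith
  have hE2 : Real.exp (2 * μ * cw / (4 : ℕ)) ≤ 2 := by
    refine (Real.exp_le_exp.2 ?_).trans h4
    have : 0 ≤ μ * cw := by positivity
    push_cast
    linarith
  have hE3 : Real.exp μ ≤ 3 := by
    have h14 := Real.exp_one_lt_d9
    have : Real.exp μ ≤ Real.exp 1 := Real.exp_le_exp.2 (hμk.trans hk.2)
    linarith
  unfold KdR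
  rw [hI.fC1]
  have a1 : 3 * C1 * Real.exp μ / (4 * μ) * Real.exp (μ * cw / (4 : ℕ)) ≤
      9 * C1 / (2 * cμ) * k ^ (-1 : ℝ) := by
    have a2 : 3 * C1 * Real.exp μ / (4 * μ) ≤ 9 * C1 / (4 * cμ) * k ^ (-1 : ℝ) := by
      rw [Real.rpow_neg_one, ← div_eq_mul_inv, div_div]
      refine div_le_div₀ (by positivity) ?_ (by positivity) ?_
      · calc 3 * C1 * Real.exp μ ≤ 3 * C1 * 3 := by gcongr
          _ = 9 * C1 := by ring
      · calc 4 * cμ * k = 4 * (cμ * k) := by ring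
          _ ≤ 4 * μ := by linarith
    calc 3 * C1 * Real.exp μ / (4 * μ) * Real.exp (μ * cw / (4 : ℕ)) ≤
          (9 * C1 / (4 * cμ) * k ^ (-1 : ℝ)) * 2 :=
          mul_le_mul a2 hE (Real.exp_pos _).le (by positivity)
      _ = 9 * C1 / (2 * cμ) * k ^ (-1 : ℝ) := by
        field_simp
        ring
  have a3 := pow_le_rpow hk0 (by positivity) a1 2
  have a4 : u.Lam ^ 2 ≤ 1 * k ^ (-(4 * (x.v1 / 8))) := by
    refine (pow_le_rpow (c := 1) hk0 hI.Lam0 (by rw [one_mul]; exact hI.Lam) 2).trans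
      (le_of_eq ?_)
    rw [one_pow]
    congr 2
    push_cast
    ring
  have a5 : u.Lam ^ 2 * Real.exp (2 * μ * cw / (4 : ℕ)) ≤ 2 * k ^ (-(4 * (x.v1 / 8))) := by
    calc u.Lam ^ 2 * Real.exp (2 * μ * cw / (4 : ℕ)) ≤ (1 * k ^ (-(4 * (x.v1 / 8)))) * 2 :=
          mul_le_mul a4 hE2 (Real.exp_pos _).le (by positivity)
      _ = _ := by ring
  have a6 : ((2 : ℕ) : ℝ) * (-1 : ℝ) = -2 := by norm_num
  rw [a6] at a3
  have a7 : 0 ≤ k ^ (-3 : ℝ) := rpow_nn hk0 _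
  linarith

/-- near weight -/
theorem s0_le (x : Ex d CM) :
    ∀ᶠ k in 𝓝[>] (0 : ℝ), ∀ ε pB : ℝ, 0 ≤ ε → ε ≤ k ^ (13 * x.vi) → pB ≤ k ^ (32 * x.vi) →
      256 / k ^ (9 * x.v1) * ε ^ 2 + 2 * pB ≤ k ^ (20 * x.vi) := by
  have hv1 := x.v1_pos
  have hvi8 := x.vi8
  filter_upwards [ev_small one_pos,
    ev_pow' (512 : ℝ) (show 160 * x.v1 < 199 * x.v1 by linarith),
    ev_pow' (4 : ℝ) (show 160 * x.v1 < 256 * x.v1 by linarith)] with k hk h4 h5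
  have hk0 := hk.1
  intro ε pB he0 he hpB
  have hthi : 256 / k ^ (9 * x.v1) = 256 * k ^ (-(9 * x.v1)) := by
    rw [Real.rpow_neg hk0.le]
    rfl
  have he2 : ε ^ 2 ≤ k ^ (208 * x.v1) := by
    refine (pow_le_rpow (c := 1) hk0 he0 (by rw [one_mul]; exact he) 2).trans (le_of_eq ?_)
    rw [one_pow, one_mul]
    congr 1
    push_cast
    linarith
  rw [hthi]
  have e1 : k ^ (-(9 * x.v1)) * ε ^ 2 ≤ k ^ (199 * x.v1) := by
    have e2 := mul_le_rpow (ca := 1) (cb := 1) hk0 (rpow_nn hk0 (-(9 * x.v1))) (sq_nonneg ε)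
      (by rw [one_mul]) (by rw [one_mul]; exact he2)
    rw [mul_one, one_mul] at e2
    refine e2.trans (le_of_eq ?_)
    congr 1
    ring
  have e3 : pB ≤ k ^ (256 * x.v1) := by
    refine hpB.trans (le_of_eq ?_)
    congr 1
    linarith
  have e4 : k ^ (20 * x.vi) = k ^ (160 * x.v1) := by
    congr 1
    linarith
  rw [e4]
  calc 256 * k ^ (-(9 * x.v1)) * ε ^ 2 + 2 * pB =
        256 * (k ^ (-(9 * x.v1)) * ε ^ 2) + 2 * pB := by ring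
    _ ≤ 256 * k ^ (199 * x.v1) + 2 * k ^ (256 * x.v1) := by linarith
    _ ≤ _ := by linarith

/-- near mass -/
theorem W0_le (x : Ex d CM) :
    ∀ᶠ k in 𝓝[>] (0 : ℝ), ∀ W WB : ℝ, 0 ≤ W → W ≤ k ^ (-(5 * x.v1)) →
      WB ≤ k ^ (-(3 * x.v1)) → 256 / k ^ (9 * x.v1) * W + 2 * WB ≤ k ^ (-(15 * x.v1)) := by
  have hv1 := x.v1_pos
  filter_upwards [ev_small one_pos,
    ev_pow' (512 : ℝ) (show -(15 * x.v1) < -(14 * x.v1) by linarith),
    ev_pow' (4 : ℝ) (show -(15 * x.v1) < -(3 * x.v1) by linarith)] with k hk h6 h7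
  have hk0 := hk.1
  intro W WB hW0 hW hWB
  have hthi : 256 / k ^ (9 * x.v1) = 256 * k ^ (-(9 * x.v1)) := by
    rw [Real.rpow_neg hk0.le]
    rfl
  rw [hthi]
  have e1 : k ^ (-(9 * x.v1)) * W ≤ k ^ (-(14 * x.v1)) := by
    have e2 := mul_le_rpow (ca := 1) (cb := 1) hk0 (rpow_nn hk0 (-(9 * x.v1))) hW0
      (by rw [one_mul]) (by rw [one_mul]; exact hW)
    rw [mul_one, one_mul] at e2
    refine e2.trans (le_of_eq ?_)
    congr 1
    ring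
  calc 256 * k ^ (-(9 * x.v1)) * W + 2 * WB = 256 * (k ^ (-(9 * x.v1)) * W) + 2 * WB := by ring
    _ ≤ 256 * k ^ (-(14 * x.v1)) + 2 * k ^ (-(3 * x.v1)) := by linarith
    _ ≤ _ := by linarith

/-- the constant of the far kernel -/
theorem qF_le (x : Ex d CM) (G : ℝ) {c1 C1 rho0 ck cμ : ℝ} (hc1 : 0 < c1) (hC1 : 0 < C1)
    (hcμ : 0 < cμ) :
    ∀ᶠ k in 𝓝[>] (0 : ℝ), ∀ (L : ℕ) (f : Fix) (t : Tol d L) (u : UTol) (μ Kf E : ℝ) (cw : ℕ),
      InK x c1 C1 rho0 ck k f t u → cμ * k ≤ μ → μ ≤ k → (cw : ℝ) ≤ k ^ (-(1 / 2) : ℝ) →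
      0 ≤ Kf → 0 ≤ E → Kf ≤ k ^ (-G) * E →
      0 ≤ RemF.qF f u.Lam (KdR f u cw 4 μ) Kf ∧
      RemF.qF f u.Lam (KdR f u cw 4 μ) Kf ≤ k ^ (-(G + 4)) * E := by
  have hv1 := x.v1_pos
  have hv11 : 2 * (x.v1 / 8) ≤ 1 := by
    have := x.v1_eq
    have h2 := x.vi_lt
    have h3 := x.v_lt
    linarith
  filter_upwards [ev_small one_pos,
    kdR_le x (c1 := c1) (rho0 := rho0) (ck := ck) hC1 hcμ,
    ev_pow' (2 * (1 + c1) ^ 2 / c1 + 2 * (2 + c1) + 1 / c1) (show (-4 : ℝ) < -3 by norm_num)]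
    with k hk h2 h3
  have hk0 := hk.1
  intro L f t u μ Kf E cw hI hμ hμk hcw hKf0 hE0 hKf
  have hKd := h2 L f t u μ cw hI hμ hμk hcw
  have hKd0 := KdR_nonneg f u cw 4 μ
  have hLk : u.Lam ≤ k ^ (-1 : ℝ) := hI.Lam.trans (rpow_anti hk0 hk.2 (by linarith))
  have hk1' : 1 ≤ k ^ (-1 : ℝ) := one_le_rpow hk0 hk.2 (by norm_num)
  have hk3 : k ^ (-1 : ℝ) ≤ k ^ (-3 : ℝ) := rpow_anti hk0 hk.2 (by norm_num)
  have hLam0 := hI.Lam0
  have e0 := mul_le_mul_of_nonneg_left hk1' hc1.le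
  have e00 := mul_le_mul_of_nonneg_left (hk1'.trans hk3) hc1.le
  rw [mul_one] at e0 e00
  have hB : 2 * (u.Lam + c1) ^ 2 / c1 + 2 * (2 * u.Lam + c1) + KdR f u cw 4 μ / c1 ≤
      k ^ (-4 : ℝ) := by
    refine le_trans ?_ h3
    have e1 : u.Lam + c1 ≤ (1 + c1) * k ^ (-1 : ℝ) := by linarith
    have e2 : (u.Lam + c1) ^ 2 ≤ (1 + c1) ^ 2 * k ^ (-3 : ℝ) := by
      have e3 := pow_le_rpow hk0 (by positivity) e1 2
      refine e3.trans (mul_le_mul_of_nonneg_left (rpow_anti hk0 hk.2 ?_) (by positivity))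
      norm_num
    have e3 : 2 * u.Lam + c1 ≤ (2 + c1) * k ^ (-3 : ℝ) := by linarith
    calc 2 * (u.Lam + c1) ^ 2 / c1 + 2 * (2 * u.Lam + c1) + KdR f u cw 4 μ / c1 ≤
          2 * ((1 + c1) ^ 2 * k ^ (-3 : ℝ)) / c1 + 2 * ((2 + c1) * k ^ (-3 : ℝ)) +
            k ^ (-3 : ℝ) / c1 := by gcongr
      _ = _ := by ring
  have hB0 : 0 ≤ 2 * (u.Lam + c1) ^ 2 / c1 + 2 * (2 * u.Lam + c1) + KdR f u cw 4 μ / c1 := by
    positivity
  unfold RemF.qF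
  rw [hI.fc1]
  refine ⟨mul_nonneg hKf0 hB0, ?_⟩
  have e1 : k ^ (-(G + 4)) = k ^ (-G) * k ^ (-4 : ℝ) := by
    rw [← Real.rpow_add hk0]
    congr 1
    ring
  rw [e1]
  have hkG := rpow_nn hk0 (-G)
  calc Kf * (2 * (u.Lam + c1) ^ 2 / c1 + 2 * (2 * u.Lam + c1) + KdR f u cw 4 μ / c1) ≤
        (k ^ (-G) * E) * k ^ (-4 : ℝ) := mul_le_mul hKf hB hB0 (by positivity)
    _ = _ := by ring

/-- `NumR` -/
theorem numR0 (x : Ex d CM) (hd : 3 ≤ d) (G : ℝ) {c1 C1 rho0 ck cμ cν b δ cc cm cl : ℝ}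
    (hG : 0 ≤ G) (hc1 : 0 < c1) (hcC : c1 ≤ C1) (hcμ : 0 < cμ) (hcν : 0 < cν) (hb : 0 < b)
    (hb1 : 16 * b ≤ cν) (hδ : 0 < δ) (hcc : 0 < cc) (hcc1 : 9 * cc ≤ 1)
    (hcm1 : cm ≤ c1 / 2) (hcm2 : cm ≤ cl * c1 ^ 2 / 16) :
    ∀ᶠ k in 𝓝[>] (0 : ℝ), ∀ (L : ℕ) (f : Fix) (t : Tol d L) (u : UTol) (P : AND.Par)
      (n s cw : ℕ) (Cm ε W Kf pB WB nB μ ν : ℝ), InK x c1 C1 rho0 ck k f t u →
      P.kap n = k → P.kap (n + 1) = k / 4 → 0 ≤ P.eta → P.vi = x.vi → P.b = b → P.cl = cl →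
      δ ≤ P.D0 * P.CD → δ ≤ P.C00 * P.CD →
      2 * k ^ (9 * x.v1) * Cm * (2 + 144 * (d : ℝ) ^ 2) ≤ 1 / 2 * (P.D0 * P.CD) * k ^ x.vi →
      2 * k ^ (9 * x.v1) * Cm * (2 + 144 * (d : ℝ) ^ 2) ≤ 1 / 2 * (P.C00 * P.CD) * k ^ x.vi →
      0 ≤ P.dS → 0 ≤ P.Ce → 9 * cc ≤ P.dS → 9 * cc ≤ P.Ce * cm → 0 ≤ Cm → 0 ≤ ε →
      ε ≤ k ^ (13 * x.vi) → 0 ≤ W → W ≤ k ^ (-(5 * x.v1)) → 0 ≤ Kf →
      Kf ≤ k ^ (-G) * Real.exp (ν * s / 10) → 0 ≤ pB → pB ≤ k ^ (32 * x.vi) → 0 ≤ WB →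
      WB ≤ k ^ (-(3 * x.v1)) → 0 ≤ nB → nB ≤ k ^ (-1 : ℝ) → cμ * k ≤ μ → μ ≤ k →
      (cw : ℝ) ≤ k ^ (-(1 / 2) : ℝ) → cν * k ≤ ν → ν ≤ 1 → 1 / 2 * k ^ (-2 : ℝ) ≤ (s : ℝ) →
      NumR d s n f P (k ^ (9 * x.v1)) Cm (k ^ (-(5 * x.vi))) W WB 0 1 pB ε (KdR f u cw 4 μ) Kf
        u.Lam ν ν nB cc cc cm := by
  have hv1 := x.v1_pos
  have hvi := x.vi_pos
  have hvi8 := x.vi8
  have hC1 : 0 < C1 := hc1.trans_le hcC
  filter_upwards [ev_small one_pos,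
    numI0 x hd (G + 4) (cm := cm) (by linarith) hc1 hcν hb hb1 hδ hcc hcc1,
    kdR_le x (c1 := c1) (rho0 := rho0) (ck := ck) hC1 hcμ, s0_le x, W0_le x,
    qF_le x G (rho0 := rho0) (ck := ck) hc1 hC1 hcμ,
    ev_pow' (1 / c1) (show 19 * x.vi < 20 * x.vi by linarith),
    ev_pow' (16 / c1) (show 9 * x.v1 < 13 * x.vi by linarith),
    ev_le 1 (b := 13 * x.vi) (by positivity) (show 0 < c1 / 2 by positivity) 0,
    ev_pow' ((2 * C1 / c1 + 1) / c1 / cc) (show x.vi < 13 * x.vi by linarith),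
    ev_kill ((2 * C1 / c1 + 1) / c1 / cc) G 0 0 (cν := cν) (δ := 9 / 10) (by positivity) hcν
      (by norm_num)]
    with k hk h1 h2 h3 h4 h5 h8 h9 h10 h11 h12
  simp only [pow_zero, mul_one, one_mul] at h10
  have hk0 := hk.1
  intro L f t u P n s cw Cm ε W Kf pB WB nB μ ν hI hPk hPk1 heta hPvi hPb hPcl hD hC hT1 hT2 hdS
    hCe hcS hcA hCm he0 he hW0 hW hKf0 hKf hpB0 hpB hWB0 hWB hnB0 hnB hμ hμk hcw hν hν1 hs
  have hν0 : 0 < ν := lt_of_lt_of_le (by positivity) hν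
  have hKd := h2 L f t u μ cw hI hμ hμk hcw
  have hKd0 := KdR_nonneg f u cw 4 μ
  have hth0 : 0 < k ^ (9 * x.v1) := Real.rpow_pos_of_pos hk0 _
  have hs0 := h3 ε pB he0 he hpB
  have hs00 : 0 ≤ 256 / k ^ (9 * x.v1) * ε ^ 2 + 2 * pB := by positivity
  have hW1 := h4 W WB hW0 hW hWB
  have hW10 : 0 ≤ 256 / k ^ (9 * x.v1) * W + 2 * WB := by positivity
  obtain ⟨hq0, hq⟩ := h5 L f t u μ Kf _ cw hI hμ hμk hcw hKf0 (Real.exp_pos _).le hKf
  have hsr : (256 / k ^ (9 * x.v1) * ε ^ 2 + 2 * pB) / c1 ≤ k ^ (19 * x.vi) := by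
    calc (256 / k ^ (9 * x.v1) * ε ^ 2 + 2 * pB) / c1 ≤ k ^ (20 * x.vi) / c1 :=
          div_le_div_of_nonneg_right hs0 hc1.le
      _ = 1 / c1 * k ^ (20 * x.vi) := by ring
      _ ≤ _ := h8
  refine ⟨?_, hth0, Real.rpow_le_one hk0.le hk.2 (by positivity), ?_, ?_, ?_, ?_, ?_, ?_, ?_⟩
  · rw [hI.fc1, mul_one, mul_zero]
    exact h1 P n s Cm _ _ _ _ ν nB _ hPk heta hPvi hPb hD hC hT1 hT2 hdS hCe hcS hcA hCm hs00 hs0
      hW10 hW1 hq0 hq hKd0 hKd hnB0 hnB hν hν1 hs (div_nonneg hs00 hc1.le) hsr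
  · rw [hI.fc1]
    have e1 : 16 / c1 * ε ≤ k ^ (9 * x.v1) :=
      (mul_le_mul_of_nonneg_left he (by positivity)).trans h9
    have e2 : 16 / c1 * ε * c1 = 16 * ε := by
      field_simp
    have e3 := mul_le_mul_of_nonneg_right e1 hc1.le
    rw [e2] at e3
    linarith
  · rw [hI.fC1]
    have := he.trans h10
    linarith
  · rw [hI.fc1]
    exact he.trans h10
  · rw [hI.fc1, hI.fC1, hPk, hPvi]
    have e1 : (2 * C1 / c1 + 1) / c1 / cc * ε ≤ k ^ x.vi :=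
      (mul_le_mul_of_nonneg_left he (by positivity)).trans h11
    have e2 : (2 * C1 / c1 + 1) / c1 / cc * ε * cc = (2 * C1 / c1 + 1) / c1 * ε := by
      field_simp
    have e3 := mul_le_mul_of_nonneg_right e1 hcc.le
    rw [e2] at e3
    rw [mul_comm cc]
    exact e3
  · rw [hI.fc1, hI.fC1]
    have e1 := h12 s ν hν hs
    rw [pow_zero, mul_one, Real.rpow_zero] at e1
    have e2 : Kf * Real.exp (-(ν * s)) ≤ k ^ (-G) * Real.exp (-(9 / 10 * ν * s)) := by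
      calc Kf * Real.exp (-(ν * s)) ≤ (k ^ (-G) * Real.exp (ν * s / 10)) *
            Real.exp (-(ν * s)) := mul_le_mul_of_nonneg_right hKf (Real.exp_pos _).le
        _ = k ^ (-G) * (Real.exp (ν * s / 10) * Real.exp (-(ν * s))) := by ring
        _ = _ := by
          rw [← Real.exp_add]
          congr 2
          ring
    have e3 : (2 * C1 / c1 + 1) / c1 * (Kf * Real.exp (-(ν * s))) ≤
        (2 * C1 / c1 + 1) / c1 * (k ^ (-G) * Real.exp (-(9 / 10 * ν * s))) :=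
      mul_le_mul_of_nonneg_left e2 (by positivity)
    have e4 : (2 * C1 / c1 + 1) / c1 * (k ^ (-G) * Real.exp (-(9 / 10 * ν * s))) =
        ((2 * C1 / c1 + 1) / c1 / cc * k ^ (-G) * Real.exp (-(9 / 10 * ν * s))) * cc := by
      field_simp
    have e5 := mul_le_mul_of_nonneg_right e1 hcc.le
    rw [e4] at e3
    rw [one_mul] at e5
    exact e3.trans e5
  · rw [hPb, hPk]
    have := mul_le_mul_of_nonneg_right hb1 hk0.le
    have h7 : 0 ≤ b * k := by positivity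
    linarith
  · rw [hPk, hPk1, hPcl, hI.fc1]
    have e1 := mul_le_mul_of_nonneg_right hcm1 heta
    have e2 := mul_le_mul_of_nonneg_right hcm2 hk0.le
    have e3 : (P.eta + cl * (k / 4) * (c1 / 2)) * (c1 / 2) =
        c1 / 2 * P.eta + cl * c1 ^ 2 / 16 * k := by ring
    rw [e3, mul_add]
    exact add_le_add e1 e2

end Pool.Agent.ANC
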