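import Pool.Agent.ANC.InsS
import Pool.Agent.ANC.InsT0
import Pool.Agent.ANI.InsDet

/-!
# ANC / InsU: the numbers of the two steps of the insertion, for ONE small `k = κ'` (helper20)

`a = 4`; `InsZ` = sizes of one insertion (annulus), `InsC` = sizes of the content.  Parameters:
* annulus: `ε = k ^ van`, `q = k ^ (2 vi) τ`, `W = 1`, `Kf = k ^ (-2)`;
* content: `ε = k ^ (32 vi)`, `q = k ^ (2 vi) τ`, `W = k ^ (-(3 v1))`, `Kf = k ^ (-2)`;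
* both: `K = Kb = k ^ (-2)`, `l = lN d rho0 k`, `ρ = k ^ (15 vi)`, `ε2 = k ^ (14 vi)`, `q2 = k ^ (2 vi) τ`, `W2 = k ^ (-(4 v1))`,
  `pB = k ^ (32 vi)`, `WB = k ^ (-(3 v1))`.
* `annPk`, `contPk` : all structures except `TotN`; `annB`, `contB` : bounds of `pB`, `WB`; `kTot_le`.
-/

open Filter Topology Real

namespace Pool.Agent.ANC

open Pool.Agent.Kin Pool.Agent.AND Pool.Agent.ANI Pool.Agent.ANM Pool.Agent.ANF.Heat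

variable {d : ℕ} {CM : ℝ}

/-- far constant of the reading of the annulus -/
noncomputable def KAn (f : Fix) (u : UTol) (s5 μ : ℝ) (cw : ℕ) : ℝ :=
  4 / μ * (u.Lam * f.r0 ^ s5 + u.C2) * Real.exp (μ * cw / (4 : ℕ))

/-- sizes of one insertion -/
structure InsZ (x : Ex d CM) {L : ℕ} (c1 C1 rho0 ck cμ Cn k eta : ℝ) (f : Fix) (t : Tol d L)
    (u : UTol) (nS μ : ℝ) (cw ρc s : ℕ) : Prop where
  I : InK x c1 C1 rho0 ck k f t u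
  tau : u.tau ≤ 2 * k ^ (-(7 / 8) : ℝ)
  eta0 : 0 ≤ eta
  eta1 : eta ≤ k ^ x.th
  nS0 : 0 ≤ nS
  nS1 : nS ≤ Cn * k ^ (-(d * x.v2 + x.v1))
  cw1 : (cw : ℝ) ≤ k ^ (-(1 / 2) : ℝ)
  μ0 : cμ * k ≤ μ
  μ1 : μ ≤ k
  s1 : 1 / 2 * k ^ (-2 : ℝ) ≤ (s : ℝ)
  ρc1 : (ρc : ℝ) ≤ s / 10

/-- sizes of the content -/
structure InsC (x : Ex d CM) (J : ℕ) (KD cr k : ℝ) (nF R0 : ℝ) (m r1 D1 nb : ℕ) (Ml ρF : ℝ) :
    Prop where
  nF0 : 0 ≤ nF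
  nF1 : nF ≤ k ^ (-(2 * x.v1))
  R01 : cr * k ^ (-x.v2) ≤ R0
  m1 : m ≤ J
  Ml0 : 0 ≤ Ml
  P1 : cP d Ml nb ≤ k ^ (-x.v1)
  r10 : 1 ≤ r1
  D11 : (D1 : ℝ) ≤ KD * r1
  r11 : cr * k ^ (-x.v2) ≤ r1
  ρF1 : ρF ≤ k ^ (-(1 / 2) : ℝ)

/-- the rate is at least `cν k` -/
theorem InsZ.ν0 {x : Ex d CM} {L : ℕ} {c1 C1 rho0 ck cμ Cn k eta : ℝ} {f : Fix} {t : Tol d L}
    {u : UTol} {nS μ : ℝ} {cw ρc s : ℕ} (h : InsZ x c1 C1 rho0 ck cμ Cn k eta f t u nS μ cw ρc s)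
    (hc1 : 0 < c1) (hcC : c1 ≤ C1) (hr : 0 < rho0) (hcμ : 0 < cμ) (hk : 0 < k) :
    rho0 / 4 * c1 / (32 * C1) * (cμ / 4) * k ≤ tRf f u * (μ / (4 : ℕ)) := by
  have hC1 : 0 < C1 := hc1.trans_le hcC
  obtain ⟨h1, h2⟩ := tRf_bd h.I hc1 hcC
  have h3 : cμ / 4 * k ≤ μ / (4 : ℕ) := by
    push_cast
    linarith [h.μ0]
  calc rho0 / 4 * c1 / (32 * C1) * (cμ / 4) * k = rho0 / 4 * c1 / (32 * C1) * (cμ / 4 * k) := by
        ring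
    _ ≤ _ := mul_le_mul h1 h3 (by positivity) ((by positivity : (0 : ℝ) ≤ _).trans h1)

theorem InsZ.ν1 {x : Ex d CM} {L : ℕ} {c1 C1 rho0 ck cμ Cn k eta : ℝ} {f : Fix} {t : Tol d L}
    {u : UTol} {nS μ : ℝ} {cw ρc s : ℕ} (h : InsZ x c1 C1 rho0 ck cμ Cn k eta f t u nS μ cw ρc s)
    (hc1 : 0 < c1) (hcC : c1 ≤ C1) (hcμ : 0 < cμ) (hk : 0 < k) (hk1 : k ≤ 1) :
    tRf f u * (μ / (4 : ℕ)) ≤ 1 := by
  obtain ⟨h1, h2⟩ := tRf_bd h.I hc1 hcC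
  have h4 : 0 < μ := lt_of_lt_of_le (by positivity) h.μ0
  have h3 : μ / (4 : ℕ) ≤ 1 := by
    push_cast
    linarith [h.μ1]
  have h5 : 0 ≤ μ / (4 : ℕ) := by positivity
  nlinarith

/-- size of the far constant of the annulus -/
theorem kAn_le (x : Ex d CM) (Cn : ℝ) {c1 C1 rho0 ck cμ : ℝ} (hcμ : 0 < cμ) :
    ∀ᶠ k in 𝓝[>] (0 : ℝ), ∀ (L : ℕ) (eta : ℝ) (f : Fix) (t : Tol d L) (u : UTol)
      (nS μ : ℝ) (cw ρc s : ℕ), InsZ x c1 C1 rho0 ck cμ Cn k eta f t u nS μ cw ρc s →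
      0 ≤ KAn f u x.s μ cw ∧ KAn f u x.s μ cw ≤ k ^ (-2 : ℝ) := by
  have hv1 := x.v1_pos
  have hv11 : x.v1 < 1 / 2 := by
    have h1 := x.v1_eq
    have h2 := x.vi_lt
    have h3 := x.v_lt
    linarith
  filter_upwards [ev_small one_pos,
    ev_le 1 (b := 1 / 2) (by norm_num) (show (0 : ℝ) < 1 / 2 by norm_num) 0,
    ev_pow' (4 / cμ * 2 * 2) (show (-2 : ℝ) < -1 + -(6 * (x.v1 / 8)) by linarith)]
    with k hk h1 h2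
  simp only [pow_zero, mul_one, one_mul] at h1
  have hk0 := hk.1
  intro L eta f t u nS μ cw ρc s hZ
  have hI := hZ.I
  have hμ0 : 0 < μ := lt_of_lt_of_le (by positivity) hZ.μ0
  have hr0s : 0 ≤ f.r0 ^ x.s := Real.rpow_nonneg (by linarith [hI.r0]) _
  have hCω0 : 0 ≤ u.Lam * f.r0 ^ x.s + u.C2 :=
    add_nonneg (mul_nonneg hI.Lam0 hr0s) hI.C20
  have hCω : u.Lam * f.r0 ^ x.s + u.C2 ≤ 2 * k ^ (-(6 * (x.v1 / 8))) := by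
    have e1 := mul_le_rpow (ca := 1) (cb := 1) hk0 hI.Lam0 hr0s
      (by rw [one_mul]; exact hI.Lam) (by rw [one_mul]; exact hI.r0s)
    rw [mul_one, one_mul, show -(2 * (x.v1 / 8)) + -(4 * (x.v1 / 8)) = -(6 * (x.v1 / 8)) by
      ring] at e1
    have e2 : u.C2 ≤ k ^ (-(6 * (x.v1 / 8))) := hI.C2.trans (rpow_anti hk0 hk.2 (by linarith))
    linarith
  have hkk : k * k ^ (-(1 / 2) : ℝ) = k ^ (1 / 2 : ℝ) := by
    calc k * k ^ (-(1 / 2) : ℝ) = k ^ (1 : ℝ) * k ^ (-(1 / 2) : ℝ) := by rw [Real.rpow_one]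
      _ = k ^ (1 / 2 : ℝ) := by
        rw [← Real.rpow_add hk0]
        norm_num
  have hE : Real.exp (μ * cw / (4 : ℕ)) ≤ 2 := by
    have e1 : μ * cw / (4 : ℕ) ≤ 1 / 2 := by
      push_cast
      have e2 : μ * cw ≤ k * k ^ (-(1 / 2) : ℝ) :=
        mul_le_mul hZ.μ1 hZ.cw1 (Nat.cast_nonneg _) hk0.le
      rw [hkk] at e2
      linarith
    have h3 : Real.exp (μ * cw / (4 : ℕ)) ≤ Real.exp (1 / 2) := Real.exp_le_exp.2 e1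
    have h4 : Real.exp (1 / 2) ≤ 2 := by
      have h14 := Real.exp_one_lt_d9
      have h15 : Real.exp (1 / 2) * Real.exp (1 / 2) = Real.exp 1 := by
        rw [← Real.exp_add]
        norm_num
      nlinarith [Real.exp_pos (1 / 2)]
    exact h3.trans h4
  have e1 : 4 / μ ≤ 4 / cμ * k ^ (-1 : ℝ) := by
    rw [Real.rpow_neg_one, ← div_eq_mul_inv, div_div]
    exact div_le_div_of_nonneg_left (by norm_num) (by positivity) hZ.μ0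
  have e2 := mul_le_rpow hk0 (by positivity : 0 ≤ 4 / μ) hCω0 e1 hCω
  unfold KAn
  refine ⟨by positivity, ?_⟩
  calc 4 / μ * (u.Lam * f.r0 ^ x.s + u.C2) * Real.exp (μ * cw / (4 : ℕ)) ≤
      (4 / cμ * 2 * k ^ (-1 + -(6 * (x.v1 / 8)))) * 2 :=
        mul_le_mul e2 hE (Real.exp_pos _).le (by positivity)
    _ = 4 / cμ * 2 * 2 * k ^ (-1 + -(6 * (x.v1 / 8))) := by ring
    _ ≤ _ := h2

/-- size of `kTot` -/
theorem kTot_le (x : Ex d CM) (Cn g0 : ℝ) {c1 C1 rho0 ck cμ : ℝ} (hc1 : 0 < c1)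
    (hcC : c1 ≤ C1) (hr : 0 < rho0) (hcμ : 0 < cμ) :
    ∀ᶠ k in 𝓝[>] (0 : ℝ), ∀ (L : ℕ) (eta : ℝ) (f : Fix) (t : Tol d L) (u : UTol)
      (nS μ nB Kf : ℝ) (cw ρc s : ℕ), InsZ x c1 C1 rho0 ck cμ Cn k eta f t u nS μ cw ρc s →
      0 ≤ Kf → Kf ≤ k ^ (-g0) → 0 ≤ nB → nB ≤ k ^ (-1 : ℝ) →
      0 ≤ kTot f u nB (k ^ (-2 : ℝ)) Kf d 4 cw μ ρc ∧
      kTot f u nB (k ^ (-2 : ℝ)) Kf d 4 cw μ ρc ≤
        k ^ (-(g0 + d + 9)) * Real.exp (tRf f u * (μ / (4 : ℕ)) * s / 10) := by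
  filter_upwards [ev_small one_pos, farK (d := d) x g0 (ck := ck) (rho0 := rho0) hc1 hcC hcμ]
    with k hk h1
  have hk0 := hk.1
  intro L eta f t u nS μ nB Kf cw ρc s hZ hKf0 hKf hnB0 hnB
  obtain ⟨g1, g2⟩ := h1 L f t u Kf μ nB 4 cw hZ.I hr hKf0 hKf (by norm_num) (by norm_num) hZ.cw1
    hZ.μ0 hZ.μ1 hnB0 hnB
  have hν := hZ.ν0 hc1 hcC hr hcμ hk0
  have hC1 : 0 < C1 := hc1.trans_le hcC
  have hν0 : 0 ≤ tRf f u * (μ / (4 : ℕ)) := le_trans (by positivity) hν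
  unfold kTot
  refine ⟨mul_nonneg g1 (Real.exp_pos _).le, ?_⟩
  refine mul_le_mul g2 ?_ (Real.exp_pos _).le (rpow_nn hk0 _)
  apply Real.exp_le_exp.2
  have h2 := mul_le_mul_of_nonneg_left hZ.ρc1 hν0
  linarith

/-- annulus: the bounds of `pB`, `WB` -/
theorem annB (x : Ex d CM) (Cn : ℝ) {c1 C1 rho0 ck cμ : ℝ} (hc1 : 0 < c1)
    (hcC : c1 ≤ C1) :
    ∀ᶠ k in 𝓝[>] (0 : ℝ), ∀ (L : ℕ) (eta : ℝ) (f : Fix) (t : Tol d L) (u : UTol)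
      (nS μ : ℝ) (cw ρc s : ℕ), InsZ x c1 C1 rho0 ck cμ Cn k eta f t u nS μ cw ρc s →
      nS * (u.Lam ^ 2 * (eta + k * f.C1)) ≤ 1 / 2 * k ^ (32 * x.vi) ∧
      nS * ((eta + k * f.C1) * f.C1) ≤ 1 / 2 * k ^ (-(3 * x.v1)) ∧
      nS ≤ 1 / 2 * k ^ (-1 : ℝ) := by
  have hv1 := x.v1_pos
  have hvi := x.vi_pos
  have hC1 : 0 < C1 := hc1.trans_le hcC
  have hv2 := x.v2_pos
  have hA1 := x.A1
  have hA2 := x.A2
  have hI6 := x.I6'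
  have hA3 := x.A3
  have hva := x.van_pos
  have hdv : ((d : ℝ) + 1) * x.v2 = d * x.v2 + x.v2 := by ring
  rw [hdv] at hA1 hA2
  have hsv := x.sv2
  have hs1 : x.s ≤ 1 := by
    have h1 := x.s_lt
    have h2 := x.v_lt
    linarith
  have hv512 : 512 * x.v1 ≤ x.v2 := by
    rw [← hsv]
    nlinarith
  filter_upwards [ev_small one_pos,
    ev_pow' (2 * (Cn * (1 + C1))) (show 32 * x.vi < -(d * x.v2 + x.v1) + (-(4 * (x.v1 / 8)) +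
      x.th) by linarith),
    ev_pow' (2 * (Cn * (1 + C1) * C1)) (show -(3 * x.v1) < -(d * x.v2 + x.v1) + x.th by
      linarith),
    ev_pow' (2 * Cn) (show (-1 : ℝ) < -(d * x.v2 + x.v1) by linarith)]
    with k hk h1 h2 h3
  have hk0 := hk.1
  intro L eta f t u nS μ cw ρc s hZ
  have hI := hZ.I
  rw [hI.fC1]
  have hth : x.th ≤ 1 := by linarith [x.A2']
  have e1 : eta + k * C1 ≤ (1 + C1) * k ^ x.th := by
    have e2 : k ≤ k ^ x.th := by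
      calc k = k ^ (1 : ℝ) := (Real.rpow_one k).symm
        _ ≤ k ^ x.th := rpow_anti hk0 hk.2 hth
    have := mul_le_mul_of_nonneg_right e2 hC1.le
    linarith [hZ.eta1]
  have e10 : 0 ≤ eta + k * C1 := by
    have := hZ.eta0
    positivity
  have e3 : u.Lam ^ 2 ≤ 1 * k ^ (-(4 * (x.v1 / 8))) := by
    refine (pow_le_rpow (c := 1) hk0 hI.Lam0 (by rw [one_mul]; exact hI.Lam) 2).trans
      (le_of_eq ?_)
    rw [one_pow]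
    congr 2
    push_cast
    ring
  have hnS0 := hZ.nS0
  have hnS := hZ.nS1
  refine ⟨?_, ?_, ?_⟩
  · have e4 := mul_le_rpow hk0 (by positivity : (0 : ℝ) ≤ u.Lam ^ 2) e10 e3 e1
    have e5 := mul_le_rpow hk0 hnS0 (by positivity : 0 ≤ u.Lam ^ 2 * (eta + k * C1)) hnS e4
    refine e5.trans ?_
    rw [one_mul]
    linarith
  · have e4 : (eta + k * C1) * C1 ≤ (1 + C1) * C1 * k ^ x.th := by
      calc (eta + k * C1) * C1 ≤ (1 + C1) * k ^ x.th * C1 :=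
            mul_le_mul_of_nonneg_right e1 hC1.le
        _ = _ := by ring
    have e5 := mul_le_rpow hk0 hnS0 (by positivity : 0 ≤ (eta + k * C1) * C1) hnS e4
    refine e5.trans ?_
    have e6 : Cn * ((1 + C1) * C1) * k ^ (-(d * x.v2 + x.v1) + x.th) =
        Cn * (1 + C1) * C1 * k ^ (-(d * x.v2 + x.v1) + x.th) := by ring
    rw [e6]
    linarith
  · linarith

/-- content: the bounds of `pB`, `WB` -/
theorem contB (x : Ex d CM) (J : ℕ) (KD : ℝ) {c1 C1 rho0 ck cr : ℝ} (hc1 : 0 < c1)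
    (hcC : c1 ≤ C1) (hcr : 0 < cr) :
    ∀ᶠ k in 𝓝[>] (0 : ℝ), ∀ (L : ℕ) (f : Fix) (t : Tol d L) (u : UTol)
      (nF R0 Ml ρF : ℝ) (m r1 D1 nb : ℕ), InK x c1 C1 rho0 ck k f t u →
      InsC x J KD cr k nF R0 m r1 D1 nb Ml ρF →
      nF * (u.C2 * R0 ^ (-f.s)) ^ 2 ≤ 1 / 2 * k ^ (32 * x.vi) ∧
      nF * f.C1 ≤ 1 / 2 * k ^ (-(3 * x.v1)) ∧ nF ≤ 1 / 2 * k ^ (-1 : ℝ) := by
  have hv1 := x.v1_pos
  have hvi := x.vi_pos
  have hvi8 := x.vi8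
  have hC1 : 0 < C1 := hc1.trans_le hcC
  have hs0 := x.s_pos
  have hv11 : x.v1 < 1 / 4 := by
    have h1 := x.v1_eq
    have h2 := x.vi_lt
    have h3 := x.v_lt
    linarith
  filter_upwards [ev_small one_pos,
    ev_pow' (2 * (cr ^ (-x.s)) ^ 2)
      (show 32 * x.vi < -(2 * x.v1) + (-(4 * (x.v1 / 8)) + 1024 * x.v1) by linarith),
    ev_pow' (2 * C1) (show -(3 * x.v1) < -(2 * x.v1) by linarith),
    ev_pow' (2 : ℝ) (show (-1 : ℝ) < -(2 * x.v1) by linarith)]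
    with k hk h1 h2 h3
  have hk0 := hk.1
  intro L f t u nF R0 Ml ρF m r1 D1 nb hI hC
  rw [hI.fC1, hI.fs]
  have hR00 : 0 < cr * k ^ (-x.v2) := mul_pos hcr (Real.rpow_pos_of_pos hk0 _)
  have hR0 : 0 < R0 := hR00.trans_le hC.R01
  have e1 : R0 ^ (-x.s) ≤ cr ^ (-x.s) * k ^ (512 * x.v1) := by
    calc R0 ^ (-x.s) ≤ (cr * k ^ (-x.v2)) ^ (-x.s) :=
          Real.rpow_le_rpow_of_nonpos hR00 hC.R01 (by linarith)
      _ = cr ^ (-x.s) * k ^ (512 * x.v1) := by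
        rw [Real.mul_rpow hcr.le (rpow_nn hk0 _), ← Real.rpow_mul hk0.le]
        congr 2
        rw [← x.sv2]
        ring
  have e10 : 0 ≤ R0 ^ (-x.s) := Real.rpow_nonneg hR0.le _
  have e2 := mul_le_rpow (ca := 1) hk0 hI.C20 e10 (by rw [one_mul]; exact hI.C2) e1
  rw [one_mul] at e2
  have e3 := pow_le_rpow hk0 (mul_nonneg hI.C20 e10) e2 2
  have e4 := mul_le_rpow (ca := 1) hk0 hC.nF0 (by positivity) (by rw [one_mul]; exact hC.nF1) e3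
  refine ⟨?_, ?_, ?_⟩
  · refine e4.trans ?_
    rw [one_mul]
    have e5 : -(2 * x.v1) + ((2 : ℕ) : ℝ) * (-(2 * (x.v1 / 8)) + 512 * x.v1) =
        -(2 * x.v1) + (-(4 * (x.v1 / 8)) + 1024 * x.v1) := by
      push_cast
      ring
    rw [e5]
    linarith
  · have := mul_le_mul_of_nonneg_right hC.nF1 hC1.le
    linarith
  · linarith [hC.nF1]

/-- THE NUMBERS OF THE ANNULUS STEP -/
theorem annPk (x : Ex d CM) (hd : 3 ≤ d) (Cu Cn : ℝ) {c1 C1 rho0 ck cμ : ℝ} (hCu : 0 ≤ Cu)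
    (hCn : 0 ≤ Cn) (hc1 : 0 < c1) (hcC : c1 ≤ C1) (hr : 0 < rho0) (hck : 0 < ck) (hcμ : 0 < cμ) :
    ∀ᶠ k in 𝓝[>] (0 : ℝ), ∀ (L : ℕ) (eta : ℝ) (f : Fix) (t : Tol d L) (u : UTol)
      (nS uu μ : ℝ) (cw ρc s : ℕ), InsZ x c1 C1 rho0 ck cμ Cn k eta f t u nS μ cw ρc s →
      0 ≤ uu → uu ≤ Cu * k ^ x.th →
      AnnNum f t u nS uu x.s (k ^ x.van) (k ^ (2 * x.vi) * u.tau) 1 (k ^ (-2 : ℝ)) 4 cw μ ∧
      ExNum f u (k ^ x.van) (k ^ (-2 : ℝ)) ((4 : ℕ) / (2 * μ)) cw d (lN d rho0 k) ∧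
      RfNum f t u x.s (k ^ x.van) (k ^ (2 * x.vi) * u.tau) 1 (k ^ (15 * x.vi)) (k ^ (-2 : ℝ))
        (k ^ (14 * x.vi)) (k ^ (2 * x.vi) * u.tau) (k ^ (-(4 * x.v1))) 4 (lN d rho0 k) ∧
      4 * tRf f u ≤ 1 := by
  have hv1 := x.v1_pos
  have hvi := x.vi_pos
  have hI6 := x.I6'
  filter_upwards [ev_small one_pos,
    annNum x hd Cu Cn (C1 := C1) (ck := ck) hCu hCn hc1 hcC hr,
    kAn_le x Cn (c1 := c1) (C1 := C1) (rho0 := rho0) (ck := ck) hcμ,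
    exNum x (ck := ck) hc1 hcC hr hcμ, rfNum x hc1 hcC hr hck]
    with k hk h1 h2 h3 h4
  have hk0 := hk.1
  intro L eta f t u nS uu μ cw ρc s hZ huu0 huu
  have hI := hZ.I
  have hμ0 : 0 < μ := lt_of_lt_of_le (by positivity) hZ.μ0
  have hcw2 : (cw : ℝ) ≤ k ^ (-2 : ℝ) := hZ.cw1.trans (rpow_anti hk0 hk.2 (by norm_num))
  have a1 := h1 L f t u nS uu μ 4 cw hI huu0 huu hZ.nS0 hZ.nS1 hμ0
  have a2 := (h2 L eta f t u nS μ cw ρc s hZ).2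
  have hv32 : k ^ x.van ≤ k ^ (32 * x.vi) := rpow_anti hk0 hk.2 (by linarith)
  have hq0 : 0 ≤ k ^ (2 * x.vi) * u.tau := mul_nonneg (rpow_nn hk0 _) hI.tau0
  have hW1 : (1 : ℝ) ≤ k ^ (-(3 * x.v1)) := one_le_rpow hk0 hk.2 (by linarith)
  refine ⟨?_, h3 L f t u _ μ 4 cw hI (rpow_nn hk0 _) hv32 (by norm_num) hcw2 hZ.μ0,
    h4 L f t u _ _ _ 4 hI (rpow_nn hk0 _) hv32 hq0 le_rfl zero_le_one hW1 (by norm_num), ?_⟩
  · exact ⟨a1.e0, a1.sm, a1.sm2, a1.e1, a1.e2, a1.q1, a1.W1, a1.W2, a1.K1.trans a2, a1.n1, a1.n2⟩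
  · have := (tRf_bd hI hc1 hcC).2
    linarith

/-- THE NUMBERS OF THE CONTENT STEP -/
theorem contPk (x : Ex d CM) (J : ℕ) (KD Cn : ℝ) {c1 C1 rho0 ck cμ cr : ℝ} (hKD : 0 ≤ KD)
    (hc1 : 0 < c1) (hcC : c1 ≤ C1) (hr : 0 < rho0) (hck : 0 < ck) (hcμ : 0 < cμ) (hcr : 0 < cr) :
    ∀ᶠ k in 𝓝[>] (0 : ℝ), ∀ (L : ℕ) (eta : ℝ) (f : Fix) (t : Tol d L) (u : UTol)
      (nS nF R0 Ml ρF μ : ℝ) (m r1 D1 nb cw ρc s : ℕ),
      InsZ x c1 C1 rho0 ck cμ Cn k eta f t u nS μ cw ρc s →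
      InsC (d := d) x J KD cr k nF R0 m r1 D1 nb Ml ρF →
      ContNum f u m r1 D1 nb d Ml (u.Lam * f.r0 ^ x.s + u.C2 + (k ^ x.van + k ^ (14 * x.vi)))
        (8 * (u.tau + 8 * (k ^ (2 * x.vi) * u.tau + k ^ (2 * x.vi) * u.tau))) ρF x.s
        (k ^ (32 * x.vi)) (k ^ (2 * x.vi) * u.tau) (k ^ (-(3 * x.v1))) (k ^ (-2 : ℝ)) 4 cw μ ∧
      ExNum f u (k ^ (32 * x.vi)) (k ^ (-2 : ℝ)) ((4 : ℕ) / (2 * μ)) cw d (lN d rho0 k) ∧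
      RfNum f t u x.s (k ^ (32 * x.vi)) (k ^ (2 * x.vi) * u.tau) (k ^ (-(3 * x.v1)))
        (k ^ (15 * x.vi)) (k ^ (-2 : ℝ)) (k ^ (14 * x.vi)) (k ^ (2 * x.vi) * u.tau)
        (k ^ (-(4 * x.v1))) 4 (lN d rho0 k) := by
  have hv1 := x.v1_pos
  have hvi := x.vi_pos
  have hva := x.van_pos
  filter_upwards [ev_small one_pos,
    contNum x J KD (ck := ck) (rho0 := rho0) (Cq := 136) hKD hc1 hcC hr hcμ hcr,
    exNum x (ck := ck) hc1 hcC hr hcμ, rfNum x hc1 hcC hr hck,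
    ev_pow' (4 : ℝ) (show -x.v1 < -(6 * (x.v1 / 8)) by linarith)]
    with k hk h1 h3 h4 h5
  have hk0 := hk.1
  intro L eta f t u nS nF R0 Ml ρF μ m r1 D1 nb cw ρc s hZ hC
  have hI := hZ.I
  have hcw2 : (cw : ℝ) ≤ k ^ (-2 : ℝ) := hZ.cw1.trans (rpow_anti hk0 hk.2 (by norm_num))
  have hτ := hI.tau0
  have hq0 : 0 ≤ k ^ (2 * x.vi) * u.tau := mul_nonneg (rpow_nn hk0 _) hτ
  have hq1 : k ^ (2 * x.vi) * u.tau ≤ u.tau := by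
    have : k ^ (2 * x.vi) ≤ 1 := Real.rpow_le_one hk0.le hk.2 (by positivity)
    nlinarith
  have hr0s : 0 ≤ f.r0 ^ x.s := Real.rpow_nonneg (by linarith [hI.r0]) _
  have hCω0 : 0 ≤ u.Lam * f.r0 ^ x.s + u.C2 :=
    add_nonneg (mul_nonneg hI.Lam0 hr0s) hI.C20
  have g1 : 0 ≤ k ^ x.van := rpow_nn hk0 _
  have g2 : 0 ≤ k ^ (14 * x.vi) := rpow_nn hk0 _
  have g3 : k ^ x.van ≤ 1 := Real.rpow_le_one hk0.le hk.2 hva.le
  have g4 : k ^ (14 * x.vi) ≤ 1 := Real.rpow_le_one hk0.le hk.2 (by positivity)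
  have hCV : u.Lam * f.r0 ^ x.s + u.C2 + (k ^ x.van + k ^ (14 * x.vi)) ≤ k ^ (-x.v1) := by
    have e1 := mul_le_rpow (ca := 1) (cb := 1) hk0 hI.Lam0 hr0s
      (by rw [one_mul]; exact hI.Lam) (by rw [one_mul]; exact hI.r0s)
    rw [mul_one, one_mul, show -(2 * (x.v1 / 8)) + -(4 * (x.v1 / 8)) = -(6 * (x.v1 / 8)) by
      ring] at e1
    have e2 : u.C2 ≤ k ^ (-(6 * (x.v1 / 8))) := hI.C2.trans (rpow_anti hk0 hk.2 (by linarith))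
    have e3 : 1 ≤ k ^ (-(6 * (x.v1 / 8))) := one_le_rpow hk0 hk.2 (by linarith)
    linarith
  refine ⟨?_, h3 L f t u _ μ 4 cw hI (rpow_nn hk0 _) le_rfl (by norm_num) hcw2 hZ.μ0,
    h4 L f t u _ _ _ 4 hI (rpow_nn hk0 _) le_rfl hq0 le_rfl (rpow_nn hk0 _) le_rfl
      (by norm_num)⟩
  exact h1 L f t u m r1 D1 nb 4 cw Ml _ _ u.tau ρF μ hI hC.m1 hC.Ml0 hC.P1 (by positivity) hCV
    hC.r10 hC.D11 hC.r11 (by positivity) (by linarith) hτ hC.ρF1 hZ.cw1 (by norm_num) hZ.μ0 hZ.μ1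

end Pool.Agent.ANC
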