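import Pool.Agent.ANC.Lev

/-!
# ANC / Len: the lengths of the algorithm (numbers of ANQ.GPar / ANQ.Geo)

`hR` = radius of the holes (`≈ ks (j + 1) ^ (-v2)`), `rho` = link distance `side / (100 J)`, `dD = 2 side`,
`sep = cs * side`, `nbr = 6 side`, `dW = 4 side`.  `len_ok`: the numerical conditions of `ANQ.GPar.Ok`.
-/

open Filter Topology Real

namespace Pool.Agent.ANC

/-- radius of the holes made at the end of super-stage `j` -/
noncomputable def hR (k0 : ℝ) (al : ℕ) (v2 : ℝ) (j : ℕ) : ℕ := ⌈ks k0 al (j + 1) ^ (-v2)⌉₊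

/-- link distance -/
noncomputable def rho (k0 : ℝ) (al J j : ℕ) : ℕ := side k0 al j / (100 * J)

/-- distance of the candidates from the frozen cells -/
noncomputable def dD (k0 : ℝ) (al j : ℕ) : ℕ := 2 * side k0 al j

/-- separation -/
noncomputable def sep (k0 : ℝ) (al cs j : ℕ) : ℕ := cs * side k0 al j

/-- neighbourhoods -/
noncomputable def nbr (k0 : ℝ) (al j : ℕ) : ℕ := 6 * side k0 al j

/-- distance of the static sites from the bad cells -/
noncomputable def dW (k0 : ℝ) (al j : ℕ) : ℕ := 4 * side k0 al j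

theorem hR_ge (k0 : ℝ) (al : ℕ) (v2 : ℝ) (j : ℕ) :
    ks k0 al (j + 1) ^ (-v2) ≤ hR k0 al v2 j := Nat.le_ceil _

theorem one_le_rpow_neg {k a : ℝ} (hk : 0 < k) (hk1 : k ≤ 1) (ha : 0 ≤ a) : 1 ≤ k ^ (-a) := by
  rw [Real.rpow_neg hk.le]
  exact (one_le_inv₀ (Real.rpow_pos_of_pos hk a)).2 (Real.rpow_le_one hk.le hk1 ha)

theorem hR_le {k0 : ℝ} (h : 0 < k0) (h1 : k0 ≤ 1) (al : ℕ) {v2 : ℝ} (hv : 0 ≤ v2) (j : ℕ) :
    (hR k0 al v2 j : ℝ) ≤ 2 * ks k0 al (j + 1) ^ (-v2) := by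
  have h2 := ks_pos h al (j + 1)
  have h3 : 1 ≤ ks k0 al (j + 1) ^ (-v2) := one_le_rpow_neg h2 ((ks_le h al _).trans h1) hv
  have h4 : (hR k0 al v2 j : ℝ) < ks k0 al (j + 1) ^ (-v2) + 1 :=
    Nat.ceil_lt_add_one (by linarith)
  linarith

/-- more negative exponents give larger numbers -/
theorem rpow_neg_le {k a b : ℝ} (hk : 0 < k) (hk1 : k ≤ 1) (hab : a ≤ b) :
    k ^ (-a) ≤ k ^ (-b) := Real.rpow_le_rpow_of_exponent_ge hk hk1 (by linarith)

/-- the side of super-stage `j` in terms of the level at the end of super-stage `j + 1` -/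
theorem side_le_next {k0 : ℝ} (h : 0 < k0) (h1 : k0 < 1) {al : ℕ} (hal : 2 ≤ al) (j : ℕ) :
    (side k0 al j : ℝ) ≤ 2 * ks k0 al (j + 2) ^ (-(2 / al : ℝ)) := by
  have h2 := (side_rpow h h1 al j).2
  have hal0 : (0 : ℝ) < al := by
    have : 0 < al := by omega
    exact_mod_cast this
  have h3 := ks_neg_le h al (j + 1) (a := 2 / al) (by positivity)
  rw [div_mul_cancel₀ _ hal0.ne'] at h3
  linarith

/-- `side j ≤ 2 ks (j + 2) ^ (-1)` -/
theorem side_le_next' {k0 : ℝ} (h : 0 < k0) (h1 : k0 < 1) {al : ℕ} (hal : 2 ≤ al) (j : ℕ) :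
    (side k0 al j : ℝ) ≤ 2 * ks k0 al (j + 2) ^ (-1 : ℝ) := by
  refine (side_le_next h h1 hal j).trans ?_
  have h2 := ks_pos h al (j + 2)
  have h3 : (2 / al : ℝ) ≤ 1 := by
    have : (2 : ℝ) ≤ al := by exact_mod_cast hal
    rw [div_le_one (by linarith)]
    exact this
  have h4 := rpow_neg_le h2 ((ks_le h al (j + 2)).trans h1.le) h3
  linarith

/-- THE LENGTHS: numerical conditions of `ANQ.GPar.Ok` -/
theorem len_ok (J V cs : ℕ) {al : ℕ} (hal : 2 ≤ al) {v2 : ℝ} (hv : 0 ≤ v2) (hv1 : v2 ≤ 1) :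
    ∀ᶠ k0 in 𝓝[>] (0 : ℝ), ∀ j : ℕ,
      J * (2 * (dW k0 al j + sep k0 al cs j) + rho k0 al J (j + 1)) + hR k0 al v2 (j + 1) ≤
        side k0 al (j + 1) ∧
      dD k0 al j + 2 * side k0 al j ≤ dW k0 al j ∧
      5 * side k0 al (j + 1) + dW k0 al j ≤ nbr k0 al (j + 1) ∧
      2 ^ (j + 2) * (J * V + 1) * (2 * hR k0 al v2 (j + 1) + 2 * side k0 al j + 2) ≤
        side k0 al (j + 1) := by
  have hA := ev_all (ev_pow' (C := (2 * J * (4 + cs) * 2 + 2 + 8) * 2)
    (show (-2 : ℝ) < -1 by norm_num)) al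
  have hB := ev_all (ev_pow' (C := (J * V + 1) * 10) (show (-2 : ℝ) < -(3 / 2) by norm_num)) al
  have hC := ks_two (show (0 : ℝ) < 1 / 2 by norm_num) hal
  filter_upwards [hA, hB, hC, ev_small (show (0 : ℝ) < 1 / 4 by norm_num)] with k0 hA hB hC hk j
  have hk0 := hk.1
  have hk1 : k0 < 1 := by linarith [hk.2]
  have hA := hA (j + 2)
  have hB := hB (j + 2)
  set k := ks k0 al (j + 2) with hkdef
  have hkp : 0 < k := ks_pos hk0 al _
  have hkl : k ≤ 1 := (ks_le hk0 al _).trans hk1.le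
  have hside : (side k0 al j : ℝ) ≤ 2 * k ^ (-1 : ℝ) := side_le_next' hk0 hk1 hal j
  have hside1 : k ^ (-2 : ℝ) ≤ (side k0 al (j + 1) : ℝ) := (side_rpow hk0 hk1 al (j + 1)).1
  have hR1 : (hR k0 al v2 (j + 1) : ℝ) ≤ 2 * k ^ (-1 : ℝ) := by
    have h1 := hR_le hk0 hk1.le al hv (j + 1)
    have h2 := rpow_neg_le hkp hkl hv1
    have h3 : ks k0 al (j + 1 + 1) = k := rfl
    rw [h3] at h1
    linarith
  have hone : 1 ≤ k ^ (-1 : ℝ) := one_le_rpow_neg hkp hkl zero_le_one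
  refine ⟨?_, ?_, ?_, ?_⟩
  · have h1 : J * rho k0 al J (j + 1) ≤ side k0 al (j + 1) / 2 := by
      unfold rho
      rcases Nat.eq_zero_or_pos J with hJ | hJ
      · subst hJ
        simp
      · have h2 : J * (side k0 al (j + 1) / (100 * J)) ≤ side k0 al (j + 1) / 100 := by
          rw [mul_comm 100 J, ← Nat.div_div_eq_div_mul]
          calc J * (side k0 al (j + 1) / J / 100) ≤ (J * (side k0 al (j + 1) / J)) / 100 :=
                Nat.mul_div_le_mul_div_assoc _ _ _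
            _ ≤ side k0 al (j + 1) / 100 := Nat.div_le_div_right (Nat.mul_div_le _ _)
        omega
    have h3 : 2 * (J * (2 * (dW k0 al j + sep k0 al cs j)) + hR k0 al v2 (j + 1)) ≤
        side k0 al (j + 1) := by
      have h4 : ((2 * (J * (2 * (dW k0 al j + sep k0 al cs j)) + hR k0 al v2 (j + 1)) : ℕ) : ℝ) ≤
          ((side k0 al (j + 1) : ℕ) : ℝ) := by
        refine le_trans ?_ (hA.trans hside1)
        unfold dW sep
        push_cast
        have h5 : (2 : ℝ) * (J * (2 * (4 * (side k0 al j : ℝ) + cs * side k0 al j)) +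
            hR k0 al v2 (j + 1)) = (2 * (2 * J * (4 + cs))) * side k0 al j +
            2 * hR k0 al v2 (j + 1) := by ring
        rw [h5]
        have h6 : (2 * (2 * (J : ℝ) * (4 + cs))) * side k0 al j ≤
            (2 * (2 * (J : ℝ) * (4 + cs))) * (2 * k ^ (-1 : ℝ)) :=
          mul_le_mul_of_nonneg_left hside (by positivity)
        have h7 : 0 ≤ k ^ (-1 : ℝ) := by linarith
        nlinarith [mul_nonneg (mul_nonneg (Nat.cast_nonneg (α := ℝ) J)
          (by positivity : (0 : ℝ) ≤ 4 + cs)) h7]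
      exact_mod_cast h4
    have h8 : J * (2 * (dW k0 al j + sep k0 al cs j) + rho k0 al J (j + 1)) =
        J * (2 * (dW k0 al j + sep k0 al cs j)) + J * rho k0 al J (j + 1) := by ring
    rw [h8]
    omega
  · unfold dD dW
    omega
  · have h1 : 4 * side k0 al j ≤ side k0 al (j + 1) := by
      have h2 : ((4 * side k0 al j : ℕ) : ℝ) ≤ ((side k0 al (j + 1) : ℕ) : ℝ) := by
        refine le_trans ?_ (hA.trans hside1)
        push_cast
        have h7 : 0 ≤ k ^ (-1 : ℝ) := by linarith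
        nlinarith [mul_nonneg (mul_nonneg (Nat.cast_nonneg (α := ℝ) J)
          (by positivity : (0 : ℝ) ≤ 4 + cs)) h7]
      exact_mod_cast h2
    unfold nbr dW
    omega
  · have h1 : ((2 ^ (j + 2) * (J * V + 1) * (2 * hR k0 al v2 (j + 1) + 2 * side k0 al j + 2) : ℕ) :
        ℝ) ≤ ((side k0 al (j + 1) : ℕ) : ℝ) := by
      refine le_trans ?_ (hB.trans hside1)
      push_cast
      have h2 : (2 : ℝ) ^ (j + 2) ≤ k ^ (-(1 / 2) : ℝ) := by
        refine (hC j).trans ?_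
        exact Real.rpow_le_rpow_of_nonpos hkp (ks_anti hk0 hk1 hal (by omega)) (by norm_num)
      have h3 : 2 * (hR k0 al v2 (j + 1) : ℝ) + 2 * side k0 al j + 2 ≤ 10 * k ^ (-1 : ℝ) := by
        linarith
      have h4 : k ^ (-(3 / 2) : ℝ) = k ^ (-(1 / 2) : ℝ) * k ^ (-1 : ℝ) := by
        rw [← Real.rpow_add hkp]
        norm_num
      rw [h4]
      calc (2 : ℝ) ^ (j + 2) * (J * V + 1) *
            (2 * (hR k0 al v2 (j + 1) : ℝ) + 2 * side k0 al j + 2)
          ≤ k ^ (-(1 / 2) : ℝ) * (J * V + 1) * (10 * k ^ (-1 : ℝ)) := by gcongr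
        _ = (J * V + 1) * 10 * (k ^ (-(1 / 2) : ℝ) * k ^ (-1 : ℝ)) := by ring
    exact_mod_cast h1

end Pool.Agent.ANC
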