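import Pool.Agent.ANC.FldN
import Pool.Agent.ANC.Const
import Pool.Agent.AND.StartTol
import Pool.Agent.ANQ.Torus

/-!
# ANC / ParV: THE VALUES of the parameters `AND.Par`

`Cst` = the constants which do not depend on `k0` (they depend on `d`, the law, the interval of energies); exponents from
`Ex d CM` (`x.v, x.vi, x.vt, x.s, x.e`), `vp = vi / 2`; `D0 = D0c k0 ^ (-(1-2e))`, `C00 = C0c / k0`, `e0 = e0c k0 ^ (e/4-1)`.

For all small `k0`, all `0 < eta ≤ k0`, all levels `n`: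
* `parV_pos` : `Par.Pos`;       `fh_par` : `AND.FH` on `torGeo`;
* `NumK` : the inequalities of the level `n`; `ev_numK`; `inNum` : `InNum` with `dA = kap n ^ (3 vt)`;
* `F0v` : the initial fields; `startNum` : `AND.StartNum`; `F0v_far`.
-/

open Filter Topology Real

namespace Pool.Agent.ANC

/-- constants of the construction -/
structure Cst where
  b : ℝ
  Cg : ℝ
  cl : ℝ
  cs : ℝ
  CD : ℝ
  Ce : ℝ
  dS : ℝ
  Cz : ℝ
  D0c : ℝ
  C0c : ℝ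
  e0c : ℝ

/-- signs of the constants -/
structure Cst.Pos (c : Cst) : Prop where
  b : 0 < c.b
  Cg : 0 ≤ c.Cg
  Cg1 : c.Cg ≤ 5 / 2
  cl : 0 < c.cl
  cl1 : c.cl ≤ 4
  cs : 0 < c.cs
  CD : 0 < c.CD
  Ce : 0 < c.Ce
  dS : 0 < c.dS
  Cz : 0 < c.Cz
  D0c : 0 < c.D0c
  C0c : 0 < c.C0c
  e0c : 0 < c.e0c

/-- THE PARAMETERS -/
noncomputable def parV {d : ℕ} {CM : ℝ} (x : Ex d CM) (c : Cst) (k0 eta : ℝ) : AND.Par where
  kap := kap k0
  v := x.v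
  vi := x.vi
  vt := x.vt / 2
  vp := x.vi / 2
  s5 := x.s
  b := c.b
  Cg := c.Cg
  eta := eta
  cl := c.cl
  cs := c.cs
  del0 := 0
  D0 := c.D0c * k0 ^ (-(1 - 2 * x.e))
  CD := c.CD
  C00 := c.C0c * k0⁻¹
  e0 := c.e0c * k0 ^ (x.e / 4 - 1)
  Ce := c.Ce
  dS := c.dS
  Cz := c.Cz

variable {d : ℕ} {CM : ℝ} (x : Ex d CM) {c : Cst}

theorem parV_pos (hc : c.Pos) {k0 eta : ℝ} (hk : 0 < k0) (he : 0 ≤ eta) :
    (parV x c k0 eta).Pos where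
  kap n := kap_pos hk n
  anti n := kap_anti hk (Nat.le_succ n)
  b := hc.b.le
  eta := he
  cl := hc.cl.le
  cs := hc.cs.le
  D0 := mul_nonneg hc.D0c.le (Real.rpow_nonneg hk.le _)
  CD := hc.CD.le
  C00 := mul_nonneg hc.C0c.le (inv_nonneg.2 hk.le)
  e0 := mul_nonneg hc.e0c.le (Real.rpow_nonneg hk.le _)
  Ce := hc.Ce.le
  dS := hc.dS.le
  Cz := hc.Cz.le

/-- the exponents satisfy the conditions of `ev_mn` -/
theorem ex_mn : x.vi / 2 + 5 / 2 * x.s < x.v := by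
  have h1 := x.s_eq
  have h2 := x.vi_eq
  have h3 := x.v2_le
  have h4 := x.s_pos
  have h5 : x.vi ≤ x.s / 64 := by
    rw [h2]
    have : x.s * x.v2 ≤ x.s * 1 := mul_le_mul_of_nonneg_left h3 h4.le
    linarith
  linarith

theorem ex_s1 : x.s ≤ 1 := by
  have h1 := x.s_lt
  have h2 := x.v_lt
  linarith

theorem ex_vi1 : x.vi ≤ 1 := by
  have h1 := x.vi_lt
  have h2 := x.v_lt
  linarith

/-- `AND.FH` ON THE TORUS -/
theorem fh_par (hc : c.Pos) (J cs : ℕ) :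
    ∀ᶠ k0 in 𝓝[>] (0 : ℝ), ∀ (eta : ℝ) (N nf Jm : ℕ) [NeZero N], 0 ≤ eta →
      lv k0 x.al Jm ≤ nf → (∀ j < Jm, side k0 x.al j ∣ N) →
      AND.FH (parV x c k0 eta) (ANQ.torGeo d N k0 x.al J cs x.v2 nf) Jm := by
  have h1 := ev_tl d x.v_pos.le hc.b (al := x.al)
  have h2 := ev_kap (ev_mn (Cg := c.Cg) hc.b hc.Cg1 x.s_pos.le (ex_s1 x) (ex_mn x))
  have h3 := ev_kap (ev_mx hc.b x.s_pos.le (ex_s1 x) x.v_pos.le (ex_mn x))
  have h4 := ev_kap (ev_small (show (0 : ℝ) < 1 / c.b by have := hc.b; positivity))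
  filter_upwards [h1, h2, h3, h4, ev_small (show (0 : ℝ) < 1 / 4 by norm_num)]
    with k0 h1 h2 h3 h4 hk eta N nf Jm _ he hnf hdv
  have hk0 := hk.1
  have hk1 : k0 < 1 := by linarith [hk.2]
  have hlv : ∀ j ≤ Jm, (ANQ.torGeo d N k0 x.al J cs x.v2 nf).lv j = lv k0 x.al j := by
    intro j hj
    have h5 := (lv_mono hk0 hk1 x.al2).monotone hj
    show min (lv k0 x.al j) nf = _
    omega
  refine ⟨parV_pos x hc hk0 he, fun n => (kap_le hk0 n).trans hk1.le, hc.b, fun n => ?_,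
    fun j y => rfl, fun j _ => side_pos k0 x.al j, hdv, fun j hj => ?_,
    ?_, x.vi_lt.le, x.vi_pos.le, fun j hj n _ hn => ?_, h2, h3⟩
  · have h5 := (h4 n).2
    have h6 := hc.b
    show c.b * kap k0 n ≤ 1
    calc c.b * kap k0 n ≤ c.b * (1 / c.b) := mul_le_mul_of_nonneg_left h5 h6.le
      _ = 1 := by field_simp
  · rw [hlv j hj.le, hlv (j + 1) hj]
    exact lv_lt hk0 hk1 x.al2 j
  · show x.vt / 2 ≤ x.v
    have a1 := x.vt_lt
    have a2 := x.vi_lt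
    have a3 := x.vt_pos
    linarith
  · rw [hlv (j + 1) hj] at hn
    exact h1 j n hn

/-- the inequalities of the level `n` -/
structure NumK (x : Ex d CM) (c : Cst) (C1 k0 eta : ℝ) (n : ℕ) : Prop where
  /-- `κ dl ≤ dA η` -/
  dA : kap k0 n * ((c.e0c * k0 ^ (x.e / 4 - 1) + c.Ce * aeB k0 eta x.vi n) * C1) ≤
    kap k0 n ^ (3 * x.vt)
  dS : (c.e0c * k0 ^ (x.e / 4 - 1) + c.Ce * aeB k0 eta x.vi n) *
    ((eta + kap k0 n * C1) * C1) ≤ c.dS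

/-- the sites: active levels -/
theorem aeB_kap {k0 eta vi : ℝ} (hk : 0 < k0) (hk1 : k0 ≤ 1) (he : 0 ≤ eta) (hvi : 0 < vi)
    (hvi1 : vi ≤ 1) (n : ℕ) : kap k0 n * aeB k0 eta vi n ≤ kap k0 n ^ (15 * vi / 16) := by
  have h1 := kap_pos hk n
  have h2 : (eta + kap k0 n) ^ (15 * vi / 16 - 1) ≤ kap k0 n ^ (15 * vi / 16 - 1) :=
    Real.rpow_le_rpow_of_nonpos h1 (by linarith) (by linarith)
  have h3 : k0 ^ (vi / 32) ≤ 1 := Real.rpow_le_one hk.le hk1 (by positivity)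
  have h4 : (0 : ℝ) ≤ (eta + kap k0 n) ^ (15 * vi / 16 - 1) := Real.rpow_nonneg (by linarith) _
  have h5 : kap k0 n ^ (15 * vi / 16) = kap k0 n * kap k0 n ^ (15 * vi / 16 - 1) := by
    rw [Real.rpow_sub_one h1.ne']
    field_simp
  rw [h5]
  unfold aeB
  apply mul_le_mul_of_nonneg_left _ h1.le
  calc k0 ^ (vi / 32) * (eta + kap k0 n) ^ (15 * vi / 16 - 1)
      ≤ 1 * (eta + kap k0 n) ^ (15 * vi / 16 - 1) := mul_le_mul_of_nonneg_right h3 h4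
    _ ≤ kap k0 n ^ (15 * vi / 16 - 1) := by rw [one_mul]; exact h2

theorem aeB_eta {k0 eta vi : ℝ} (hk : 0 < k0) (hk1 : k0 ≤ 1) (he : 0 ≤ eta) (he1 : eta ≤ k0)
    (hvi : 0 < vi) (hvi1 : vi ≤ 1) (n : ℕ) :
    aeB k0 eta vi n * (eta + kap k0 n) ≤ 2 * k0 ^ (vi / 32) := by
  have h1 := kap_pos hk n
  have h2 := kap_le hk n
  have h3 : 0 < eta + kap k0 n := by linarith
  have h4 : (eta + kap k0 n) ^ (15 * vi / 16 - 1) * (eta + kap k0 n) =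
      (eta + kap k0 n) ^ (15 * vi / 16) := by
    rw [Real.rpow_sub_one h3.ne']
    field_simp
  have h5 : (eta + kap k0 n) ^ (15 * vi / 16) ≤ 2 := by
    have h6 : eta + kap k0 n ≤ 2 := by linarith
    rcases le_or_gt (eta + kap k0 n) 1 with h7 | h7
    · exact (Real.rpow_le_one h3.le h7 (by positivity)).trans (by norm_num)
    · calc (eta + kap k0 n) ^ (15 * vi / 16) ≤ (eta + kap k0 n) ^ (1 : ℝ) :=
            Real.rpow_le_rpow_of_exponent_le h7.le (by linarith)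
        _ ≤ 2 := by rw [Real.rpow_one]; exact h6
  unfold aeB
  rw [mul_assoc, h4]
  have h6 : 0 ≤ k0 ^ (vi / 32) := Real.rpow_nonneg hk.le _
  nlinarith

/-- `κ k0 ^ (w - 1) ≤ κ ^ w` -/
theorem kap_e0 {κ k0 w : ℝ} (hκ : 0 < κ) (hk : κ ≤ k0) (hw : w ≤ 1) :
    κ * k0 ^ (w - 1) ≤ κ ^ w := by
  have h1 : k0 ^ (w - 1) ≤ κ ^ (w - 1) := Real.rpow_le_rpow_of_nonpos hκ hk (by linarith)
  calc κ * k0 ^ (w - 1) ≤ κ * κ ^ (w - 1) := mul_le_mul_of_nonneg_left h1 hκ.le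
    _ = κ ^ w := by
      rw [Real.rpow_sub_one hκ.ne']
      field_simp

theorem ex_vt3 : 3 * x.vt < x.e / 4 ∧ 3 * x.vt < 15 * x.vi / 16 := by
  have h1 := x.vt_eq
  have h2 := x.vt_pos
  have h3 := min_le_left (x.e / 4) x.vi
  have h4 := min_le_right (x.e / 4) x.vi
  have h5 := x.vi_pos
  have h6 := x.e_eq
  constructor
  · linarith
  · linarith

/-- THE INEQUALITIES OF THE LEVELS -/
theorem ev_numK (hc : c.Pos) {C1 : ℝ} (hC : 0 < C1) :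
    ∀ᶠ k0 in 𝓝[>] (0 : ℝ), ∀ eta : ℝ, 0 ≤ eta → eta ≤ k0 → ∀ n, NumK x c C1 k0 eta n := by
  have e1 := x.e_eq
  obtain ⟨v1, v2⟩ := ex_vt3 x
  have h1 := ev_kap (ev_pow' (C := 2 * (c.e0c * C1)) v1)
  have h2 := ev_kap (ev_pow' (C := 2 * (c.Ce * C1)) v2)
  have h3 := ev_le (C := c.e0c * (1 + C1) * C1) (b := x.e / 4) (by linarith)
    (show 0 < c.dS / 2 by have := hc.dS; positivity) 0
  have h4 := ev_le (C := c.Ce * (1 + C1) * C1 * 2) (b := x.vi / 32)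
    (by have := x.vi_pos; positivity) (show 0 < c.dS / 2 by have := hc.dS; positivity) 0
  filter_upwards [h1, h2, h3, h4, ev_small (show (0 : ℝ) < 1 / 4 by norm_num)]
    with k0 h1 h2 h3 h4 hk eta he he1 n
  have hk0 := hk.1
  have hk1 : k0 ≤ 1 := by linarith [hk.2]
  rw [pow_zero, mul_one] at h3 h4
  have hκ := kap_pos hk0 n
  have hκ1 := kap_le hk0 n
  have hvi := x.vi_pos
  have hvi1 := ex_vi1 x
  have hce := hc.Ce
  have he0 := hc.e0c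
  have a1 := aeB_kap hk0 hk1 he hvi hvi1 n
  have a2 := aeB_eta hk0 hk1 he he1 hvi hvi1 n
  have a3 := (aeB_pos (vi := x.vi) hk0 he n).le
  have a4 : kap k0 n * k0 ^ (x.e / 4 - 1) ≤ kap k0 n ^ (x.e / 4) :=
    kap_e0 hκ hκ1 (by linarith)
  have hp : 0 ≤ k0 ^ (x.e / 4 - 1) := Real.rpow_nonneg hk0.le _
  constructor
  · have b1 := h1 n
    have b2 := h2 n
    have b3 : c.e0c * C1 * (kap k0 n * k0 ^ (x.e / 4 - 1)) ≤
        c.e0c * C1 * kap k0 n ^ (x.e / 4) := mul_le_mul_of_nonneg_left a4 (by positivity)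
    have b4 : c.Ce * C1 * (kap k0 n * aeB k0 eta x.vi n) ≤
        c.Ce * C1 * kap k0 n ^ (15 * x.vi / 16) := mul_le_mul_of_nonneg_left a1 (by positivity)
    calc kap k0 n * ((c.e0c * k0 ^ (x.e / 4 - 1) + c.Ce * aeB k0 eta x.vi n) * C1)
        = c.e0c * C1 * (kap k0 n * k0 ^ (x.e / 4 - 1)) +
          c.Ce * C1 * (kap k0 n * aeB k0 eta x.vi n) := by ring
      _ ≤ c.e0c * C1 * kap k0 n ^ (x.e / 4) + c.Ce * C1 * kap k0 n ^ (15 * x.vi / 16) :=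
        add_le_add b3 b4
      _ ≤ _ := by linarith
  · have c1 : (eta + kap k0 n * C1) * C1 ≤ (eta + kap k0 n) * ((1 + C1) * C1) := by
      have : eta + kap k0 n * C1 ≤ (eta + kap k0 n) * (1 + C1) := by nlinarith
      calc (eta + kap k0 n * C1) * C1 ≤ ((eta + kap k0 n) * (1 + C1)) * C1 :=
            mul_le_mul_of_nonneg_right this hC.le
        _ = _ := by ring
    have c2 : k0 ^ (x.e / 4 - 1) * (eta + kap k0 n * C1) ≤ (1 + C1) * k0 ^ (x.e / 4) := by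
      have c3 : eta + kap k0 n * C1 ≤ k0 * (1 + C1) := by nlinarith
      have c4 : k0 ^ (x.e / 4) = k0 ^ (x.e / 4 - 1) * k0 := by
        rw [Real.rpow_sub_one hk0.ne']
        field_simp
      calc k0 ^ (x.e / 4 - 1) * (eta + kap k0 n * C1) ≤ k0 ^ (x.e / 4 - 1) * (k0 * (1 + C1)) :=
            mul_le_mul_of_nonneg_left c3 hp
        _ = (1 + C1) * k0 ^ (x.e / 4) := by
          rw [c4]
          ring
    have c5 : aeB k0 eta x.vi n * (eta + kap k0 n * C1) ≤ (1 + C1) * (2 * k0 ^ (x.vi / 32)) := by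
      have c3 : eta + kap k0 n * C1 ≤ (eta + kap k0 n) * (1 + C1) := by nlinarith
      calc aeB k0 eta x.vi n * (eta + kap k0 n * C1)
          ≤ aeB k0 eta x.vi n * ((eta + kap k0 n) * (1 + C1)) :=
            mul_le_mul_of_nonneg_left c3 a3
        _ = (1 + C1) * (aeB k0 eta x.vi n * (eta + kap k0 n)) := by ring
        _ ≤ _ := mul_le_mul_of_nonneg_left a2 (by positivity)
    calc (c.e0c * k0 ^ (x.e / 4 - 1) + c.Ce * aeB k0 eta x.vi n) *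
          ((eta + kap k0 n * C1) * C1)
        = c.e0c * C1 * (k0 ^ (x.e / 4 - 1) * (eta + kap k0 n * C1)) +
          c.Ce * C1 * (aeB k0 eta x.vi n * (eta + kap k0 n * C1)) := by ring
      _ ≤ c.e0c * C1 * ((1 + C1) * k0 ^ (x.e / 4)) +
          c.Ce * C1 * ((1 + C1) * (2 * k0 ^ (x.vi / 32))) :=
        add_le_add (mul_le_mul_of_nonneg_left c2 (by positivity))
          (mul_le_mul_of_nonneg_left c5 (by positivity))
      _ = c.e0c * (1 + C1) * C1 * k0 ^ (x.e / 4) +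
          c.Ce * (1 + C1) * C1 * 2 * k0 ^ (x.vi / 32) := by ring
      _ ≤ c.dS := by linarith

/-- `InNum` AT EVERY LEVEL -/
theorem inNum (hc : c.Pos) {C1 ep : ℝ} (hC : 0 < C1) (hep : 0 < ep) :
    ∀ᶠ k0 in 𝓝[>] (0 : ℝ), ∀ (eta : ℝ) (f : AND.Fix), 0 < eta → eta ≤ k0 → f.C1 = C1 →
      0 < f.c1 → f.c1 + ep ≤ f.g0.im → ‖f.g0‖ + ep ≤ f.C1 → ∀ n,
      AND.InNum f (parV x c k0 eta) n (k0 ^ (x.vi / 2)) (aeB k0 eta x.vi n)
        (kap k0 n ^ (3 * x.vt)) := by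
  have hvi := x.vi_pos
  have h1 := ev_le (C := 1) (b := x.vi / 2) (by positivity) hep 0
  have h2 := ev_le (C := c.CD) (b := x.vi / 2) (by positivity) (show (0 : ℝ) < 1 / 2 by norm_num) 0
  filter_upwards [ev_numK x hc hC, h1, h2, ev_small (show (0 : ℝ) < 1 / 4 by norm_num)]
    with k0 h0 h1 h2 hk eta f he he1 hfC hc1 hg0 hg1 n
  rw [pow_zero, mul_one] at h1 h2
  rw [one_mul] at h1
  have hk0 := hk.1
  have hk1 : k0 ≤ 1 := by linarith [hk.2]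
  have h3 := h0 eta he.le he1 n
  refine ⟨he, hc.cl, ?_, le_rfl, Real.rpow_nonneg hk0.le _, Real.rpow_le_one hk0.le hk1
    (by positivity), hc1, ?_, ?_, h2, ?_, ?_⟩
  · show c.cl * kap k0 (n + 1) ≤ kap k0 n
    rw [kap_succ]
    have h4 := kap_pos hk0 n
    have h5 := hc.cl1
    nlinarith
  · show f.c1 + (0 + k0 ^ (x.vi / 2)) ≤ _
    linarith
  · show ‖f.g0‖ + (0 + k0 ^ (x.vi / 2)) ≤ _
    linarith
  · rw [hfC]
    exact h3.dA
  · rw [hfC]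
    show _ ≤ 2 * c.dS
    have h4 := hc.dS
    have h5 := h3.dS
    have h6 : (c.e0c * k0 ^ (x.e / 4 - 1) + c.Ce * aeB k0 eta x.vi n) *
      ((eta + kap k0 n * C1) * C1) ≤ 2 * c.dS := by linarith
    exact h6

/-- the numbers of `AND.dl_of` (`StageNum`) -/
theorem ev_dl (hc : c.Pos) {C1 : ℝ} :
    ∀ᶠ k0 in 𝓝[>] (0 : ℝ), ∀ eta : ℝ, 0 ≤ eta → eta ≤ k0 → eta + k0 ≤ 1 ∧
      c.e0c * k0 ^ (x.e / 4 - 1) * (C1 ^ 2 * (eta + k0)) ≤ c.dS / 2 ∧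
      4 * c.Ce * C1 ^ 2 * k0 ^ (x.vi / 32) ≤ c.dS / 2 := by
  have e1 := x.e_eq
  have hvi := x.vi_pos
  have h3 := ev_le (C := c.e0c * C1 ^ 2 * 2) (b := x.e / 4) (by linarith)
    (show 0 < c.dS / 2 by have := hc.dS; positivity) 0
  have h4 := ev_le (C := 4 * c.Ce * C1 ^ 2) (b := x.vi / 32)
    (by positivity) (show 0 < c.dS / 2 by have := hc.dS; positivity) 0
  filter_upwards [h3, h4, ev_small (show (0 : ℝ) < 1 / 4 by norm_num)]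
    with k0 h3 h4 hk eta he he1
  have hk0 := hk.1
  rw [pow_zero, mul_one] at h3 h4
  refine ⟨by linarith [hk.2], ?_, h4⟩
  refine le_trans ?_ h3
  have he0 := hc.e0c
  have hp : 0 ≤ k0 ^ (x.e / 4 - 1) := Real.rpow_nonneg hk0.le _
  have h5 : k0 ^ (x.e / 4) = k0 ^ (x.e / 4 - 1) * k0 := by
    rw [Real.rpow_sub_one hk0.ne']
    field_simp
  rw [h5]
  calc c.e0c * k0 ^ (x.e / 4 - 1) * (C1 ^ 2 * (eta + k0))
      ≤ c.e0c * k0 ^ (x.e / 4 - 1) * (C1 ^ 2 * (2 * k0)) := by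
        apply mul_le_mul_of_nonneg_left _ (by positivity)
        apply mul_le_mul_of_nonneg_left _ (by positivity)
        linarith
    _ = c.e0c * C1 ^ 2 * 2 * (k0 ^ (x.e / 4 - 1) * k0) := by ring

/-- the numbers of the fields -/
theorem ev_FNv (mJ : ℕ) :
    ∀ᶠ k0 in 𝓝[>] (0 : ℝ), FN d mJ k0 x.vi (x.vt / 2) (x.vi / 2) (k0 ^ (1 / 4 : ℝ)) := by
  have hvi := x.vi_pos
  have hvi1 := x.vi_lt
  have hv := x.v_lt
  have hvt := x.vt_pos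
  filter_upwards [ev_FN d mJ (vi := x.vi) (vt := x.vt / 2) (vp := x.vi / 2) (eb := 1 / 4) hvi
    (by positivity) (by positivity) (by linarith) (by linarith) 1] with k0 h
  rwa [one_mul] at h

/-- the initial fields -/
noncomputable def F0v (d L : ℕ) [NeZero L] (k0 Lm C γ : ℝ) : AND.Fld (Kin.Tor d L) where
  err _ := 0
  et _ := 0
  be _ := k0 ^ (1 / 4 : ℝ)
  ae _ := 0
  g5 := AND.g50 d L Lm C γ

/-- the initial pair field far away -/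
theorem F0v_far {C cg : ℝ} (hC : 0 < C) (hcg : 0 < cg) (hd : 0 < d) :
    ∀ᶠ k0 in 𝓝[>] (0 : ℝ), ∀ (L : ℕ) [NeZero L] (γ Lm : ℝ), cg * k0 ≤ γ →
      ∀ y z : Kin.Tor d L, k0 ^ (-2 : ℝ) ≤ (ANM.td y z : ℝ) →
        (F0v d L k0 Lm C γ).g5 y z ≤ 1 / 2 * (ANM.td y z : ℝ) ^ (-x.s) := by
  have hd0 : (0 : ℝ) < d := by exact_mod_cast hd
  have h1 := ev_far (b := cg / (8 * d)) (by positivity) 1 1 (ex_s1 x)
  have h2 := ev_le (C := √(C / cg)) (b := 1) one_pos (show (0 : ℝ) < 1 / 2 by norm_num) 0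
  filter_upwards [h1, h2, ev_small (show (0 : ℝ) < 1 / 4 by norm_num)] with k0 h1 h2 hk L _ γ Lm
    hγ y z hyz
  rw [pow_zero, mul_one, Real.rpow_one] at h2
  have hk0 := hk.1
  have hk1 : k0 ≤ 1 := by linarith [hk.2]
  have hγ0 : 0 < γ := lt_of_lt_of_le (by positivity) hγ
  set R : ℝ := (ANM.td y z : ℝ) with hR
  have hR1 : k0 ^ (-(3 / 2) : ℝ) ≤ R :=
    (Real.rpow_le_rpow_of_exponent_ge hk0 hk1 (by norm_num)).trans hyz
  have h3 := h1 R hR1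
  have h4 : (F0v d L k0 Lm C γ).g5 y z ≤ √(C / γ) * Real.exp (-(γ / (8 * d) * R)) :=
    min_le_right _ _
  refine h4.trans ?_
  have h5 : √(C / γ) ≤ √(C / cg) * k0 ^ (-1 : ℝ) := by
    have h6 : C / γ ≤ (C / cg) * (k0 ^ (-1 : ℝ)) ^ 2 := by
      have h7 : (k0 ^ (-1 : ℝ)) ^ 2 = k0⁻¹ * k0⁻¹ := by
        rw [Real.rpow_neg_one]
        ring
      have h8 : C / γ ≤ C / (cg * k0) := div_le_div_of_nonneg_left hC.le (by positivity) hγ
      have h9 : 1 ≤ k0⁻¹ := (one_le_inv₀ hk0).2 hk1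
      have h10 : 0 ≤ C / cg * k0⁻¹ := by positivity
      rw [h7]
      calc C / γ ≤ C / (cg * k0) := h8
        _ = C / cg * k0⁻¹ * 1 := by field_simp
        _ ≤ C / cg * k0⁻¹ * k0⁻¹ := mul_le_mul_of_nonneg_left h9 h10
        _ = _ := by ring
    calc √(C / γ) ≤ √((C / cg) * (k0 ^ (-1 : ℝ)) ^ 2) := Real.sqrt_le_sqrt h6
      _ = √(C / cg) * k0 ^ (-1 : ℝ) := by
        rw [Real.sqrt_mul (by positivity), Real.sqrt_sq (Real.rpow_nonneg hk0.le _)]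
  have h6 : Real.exp (-(γ / (8 * d) * R)) ≤ Real.exp (-(cg / (8 * d) * k0 * R)) := by
    apply Real.exp_le_exp.2
    apply neg_le_neg
    have hR0 : 0 ≤ R := Nat.cast_nonneg _
    apply mul_le_mul_of_nonneg_right _ hR0
    calc cg / (8 * d) * k0 = (cg * k0) / (8 * d) := by ring
      _ ≤ γ / (8 * d) := by gcongr
  have h7 : 0 ≤ k0 ^ (-1 : ℝ) := Real.rpow_nonneg hk0.le _
  calc √(C / γ) * Real.exp (-(γ / (8 * d) * R))
      ≤ (√(C / cg) * k0 ^ (-1 : ℝ)) * Real.exp (-(cg / (8 * d) * k0 * R)) :=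
        mul_le_mul h5 h6 (Real.exp_pos _).le (by positivity)
    _ = √(C / cg) * (k0 ^ (-1 : ℝ) * Real.exp (-(cg / (8 * d) * k0 * R))) := by ring
    _ ≤ √(C / cg) * (k0 ^ (1 : ℝ) * R ^ (-x.s)) :=
        mul_le_mul_of_nonneg_left h3 (Real.sqrt_nonneg _)
    _ = (√(C / cg) * k0) * R ^ (-x.s) := by rw [Real.rpow_one]; ring
    _ ≤ 1 / 2 * R ^ (-x.s) :=
        mul_le_mul_of_nonneg_right h2 (Real.rpow_nonneg (Nat.cast_nonneg _) _)

/-- THE START -/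
theorem startNum (hc : c.Pos) {C cg Cg' rho Cph cph : ℝ} (hC : 0 < C) (hcg : 0 < cg)
    (hrho : 0 < rho) (hcph : 0 < cph)
    (hD0 : c.D0c * (C * Cg' ^ (1 - 2 * x.e)) ≤ 1) (hCg' : 0 < Cg')
    (hC0 : C ≤ c.C0c * cg)
    (he0 : Cg' ^ (x.e / 4) ≤ c.e0c * (cg * rho)) :
    ∀ᶠ k0 in 𝓝[>] (0 : ℝ), ∀ (L : ℕ) [NeZero L] (X : Type) (Sf : AND.SiteF X)
      (γ ρ s eta Lm C5 : ℝ), 0 ≤ eta →
      cg * k0 ≤ γ → γ ≤ Cg' * k0 → rho ≤ ρ → c.cl * (k0 / 4) ≤ s → s ≤ k0 →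
      (∀ K ∈ Sf.Ks 0, 0 ≤ Sf.s K ∧ (∃ φ0 : ℝ, 0 ≤ φ0 ∧ φ0 ≤ Cph * Sf.s K ∧
        (∀ a, Sf.phi K 0 a = φ0)) ∧ ∀ a, cph ≤ Sf.om 0 a) →
      AND.StartNum (parV x c k0 eta) Sf (F0v d L k0 Lm C5 γ) γ ρ s x.e C := by
  have e1 := x.e_eq
  have h1 := ev_pow' (C := C * cg ^ (-(3 / 4) : ℝ)) (show (-(7 / 8) : ℝ) < -(3 / 4) by norm_num)
  have h2 := ev_pow' (C := |Cph| * C * √Cg' / (rho * (c.Cz * cph)))
    (show (1 / 4 : ℝ) < 1 / 2 by norm_num)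
  filter_upwards [h1, h2, ev_small (show (0 : ℝ) < 1 / 4 by norm_num)] with k0 h1 h2 hk L _ X Sf γ
    ρ s eta Lm C5 heta hγ1 hγ2 hρ hs1 hs2 hphi
  have hk0 := hk.1
  have hk1 : k0 ≤ 1 := by linarith [hk.2]
  have hγ0 : 0 < γ := lt_of_lt_of_le (by positivity) hγ1
  have hρ0 : 0 < ρ := lt_of_lt_of_le hrho hρ
  have hCz := hc.Cz
  refine ⟨hc.CD.le, hc.Ce.le, hc.Cz.le, (parV_pos x hc hk0 heta).D0, (parV_pos x hc hk0 heta).C00,
    fun K hK => (hphi K hK).1, heta, kap_pos hk0 1, kap_pos hk0 0, fun _ => le_rfl,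
    fun _ => le_rfl, fun _ => le_rfl, le_rfl, ?_, ?_, ?_, ?_, ?_, ?_, ?_⟩
  · show c.cl * kap k0 (0 + 1) ≤ s
    rw [kap_succ, kap_zero]
    exact hs1
  · show s ≤ kap k0 0
    rw [kap_zero]
    exact hs2
  · show C * γ ^ (-(3 / 4) : ℝ) ≤ kap k0 0 ^ (-(7 / 8) : ℝ)
    rw [kap_zero]
    have h3 : γ ^ (-(3 / 4) : ℝ) ≤ (cg * k0) ^ (-(3 / 4) : ℝ) :=
      Real.rpow_le_rpow_of_nonpos (by positivity) hγ1 (by norm_num)
    rw [Real.mul_rpow hcg.le hk0.le] at h3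
    calc C * γ ^ (-(3 / 4) : ℝ) ≤ C * (cg ^ (-(3 / 4) : ℝ) * k0 ^ (-(3 / 4) : ℝ)) :=
          mul_le_mul_of_nonneg_left h3 hC.le
      _ = C * cg ^ (-(3 / 4) : ℝ) * k0 ^ (-(3 / 4) : ℝ) := by ring
      _ ≤ _ := h1
  · intro K hK
    obtain ⟨hsK, ⟨φ0, hφ0, hφ1, hφ2⟩, hom⟩ := hphi K hK
    refine ⟨φ0, hφ0, hφ2, fun _ a => ?_⟩
    show φ0 * C * √γ ≤ ρ * (Sf.s K * c.Cz * (k0 ^ (1 / 4 : ℝ) * Sf.om 0 a))
    have h3 : √γ ≤ √Cg' * k0 ^ (1 / 2 : ℝ) := by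
      rw [← Real.sqrt_eq_rpow, ← Real.sqrt_mul hCg'.le]
      exact Real.sqrt_le_sqrt hγ2
    have h4 : φ0 ≤ |Cph| * Sf.s K := hφ1.trans (mul_le_mul_of_nonneg_right (le_abs_self _) hsK)
    have h5 : 0 ≤ k0 ^ (1 / 4 : ℝ) := Real.rpow_nonneg hk0.le _
    have h6 : 0 ≤ k0 ^ (1 / 2 : ℝ) := Real.rpow_nonneg hk0.le _
    have h7 : |Cph| * C * √Cg' * k0 ^ (1 / 2 : ℝ) ≤ rho * (c.Cz * cph) * k0 ^ (1 / 4 : ℝ) := by
      have h8 : 0 < rho * (c.Cz * cph) := by positivity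
      have h9 := mul_le_mul_of_nonneg_left h2 h8.le
      have h10 : rho * (c.Cz * cph) * (|Cph| * C * √Cg' / (rho * (c.Cz * cph)) *
          k0 ^ (1 / 2 : ℝ)) = |Cph| * C * √Cg' * k0 ^ (1 / 2 : ℝ) := by
        field_simp
      rwa [h10] at h9
    calc φ0 * C * √γ ≤ (|Cph| * Sf.s K) * C * (√Cg' * k0 ^ (1 / 2 : ℝ)) := by gcongr
      _ = Sf.s K * (|Cph| * C * √Cg' * k0 ^ (1 / 2 : ℝ)) := by ring
      _ ≤ Sf.s K * (rho * (c.Cz * cph) * k0 ^ (1 / 4 : ℝ)) := mul_le_mul_of_nonneg_left h7 hsK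
      _ = rho * (Sf.s K * c.Cz * (k0 ^ (1 / 4 : ℝ) * cph)) := by ring
      _ ≤ ρ * (Sf.s K * c.Cz * (k0 ^ (1 / 4 : ℝ) * Sf.om 0 a)) := by
          have h8 := hom a
          have h9 : 0 ≤ Sf.s K * c.Cz * (k0 ^ (1 / 4 : ℝ) * cph) := by positivity
          have h10 : Sf.s K * c.Cz * (k0 ^ (1 / 4 : ℝ) * cph) ≤
              Sf.s K * c.Cz * (k0 ^ (1 / 4 : ℝ) * Sf.om 0 a) := by gcongr
          exact mul_le_mul hρ h10 h9 hρ0.le
  · show c.D0c * k0 ^ (-(1 - 2 * x.e)) ≤ 1 / (C * γ ^ (1 - 2 * x.e))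
    have h3 : 0 < γ ^ (1 - 2 * x.e) := Real.rpow_pos_of_pos hγ0 _
    rw [le_div_iff₀ (by positivity)]
    have h4 : γ ^ (1 - 2 * x.e) ≤ Cg' ^ (1 - 2 * x.e) * k0 ^ (1 - 2 * x.e) := by
      rw [← Real.mul_rpow hCg'.le hk0.le]
      exact Real.rpow_le_rpow hγ0.le hγ2 (by rw [e1]; norm_num)
    have h5 : k0 ^ (-(1 - 2 * x.e)) * k0 ^ (1 - 2 * x.e) = 1 := by
      rw [← Real.rpow_add hk0]
      simp
    have h6 : 0 ≤ k0 ^ (-(1 - 2 * x.e)) := Real.rpow_nonneg hk0.le _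
    have h7 := hc.D0c
    calc c.D0c * k0 ^ (-(1 - 2 * x.e)) * (C * γ ^ (1 - 2 * x.e))
        ≤ c.D0c * k0 ^ (-(1 - 2 * x.e)) *
          (C * (Cg' ^ (1 - 2 * x.e) * k0 ^ (1 - 2 * x.e))) := by gcongr
      _ = c.D0c * (C * Cg' ^ (1 - 2 * x.e)) * (k0 ^ (-(1 - 2 * x.e)) * k0 ^ (1 - 2 * x.e)) := by
        ring
      _ ≤ 1 := by rw [h5, mul_one]; exact hD0
  · show γ ^ (x.e / 4) ≤ c.e0c * k0 ^ (x.e / 4 - 1) * (γ * ρ)
    have h3 : γ ^ (x.e / 4) ≤ Cg' ^ (x.e / 4) * k0 ^ (x.e / 4) := by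
      rw [← Real.mul_rpow hCg'.le hk0.le]
      exact Real.rpow_le_rpow hγ0.le hγ2 (by rw [e1]; norm_num)
    have h4 : k0 ^ (x.e / 4) = k0 ^ (x.e / 4 - 1) * k0 := by
      rw [Real.rpow_sub_one hk0.ne']
      field_simp
    have h5 : 0 ≤ k0 ^ (x.e / 4 - 1) := Real.rpow_nonneg hk0.le _
    have h6 := hc.e0c
    calc γ ^ (x.e / 4) ≤ Cg' ^ (x.e / 4) * k0 ^ (x.e / 4) := h3
      _ ≤ c.e0c * (cg * rho) * k0 ^ (x.e / 4) :=
        mul_le_mul_of_nonneg_right he0 (Real.rpow_nonneg hk0.le _)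
      _ = c.e0c * k0 ^ (x.e / 4 - 1) * ((cg * k0) * rho) := by
        rw [h4]
        ring
      _ ≤ c.e0c * k0 ^ (x.e / 4 - 1) * (γ * ρ) := by
        apply mul_le_mul_of_nonneg_left _ (by positivity)
        exact mul_le_mul hγ1 hρ hrho.le hγ0.le
  · show C / γ ≤ c.C0c * k0⁻¹
    rw [div_le_iff₀ hγ0]
    have h3 := hc.C0c
    calc C ≤ c.C0c * cg := hC0
      _ = c.C0c * k0⁻¹ * (cg * k0) := by
        field_simp
      _ ≤ c.C0c * k0⁻¹ * γ := mul_le_mul_of_nonneg_left hγ1 (by positivity)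

end Pool.Agent.ANC
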