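import Pool.Agent.ANC.InsU
import Pool.Agent.ANC.InsT
import Pool.Agent.ANC.InsH
import Pool.Agent.ANC.ParV
import Pool.Agent.ANI.InsTop

/-!
# ANC / InsV: `TotN` for the two steps of the insertion, `P = (parV x c k0 eta).b4` (helper20)

`cmV` = constant of (H3) in `NumR`, `ccV` = size of the relative errors, `cνV` = rate.
* `totN` : `TotN` from the sizes of the totals, for all small `k0` and all levels `n` with `kap k0 n ≤ k0 ^ al`;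
* `annAll`, `contAll` : EVERYTHING for the two steps.
-/

open Filter Topology Real

namespace Pool.Agent.ANC

open Pool.Agent.Kin Pool.Agent.AND Pool.Agent.ANI Pool.Agent.ANM Pool.Agent.ANF.Heat

variable {d : ℕ} {CM : ℝ}

/-- lower bound of the rate `ν / k` -/
noncomputable def cνV (c1 C1 rho0 cμ : ℝ) : ℝ := rho0 / 4 * c1 / (32 * C1) * (cμ / 4)

/-- the constant `cm` -/
noncomputable def cmV (c : Cst) (c1 : ℝ) : ℝ := min (c1 / 2) (c.cl * c1 ^ 2 / 16)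

/-- the size of the relative errors -/
noncomputable def ccV (c : Cst) (c1 : ℝ) : ℝ := min (min c.dS (c.Ce * cmV c c1)) 1 / 9

theorem cmV_pos {c : Cst} (hc : c.Pos) {c1 : ℝ} (h : 0 < c1) : 0 < cmV c c1 := by
  have := hc.cl
  unfold cmV
  positivity

theorem ccV_pos {c : Cst} (hc : c.Pos) {c1 : ℝ} (h : 0 < c1) : 0 < ccV c c1 := by
  have h1 := cmV_pos hc h
  have h2 := hc.Ce
  have h3 := hc.dS
  unfold ccV
  positivity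

/-- `TotN` FROM THE SIZES OF THE TOTALS -/
theorem totN (x : Ex d CM) (hd : 3 ≤ d) (hCM : 0 ≤ CM) {c : Cst} (hc : c.Pos) (G Cn Cq : ℝ)
    {c1 C1 rho0 ck cμ B1 B2 errm bem c3 : ℝ} (hG : 0 ≤ G) (hCq : 0 ≤ Cq) (hc1 : 0 < c1)
    (hc2 : c1 ≤ 2) (hcC : c1 ≤ C1) (hC1 : 1 / 4 ≤ C1) (hr : 0 < rho0) (hcμ : 0 < cμ)
    (hb : 64 * c.b ≤ cνV c1 C1 rho0 cμ) (hB1 : 0 ≤ B1) (hB2 : 0 ≤ B2) (he : 0 ≤ errm)
    (hbe : 0 ≤ bem) (hc3 : 0 < c3) (hc31 : c3 ≤ 1) :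
    ∀ᶠ k0 in 𝓝[>] (0 : ℝ), ∀ n : ℕ, kap k0 n ≤ k0 ^ x.al →
      ∀ (L : ℕ) (eta eta' : ℝ) (f : Fix) (t : Tol d L) (u : UTol) (nS μ : ℝ) (cw ρc s : ℕ),
      InsZ x c1 C1 rho0 ck cμ Cn (kap k0 n) eta' f t u nS μ cw ρc s → 0 ≤ eta →
      u.C0 = 2 * (parV x c k0 eta).C00 →
      ∀ (ε q W KF pB WB nB : ℝ), 0 ≤ ε → ε ≤ kap k0 n ^ (13 * x.vi) → 0 ≤ q →
      q ≤ Cq * (kap k0 n ^ (2 * x.vi) * u.tau) → 0 ≤ W → W ≤ kap k0 n ^ (-(5 * x.v1)) →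
      0 ≤ KF → KF ≤ kap k0 n ^ (-G) * Real.exp (tRf f u * (μ / (4 : ℕ)) * s / 10) → 0 ≤ pB →
      pB ≤ kap k0 n ^ (32 * x.vi) → 0 ≤ WB → WB ≤ kap k0 n ^ (-(3 * x.v1)) → 0 ≤ nB →
      nB ≤ kap k0 n ^ (-1 : ℝ) →
      TotN d f u (parV x c k0 eta).b4 n s (tRf f u * (μ / (4 : ℕ))) ε q W KF pB WB nB u.C0 cw 4 μ
        (kap k0 n ^ (9 * x.v1)) (kap k0 n ^ (-(5 * x.vi))) (ccV c c1) (ccV c c1) (cmV c c1) ρc
        B1 B2 errm bem c3 := by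
  have hv1 := x.v1_pos
  have hvi := x.vi_pos
  have hvi8 := x.vi8
  have hC10 : 0 < C1 := hc1.trans_le hcC
  have hcν : 0 < cνV c1 C1 rho0 cμ := by
    unfold cνV
    positivity
  have hb0 := hc.b
  have hCD := hc.CD
  have hD0 := hc.D0c
  have hC0 := hc.C0c
  have hcm := cmV_pos hc hc1
  have hcc := ccV_pos hc hc1
  have hcc9 : 9 * ccV c c1 = min (min c.dS (c.Ce * cmV c c1)) 1 := by
    unfold ccV
    ring
  have hcc1 : 9 * ccV c c1 ≤ 1 := by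
    rw [hcc9]
    exact min_le_right _ _
  have hccS : 9 * ccV c c1 ≤ c.dS := by
    rw [hcc9]
    exact (min_le_left _ _).trans (min_le_left _ _)
  have hccA : 9 * ccV c c1 ≤ c.Ce * cmV c c1 := by
    rw [hcc9]
    exact (min_le_left _ _).trans (min_le_right _ _)
  have he1 := x.e_eq
  filter_upwards [ev_kap (ev_small one_pos), ev_small one_pos,
    ev_kap (rNum (d := d) x G Cq (b := 4 * c.b) (vt := x.vt / 2) hCq hcν (by positivity)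
      (by linarith) (by have := x.vt_pos; positivity) (by have := x.vt_pos; linarith)),
    ev_kap (numR0 x hd G (c1 := c1) (C1 := C1) (rho0 := rho0) (ck := ck) (cμ := cμ)
      (b := 4 * c.b) (δ := min (c.D0c * c.CD) (c.C0c * c.CD)) (cc := ccV c c1)
      (cm := cmV c c1) (cl := c.cl) hG hc1 hcC hcμ hcν (by positivity) (by linarith)
      (by positivity) hcc hcc1 (min_le_left _ _) (min_le_right _ _)),
    ev_kap (h3mNum (d := d) x G (b := 4 * c.b) (Cz := c.Cz) hc1 hc2 hC1 hcν (by positivity)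
      (by linarith) hc.Cz hB1 hB2 he hbe hc3 hc31),
    ev_le (8 * c.C0c * (2 + 144 * (d : ℝ) ^ 2)) (b := 1) one_pos
      (show 0 < min (c.D0c * c.CD) (c.C0c * c.CD) by positivity) 0]
    with k0 hkn hk h1 h2 h3 h4 n hnal L eta eta' f t u nS μ cw ρc s hZ heta huC0 ε q W KF pB WB nB
      he0 he' hq0 hq hW0 hW hKF0 hKF hpB0 hpB hWB0 hWB hnB0 hnB
  obtain ⟨hk0, hk1⟩ := hkn n
  have hk00 := hk.1
  have hI := hZ.I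
  have hνl : cνV c1 C1 rho0 cμ * kap k0 n ≤ tRf f u * (μ / (4 : ℕ)) :=
    hZ.ν0 hc1 hcC hr hcμ hk0
  have hν1 : tRf f u * (μ / (4 : ℕ)) ≤ 1 := hZ.ν1 hc1 hcC hcμ hk0 hk1
  have hμ0 : 0 < μ := lt_of_lt_of_le (by positivity) hZ.μ0
  have hvk0 : 0 ≤ kap k0 n ^ x.vi := rpow_nn hk0 _
  rw [pow_zero, mul_one, Real.rpow_one] at h4
  have hD1 : 1 ≤ k0 ^ (-(1 - 2 * x.e)) := one_le_rpow hk00 hk.2 (by rw [he1]; norm_num)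
  have hi1 : 1 ≤ k0⁻¹ := (one_le_inv₀ hk00).2 hk.2
  have hδD : min (c.D0c * c.CD) (c.C0c * c.CD) ≤ c.D0c * k0 ^ (-(1 - 2 * x.e)) * c.CD := by
    refine (min_le_left _ _).trans ?_
    refine mul_le_mul_of_nonneg_right ?_ hCD.le
    exact le_mul_of_one_le_right hD0.le hD1
  have hδC : min (c.D0c * c.CD) (c.C0c * c.CD) ≤ c.C0c * k0⁻¹ * c.CD := by
    refine (min_le_right _ _).trans ?_
    refine mul_le_mul_of_nonneg_right ?_ hCD.le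
    exact le_mul_of_one_le_right hC0.le hi1
  have hT : 2 * kap k0 n ^ (9 * x.v1) * u.C0 * (2 + 144 * (d : ℝ) ^ 2) ≤
      1 / 2 * min (c.D0c * c.CD) (c.C0c * c.CD) * kap k0 n ^ x.vi := by
    have e1 : kap k0 n ^ (9 * x.v1) = kap k0 n ^ x.v1 * kap k0 n ^ x.vi := by
      rw [← Real.rpow_add hk0]
      congr 1
      linarith
    have e2 : kap k0 n ^ x.v1 ≤ k0 ^ 2 := by
      have e3 : (2 : ℝ) ≤ x.al * x.v1 := by linarith [x.L3]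
      calc kap k0 n ^ x.v1 ≤ (k0 ^ x.al) ^ x.v1 := Real.rpow_le_rpow hk0.le hnal hv1.le
        _ = k0 ^ ((x.al : ℝ) * x.v1) := by
          rw [← Real.rpow_natCast, ← Real.rpow_mul hk00.le]
        _ ≤ k0 ^ (2 : ℝ) := rpow_anti hk00 hk.2 e3
        _ = k0 ^ 2 := Real.rpow_two k0
    have e4 : u.C0 = 2 * (c.C0c * k0⁻¹) := huC0
    rw [e1, e4]
    have e5 : k0 ^ 2 * k0⁻¹ = k0 := by
      field_simp
    calc 2 * (kap k0 n ^ x.v1 * kap k0 n ^ x.vi) * (2 * (c.C0c * k0⁻¹)) *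
          (2 + 144 * (d : ℝ) ^ 2) =
          4 * c.C0c * (2 + 144 * (d : ℝ) ^ 2) * (kap k0 n ^ x.v1 * k0⁻¹) * kap k0 n ^ x.vi := by
          ring
      _ ≤ 4 * c.C0c * (2 + 144 * (d : ℝ) ^ 2) * (k0 ^ 2 * k0⁻¹) * kap k0 n ^ x.vi := by
          have : 0 ≤ k0⁻¹ := inv_nonneg.2 hk00.le
          gcongr
      _ = 1 / 2 * (8 * c.C0c * (2 + 144 * (d : ℝ) ^ 2) * k0) * kap k0 n ^ x.vi := by
          rw [e5]
          ring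
      _ ≤ _ := by gcongr
  have hT1 : 2 * kap k0 n ^ (9 * x.v1) * u.C0 * (2 + 144 * (d : ℝ) ^ 2) ≤
      1 / 2 * (c.D0c * k0 ^ (-(1 - 2 * x.e)) * c.CD) * kap k0 n ^ x.vi :=
    hT.trans (mul_le_mul_of_nonneg_right (by linarith) hvk0)
  have hT2 : 2 * kap k0 n ^ (9 * x.v1) * u.C0 * (2 + 144 * (d : ℝ) ^ 2) ≤
      1 / 2 * (c.C0c * k0⁻¹ * c.CD) * kap k0 n ^ x.vi :=
    hT.trans (mul_le_mul_of_nonneg_right (by linarith) hvk0)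
  have hC00 : 0 ≤ u.C0 := by
    have e4 : u.C0 = 2 * (c.C0c * k0⁻¹) := huC0
    rw [e4]
    have : 0 ≤ k0⁻¹ := inv_nonneg.2 hk00.le
    positivity
  refine ⟨⟨?_, ?_⟩, ?_⟩
  · exact h1 n ε q u.tau KF _ s 1 hI.tau0 hZ.tau he0 he' hq0 hq hKF0 hKF hνl hν1 hZ.s1 le_rfl
  · exact h2 n L f t u (parV x c k0 eta).b4 n s cw u.C0 ε W KF pB WB nB μ _ hI rfl
      (kap_succ k0 n) heta rfl rfl rfl hδD hδC hT1 hT2 hc.dS.le hc.Ce.le hccS hccA hC00 he0 he'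
      hW0 hW hKF0 hKF hpB0 hpB hWB0 hWB hnB0 hnB hZ.μ0 hZ.μ1 hZ.cw1 hνl hν1 hZ.s1
  · rw [hI.fc1, hI.fC1]
    have hρ : 4 * (ρc : ℝ) ≤ 5 * s := by
      have h5 := hZ.ρc1
      have h6 : (0 : ℝ) ≤ s := Nat.cast_nonneg _
      linarith
    exact h3 n (parV x c k0 eta).b4 n s 4 cw _ ε KF μ ρc rfl rfl rfl rfl rfl he0 he' hKF0 hKF hνl
      hν1 hZ.s1 (by norm_num) hμ0 hZ.μ1 hZ.cw1 hρ

/-- everything for the annulus step; `T = k ^ (2 vi) τ` -/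
structure AnnAll (x : Ex d CM) (c : Cst) (L : ℕ) (c1 rho0 k0 k eta : ℝ) (n : ℕ) (f : Fix)
    (t : Tol d L) (u : UTol) (nS uu μ : ℝ) (cw ρc s : ℕ) (B1 B2 errm bem c3 : ℝ) : Prop where
  an : AnnNum f t u nS uu x.s (k ^ x.van) (k ^ (2 * x.vi) * u.tau) 1 (k ^ (-2 : ℝ)) 4 cw μ
  ex1 : ExNum f u (k ^ x.van) (k ^ (-2 : ℝ)) ((4 : ℕ) / (2 * μ)) cw d (lN d rho0 k)
  rf1 : RfNum f t u x.s (k ^ x.van) (k ^ (2 * x.vi) * u.tau) 1 (k ^ (15 * x.vi)) (k ^ (-2 : ℝ))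
    (k ^ (14 * x.vi)) (k ^ (2 * x.vi) * u.tau) (k ^ (-(4 * x.v1))) 4 (lN d rho0 k)
  tr : 4 * tRf f u ≤ 1
  pB1 : nS * (u.Lam ^ 2 * (eta + k * f.C1)) ≤ k ^ (32 * x.vi)
  WB1 : nS * ((eta + k * f.C1) * f.C1) ≤ k ^ (-(3 * x.v1))
  tt1 : TotN d f u (parV x c k0 eta).b4 n s (tRf f u * (μ / (4 : ℕ)))
    (k ^ x.van + k ^ (14 * x.vi)) (8 * (k ^ (2 * x.vi) * u.tau + k ^ (2 * x.vi) * u.tau))
    (2 * (1 + k ^ (-(4 * x.v1)))) (kTot f u nS (k ^ (-2 : ℝ)) (k ^ (-2 : ℝ)) d 4 cw μ ρc)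
    (k ^ (32 * x.vi)) (k ^ (-(3 * x.v1))) nS u.C0 cw 4 μ (k ^ (9 * x.v1)) (k ^ (-(5 * x.vi)))
    (ccV c c1) (ccV c c1) (cmV c c1) ρc B1 B2 errm bem c3
  ec : 2 * (k ^ x.van + k ^ (14 * x.vi)) ≤ f.c1
  qc : 0 ≤ k ^ (2 * x.vi) * u.tau + k ^ (2 * x.vi) * u.tau

/-- everything for the content step -/
structure ContAll (x : Ex d CM) (c : Cst) (L : ℕ) (c1 rho0 k0 k eta : ℝ) (n : ℕ) (f : Fix)
    (t : Tol d L) (u : UTol) (nS nF R0 Ml ρF μ : ℝ) (m r1 D1 nb cw ρc s : ℕ)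
    (B1 B2 errm bem c3 : ℝ) : Prop where
  cn : ContNum f u m r1 D1 nb d Ml (u.Lam * f.r0 ^ x.s + u.C2 + (k ^ x.van + k ^ (14 * x.vi)))
    (8 * (u.tau + 8 * (k ^ (2 * x.vi) * u.tau + k ^ (2 * x.vi) * u.tau))) ρF x.s
    (k ^ (32 * x.vi)) (k ^ (2 * x.vi) * u.tau) (k ^ (-(3 * x.v1))) (k ^ (-2 : ℝ)) 4 cw μ
  ex2 : ExNum f u (k ^ (32 * x.vi)) (k ^ (-2 : ℝ)) ((4 : ℕ) / (2 * μ)) cw d (lN d rho0 k)
  rf2 : RfNum f t u x.s (k ^ (32 * x.vi)) (k ^ (2 * x.vi) * u.tau) (k ^ (-(3 * x.v1)))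
    (k ^ (15 * x.vi)) (k ^ (-2 : ℝ)) (k ^ (14 * x.vi)) (k ^ (2 * x.vi) * u.tau)
    (k ^ (-(4 * x.v1))) 4 (lN d rho0 k)
  pB2 : nS * (u.Lam ^ 2 * (eta + k * f.C1)) + nF * (u.C2 * R0 ^ (-f.s)) ^ 2 ≤ k ^ (32 * x.vi)
  WB2 : nS * ((eta + k * f.C1) * f.C1) + nF * f.C1 ≤ k ^ (-(3 * x.v1))
  tt2 : TotN d f u (parV x c k0 eta).b4 n s (tRf f u * (μ / (4 : ℕ)))
    (k ^ x.van + k ^ (14 * x.vi) + 2 * (k ^ (32 * x.vi) + k ^ (14 * x.vi)))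
    (8 * (8 * (k ^ (2 * x.vi) * u.tau + k ^ (2 * x.vi) * u.tau) +
      8 * (k ^ (2 * x.vi) * u.tau + k ^ (2 * x.vi) * u.tau)))
    (2 * (2 * (1 + k ^ (-(4 * x.v1))) + 4 * (2 * (k ^ (-(3 * x.v1)) + k ^ (-(4 * x.v1))))))
    (kTot f u nS (k ^ (-2 : ℝ)) (k ^ (-2 : ℝ)) d 4 cw μ ρc +
      kTot f u nF (k ^ (-2 : ℝ)) (k ^ (-2 : ℝ)) d 4 cw μ ρc)
    (k ^ (32 * x.vi)) (k ^ (-(3 * x.v1))) (nS + nF) u.C0 cw 4 μ (k ^ (9 * x.v1))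
    (k ^ (-(5 * x.vi))) (ccV c c1) (ccV c c1) (cmV c c1) ρc B1 B2 errm bem c3

/-- EVERYTHING FOR THE ANNULUS STEP -/
theorem annAll (x : Ex d CM) (hd : 3 ≤ d) (hCM : 0 ≤ CM) {c : Cst} (hc : c.Pos) (Cu Cn : ℝ)
    {c1 C1 rho0 ck cμ B1 B2 errm bem c3 : ℝ} (hCu : 0 ≤ Cu) (hCn : 0 ≤ Cn) (hc1 : 0 < c1)
    (hc2 : c1 ≤ 2) (hcC : c1 ≤ C1) (hC1 : 1 / 4 ≤ C1) (hr : 0 < rho0) (hck : 0 < ck)
    (hcμ : 0 < cμ) (hb : 64 * c.b ≤ cνV c1 C1 rho0 cμ) (hB1 : 0 ≤ B1) (hB2 : 0 ≤ B2)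
    (he : 0 ≤ errm) (hbe : 0 ≤ bem) (hc3 : 0 < c3) (hc31 : c3 ≤ 1) :
    ∀ᶠ k0 in 𝓝[>] (0 : ℝ), ∀ n : ℕ, kap k0 n ≤ k0 ^ x.al →
      ∀ (L : ℕ) (eta : ℝ) (f : Fix) (t : Tol d L) (u : UTol) (nS uu μ : ℝ) (cw ρc s : ℕ),
      InsZ x c1 C1 rho0 ck cμ Cn (kap k0 n) eta f t u nS μ cw ρc s →
      u.C0 = 2 * (parV x c k0 eta).C00 → 0 ≤ uu → uu ≤ Cu * kap k0 n ^ x.th →
      AnnAll x c L c1 rho0 k0 (kap k0 n) eta n f t u nS uu μ cw ρc s B1 B2 errm bem c3 := by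
  have hv1 := x.v1_pos
  have hvi := x.vi_pos
  have hI6 := x.I6'
  have hdn : (0 : ℝ) ≤ d := Nat.cast_nonneg d
  filter_upwards [ev_kap (ev_small one_pos),
    ev_kap (annPk x hd Cu Cn (C1 := C1) (ck := ck) hCu hCn hc1 hcC hr hck hcμ),
    ev_kap (annB x Cn (C1 := C1) (rho0 := rho0) (ck := ck) (cμ := cμ) hc1 hcC),
    ev_kap (kTot_le x Cn 2 (ck := ck) hc1 hcC hr hcμ),
    totN x hd hCM hc (d + 12) Cn 256 (ck := ck) (by positivity) (by norm_num) hc1 hc2 hcC hC1 hr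
      hcμ hb hB1 hB2 he hbe hc3 hc31,
    ev_kap (ev_pow' (2 : ℝ) (show 13 * x.vi < 14 * x.vi by linarith)),
    ev_kap (ev_pow' (4 : ℝ) (show -(5 * x.v1) < -(4 * x.v1) by linarith)),
    ev_kap (ev_le 4 (b := 14 * x.vi) (by positivity) hc1 0)]
    with k0 hkn h1 h2 h3 h4 h5 h6 h7 n hnal L eta f t u nS uu μ cw ρc s hZ huC0 huu0 huu
  obtain ⟨hk0, hk1⟩ := hkn n
  obtain ⟨a1, a2, a3, a4⟩ := h1 n L eta f t u nS uu μ cw ρc s hZ huu0 huu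
  obtain ⟨b1, b2, b3⟩ := h2 n L eta f t u nS μ cw ρc s hZ
  have hI := hZ.I
  have hτ := hI.tau0
  have h7' := h7 n
  rw [pow_zero, mul_one] at h7'
  have hk2 : 0 ≤ kap k0 n ^ (-2 : ℝ) := rpow_nn hk0 _
  have hk11 : 0 ≤ kap k0 n ^ (-1 : ℝ) := rpow_nn hk0 _
  have hp1 : 0 ≤ kap k0 n ^ (32 * x.vi) := rpow_nn hk0 _
  have hp2 : 0 ≤ kap k0 n ^ (-(3 * x.v1)) := rpow_nn hk0 _
  have hp3 : 0 ≤ kap k0 n ^ x.van := rpow_nn hk0 _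
  have hp4 : 0 ≤ kap k0 n ^ (14 * x.vi) := rpow_nn hk0 _
  have hp5 : 0 ≤ kap k0 n ^ (-(4 * x.v1)) := rpow_nn hk0 _
  have hT0 : 0 ≤ kap k0 n ^ (2 * x.vi) * u.tau := mul_nonneg (rpow_nn hk0 _) hτ
  obtain ⟨c1', c2'⟩ := h3 n L eta f t u nS μ nS _ cw ρc s hZ hk2 le_rfl hZ.nS0 (by linarith)
  have hv14 : kap k0 n ^ x.van ≤ kap k0 n ^ (14 * x.vi) := rpow_anti hk0 hk1 (by linarith)
  refine ⟨a1, a2, a3, a4, by linarith, by linarith, ?_, ?_, by linarith⟩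
  · refine h4 n hnal L eta eta f t u nS μ cw ρc s hZ hZ.eta0 huC0 _ _ _ _ _ _ _ (by positivity)
      ?_ (by positivity) (by linarith) (by positivity) ?_ c1' (c2'.trans ?_) hp1 le_rfl hp2 le_rfl
      hZ.nS0 (by linarith)
    · have := h5 n
      linarith
    · have e1 := h6 n
      have e2 : (1 : ℝ) ≤ kap k0 n ^ (-(4 * x.v1)) := one_le_rpow hk0 hk1 (by linarith)
      linarith
    · refine mul_le_mul_of_nonneg_right ?_ (Real.exp_pos _).le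
      exact rpow_anti hk0 hk1 (by linarith)
  · rw [hI.fc1]
    linarith

/-- EVERYTHING FOR THE CONTENT STEP -/
theorem contAll (x : Ex d CM) (hd : 3 ≤ d) (hCM : 0 ≤ CM) {c : Cst} (hc : c.Pos) (J : ℕ)
    (KD Cn : ℝ) {c1 C1 rho0 ck cμ cr B1 B2 errm bem c3 : ℝ} (hKD : 0 ≤ KD) (hc1 : 0 < c1)
    (hc2 : c1 ≤ 2) (hcC : c1 ≤ C1) (hC1 : 1 / 4 ≤ C1) (hr : 0 < rho0) (hck : 0 < ck)
    (hcμ : 0 < cμ) (hcr : 0 < cr) (hb : 64 * c.b ≤ cνV c1 C1 rho0 cμ) (hB1 : 0 ≤ B1)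
    (hB2 : 0 ≤ B2) (he : 0 ≤ errm) (hbe : 0 ≤ bem) (hc3 : 0 < c3) (hc31 : c3 ≤ 1) :
    ∀ᶠ k0 in 𝓝[>] (0 : ℝ), ∀ n : ℕ, kap k0 n ≤ k0 ^ x.al →
      ∀ (L : ℕ) (eta : ℝ) (f : Fix) (t : Tol d L) (u : UTol) (nS nF R0 Ml ρF μ : ℝ)
      (m r1 D1 nb cw ρc s : ℕ), InsZ x c1 C1 rho0 ck cμ Cn (kap k0 n) eta f t u nS μ cw ρc s →
      InsC (d := d) x J KD cr (kap k0 n) nF R0 m r1 D1 nb Ml ρF →
      u.C0 = 2 * (parV x c k0 eta).C00 →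
      ContAll x c L c1 rho0 k0 (kap k0 n) eta n f t u nS nF R0 Ml ρF μ m r1 D1 nb cw ρc s B1 B2
        errm bem c3 := by
  have hv1 := x.v1_pos
  have hvi := x.vi_pos
  have hI6 := x.I6'
  have hdn : (0 : ℝ) ≤ d := Nat.cast_nonneg d
  filter_upwards [ev_kap (ev_small one_pos),
    ev_kap (contPk x J KD Cn (C1 := C1) (ck := ck) hKD hc1 hcC hr hck hcμ hcr),
    ev_kap (annB x Cn (C1 := C1) (rho0 := rho0) (ck := ck) (cμ := cμ) hc1 hcC),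
    ev_kap (contB (d := d) x J KD (C1 := C1) (rho0 := rho0) (ck := ck) hc1 hcC hcr),
    ev_kap (kTot_le x Cn 2 (ck := ck) hc1 hcC hr hcμ),
    totN x hd hCM hc (d + 12) Cn 256 (ck := ck) (by positivity) (by norm_num) hc1 hc2 hcC hC1 hr
      hcμ hb hB1 hB2 he hbe hc3 hc31,
    ev_kap (ev_pow' (6 : ℝ) (show 13 * x.vi < 14 * x.vi by linarith)),
    ev_kap (ev_pow' (40 : ℝ) (show -(5 * x.v1) < -(4 * x.v1) by linarith)),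
    ev_kap (ev_pow' (2 : ℝ) (show -((d : ℝ) + 12) < -(2 + d + 9) by linarith))]
    with k0 hkn h1 h2 h8 h3 h4 h5 h6 h7 n hnal L eta f t u nS nF R0 Ml ρF μ m r1 D1 nb cw ρc s hZ
      hC huC0
  obtain ⟨hk0, hk1⟩ := hkn n
  obtain ⟨a1, a2, a3⟩ := h1 n L eta f t u nS nF R0 Ml ρF μ m r1 D1 nb cw ρc s hZ hC
  obtain ⟨b1, b2, b3⟩ := h2 n L eta f t u nS μ cw ρc s hZ
  obtain ⟨d1, d2, d3⟩ := h8 n L f t u nF R0 Ml ρF m r1 D1 nb hZ.I hC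
  have hI := hZ.I
  have hτ := hI.tau0
  have h7' := h7 n
  have hk2 : 0 ≤ kap k0 n ^ (-2 : ℝ) := rpow_nn hk0 _
  have hk11 : 0 ≤ kap k0 n ^ (-1 : ℝ) := rpow_nn hk0 _
  have hp1 : 0 ≤ kap k0 n ^ (32 * x.vi) := rpow_nn hk0 _
  have hp2 : 0 ≤ kap k0 n ^ (-(3 * x.v1)) := rpow_nn hk0 _
  have hp3 : 0 ≤ kap k0 n ^ x.van := rpow_nn hk0 _
  have hp4 : 0 ≤ kap k0 n ^ (14 * x.vi) := rpow_nn hk0 _
  have hp5 : 0 ≤ kap k0 n ^ (-(4 * x.v1)) := rpow_nn hk0 _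
  have hT0 : 0 ≤ kap k0 n ^ (2 * x.vi) * u.tau := mul_nonneg (rpow_nn hk0 _) hτ
  have hnS0 := hZ.nS0
  have hnF0 := hC.nF0
  obtain ⟨c1', c2'⟩ := h3 n L eta f t u nS μ nS _ cw ρc s hZ hk2 le_rfl hnS0 (by linarith)
  obtain ⟨e1', e2'⟩ := h3 n L eta f t u nS μ nF _ cw ρc s hZ hk2 le_rfl hnF0 (by linarith)
  have hv14 : kap k0 n ^ x.van ≤ kap k0 n ^ (14 * x.vi) := rpow_anti hk0 hk1 (by linarith)
  have hv32 : kap k0 n ^ (32 * x.vi) ≤ kap k0 n ^ (14 * x.vi) := rpow_anti hk0 hk1 (by linarith)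
  refine ⟨a1, a2, a3, by linarith, by linarith, ?_⟩
  refine h4 n hnal L eta eta f t u nS μ cw ρc s hZ hZ.eta0 huC0 _ _ _ _ _ _ _ (by positivity)
    ?_ (by positivity) (by linarith) (by positivity) ?_ (add_nonneg c1' e1')
    ((add_le_add c2' e2').trans ?_) hp1 le_rfl hp2 le_rfl (by linarith) (by linarith)
  · have := h5 n
    linarith
  · have e1 := h6 n
    have e2 : (1 : ℝ) ≤ kap k0 n ^ (-(4 * x.v1)) := one_le_rpow hk0 hk1 (by linarith)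
    have e3 : kap k0 n ^ (-(3 * x.v1)) ≤ kap k0 n ^ (-(4 * x.v1)) :=
      rpow_anti hk0 hk1 (by linarith)
    linarith
  · rw [← two_mul, ← mul_assoc]
    exact mul_le_mul_of_nonneg_right h7' (Real.exp_pos _).le

end Pool.Agent.ANC
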