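import Pool.Agent.ANC.Pow

/-!
# ANC / Lev: levels, super-stages, sides of the cells

`kap k0 n = k0 4 ^ (-n)`; `lv k0 al j` = first level of super-stage `j`, `ks k0 al j` = its value (the number called
`kap_j` in the text): `ks (j + 1) ≤ ks j ^ al < 4 ks (j + 1)`, `ks 0 = k0`.
`side k0 al j` = power of `2` between `ks (j + 1) ^ (-2)` and `2 ks (j + 1) ^ (-2)`.

TRANSFER: `ev_all`: what holds for all small `k` holds at `k = ks k0 al j` for all `j`, if `k0` is small;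
`ev_kap`: and at all levels `kap k0 n`.  `j` itself: `ks_two`: `2 ^ (j + 2) ≤ ks j ^ (-e)`.
-/

open Filter Topology Real

namespace Pool.Agent.ANC

/-- the levels -/
noncomputable def kap (k0 : ℝ) (n : ℕ) : ℝ := k0 * (1 / 4 : ℝ) ^ n

theorem kap_zero (k0 : ℝ) : kap k0 0 = k0 := by simp [kap]

theorem kap_succ (k0 : ℝ) (n : ℕ) : kap k0 (n + 1) = kap k0 n / 4 := by
  unfold kap
  rw [pow_succ]
  ring

theorem kap_pos {k0 : ℝ} (h : 0 < k0) (n : ℕ) : 0 < kap k0 n := by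
  unfold kap
  positivity

theorem kap_anti {k0 : ℝ} (h : 0 < k0) {n m : ℕ} (hnm : n ≤ m) : kap k0 m ≤ kap k0 n := by
  unfold kap
  apply mul_le_mul_of_nonneg_left _ h.le
  exact pow_le_pow_of_le_one (by norm_num) (by norm_num) hnm

theorem kap_le {k0 : ℝ} (h : 0 < k0) (n : ℕ) : kap k0 n ≤ k0 := by
  have := kap_anti h (Nat.zero_le n)
  rwa [kap_zero] at this

theorem kap_lt_iff {k0 : ℝ} (h : 0 < k0) {n m : ℕ} : kap k0 m < kap k0 n ↔ n < m := by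
  constructor
  · intro h1
    by_contra h2
    exact absurd h1 (not_lt.2 (kap_anti h (not_lt.1 h2)))
  · intro h1
    unfold kap
    apply mul_lt_mul_of_pos_left _ h
    exact pow_lt_pow_right_of_lt_one₀ (by norm_num) (by norm_num) h1

/-- first levels of the super-stages -/
noncomputable def lv (k0 : ℝ) (al : ℕ) : ℕ → ℕ
  | 0 => 0
  | j + 1 => ⌈Real.logb 4 (k0 / kap k0 (lv k0 al j) ^ al)⌉₊

/-- the values of the first levels -/
noncomputable def ks (k0 : ℝ) (al : ℕ) (j : ℕ) : ℝ := kap k0 (lv k0 al j)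

theorem ks_zero (k0 : ℝ) (al : ℕ) : ks k0 al 0 = k0 := kap_zero k0

theorem ks_pos {k0 : ℝ} (h : 0 < k0) (al j : ℕ) : 0 < ks k0 al j := kap_pos h _

theorem ks_le {k0 : ℝ} (h : 0 < k0) (al j : ℕ) : ks k0 al j ≤ k0 := kap_le h _

private theorem kap_logb {k0 y : ℝ} (h : 0 < k0) (hy : 0 < y) (n : ℕ) :
    kap k0 n ≤ y ↔ Real.logb 4 (k0 / y) ≤ n := by
  rw [Real.logb_le_iff_le_rpow (by norm_num) (by positivity), div_le_iff₀ hy, Real.rpow_natCast]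
  unfold kap
  rw [one_div, inv_pow, ← div_eq_mul_inv, div_le_iff₀ (by positivity), mul_comm]

theorem ks_succ_le {k0 : ℝ} (h : 0 < k0) (al j : ℕ) :
    ks k0 al (j + 1) ≤ ks k0 al j ^ al := by
  have h1 : 0 < ks k0 al j ^ al := pow_pos (ks_pos h al j) al
  unfold ks at *
  rw [kap_logb h h1]
  exact Nat.le_ceil _

theorem ks_pow_lt {k0 : ℝ} (h : 0 < k0) (h1 : k0 < 1) {al : ℕ} (hal : 2 ≤ al) (j : ℕ) :
    ks k0 al j ^ al < ks k0 al j := by
  have h2 := ks_pos h al j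
  have h3 : ks k0 al j < 1 := (ks_le h al j).trans_lt h1
  calc ks k0 al j ^ al < ks k0 al j ^ 1 := pow_lt_pow_right_of_lt_one₀ h2 h3 (by omega)
    _ = ks k0 al j := pow_one _

theorem lv_lt {k0 : ℝ} (h : 0 < k0) (h1 : k0 < 1) {al : ℕ} (hal : 2 ≤ al) (j : ℕ) :
    lv k0 al j < lv k0 al (j + 1) := by
  have h2 : ks k0 al (j + 1) < ks k0 al j := (ks_succ_le h al j).trans_lt (ks_pow_lt h h1 hal j)
  exact (kap_lt_iff h).1 h2

theorem ks_succ_gt {k0 : ℝ} (h : 0 < k0) (h1 : k0 < 1) {al : ℕ} (hal : 2 ≤ al) (j : ℕ) :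
    ks k0 al j ^ al < 4 * ks k0 al (j + 1) := by
  have h2 : 0 < ks k0 al j ^ al := pow_pos (ks_pos h al j) al
  have h3 := lv_lt h h1 hal j
  obtain ⟨n, hn⟩ : ∃ n, lv k0 al (j + 1) = n + 1 := ⟨lv k0 al (j + 1) - 1, by omega⟩
  have h4 : ¬ kap k0 n ≤ ks k0 al j ^ al := by
    intro h5
    rw [kap_logb h h2] at h5
    have h6 : lv k0 al (j + 1) ≤ n := Nat.ceil_le.2 h5
    omega
  have h5 : ks k0 al (j + 1) = kap k0 n / 4 := by
    unfold ks
    rw [hn, kap_succ]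
  rw [h5]
  rw [not_le] at h4
  linarith

theorem lv_mono {k0 : ℝ} (h : 0 < k0) (h1 : k0 < 1) {al : ℕ} (hal : 2 ≤ al) :
    StrictMono (lv k0 al) := strictMono_nat_of_lt_succ (lv_lt h h1 hal)

theorem ks_anti {k0 : ℝ} (h : 0 < k0) (h1 : k0 < 1) {al : ℕ} (hal : 2 ≤ al) {i j : ℕ}
    (hij : i ≤ j) : ks k0 al j ≤ ks k0 al i := kap_anti h ((lv_mono h h1 hal).monotone hij)

/-- levels of super-stage `j` -/
theorem kap_mem {k0 : ℝ} (h : 0 < k0) {al j n : ℕ} (h1 : lv k0 al j ≤ n)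
    (h2 : n < lv k0 al (j + 1)) : ks k0 al (j + 1) < kap k0 n ∧ kap k0 n ≤ ks k0 al j :=
  ⟨(kap_lt_iff h).2 h2, kap_anti h h1⟩

/-- doubly exponential decay -/
theorem ks_le_pow {k0 : ℝ} (h : 0 < k0) (h1 : k0 < 1) {al : ℕ} (hal : 2 ≤ al) (j : ℕ) :
    ks k0 al j ≤ k0 ^ (j + 1) := by
  induction j with
  | zero => rw [ks_zero, zero_add, pow_one]
  | succ j ih =>
    calc ks k0 al (j + 1) ≤ ks k0 al j ^ al := ks_succ_le h al j
      _ ≤ (k0 ^ (j + 1)) ^ al := pow_le_pow_left₀ (ks_pos h al j).le ih al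
      _ = k0 ^ ((j + 1) * al) := by rw [pow_mul]
      _ ≤ k0 ^ (j + 1 + 1) := by
        apply pow_le_pow_of_le_one h.le h1.le
        nlinarith

/-- what holds for all small `k` holds at all super-stages -/
theorem ev_all {P : ℝ → Prop} (hP : ∀ᶠ k in 𝓝[>] (0 : ℝ), P k) (al : ℕ) :
    ∀ᶠ k0 in 𝓝[>] (0 : ℝ), ∀ j, P (ks k0 al j) := by
  obtain ⟨e, he, -, h⟩ := ev_iff.1 hP
  filter_upwards [ev_small he] with k0 hk j
  exact h _ (ks_pos hk.1 al j) ((ks_le hk.1 al j).trans hk.2)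

/-- what holds for all small `k` holds at all levels -/
theorem ev_kap {P : ℝ → Prop} (hP : ∀ᶠ k in 𝓝[>] (0 : ℝ), P k) :
    ∀ᶠ k0 in 𝓝[>] (0 : ℝ), ∀ n, P (kap k0 n) := by
  obtain ⟨e, he, -, h⟩ := ev_iff.1 hP
  filter_upwards [ev_small he] with k0 hk n
  exact h _ (kap_pos hk.1 n) ((kap_le hk.1 n).trans hk.2)

/-- `2 ^ (j + 2) ≤ ks j ^ (-e)` -/
theorem ks_two {e : ℝ} (he : 0 < e) {al : ℕ} (hal : 2 ≤ al) :
    ∀ᶠ k0 in 𝓝[>] (0 : ℝ), ∀ j : ℕ, (2 : ℝ) ^ (j + 2) ≤ ks k0 al j ^ (-e) := by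
  filter_upwards [ev_ge 4 he 0, ev_small (show (0 : ℝ) < 1 / 2 by norm_num)] with k0 hk hk1 j
  have hk0 := hk1.1
  have hk2 : k0 < 1 := by linarith [hk1.2]
  rw [pow_zero, mul_one] at hk
  have h1 : (k0 ^ (j + 1)) ^ (-e) ≤ ks k0 al j ^ (-e) :=
    Real.rpow_le_rpow_of_nonpos (ks_pos hk0 al j) (ks_le_pow hk0 hk2 hal j) (by linarith)
  have h2 : (k0 ^ (j + 1)) ^ (-e) = (k0 ^ (-e)) ^ (j + 1) := by
    rw [← Real.rpow_natCast, ← Real.rpow_mul hk0.le, mul_comm, Real.rpow_mul hk0.le,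
      Real.rpow_natCast]
  calc (2 : ℝ) ^ (j + 2) ≤ 4 ^ (j + 1) := by
        have h3 : (4 : ℝ) ^ (j + 1) = 2 ^ (2 * (j + 1)) := by
          rw [pow_mul]
          norm_num
        rw [h3]
        exact pow_le_pow_right₀ (by norm_num) (by omega)
    _ ≤ (k0 ^ (-e)) ^ (j + 1) := pow_le_pow_left₀ (by norm_num) hk _
    _ ≤ ks k0 al j ^ (-e) := by rw [← h2]; exact h1

/-- positive powers: from `ks j` to `ks (j + 1)` -/
theorem ks_pow_le {k0 : ℝ} (h : 0 < k0) (h1 : k0 < 1) {al : ℕ} (hal : 2 ≤ al) (j : ℕ) {a : ℝ}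
    (ha : 0 ≤ a) : ks k0 al j ^ (a * al) ≤ 4 ^ a * ks k0 al (j + 1) ^ a := by
  have h2 := ks_pos h al j
  have h3 := ks_pos h al (j + 1)
  rw [mul_comm a, Real.rpow_mul h2.le, Real.rpow_natCast, ← Real.mul_rpow (by norm_num) h3.le]
  exact Real.rpow_le_rpow (by positivity) (ks_succ_gt h h1 hal j).le ha

/-- negative powers: from `ks j` to `ks (j + 1)` -/
theorem ks_neg_le {k0 : ℝ} (h : 0 < k0) (al j : ℕ) {a : ℝ}
    (ha : 0 ≤ a) : ks k0 al j ^ (-(a * al)) ≤ ks k0 al (j + 1) ^ (-a) := by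
  have h2 := ks_pos h al j
  have h3 := ks_pos h al (j + 1)
  have h4 : ks k0 al j ^ (-(a * al)) = (ks k0 al j ^ al) ^ (-a) := by
    rw [← Real.rpow_natCast, ← Real.rpow_mul h2.le]
    congr 1
    ring
  rw [h4]
  exact Real.rpow_le_rpow_of_nonpos h3 (ks_succ_le h al j) (by linarith)

/-- the number of the levels -/
theorem lv_le {k0 : ℝ} (h : 0 < k0) (h1 : k0 ≤ 1) (al j : ℕ) :
    (lv k0 al j : ℝ) ≤ Real.log (1 / ks k0 al j) := by
  have h2 : 1 / ks k0 al j = 4 ^ (lv k0 al j) / k0 := by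
    unfold ks kap
    rw [one_div, one_div, mul_inv, inv_pow, inv_inv, div_eq_mul_inv, mul_comm]
  rw [h2, Real.log_div (by positivity) h.ne', Real.log_pow]
  have h3 : Real.log k0 ≤ 0 := Real.log_nonpos h.le h1
  have h4 : 1 ≤ Real.log 4 := by
    have h5 : Real.log 4 = 2 * Real.log 2 := by
      rw [show (4 : ℝ) = 2 ^ 2 by norm_num, Real.log_pow]
      push_cast
      ring
    have h6 := Real.log_two_gt_d9
    rw [h5]
    linarith
  have h7 : (lv k0 al j : ℝ) * 1 ≤ lv k0 al j * Real.log 4 :=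
    mul_le_mul_of_nonneg_left h4 (Nat.cast_nonneg _)
  linarith

/-! ### sides -/

/-- exponents of the sides -/
noncomputable def se (k0 : ℝ) (al j : ℕ) : ℕ := ⌈Real.logb 2 ((ks k0 al (j + 1)) ^ 2)⁻¹⌉₊

/-- side of the cells of super-stage `j` -/
noncomputable def side (k0 : ℝ) (al j : ℕ) : ℕ := 2 ^ se k0 al j

theorem side_ge {k0 : ℝ} (h : 0 < k0) (al j : ℕ) :
    ((ks k0 al (j + 1)) ^ 2)⁻¹ ≤ (side k0 al j : ℝ) := by
  have h1 := ks_pos h al (j + 1)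
  have h2 : Real.logb 2 ((ks k0 al (j + 1)) ^ 2)⁻¹ ≤ (se k0 al j : ℝ) := Nat.le_ceil _
  rw [Real.logb_le_iff_le_rpow (by norm_num) (by positivity), Real.rpow_natCast] at h2
  unfold side
  push_cast
  exact h2

theorem side_lt {k0 : ℝ} (h : 0 < k0) (h1 : k0 < 1) (al j : ℕ) :
    (side k0 al j : ℝ) < 2 * ((ks k0 al (j + 1)) ^ 2)⁻¹ := by
  have h2 := ks_pos h al (j + 1)
  have h3 : ks k0 al (j + 1) < 1 := (ks_le h al _).trans_lt h1
  have h4 : 0 ≤ Real.logb 2 ((ks k0 al (j + 1)) ^ 2)⁻¹ := by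
    apply Real.logb_nonneg (by norm_num)
    rw [one_le_inv₀ (by positivity)]
    exact pow_le_one₀ h2.le h3.le
  have h5 : (se k0 al j : ℝ) < Real.logb 2 ((ks k0 al (j + 1)) ^ 2)⁻¹ + 1 :=
    Nat.ceil_lt_add_one h4
  have h6 : ((se k0 al j : ℝ) - 1) < Real.logb 2 ((ks k0 al (j + 1)) ^ 2)⁻¹ := by linarith
  rw [Real.lt_logb_iff_rpow_lt (by norm_num) (by positivity), Real.rpow_sub (by norm_num),
    Real.rpow_natCast, Real.rpow_one] at h6
  unfold side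
  push_cast
  linarith

theorem side_pos (k0 : ℝ) (al j : ℕ) : 0 < side k0 al j := by
  unfold side
  positivity

theorem side_dvd {k0 : ℝ} (h : 0 < k0) (h1 : k0 < 1) {al : ℕ} (hal : 2 ≤ al) {i j : ℕ}
    (hij : i ≤ j) : side k0 al i ∣ side k0 al j := by
  unfold side
  apply pow_dvd_pow
  unfold se
  apply Nat.ceil_mono
  have h2 := ks_pos h al (i + 1)
  have h3 := ks_pos h al (j + 1)
  apply Real.logb_le_logb_of_le (by norm_num) (by positivity)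
  apply inv_anti₀ (by positivity)
  exact pow_le_pow_left₀ h3.le (ks_anti h h1 hal (by omega)) 2

/-- the side as a real power -/
theorem side_rpow {k0 : ℝ} (h : 0 < k0) (h1 : k0 < 1) (al j : ℕ) :
    ks k0 al (j + 1) ^ (-2 : ℝ) ≤ side k0 al j ∧
      (side k0 al j : ℝ) ≤ 2 * ks k0 al (j + 1) ^ (-2 : ℝ) := by
  have h2 := ks_pos h al (j + 1)
  have h3 : ks k0 al (j + 1) ^ (-2 : ℝ) = ((ks k0 al (j + 1)) ^ 2)⁻¹ := by
    rw [Real.rpow_neg h2.le]
    norm_cast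
  rw [h3]
  exact ⟨side_ge h al j, (side_lt h h1 al j).le⟩

end Pool.Agent.ANC
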