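import Pool.Agent.ANC.RecP
import Pool.Agent.ANC.Len

/-!
# ANC / Rj: the percolation scale of the weak sites

`rj k0 al w j = 2 ^ ⌈log_2 (ks j ^ (-w))⌉`: `ks j ^ (-w) ≤ rj ≤ 2 ks j ^ (-w)`, `rj j ∣ rj (j + 1)`.

* `perc_le`: `2 Z Q ^ rj ≤ an j ^ 5` for `0 ≤ Q ≤ 1 / 2` (`Q = 8 V ^ 4 q`), `Z ≤ Cz ks (j + 1) ^ (-Nz)`.
* `rj_sep`: `2 (8 rj + side j) ≤ sep j`.
* `large_le`: `large` with an arbitrary constant factor.
* `rj_side`: `C (rj j + 1) ≤ side j`.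
-/

open Filter Topology Real

namespace Pool.Agent.ANC

/-- the percolation scale -/
noncomputable def rj (k0 : ℝ) (al : ℕ) (w : ℝ) (j : ℕ) : ℕ :=
  2 ^ ⌈Real.logb 2 (ks k0 al j ^ (-w))⌉₊

theorem rj_pos (k0 : ℝ) (al : ℕ) (w : ℝ) (j : ℕ) : 1 ≤ rj k0 al w j := Nat.one_le_two_pow

theorem rj_ge {k0 : ℝ} (h : 0 < k0) (al : ℕ) (w : ℝ) (j : ℕ) :
    ks k0 al j ^ (-w) ≤ rj k0 al w j := by
  have h1 := ks_pos h al j
  have h2 : Real.logb 2 (ks k0 al j ^ (-w)) ≤ (⌈Real.logb 2 (ks k0 al j ^ (-w))⌉₊ : ℝ) :=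
    Nat.le_ceil _
  rw [Real.logb_le_iff_le_rpow (by norm_num) (by positivity), Real.rpow_natCast] at h2
  unfold rj
  push_cast
  exact h2

theorem rj_le {k0 : ℝ} (h : 0 < k0) (h1 : k0 ≤ 1) (al : ℕ) {w : ℝ} (hw : 0 ≤ w) (j : ℕ) :
    (rj k0 al w j : ℝ) ≤ 2 * ks k0 al j ^ (-w) := by
  have h2 := ks_pos h al j
  have h3 : 1 ≤ ks k0 al j ^ (-w) := one_le_rpow_neg h2 ((ks_le h al j).trans h1) hw
  have h4 : 0 ≤ Real.logb 2 (ks k0 al j ^ (-w)) := Real.logb_nonneg (by norm_num) h3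
  have h5 : (⌈Real.logb 2 (ks k0 al j ^ (-w))⌉₊ : ℝ) < Real.logb 2 (ks k0 al j ^ (-w)) + 1 :=
    Nat.ceil_lt_add_one h4
  have h6 : ((⌈Real.logb 2 (ks k0 al j ^ (-w))⌉₊ : ℝ) - 1) <
      Real.logb 2 (ks k0 al j ^ (-w)) := by linarith
  rw [Real.lt_logb_iff_rpow_lt (by norm_num) (by positivity), Real.rpow_sub (by norm_num),
    Real.rpow_natCast, Real.rpow_one] at h6
  unfold rj
  push_cast
  linarith

theorem rj_dvd {k0 : ℝ} (h : 0 < k0) (h1 : k0 < 1) {al : ℕ} (hal : 2 ≤ al) {w : ℝ} (hw : 0 ≤ w)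
    {i j : ℕ} (hij : i ≤ j) : rj k0 al w i ∣ rj k0 al w j := by
  unfold rj
  apply pow_dvd_pow
  apply Nat.ceil_mono
  have h2 := ks_pos h al i
  have h3 := ks_pos h al j
  apply Real.logb_le_logb_of_le (by norm_num) (by positivity)
  exact Real.rpow_le_rpow_of_nonpos h3 (ks_anti h h1 hal hij) (by linarith)

/-- the percolation event -/
theorem perc_le (Cz Nz : ℝ) {K1 w : ℝ} {al : ℕ} (hal : 2 ≤ al) (hK : 0 ≤ K1)
    (hNz : 0 ≤ Nz) (hw : 0 < w) :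
    ∀ᶠ k0 in 𝓝[>] (0 : ℝ), ∀ j : ℕ, ∀ Z Q : ℝ, 0 ≤ Z → Z ≤ Cz * ks k0 al (j + 1) ^ (-Nz) →
      0 ≤ Q → Q ≤ 1 / 2 → 2 * Z * Q ^ rj k0 al w j ≤ an k0 al K1 j ^ 5 := by
  have hlog : 0 < Real.log 2 := Real.log_pos (by norm_num)
  have h1 := ev_all (ev_exp (C := 2 * |Cz| * 4 ^ Nz * (8 ^ 5 * 4 ^ (5 * K1)))
    (a := Nz * al) (N := 5 * K1 * al) hw hlog) al
  filter_upwards [h1, ev_small (show (0 : ℝ) < 1 / 4 by norm_num)] with k0 h1 hk j Z Q hZ0 hZ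
    hQ0 hQ
  have hk0 := hk.1
  have hk1 : k0 < 1 := by linarith [hk.2]
  refine le_an5 hk0 hk1 hal hK j ?_
  have h1 := h1 j
  set k := ks k0 al j with hkd
  have hkp : 0 < k := ks_pos hk0 al j
  have hkp' : 0 < ks k0 al (j + 1) := ks_pos hk0 al (j + 1)
  have h2 : ks k0 al (j + 1) ^ (-Nz) ≤ 4 ^ Nz * k ^ (-(Nz * al)) := by
    have h3 := ks_succ_gt hk0 hk1 hal j
    have h4 : (4 * ks k0 al (j + 1)) ^ (-Nz) ≤ (k ^ al) ^ (-Nz) :=
      Real.rpow_le_rpow_of_nonpos (by positivity) h3.le (by linarith)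
    rw [Real.mul_rpow (by norm_num) hkp'.le, ← Real.rpow_natCast, ← Real.rpow_mul hkp.le] at h4
    have h5 : (4 : ℝ) ^ Nz * 4 ^ (-Nz) = 1 := by
      rw [← Real.rpow_add (by norm_num)]
      simp
    have h6 : (0 : ℝ) < 4 ^ Nz := Real.rpow_pos_of_pos (by norm_num) _
    calc ks k0 al (j + 1) ^ (-Nz) = 4 ^ Nz * (4 ^ (-Nz) * ks k0 al (j + 1) ^ (-Nz)) := by
          rw [← mul_assoc, h5, one_mul]
      _ ≤ 4 ^ Nz * k ^ ((al : ℝ) * -Nz) := mul_le_mul_of_nonneg_left h4 h6.le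
      _ = 4 ^ Nz * k ^ (-(Nz * al)) := by
        congr 2
        ring
  have h3 : Q ^ rj k0 al w j ≤ Real.exp (-Real.log 2 * k ^ (-w)) := by
    calc Q ^ rj k0 al w j ≤ (1 / 2 : ℝ) ^ rj k0 al w j := pow_le_pow_left₀ hQ0 hQ _
      _ = Real.exp (-Real.log 2 * rj k0 al w j) := by
        rw [neg_mul, Real.exp_neg, mul_comm, Real.exp_nat_mul, Real.exp_log (by norm_num),
          one_div, inv_pow]
      _ ≤ Real.exp (-Real.log 2 * k ^ (-w)) := by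
        apply Real.exp_le_exp.2
        rw [neg_mul, neg_mul]
        apply neg_le_neg
        exact mul_le_mul_of_nonneg_left (rj_ge hk0 al w j) hlog.le
  have h4 : Z ≤ |Cz| * (4 ^ Nz * k ^ (-(Nz * al))) := by
    calc Z ≤ Cz * ks k0 al (j + 1) ^ (-Nz) := hZ
      _ ≤ |Cz| * ks k0 al (j + 1) ^ (-Nz) :=
        mul_le_mul_of_nonneg_right (le_abs_self _) (Real.rpow_nonneg hkp'.le _)
      _ ≤ _ := mul_le_mul_of_nonneg_left h2 (abs_nonneg _)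
  have h5 : (0 : ℝ) < 4 ^ (5 * K1) := Real.rpow_pos_of_pos (by norm_num) _
  have h6 : (0 : ℝ) ≤ Q ^ rj k0 al w j := pow_nonneg hQ0 _
  calc 8 ^ 5 * 4 ^ (5 * K1) * (2 * Z * Q ^ rj k0 al w j)
      = 8 ^ 5 * 4 ^ (5 * K1) * 2 * (Z * Q ^ rj k0 al w j) := by ring
    _ ≤ 8 ^ 5 * 4 ^ (5 * K1) * 2 * ((|Cz| * (4 ^ Nz * k ^ (-(Nz * al)))) *
        Real.exp (-Real.log 2 * k ^ (-w))) := by
        apply mul_le_mul_of_nonneg_left _ (by positivity)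
        exact mul_le_mul h4 h3 h6 (by positivity)
    _ = 2 * |Cz| * 4 ^ Nz * (8 ^ 5 * 4 ^ (5 * K1)) * k ^ (-(Nz * al)) *
        Real.exp (-Real.log 2 * k ^ (-w)) := by ring
    _ ≤ k ^ (5 * K1 * al) := h1

/-- the scale is small compared with the side of the cells -/
theorem rj_side (C : ℝ) {al : ℕ} (hal : 2 ≤ al) {w : ℝ} (hw : 0 ≤ w) (hw1 : w ≤ 1) :
    ∀ᶠ k0 in 𝓝[>] (0 : ℝ), ∀ j : ℕ, C * (rj k0 al w j + 1) ≤ side k0 al j := by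
  have h1 := ev_all (ev_pow' (C := |C| * 3) (show (-4 : ℝ) < -1 by norm_num)) al
  filter_upwards [h1, ev_small (show (0 : ℝ) < 1 / 4 by norm_num)] with k0 h1 hk j
  have hk0 := hk.1
  have hk1 : k0 < 1 := by linarith [hk.2]
  have h1 := h1 j
  set k := ks k0 al j with hkd
  have hkp : 0 < k := ks_pos hk0 al j
  have hkl : k ≤ 1 := (ks_le hk0 al j).trans hk1.le
  have h2 : (rj k0 al w j : ℝ) ≤ 2 * k ^ (-1 : ℝ) := by
    have h3 := rj_le hk0 hk1.le al hw j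
    have h4 := rpow_neg_le hkp hkl hw1
    linarith
  have h3 : 1 ≤ k ^ (-1 : ℝ) := one_le_rpow_neg hkp hkl zero_le_one
  have h4 : k ^ (-4 : ℝ) ≤ side k0 al j := by
    refine le_trans ?_ (side_rpow hk0 hk1 al j).1
    have h5 := ks_neg_le hk0 al j (a := 2) (by norm_num)
    refine le_trans ?_ h5
    apply rpow_neg_le hkp hkl
    have : (2 : ℝ) ≤ al := by exact_mod_cast hal
    linarith
  calc C * (rj k0 al w j + 1) ≤ |C| * (rj k0 al w j + 1) :=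
        mul_le_mul_of_nonneg_right (le_abs_self C) (by positivity)
    _ ≤ |C| * (3 * k ^ (-1 : ℝ)) := by
        apply mul_le_mul_of_nonneg_left _ (abs_nonneg C)
        linarith
    _ = |C| * 3 * k ^ (-1 : ℝ) := by ring
    _ ≤ k ^ (-4 : ℝ) := h1
    _ ≤ _ := h4

/-- separation of the percolation events -/
theorem rj_sep {cs : ℕ} (hcs : 4 ≤ cs) {al : ℕ} (hal : 2 ≤ al) {w : ℝ} (hw : 0 ≤ w)
    (hw1 : w ≤ 1) :
    ∀ᶠ k0 in 𝓝[>] (0 : ℝ), ∀ j : ℕ,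
      2 * (8 * rj k0 al w j + side k0 al j) ≤ sep k0 al cs j := by
  filter_upwards [rj_side 8 hal hw hw1] with k0 h1 j
  have h2 : 8 * (rj k0 al w j + 1) ≤ side k0 al j := by
    have h1 := h1 j
    exact_mod_cast h1
  unfold sep
  have h3 : 4 * side k0 al j ≤ cs * side k0 al j := Nat.mul_le_mul_right _ hcs
  omega

/-- `large` with an arbitrary factor -/
theorem large_le (C J V : ℕ) {al : ℕ} (hal : 2 ≤ al) {v2 : ℝ} (hv : 0 ≤ v2) (hv1 : v2 ≤ 1) :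
    ∀ᶠ k0 in 𝓝[>] (0 : ℝ), ∀ j : ℕ,
      C * (2 ^ (j + 2) * (J * V + 1) * (2 * hR k0 al v2 (j + 1) + 2 * side k0 al j + 2)) ≤
        side k0 al (j + 1) := by
  have hB := ev_all (ev_pow' (C := C * (J * V + 1) * 10)
    (show (-2 : ℝ) < -(3 / 2) by norm_num)) al
  have hC := ks_two (show (0 : ℝ) < 1 / 2 by norm_num) hal
  filter_upwards [hB, hC, ev_small (show (0 : ℝ) < 1 / 4 by norm_num)] with k0 hB hC hk j
  have hk0 := hk.1
  have hk1 : k0 < 1 := by linarith [hk.2]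
  have hB := hB (j + 2)
  set k := ks k0 al (j + 2) with hkdef
  have hkp : 0 < k := ks_pos hk0 al _
  have hkl : k ≤ 1 := (ks_le hk0 al _).trans hk1.le
  have hside : (side k0 al j : ℝ) ≤ 2 * k ^ (-1 : ℝ) := side_le_next' hk0 hk1 hal j
  have hside1 : k ^ (-2 : ℝ) ≤ (side k0 al (j + 1) : ℝ) := (side_rpow hk0 hk1 al (j + 1)).1
  have hR1 : (hR k0 al v2 (j + 1) : ℝ) ≤ 2 * k ^ (-1 : ℝ) := by
    have h1 := hR_le hk0 hk1.le al hv (j + 1)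
    have h2 := rpow_neg_le hkp hkl hv1
    have h3 : ks k0 al (j + 1 + 1) = k := rfl
    rw [h3] at h1
    linarith
  have hone : 1 ≤ k ^ (-1 : ℝ) := one_le_rpow_neg hkp hkl zero_le_one
  have h1 : ((C * (2 ^ (j + 2) * (J * V + 1) *
      (2 * hR k0 al v2 (j + 1) + 2 * side k0 al j + 2)) : ℕ) : ℝ) ≤
      ((side k0 al (j + 1) : ℕ) : ℝ) := by
    refine le_trans ?_ (hB.trans hside1)
    push_cast
    have h2 : (2 : ℝ) ^ (j + 2) ≤ k ^ (-(1 / 2) : ℝ) := by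
      refine (hC j).trans ?_
      exact Real.rpow_le_rpow_of_nonpos hkp (ks_anti hk0 hk1 hal (by omega)) (by norm_num)
    have h3 : 2 * (hR k0 al v2 (j + 1) : ℝ) + 2 * side k0 al j + 2 ≤ 10 * k ^ (-1 : ℝ) := by
      linarith
    have h4 : k ^ (-(3 / 2) : ℝ) = k ^ (-(1 / 2) : ℝ) * k ^ (-1 : ℝ) := by
      rw [← Real.rpow_add hkp]
      norm_num
    rw [h4]
    calc (C : ℝ) * ((2 : ℝ) ^ (j + 2) * (J * V + 1) *
          (2 * (hR k0 al v2 (j + 1) : ℝ) + 2 * side k0 al j + 2))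
        ≤ C * (k ^ (-(1 / 2) : ℝ) * (J * V + 1) * (10 * k ^ (-1 : ℝ))) := by gcongr
      _ = C * (J * V + 1) * 10 * (k ^ (-(1 / 2) : ℝ) * k ^ (-1 : ℝ)) := by ring
  exact_mod_cast h1

end Pool.Agent.ANC
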