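import Pool.Agent.ANC.Const
import Pool.Agent.ANC.Rj

/-!
# ANC / LkN: THE NUMBERS OF THE LEAK BOUND

`k = ks (j + 1)` = level at the start of super-stage `j + 1`, `k' = ks (j + 2) ≤ k ^ al` = level at its end.  The numbers of
the leak test of a cluster in super-stage `j + 1`: powers of `K = 1 / k` with the exponents `lb1, .., lcmE` (natural numbers,
functions of `d`):
`lkc` additive constant of the old pieces, `lkn0` number of the sites of a cluster with its collar, `8 lkn0` surfaces, `lkDs` their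
distance, `lkRin` radius of the target domain, `lknb` number of the sites in it, `K ^ (-lce)` = size of the exceptional interval,
`K ^ lb4` = bound of the leverages; `lkRf` distance of the comparison domain (`≈ k' ^ (-3/2)`), `lkDp`, `lknP`.
-/

open Filter Topology Real

namespace Pool.Agent.ANC

/-- exponent of the distance of the surfaces -/
def lb1 (d : ℕ) : ℕ := (4 * d + 2) * (1600 + 400 * d)
/-- exponent of the number of sites -/
def le3 (d : ℕ) : ℕ := 2 * d + d * (4 * d + lb1 d) + 1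
/-- exponent of the exceptional interval -/
def lce (d : ℕ) : ℕ := 8 * (le3 d + 1) + 2 * (4 * d + 1) + 1
/-- exponent of the leverage -/
def lb4 (d : ℕ) : ℕ := 2 * (3 + le3 d + lce d) + 1
/-- the total exponent `CM` -/
def lcmE (d : ℕ) : ℕ := lb4 d + 2 * le3 d + 1

theorem two_le_lb1 (d : ℕ) : 2 ≤ lb1 d := by
  unfold lb1
  calc 2 = 2 * 1 := rfl
    _ ≤ (4 * d + 2) * (1600 + 400 * d) := Nat.mul_le_mul (by omega) (by omega)

theorem le_lcmE {d : ℕ} (hd : 1 ≤ d) : 4 * d + lb1 d + 1 ≤ lcmE d := by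
  have h1 : 1 * (4 * d + lb1 d) ≤ d * (4 * d + lb1 d) := Nat.mul_le_mul_right _ hd
  unfold lcmE le3
  omega

/-- additive constant of the old pieces -/
noncomputable def lkc (k0 : ℝ) (al : ℕ) (w : ℝ) (j : ℕ) : ℕ :=
  2 * side k0 al j + 4 * rj k0 al w (j + 1)

/-- volume of the candidate region -/
noncomputable def lkV (d : ℕ) (k0 : ℝ) (al : ℕ) (j : ℕ) : ℕ :=
  (2 * (dW k0 al j + sep k0 al 24 j) + 1) ^ d

noncomputable def lkn0 (d J : ℕ) (k0 : ℝ) (al : ℕ) (w : ℝ) (j : ℕ) : ℕ :=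
  J * lkV d k0 al j * (2 * (lkc k0 al w j + 1) + 1) ^ d

noncomputable def lkDs (d : ℕ) (k0 : ℝ) (al : ℕ) (j : ℕ) : ℕ := ⌈(ks k0 al (j + 1))⁻¹ ^ lb1 d⌉₊

noncomputable def lkRin (d J : ℕ) (k0 : ℝ) (al : ℕ) (w : ℝ) (j : ℕ) : ℕ :=
  (8 * lkn0 d J k0 al w j + 1) * (lkDs d k0 al j + 2 + lkc k0 al w j) + lkc k0 al w j + 1

noncomputable def lknb (d J : ℕ) (k0 : ℝ) (al : ℕ) (w : ℝ) (j : ℕ) : ℕ :=
  J * lkV d k0 al j * (2 * lkRin d J k0 al w j + 1) ^ d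

noncomputable def lkRf (k0 : ℝ) (al : ℕ) (j : ℕ) : ℕ := ⌈ks k0 al (j + 2) ^ (-(3 / 2 : ℝ))⌉₊

noncomputable def lkDp (k0 : ℝ) (al : ℕ) (v2 : ℝ) (j : ℕ) : ℕ :=
  hR k0 al v2 (j + 1) + lkRf k0 al j + 2

noncomputable def lknP (d J : ℕ) (k0 : ℝ) (al : ℕ) (v2 w : ℝ) (j : ℕ) : ℕ :=
  J * lkV d k0 al j * (2 * (lkDp k0 al v2 j + 2 * lkc k0 al w j + 1) + 1) ^ d

/-! ### powers of `K = 1 / k` -/

/-- a constant is absorbed by one power -/
theorem cpow_le {K C A : ℝ} {n : ℕ} (hK : C ≤ K) (hK0 : 0 ≤ K) (hA : A ≤ C * K ^ n) :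
    A ≤ K ^ (n + 1) := by
  refine hA.trans ?_
  rw [pow_succ, mul_comm (K ^ n)]
  exact mul_le_mul_of_nonneg_right hK (pow_nonneg hK0 n)

theorem ev_inv_ge (C : ℝ) : ∀ᶠ k in 𝓝[>] (0 : ℝ), C ≤ k⁻¹ := by
  have h := tendsto_inv.eventually (eventually_ge_atTop C)
  filter_upwards [h] with k hk
  rwa [one_div] at hk

/-- the numbers in terms of `K` -/
theorem lk_K (d J : ℕ) (hd : 1 ≤ d) (hJ : 1 ≤ J) (al : ℕ) {w : ℝ} (hw : 0 ≤ w)
    (hw1 : w ≤ 1) :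
    ∀ᶠ k0 in 𝓝[>] (0 : ℝ), ∀ j : ℕ,
      1 ≤ lkn0 d J k0 al w j ∧
      (ks k0 al (j + 1))⁻¹ ^ 2 ≤ lkn0 d J k0 al w j ∧
      (lkc k0 al w j : ℝ) ≤ 12 * (ks k0 al (j + 1))⁻¹ ^ 2 ∧
      (lkn0 d J k0 al w j : ℝ) ≤ (ks k0 al (j + 1))⁻¹ ^ (4 * d + 1) ∧
      (lkRin d J k0 al w j : ℝ) ≤ (ks k0 al (j + 1))⁻¹ ^ (4 * d + lb1 d + 1) ∧
      1 ≤ lknb d J k0 al w j ∧
      (lknb d J k0 al w j : ℝ) ≤ (ks k0 al (j + 1))⁻¹ ^ le3 d ∧
      (lkV d k0 al j : ℝ) ≤ (114 * (ks k0 al (j + 1))⁻¹ ^ 2) ^ d := by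
  set C0 : ℝ := J * 114 ^ d * 27 ^ d with hC0
  set C1 : ℝ := 9 * C0 * 16 + 13 with hC1
  set C2 : ℝ := J * 114 ^ d * (2 * C1 + 1) ^ d with hC2
  filter_upwards [ev_all (ev_inv_ge (max (max C0 C1) (max C2 1))) al,
    ev_small (show (0 : ℝ) < 1 / 2 by norm_num)] with k0 hK hk j
  have hk0 := hk.1
  have hk1 : k0 < 1 := by linarith [hk.2]
  have hK := hK (j + 1)
  have hkp : 0 < ks k0 al (j + 1) := ks_pos hk0 al (j + 1)
  have hkl : ks k0 al (j + 1) ≤ 1 := (ks_le hk0 al _).trans hk1.le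
  obtain ⟨K, hKd⟩ : ∃ K : ℝ, K = (ks k0 al (j + 1))⁻¹ := ⟨_, rfl⟩
  rw [← hKd] at hK ⊢
  have hKC0 : C0 ≤ K := (le_max_left _ _).trans ((le_max_left _ _).trans hK)
  have hKC1 : C1 ≤ K := (le_max_right _ _).trans ((le_max_left _ _).trans hK)
  have hKC2 : C2 ≤ K := (le_max_left _ _).trans ((le_max_right _ _).trans hK)
  have hK1 : 1 ≤ K := (le_max_right _ _).trans ((le_max_right _ _).trans hK)
  have hK0 : 0 < K := lt_of_lt_of_le one_pos hK1
  have hJr : (1 : ℝ) ≤ J := by exact_mod_cast hJ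
  have hC00 : 1 ≤ C0 := by
    rw [hC0]
    have h1 : (1 : ℝ) ≤ 114 ^ d := one_le_pow₀ (by norm_num)
    have h2 : (1 : ℝ) ≤ 27 ^ d := one_le_pow₀ (by norm_num)
    exact one_le_mul_of_one_le_of_one_le (one_le_mul_of_one_le_of_one_le hJr h1) h2
  -- the side
  have hs1 : K ^ 2 ≤ (side k0 al j : ℝ) := by
    have := side_ge hk0 al j
    rwa [← inv_pow, ← hKd] at this
  have hs2 : (side k0 al j : ℝ) ≤ 2 * K ^ 2 := by
    have := (side_lt hk0 hk1 al j).le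
    rwa [← inv_pow, ← hKd] at this
  have hsp := side_pos k0 al j
  have hr : (rj k0 al w (j + 1) : ℝ) ≤ 2 * K ^ 2 := by
    have h1 := rj_le hk0 hk1.le al hw (j + 1)
    have h2 := rpow_neg_le hkp hkl hw1
    have h3 : ks k0 al (j + 1) ^ (-(1 : ℝ)) = K := by
      rw [Real.rpow_neg_one, hKd]
    rw [h3] at h2
    have h4 : K ≤ K ^ 2 := le_self_pow₀ hK1 (by norm_num)
    linarith only [h1, h2, h4]
  have hc : (lkc k0 al w j : ℝ) ≤ 12 * K ^ 2 := by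
    unfold lkc
    push_cast
    linarith
  have hV : (lkV d k0 al j : ℝ) ≤ (114 * K ^ 2) ^ d := by
    unfold lkV dW sep
    push_cast
    refine pow_le_pow_left₀ (by positivity) ?_ d
    have : (1 : ℝ) ≤ K ^ 2 := one_le_pow₀ hK1
    linarith
  have hVpos : 1 ≤ lkV d k0 al j := Nat.one_le_pow _ _ (by omega)
  have hn0 : (lkn0 d J k0 al w j : ℝ) ≤ C0 * K ^ (4 * d) := by
    unfold lkn0
    push_cast
    have h1 : ((2 * ((lkc k0 al w j : ℝ) + 1) + 1) ^ d) ≤ (27 * K ^ 2) ^ d := by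
      refine pow_le_pow_left₀ (by positivity) ?_ d
      have : (1 : ℝ) ≤ K ^ 2 := one_le_pow₀ hK1
      linarith
    calc (J : ℝ) * lkV d k0 al j * (2 * ((lkc k0 al w j : ℝ) + 1) + 1) ^ d
        ≤ (J : ℝ) * (114 * K ^ 2) ^ d * (27 * K ^ 2) ^ d :=
          mul_le_mul (mul_le_mul_of_nonneg_left hV (by linarith)) h1 (by positivity) (by positivity)
      _ = C0 * K ^ (4 * d) := by
          rw [hC0, mul_pow, mul_pow, ← pow_mul, show 4 * d = 2 * d + 2 * d by ring, pow_add]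
          ring
  have hn0' : (lkn0 d J k0 al w j : ℝ) ≤ K ^ (4 * d + 1) := cpow_le hKC0 hK0.le hn0
  have hn0s : (side k0 al j : ℕ) ≤ lkn0 d J k0 al w j := by
    unfold lkn0
    have h1 : side k0 al j ≤ (2 * (lkc k0 al w j + 1) + 1) ^ d := by
      calc side k0 al j ≤ (2 * (lkc k0 al w j + 1) + 1) ^ 1 := by
            rw [pow_one]
            unfold lkc
            omega
        _ ≤ _ := Nat.pow_le_pow_right (by omega) hd
    calc side k0 al j = 1 * 1 * side k0 al j := by ring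
      _ ≤ J * lkV d k0 al j * (2 * (lkc k0 al w j + 1) + 1) ^ d :=
        Nat.mul_le_mul (Nat.mul_le_mul hJ hVpos) h1
  have hn1 : 1 ≤ lkn0 d J k0 al w j := le_trans hsp hn0s
  -- the distance of the surfaces
  have hDs : (lkDs d k0 al j : ℝ) ≤ 2 * K ^ lb1 d := by
    have h1 : (1 : ℝ) ≤ K ^ lb1 d := one_le_pow₀ hK1
    have h2 : (lkDs d k0 al j : ℝ) < K ^ lb1 d + 1 := by
      unfold lkDs
      rw [← hKd]
      exact Nat.ceil_lt_add_one (by positivity)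
    linarith
  have hb2 : 2 ≤ lb1 d := two_le_lb1 d
  have hKb : K ^ 2 ≤ K ^ lb1 d := pow_le_pow_right₀ hK1 hb2
  have hRin : (lkRin d J k0 al w j : ℝ) ≤ C1 * K ^ (4 * d + lb1 d) := by
    unfold lkRin
    push_cast
    have h1 : (1 : ℝ) ≤ K ^ lb1 d := one_le_pow₀ hK1
    have h2 : 8 * (lkn0 d J k0 al w j : ℝ) + 1 ≤ 9 * (C0 * K ^ (4 * d)) := by
      have h3 : (1 : ℝ) ≤ K ^ (4 * d) := one_le_pow₀ hK1
      have h30 : 1 ≤ C0 * K ^ (4 * d) := one_le_mul_of_one_le_of_one_le hC00 h3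
      linarith only [h30, hn0]
    have h3 : (lkDs d k0 al j : ℝ) + 2 + lkc k0 al w j ≤ 16 * K ^ lb1 d := by linarith
    have h4 : (8 * (lkn0 d J k0 al w j : ℝ) + 1) * ((lkDs d k0 al j : ℝ) + 2 + lkc k0 al w j) ≤
        9 * (C0 * K ^ (4 * d)) * (16 * K ^ lb1 d) :=
      mul_le_mul h2 h3 (by positivity) (by positivity)
    have h5 : (lkc k0 al w j : ℝ) + 1 ≤ 13 * K ^ (4 * d + lb1 d) := by
      have h6 : K ^ 2 ≤ K ^ (4 * d + lb1 d) := pow_le_pow_right₀ hK1 (by omega)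
      have h7 : (1 : ℝ) ≤ K ^ (4 * d + lb1 d) := one_le_pow₀ hK1
      linarith
    have h6 : 9 * (C0 * K ^ (4 * d)) * (16 * K ^ lb1 d) = 9 * C0 * 16 * K ^ (4 * d + lb1 d) := by
      rw [pow_add]
      ring
    rw [h6] at h4
    have h7 : C1 * K ^ (4 * d + lb1 d) =
        9 * C0 * 16 * K ^ (4 * d + lb1 d) + 13 * K ^ (4 * d + lb1 d) := by
      rw [hC1]
      ring
    rw [h7]
    linarith
  have hRin' : (lkRin d J k0 al w j : ℝ) ≤ K ^ (4 * d + lb1 d + 1) := cpow_le hKC1 hK0.le hRin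
  have hC10 : 0 ≤ C1 := by
    rw [hC1]
    linarith
  have hnb : (lknb d J k0 al w j : ℝ) ≤ C2 * K ^ (2 * d + d * (4 * d + lb1 d)) := by
    unfold lknb
    push_cast
    have h1 : ((2 * (lkRin d J k0 al w j : ℝ) + 1) ^ d) ≤
        ((2 * C1 + 1) * K ^ (4 * d + lb1 d)) ^ d := by
      refine pow_le_pow_left₀ (by positivity) ?_ d
      have h7 : (1 : ℝ) ≤ K ^ (4 * d + lb1 d) := one_le_pow₀ hK1
      have h8 : (2 * C1 + 1) * K ^ (4 * d + lb1 d) =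
        2 * (C1 * K ^ (4 * d + lb1 d)) + K ^ (4 * d + lb1 d) := by ring
      rw [h8]
      linarith only [h7, hRin]
    calc (J : ℝ) * lkV d k0 al j * (2 * (lkRin d J k0 al w j : ℝ) + 1) ^ d
        ≤ (J : ℝ) * (114 * K ^ 2) ^ d * ((2 * C1 + 1) * K ^ (4 * d + lb1 d)) ^ d :=
          mul_le_mul (mul_le_mul_of_nonneg_left hV (by linarith)) h1 (by positivity) (by positivity)
      _ = C2 * K ^ (2 * d + d * (4 * d + lb1 d)) := by
          rw [hC2, mul_pow, mul_pow, ← pow_mul, ← pow_mul, mul_comm d (4 * d + lb1 d), pow_add]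
          ring
  have hnb' : (lknb d J k0 al w j : ℝ) ≤ K ^ le3 d := cpow_le hKC2 hK0.le hnb
  have hnb1 : 1 ≤ lknb d J k0 al w j := by
    unfold lknb
    have h1 : 1 ≤ (2 * lkRin d J k0 al w j + 1) ^ d := Nat.one_le_pow _ _ (by omega)
    calc 1 = 1 * 1 * 1 := rfl
      _ ≤ _ := Nat.mul_le_mul (Nat.mul_le_mul hJ hVpos) h1
  refine ⟨hn1, ?_, hc, hn0', hRin', hnb1, hnb', hV⟩
  refine hs1.trans ?_
  exact_mod_cast hn0s

/-- THE LEAK NUMBERS, powers of `K` : test intervals, leverage -/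
theorem lk_K2 (d J : ℕ) (hd : 1 ≤ d) (hJ : 1 ≤ J) (al : ℕ) {w c : ℝ} (hw : 0 ≤ w)
    (hw1 : w ≤ 1) (hc : 0 < c) (C2 sx : ℝ) (hsx : 4 * (d : ℝ) + 2 ≤ lb1 d * sx) :
    ∀ᶠ k0 in 𝓝[>] (0 : ℝ), ∀ j : ℕ,
      (12 * (lknb d J k0 al w j : ℝ) * (ks k0 al (j + 1))⁻¹) ^ 8 *
        (360 * (lkn0 d J k0 al w j : ℝ)) ^ 2 * ((ks k0 al (j + 1))⁻¹ ^ lce d)⁻¹ ≤ 1 ∧
      (48 * (ks k0 al (j + 1))⁻¹ ^ 3 * (2 * d) * lknb d J k0 al w j /
        (c * ((ks k0 al (j + 1))⁻¹ ^ lce d)⁻¹)) ^ 2 ≤ (ks k0 al (j + 1))⁻¹ ^ lb4 d ∧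
      (ks k0 al (j + 1))⁻¹ ^ lb4 d * (2 * d) ^ 2 * (lknb d J k0 al w j : ℝ) ^ 2 ≤
        (ks k0 al (j + 1))⁻¹ ^ lcmE d ∧
      C2 * (lkDs d k0 al j : ℝ) ^ (-sx) ≤ c / (16 * lkn0 d J k0 al w j) := by
  have hdr : (1 : ℝ) ≤ d := by exact_mod_cast hd
  filter_upwards [lk_K d J hd hJ al hw hw1,
    ev_all (ev_inv_ge (max (max (12 ^ 8 * 360 ^ 2) ((48 * (2 * d) / c) ^ 2))
      (max ((2 * d) ^ 2) (max 1 (16 * |C2| / c))))) al,
    ev_small (show (0 : ℝ) < 1 / 2 by norm_num)] with k0 h1 hK hk j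
  obtain ⟨a1, a2, a3, a4, a5, a6, a7, a8⟩ := h1 j
  have hk0 := hk.1
  have hk1 : k0 < 1 := by linarith [hk.2]
  have hK := hK (j + 1)
  have hkp : 0 < ks k0 al (j + 1) := ks_pos hk0 al (j + 1)
  have hkl : ks k0 al (j + 1) ≤ 1 := (ks_le hk0 al _).trans hk1.le
  unfold lkDs
  obtain ⟨K, hKd⟩ : ∃ K : ℝ, K = (ks k0 al (j + 1))⁻¹ := ⟨_, rfl⟩
  rw [← hKd] at hK a2 a3 a4 a5 a7 a8 ⊢
  have b1 : (12 : ℝ) ^ 8 * 360 ^ 2 ≤ K := (le_max_left _ _).trans ((le_max_left _ _).trans hK)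
  have b2 : (48 * (2 * d) / c) ^ 2 ≤ K := (le_max_right _ _).trans ((le_max_left _ _).trans hK)
  have b3 : (2 * (d : ℝ)) ^ 2 ≤ K := (le_max_left _ _).trans ((le_max_right _ _).trans hK)
  have hK1 : 1 ≤ K := (le_max_left _ _).trans ((le_max_right _ _).trans ((le_max_right _ _).trans hK))
  have b5 : 16 * |C2| / c ≤ K :=
    (le_max_right _ _).trans ((le_max_right _ _).trans ((le_max_right _ _).trans hK))
  have hK0 : 0 < K := lt_of_lt_of_le one_pos hK1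
  set n0 : ℝ := (lkn0 d J k0 al w j : ℝ) with hn0d
  set nb : ℝ := (lknb d J k0 al w j : ℝ) with hnbd
  have hn00 : 1 ≤ n0 := by
    rw [hn0d]
    exact_mod_cast a1
  have hnb0 : 1 ≤ nb := by
    rw [hnbd]
    exact_mod_cast a6
  have e8 : (12 * nb * K) ^ 8 ≤ 12 ^ 8 * K ^ (8 * (le3 d + 1)) := by
    have h2 : 12 * nb * K ≤ 12 * K ^ (le3 d + 1) := by
      rw [pow_succ, ← mul_assoc]
      exact mul_le_mul_of_nonneg_right (by linarith) hK0.le
    calc (12 * nb * K) ^ 8 ≤ (12 * K ^ (le3 d + 1)) ^ 8 := pow_le_pow_left₀ (by positivity) h2 8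
      _ = _ := by
        rw [mul_pow, ← pow_mul]
        congr 2
        ring
  have e2 : (360 * n0) ^ 2 ≤ 360 ^ 2 * K ^ (2 * (4 * d + 1)) := by
    calc (360 * n0) ^ 2 ≤ (360 * K ^ (4 * d + 1)) ^ 2 :=
          pow_le_pow_left₀ (by positivity) (by linarith) 2
      _ = _ := by
        rw [mul_pow, ← pow_mul]
        congr 2
        ring
  refine ⟨?_, ?_, ?_, ?_⟩
  · have h3 : (12 * nb * K) ^ 8 * (360 * n0) ^ 2 ≤ K ^ lce d := by
      calc (12 * nb * K) ^ 8 * (360 * n0) ^ 2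
          ≤ (12 ^ 8 * K ^ (8 * (le3 d + 1))) * (360 ^ 2 * K ^ (2 * (4 * d + 1))) :=
            mul_le_mul e8 e2 (by positivity) (by positivity)
        _ = (12 ^ 8 * 360 ^ 2) * K ^ (8 * (le3 d + 1) + 2 * (4 * d + 1)) := by
          rw [pow_add]
          ring
        _ ≤ K * K ^ (8 * (le3 d + 1) + 2 * (4 * d + 1)) :=
          mul_le_mul_of_nonneg_right b1 (by positivity)
        _ = K ^ lce d := by
          unfold lce
          rw [pow_succ K (8 * (le3 d + 1) + 2 * (4 * d + 1))]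
          ring
    rw [← div_eq_mul_inv, div_le_one (by positivity)]
    exact h3
  · have h3 : 48 * K ^ 3 * (2 * d) * nb / (c * (K ^ lce d)⁻¹) ≤
        48 * (2 * d) / c * K ^ (3 + le3 d + lce d) := by
      have h4 : 48 * K ^ 3 * (2 * d) * nb / (c * (K ^ lce d)⁻¹) =
          48 * (2 * d) / c * (K ^ 3 * K ^ lce d) * nb := by
        field_simp
      rw [h4]
      calc 48 * (2 * (d : ℝ)) / c * (K ^ 3 * K ^ lce d) * nb
          ≤ 48 * (2 * d) / c * (K ^ 3 * K ^ lce d) * K ^ le3 d :=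
            mul_le_mul_of_nonneg_left a7 (by positivity)
        _ = _ := by
          rw [pow_add, pow_add]
          ring
    calc (48 * K ^ 3 * (2 * d) * nb / (c * (K ^ lce d)⁻¹)) ^ 2
        ≤ (48 * (2 * d) / c * K ^ (3 + le3 d + lce d)) ^ 2 :=
          pow_le_pow_left₀ (by positivity) h3 2
      _ = (48 * (2 * d) / c) ^ 2 * K ^ (2 * (3 + le3 d + lce d)) := by
        rw [mul_pow, ← pow_mul, mul_comm (3 + le3 d + lce d) 2]
      _ ≤ K * K ^ (2 * (3 + le3 d + lce d)) := mul_le_mul_of_nonneg_right b2 (by positivity)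
      _ = K ^ lb4 d := by
        unfold lb4
        rw [pow_succ]
        ring
  · calc K ^ lb4 d * (2 * d) ^ 2 * nb ^ 2 ≤ K ^ lb4 d * K * (K ^ le3 d) ^ 2 := by
          refine mul_le_mul (mul_le_mul_of_nonneg_left b3 (by positivity))
            (pow_le_pow_left₀ (by linarith) a7 2) (by positivity) (by positivity)
      _ = K ^ lcmE d := by
        unfold lcmE
        rw [← pow_mul, mul_comm (le3 d) 2, pow_succ, pow_add]
        ring
  · have h2 : 0 ≤ sx := by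
      by_contra hneg
      push Not at hneg
      have : (lb1 d : ℝ) * sx ≤ 0 := mul_nonpos_of_nonneg_of_nonpos (Nat.cast_nonneg _) hneg.le
      linarith
    have h3 : (K ^ lb1 d) ≤ (⌈K ^ lb1 d⌉₊ : ℝ) := Nat.le_ceil _
    have h4 : (⌈K ^ lb1 d⌉₊ : ℝ) ^ (-sx) ≤ (K ^ (4 * d + 2))⁻¹ := by
      calc (⌈K ^ lb1 d⌉₊ : ℝ) ^ (-sx) ≤ (K ^ lb1 d) ^ (-sx) :=
            Real.rpow_le_rpow_of_nonpos (by positivity) h3 (by linarith)
        _ = K ^ (-(lb1 d * sx)) := by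
          rw [← Real.rpow_natCast, ← Real.rpow_mul hK0.le]
          congr 1
          ring
        _ ≤ K ^ (-(4 * (d : ℝ) + 2)) := Real.rpow_le_rpow_of_exponent_le hK1 (by linarith)
        _ = (K ^ (4 * d + 2))⁻¹ := by
          rw [Real.rpow_neg hK0.le, ← Real.rpow_natCast]
          push_cast
          rfl
    have h5 : C2 * (⌈K ^ lb1 d⌉₊ : ℝ) ^ (-sx) ≤ |C2| * (K ^ (4 * d + 2))⁻¹ :=
      (mul_le_mul_of_nonneg_right (le_abs_self C2) (by positivity)).trans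
        (mul_le_mul_of_nonneg_left h4 (abs_nonneg _))
    refine h5.trans ?_
    rw [le_div_iff₀ (by positivity), ← div_eq_mul_inv, div_mul_eq_mul_div, div_le_iff₀ (by positivity)]
    calc |C2| * (16 * n0) = 16 * |C2| / c * (c * n0) := by field_simp
      _ ≤ K * (c * K ^ (4 * d + 1)) := by
        refine mul_le_mul b5 (mul_le_mul_of_nonneg_left a4 hc.le) (by positivity) hK0.le
      _ = c * K ^ (4 * d + 2) := by
        rw [show 4 * d + 2 = (4 * d + 1) + 1 by ring, pow_succ K (4 * d + 1)]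
        ring

end Pool.Agent.ANC
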