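import Pool.Agent.ANC.LkN

/-!
# ANC / LkN2: the numbers of the leak bound at the end of the super-stage, `k' = ks (j + 2)`
-/

open Filter Topology Real

namespace Pool.Agent.ANC

variable {d : ℕ} {CM : ℝ}

/-- powers of `K = 1 / ks (j + 1)` in terms of `k' = ks (j + 2)` -/
theorem Kpow_le (x : Ex d CM) {k0 : ℝ} (h : 0 < k0) (h1 : k0 ≤ 1) (j : ℕ) {n : ℕ}
    (hn : (n : ℝ) ≤ CM + 64) :
    (ks k0 x.al (j + 1))⁻¹ ^ n ≤ ks k0 x.al (j + 2) ^ (-x.v1) := by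
  have hkp : 0 < ks k0 x.al (j + 1) := ks_pos h x.al (j + 1)
  have hkl : ks k0 x.al (j + 1) ≤ 1 := (ks_le h x.al _).trans h1
  have h2 := ks_neg_le h x.al (j + 1) x.v1_pos.le
  refine le_trans ?_ h2
  have h3 : (ks k0 x.al (j + 1))⁻¹ ^ n = ks k0 x.al (j + 1) ^ (-(n : ℝ)) := by
    rw [Real.rpow_neg hkp.le, Real.rpow_natCast, inv_pow]
  rw [h3]
  apply rpow_neg_le hkp hkl
  have := x.L3
  linarith

theorem side_inv_le {k0 : ℝ} (h : 0 < k0) (h1 : k0 < 1) {al : ℕ} (hal : 2 ≤ al) (j : ℕ) :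
    (side k0 al (j + 1) : ℝ) ≤ 32 * (ks k0 al (j + 1))⁻¹ ^ (2 * al) := by
  have h2 := (side_lt h h1 al (j + 1)).le
  have hkp := ks_pos h al (j + 1)
  have hkp' := ks_pos h al (j + 1 + 1)
  have h3 := (ks_succ_gt h h1 hal (j + 1)).le
  have h4 : (ks k0 al (j + 1 + 1))⁻¹ ≤ 4 * (ks k0 al (j + 1))⁻¹ ^ al := by
    rw [inv_pow, ← div_eq_mul_inv, le_div_iff₀ (by positivity), inv_mul_le_iff₀ hkp']
    linarith
  calc (side k0 al (j + 1) : ℝ) ≤ 2 * ((ks k0 al (j + 1 + 1)) ^ 2)⁻¹ := h2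
    _ = 2 * (ks k0 al (j + 1 + 1))⁻¹ ^ 2 := by rw [inv_pow]
    _ ≤ 2 * (4 * (ks k0 al (j + 1))⁻¹ ^ al) ^ 2 := by
      have : (ks k0 al (j + 1 + 1))⁻¹ ^ 2 ≤ (4 * (ks k0 al (j + 1))⁻¹ ^ al) ^ 2 :=
        pow_le_pow_left₀ (by positivity) h4 2
      linarith
    _ = 32 * (ks k0 al (j + 1))⁻¹ ^ (2 * al) := by
      rw [mul_pow, ← pow_mul, mul_comm al 2]
      ring

/-- the failure probability -/
theorem lk_prob (d J : ℕ) (hd : 1 ≤ d) (hJ : 1 ≤ J) {al : ℕ} (hal : 2 ≤ al) {w K1 : ℝ}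
    (hw : 0 ≤ w) (hw1 : w ≤ 1) (hK1 : 0 ≤ K1) :
    ∀ᶠ k0 in 𝓝[>] (0 : ℝ), ∀ j : ℕ,
      (side k0 al (j + 1) : ℝ) ^ d *
        (((ks k0 al (j + 1))⁻¹ ^ lce d)⁻¹) ^ (5 * lkn0 d J k0 al w j) ≤
          an k0 al K1 (j + 1) ^ 5 := by
  filter_upwards [lk_K d J hd hJ al hw hw1, ev_all (ev_inv_ge (Real.exp 1)) al,
    ev_all (ev_exp (C := 8 ^ 5 * 4 ^ (5 * K1) * 32 ^ d) (a := 2 * al * d) (N := 5 * K1 * al)
      (show (0 : ℝ) < 2 by norm_num) one_pos) al,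
    ev_small (show (0 : ℝ) < 1 / 2 by norm_num)] with k0 h1 hK he hk j
  obtain ⟨a1, a2, a3, a4, a5, a6, a7, a8⟩ := h1 j
  have hk0 := hk.1
  have hk1 : k0 < 1 := by linarith [hk.2]
  have hK := hK (j + 1)
  have he := he (j + 1)
  refine le_an5 hk0 hk1 hal hK1 (j + 1) (le_trans ?_ he)
  have hs := side_inv_le hk0 hk1 hal j
  have hkp : 0 < ks k0 al (j + 1) := ks_pos hk0 al (j + 1)
  set k := ks k0 al (j + 1) with hkd
  have e1 : k ^ (-(2 * (al : ℝ) * d)) = (k⁻¹ ^ (2 * al)) ^ d := by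
    rw [Real.rpow_neg hkp.le, ← pow_mul, inv_pow, ← Real.rpow_natCast]
    push_cast
    rfl
  have e2 : k ^ (-(2 : ℝ)) = k⁻¹ ^ 2 := by
    rw [Real.rpow_neg hkp.le, inv_pow, ← Real.rpow_natCast]
    norm_num
  have hKpos : 0 < k⁻¹ := inv_pos.2 hkp
  have hK1' : 1 ≤ k⁻¹ := (Real.one_le_exp zero_le_one).trans hK
  have h3 : ((k⁻¹ ^ lce d)⁻¹) ^ (5 * lkn0 d J k0 al w j) ≤ Real.exp (-1 * k ^ (-(2 : ℝ))) := by
    have h4 : (k⁻¹ ^ lce d)⁻¹ ≤ Real.exp (-1) := by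
      rw [Real.exp_neg]
      apply inv_anti₀ (Real.exp_pos 1)
      refine hK.trans ?_
      calc k⁻¹ = k⁻¹ ^ 1 := (pow_one _).symm
        _ ≤ k⁻¹ ^ lce d := pow_le_pow_right₀ hK1' (by unfold lce; omega)
    calc ((k⁻¹ ^ lce d)⁻¹) ^ (5 * lkn0 d J k0 al w j)
        ≤ (Real.exp (-1)) ^ (5 * lkn0 d J k0 al w j) := pow_le_pow_left₀ (by positivity) h4 _
      _ = Real.exp (-((5 * lkn0 d J k0 al w j : ℕ) : ℝ)) := by
        rw [← Real.exp_nat_mul]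
        congr 1
        ring
      _ ≤ _ := by
        apply Real.exp_le_exp.2
        rw [e2]
        push_cast
        linarith
  have h5 : (side k0 al (j + 1) : ℝ) ^ d ≤ 32 ^ d * k ^ (-(2 * (al : ℝ) * d)) := by
    rw [e1, ← mul_pow]
    exact pow_le_pow_left₀ (Nat.cast_nonneg _) hs d
  calc 8 ^ 5 * 4 ^ (5 * K1) * ((side k0 al (j + 1) : ℝ) ^ d *
        ((k⁻¹ ^ lce d)⁻¹) ^ (5 * lkn0 d J k0 al w j))
      ≤ 8 ^ 5 * 4 ^ (5 * K1) * ((32 ^ d * k ^ (-(2 * (al : ℝ) * d))) *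
          Real.exp (-1 * k ^ (-(2 : ℝ)))) := by
        refine mul_le_mul_of_nonneg_left ?_ (by positivity)
        exact mul_le_mul h5 h3 (by positivity) (by positivity)
    _ = _ := by ring

/-- THE LENGTHS at the end of the super-stage -/
theorem lk_len (x : Ex d CM) (hd : 3 ≤ d) (hCM : (lcmE d : ℝ) ≤ CM) {J : ℕ} (hJ : 1 ≤ J)
    {w : ℝ} (hw : 0 ≤ w) (hw1 : w ≤ 1) :
    ∀ᶠ k0 in 𝓝[>] (0 : ℝ), ∀ j : ℕ,
      4 * lkRin d J k0 x.al w j ≤ hR k0 x.al x.v2 (j + 1) ∧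
      lkDp k0 x.al x.v2 j + 2 * lkc k0 x.al w j + 1 + hR k0 x.al x.v2 (j + 1) ≤
        rho k0 x.al J (j + 1) ∧
      2 * (lkDp k0 x.al x.v2 j + 2 * lkc k0 x.al w j) ≤ rho k0 x.al J (j + 1) ∧
      lkDp k0 x.al x.v2 j + 2 * lkc k0 x.al w j + 1 ≤ dD k0 x.al (j + 1) ∧
      (lknP d J k0 x.al x.v2 w j : ℝ) ≤ ks k0 x.al (j + 2) ^ (-(3 * d : ℝ)) := by
  have hal := x.al2
  have hv := x.v2_pos
  have hv1 := x.v1_pos
  have hv12 := x.A3
  have hvl := x.v2_le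
  have hd0 : (0 : ℝ) < d := by
    have : 0 < d := by omega
    exact_mod_cast this
  have hJr : (1 : ℝ) ≤ J := by exact_mod_cast hJ
  filter_upwards [lk_K d J (by omega) hJ x.al hw hw1,
    ev_all (ev_pow' 4 (show -x.v2 < -x.v1 by linarith)) x.al,
    ev_all (ev_pow' (100 * J * 66) (show (-2 : ℝ) < -(3 / 2) by norm_num)) x.al,
    ev_all (ev_pow' (J * 114 ^ d * 65 ^ d) (show -(3 * d : ℝ) < -((x.v1 + 3 / 2) * d) by
      nlinarith)) x.al,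
    ev_small (show (0 : ℝ) < 1 / 2 by norm_num)] with k0 h1 hA hB hC hk j
  obtain ⟨a1, a2, a3, a4, a5, a6, a7, a8⟩ := h1 j
  have hk0 := hk.1
  have hk1 : k0 < 1 := by linarith [hk.2]
  have hA := hA (j + 2)
  have hB := hB (j + 2)
  have hC := hC (j + 2)
  have hkp' : 0 < ks k0 x.al (j + 2) := ks_pos hk0 x.al (j + 2)
  have hkl' : ks k0 x.al (j + 2) ≤ 1 := (ks_le hk0 x.al _).trans hk1.le
  have hR1 : ks k0 x.al (j + 2) ^ (-x.v2) ≤ hR k0 x.al x.v2 (j + 1) := hR_ge _ _ _ _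
  have hR2 : (hR k0 x.al x.v2 (j + 1) : ℝ) ≤ 2 * ks k0 x.al (j + 2) ^ (-x.v2) :=
    hR_le hk0 hk1.le x.al hv.le (j + 1)
  have hKn : ∀ n : ℕ, n ≤ lcmE d → (ks k0 x.al (j + 1))⁻¹ ^ n ≤ ks k0 x.al (j + 2) ^ (-x.v1) := by
    intro n hn
    apply Kpow_le x hk0 hk1.le j
    have : (n : ℝ) ≤ (lcmE d : ℝ) := by exact_mod_cast hn
    linarith
  have hsde : ks k0 x.al (j + 2) ^ (-2 : ℝ) ≤ side k0 x.al (j + 1) :=
    (side_rpow hk0 hk1 x.al (j + 1)).1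
  have hRf : (lkRf k0 x.al j : ℝ) < ks k0 x.al (j + 2) ^ (-(3 / 2 : ℝ)) + 1 := by
    unfold lkRf
    exact Nat.ceil_lt_add_one (by positivity)
  set k' := ks k0 x.al (j + 2) with hkd'
  set Q := k' ^ (-(3 / 2 : ℝ)) with hQ
  have hQ1 : 1 ≤ Q := one_le_rpow_neg hkp' hkl' (by norm_num)
  have hQv : k' ^ (-x.v2) ≤ Q := rpow_neg_le hkp' hkl' (by linarith)
  have hQ1v : k' ^ (-x.v1) ≤ Q := rpow_neg_le hkp' hkl' (by linarith)
  have hRin : (4 * lkRin d J k0 x.al w j : ℕ) ≤ hR k0 x.al x.v2 (j + 1) := by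
    have h2 : ((4 * lkRin d J k0 x.al w j : ℕ) : ℝ) ≤ (hR k0 x.al x.v2 (j + 1) : ℝ) := by
      push_cast
      have h3 := hKn (4 * d + lb1 d + 1) (le_lcmE (by omega))
      linarith
    exact_mod_cast h2
  have hc : (lkc k0 x.al w j : ℝ) ≤ 12 * Q := by
    have h3 := hKn 2 (by
      unfold lcmE lb4
      omega)
    linarith
  have hDp : (lkDp k0 x.al x.v2 j : ℝ) ≤ 6 * Q := by
    unfold lkDp
    push_cast
    linarith
  have hRQ : (hR k0 x.al x.v2 (j + 1) : ℝ) ≤ 2 * Q := by linarith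
  have hJ100 : 0 < 100 * J := by omega
  refine ⟨hRin, ?_, ?_, ?_, ?_⟩
  · unfold rho
    rw [Nat.le_div_iff_mul_le hJ100]
    have h2 : (((lkDp k0 x.al x.v2 j + 2 * lkc k0 x.al w j + 1 + hR k0 x.al x.v2 (j + 1)) *
        (100 * J) : ℕ) : ℝ) ≤ ((side k0 x.al (j + 1) : ℕ) : ℝ) := by
      refine le_trans ?_ (hB.trans hsde)
      push_cast
      have h3 : (lkDp k0 x.al x.v2 j : ℝ) + 2 * lkc k0 x.al w j + 1 +
        hR k0 x.al x.v2 (j + 1) ≤ 66 * Q := by linarith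
      calc ((lkDp k0 x.al x.v2 j : ℝ) + 2 * lkc k0 x.al w j + 1 +
            hR k0 x.al x.v2 (j + 1)) * (100 * J) ≤ (66 * Q) * (100 * J) :=
              mul_le_mul_of_nonneg_right h3 (by positivity)
        _ = 100 * J * 66 * Q := by ring
    exact_mod_cast h2
  · unfold rho
    rw [Nat.le_div_iff_mul_le hJ100]
    have h2 : (((2 * (lkDp k0 x.al x.v2 j + 2 * lkc k0 x.al w j)) *
        (100 * J) : ℕ) : ℝ) ≤ ((side k0 x.al (j + 1) : ℕ) : ℝ) := by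
      refine le_trans ?_ (hB.trans hsde)
      push_cast
      have h3 : 2 * ((lkDp k0 x.al x.v2 j : ℝ) + 2 * lkc k0 x.al w j) ≤ 66 * Q := by linarith
      calc 2 * ((lkDp k0 x.al x.v2 j : ℝ) + 2 * lkc k0 x.al w j) * (100 * J)
          ≤ (66 * Q) * (100 * J) := mul_le_mul_of_nonneg_right h3 (by positivity)
        _ = 100 * J * 66 * Q := by ring
    exact_mod_cast h2
  · unfold dD
    have h2 : ((lkDp k0 x.al x.v2 j + 2 * lkc k0 x.al w j + 1 : ℕ) : ℝ) ≤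
        ((side k0 x.al (j + 1) : ℕ) : ℝ) := by
      refine le_trans ?_ (hB.trans hsde)
      push_cast
      have h3 : (lkDp k0 x.al x.v2 j : ℝ) + 2 * lkc k0 x.al w j + 1 ≤ 66 * Q := by linarith
      refine h3.trans ?_
      have h4 : (1 : ℝ) * (66 * Q) ≤ (100 * J) * (66 * Q) :=
        mul_le_mul_of_nonneg_right (by linarith) (by positivity)
      linarith
    have h3 : lkDp k0 x.al x.v2 j + 2 * lkc k0 x.al w j + 1 ≤ side k0 x.al (j + 1) := by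
      exact_mod_cast h2
    omega
  · unfold lknP
    push_cast
    have h2 : (lkV d k0 x.al j : ℝ) ≤ 114 ^ d * (k' ^ (-x.v1)) ^ d := by
      refine a8.trans ?_
      rw [← mul_pow]
      refine pow_le_pow_left₀ (by positivity) ?_ d
      have h3 := hKn 2 (by
        unfold lcmE lb4
        omega)
      linarith
    have h3 : (2 * ((lkDp k0 x.al x.v2 j : ℝ) + 2 * lkc k0 x.al w j + 1) + 1) ^ d ≤
        65 ^ d * Q ^ d := by
      rw [← mul_pow]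
      refine pow_le_pow_left₀ (by positivity) ?_ d
      linarith
    calc (J : ℝ) * lkV d k0 x.al j *
          (2 * ((lkDp k0 x.al x.v2 j : ℝ) + 2 * lkc k0 x.al w j + 1) + 1) ^ d
        ≤ (J : ℝ) * (114 ^ d * (k' ^ (-x.v1)) ^ d) * (65 ^ d * Q ^ d) :=
          mul_le_mul (mul_le_mul_of_nonneg_left h2 (by linarith)) h3 (by positivity)
            (by positivity)
      _ = J * 114 ^ d * 65 ^ d * k' ^ (-((x.v1 + 3 / 2) * d)) := by
        have e1 : k' ^ (-((x.v1 + 3 / 2) * d)) = (k' ^ (-x.v1)) ^ d * Q ^ d := by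
          rw [← mul_pow, hQ, ← Real.rpow_add hkp', ← Real.rpow_natCast, ← Real.rpow_mul hkp'.le]
          congr 1
          ring
        rw [e1]
        ring
      _ ≤ _ := hC

end Pool.Agent.ANC
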