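import Pool.Agent.ANC.RecN
import Pool.Agent.ANQ.Proc

/-!
# ANC / RecP: numbers of `ANQ.ProcIn` (the recursion with four kinds of bad events)

`q j = ks (j + 1) ^ K1` (`qn`), `a k j = b j = q j / 8` (`an`), so that `a 0 + a 1 + a 2 + a 3 + b ≤ q`.
`steps_le`: the rejections (`p j i ≤ Cp kap_n ^ Kp`, `5 al K1 < Kp`); `exp_le`: percolation and leak (`exp (- c ks j ^ (-b))`);
`pow_le`: the same for powers of `ks j`; `many_le`: the tuples (`nn ≤ Cn ks (j + 2) ^ (-Nn)`, `5 K1 + Nn < K1 J / al`).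
`Geo.psum_le`: the sum over the steps of one cell is at most the sum over the levels.
-/

open Filter Topology Real

namespace Pool.Agent.ANC

/-- the numbers `q j` -/
noncomputable def qn (k0 : ℝ) (al : ℕ) (K1 : ℝ) (j : ℕ) : ℝ := ks k0 al (j + 1) ^ K1

/-- the numbers `a k j` and `b j` -/
noncomputable def an (k0 : ℝ) (al : ℕ) (K1 : ℝ) (j : ℕ) : ℝ := ks k0 al (j + 1) ^ K1 / 8

theorem qn_pos {k0 : ℝ} (h : 0 < k0) (al : ℕ) (K1 : ℝ) (j : ℕ) : 0 < qn k0 al K1 j :=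
  Real.rpow_pos_of_pos (ks_pos h al _) K1

theorem an_pos {k0 : ℝ} (h : 0 < k0) (al : ℕ) (K1 : ℝ) (j : ℕ) : 0 < an k0 al K1 j := by
  have := qn_pos h al K1 j
  unfold qn at this
  unfold an
  positivity

theorem sum_an {k0 : ℝ} (h : 0 < k0) (al : ℕ) (K1 : ℝ) (j : ℕ) :
    an k0 al K1 j + an k0 al K1 j + an k0 al K1 j + an k0 al K1 j + an k0 al K1 j ≤
      qn k0 al K1 j := by
  have := qn_pos h al K1 j
  unfold qn at *
  unfold an
  linarith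

/-- comparison of `ks j` with `a j ^ 5` -/
theorem le_an5 {k0 : ℝ} (h : 0 < k0) (h1 : k0 < 1) {al : ℕ} (hal : 2 ≤ al) {K1 : ℝ}
    (hK : 0 ≤ K1) (j : ℕ) {x : ℝ}
    (hx : 8 ^ 5 * 4 ^ (5 * K1) * x ≤ ks k0 al j ^ (5 * K1 * al)) : x ≤ an k0 al K1 j ^ 5 := by
  have h2 := ks_pow_le h h1 hal j (a := 5 * K1) (by positivity)
  have h3 : 8 ^ 5 * 4 ^ (5 * K1) * x ≤ 4 ^ (5 * K1) * ks k0 al (j + 1) ^ (5 * K1) := hx.trans h2
  have h4 : (0 : ℝ) < 4 ^ (5 * K1) := Real.rpow_pos_of_pos (by norm_num) _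
  have h5 : 8 ^ 5 * x ≤ ks k0 al (j + 1) ^ (5 * K1) := by
    refine le_of_mul_le_mul_left ?_ h4
    calc (4 : ℝ) ^ (5 * K1) * (8 ^ 5 * x) = 8 ^ 5 * 4 ^ (5 * K1) * x := by ring
      _ ≤ _ := h3
  have h6 : an k0 al K1 j ^ 5 = ks k0 al (j + 1) ^ (5 * K1) / 8 ^ 5 := by
    unfold an
    rw [div_pow, ← Real.rpow_natCast, ← Real.rpow_mul (ks_pos h al _).le]
    congr 2
    push_cast
    ring
  rw [h6, le_div_iff₀ (by norm_num)]
  linarith

/-- rejections: sum over the levels of one super-stage -/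
theorem steps_le (Cp : ℝ) {K1 Kp : ℝ} {al : ℕ} (hal : 2 ≤ al) (hK : 0 ≤ K1) (hKp : 5 * K1 * al < Kp) :
    ∀ᶠ k0 in 𝓝[>] (0 : ℝ), ∀ j : ℕ,
      ∑ n ∈ Finset.Ico (lv k0 al j) (lv k0 al (j + 1)), Cp * kap k0 n ^ Kp ≤
        an k0 al K1 j ^ 5 := by
  have hal0 : (0 : ℝ) < al := by
    have : 0 < al := by omega
    exact_mod_cast this
  have hKp0 : 0 < Kp := lt_of_le_of_lt (by positivity) hKp
  have hr : (1 / 4 : ℝ) ^ Kp < 1 := Real.rpow_lt_one (by norm_num) (by norm_num) hKp0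
  have h1 := ev_all (ev_pow' (C := 8 ^ 5 * 4 ^ (5 * K1) * (|Cp| / (1 - (1 / 4 : ℝ) ^ Kp)))
    hKp) al
  filter_upwards [h1, ev_small (show (0 : ℝ) < 1 / 4 by norm_num)] with k0 h1 hk j
  have hk0 := hk.1
  have hk1 : k0 < 1 := by linarith [hk.2]
  refine le_an5 hk0 hk1 hal hK j ?_
  have h2 := sum_lv hk0 hKp0 al j (lv k0 al (j + 1))
  have h3 : ∑ n ∈ Finset.Ico (lv k0 al j) (lv k0 al (j + 1)), Cp * kap k0 n ^ Kp ≤
      |Cp| * (ks k0 al j ^ Kp / (1 - (1 / 4 : ℝ) ^ Kp)) := by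
    rw [← Finset.mul_sum]
    refine le_trans (mul_le_mul_of_nonneg_right (le_abs_self Cp) ?_)
      (mul_le_mul_of_nonneg_left h2 (abs_nonneg _))
    exact Finset.sum_nonneg fun n _ => Real.rpow_nonneg (kap_pos hk0 n).le _
  have h4 : (0 : ℝ) < 4 ^ (5 * K1) := Real.rpow_pos_of_pos (by norm_num) _
  calc 8 ^ 5 * 4 ^ (5 * K1) * ∑ n ∈ Finset.Ico (lv k0 al j) (lv k0 al (j + 1)),
        Cp * kap k0 n ^ Kp
      ≤ 8 ^ 5 * 4 ^ (5 * K1) * (|Cp| * (ks k0 al j ^ Kp / (1 - (1 / 4 : ℝ) ^ Kp))) :=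
        mul_le_mul_of_nonneg_left h3 (by positivity)
    _ = 8 ^ 5 * 4 ^ (5 * K1) * (|Cp| / (1 - (1 / 4 : ℝ) ^ Kp)) * ks k0 al j ^ Kp := by ring
    _ ≤ _ := h1 j

/-- exponentially small events -/
theorem exp_le (C : ℝ) {K1 b c : ℝ} {al : ℕ} (hal : 2 ≤ al) (hK : 0 ≤ K1) (hb : 0 < b)
    (hc : 0 < c) :
    ∀ᶠ k0 in 𝓝[>] (0 : ℝ), ∀ j : ℕ, ∀ x : ℝ, x ≤ C * Real.exp (-c * ks k0 al j ^ (-b)) →
      x ≤ an k0 al K1 j ^ 5 := by
  have h1 := ev_all (ev_exp (C := 8 ^ 5 * 4 ^ (5 * K1) * C) 0 (5 * K1 * al) hb hc) al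
  filter_upwards [h1, ev_small (show (0 : ℝ) < 1 / 4 by norm_num)] with k0 h1 hk j x hx
  have hk0 := hk.1
  have hk1 : k0 < 1 := by linarith [hk.2]
  refine le_an5 hk0 hk1 hal hK j ?_
  have h2 := h1 j
  rw [neg_zero, Real.rpow_zero, mul_one] at h2
  have h4 : (0 : ℝ) < 4 ^ (5 * K1) := Real.rpow_pos_of_pos (by norm_num) _
  calc 8 ^ 5 * 4 ^ (5 * K1) * x
      ≤ 8 ^ 5 * 4 ^ (5 * K1) * (C * Real.exp (-c * ks k0 al j ^ (-b))) :=
        mul_le_mul_of_nonneg_left hx (by positivity)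
    _ = 8 ^ 5 * 4 ^ (5 * K1) * C * Real.exp (-c * ks k0 al j ^ (-b)) := by ring
    _ ≤ _ := h2

/-- events of polynomial size -/
theorem pow_le (C : ℝ) {K1 Kp : ℝ} {al : ℕ} (hal : 2 ≤ al) (hK : 0 ≤ K1)
    (hKp : 5 * K1 * al < Kp) :
    ∀ᶠ k0 in 𝓝[>] (0 : ℝ), ∀ j : ℕ, ∀ x : ℝ, x ≤ C * ks k0 al j ^ Kp →
      x ≤ an k0 al K1 j ^ 5 := by
  have h1 := ev_all (ev_pow' (C := 8 ^ 5 * 4 ^ (5 * K1) * C) hKp) al
  filter_upwards [h1, ev_small (show (0 : ℝ) < 1 / 4 by norm_num)] with k0 h1 hk j x hx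
  have hk0 := hk.1
  have hk1 : k0 < 1 := by linarith [hk.2]
  refine le_an5 hk0 hk1 hal hK j ?_
  have h4 : (0 : ℝ) < 4 ^ (5 * K1) := Real.rpow_pos_of_pos (by norm_num) _
  calc 8 ^ 5 * 4 ^ (5 * K1) * x
      ≤ 8 ^ 5 * 4 ^ (5 * K1) * (C * ks k0 al j ^ Kp) :=
        mul_le_mul_of_nonneg_left hx (by positivity)
    _ = 8 ^ 5 * 4 ^ (5 * K1) * C * ks k0 al j ^ Kp := by ring
    _ ≤ _ := h1 j

/-- tuples of bad cells: the field `many` of `ProcIn` (at `j`, for `j + 1`) -/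
theorem many_le (Cn : ℝ) {K1 Nn : ℝ} {al m : ℕ} (hal : 2 ≤ al) (hK : 0 ≤ K1)
    (hm : 5 * K1 + Nn < K1 * m / al) :
    ∀ᶠ k0 in 𝓝[>] (0 : ℝ), ∀ j : ℕ, ∀ nn : ℝ, nn ≤ Cn * ks k0 al (j + 2) ^ (-Nn) →
      nn * qn k0 al K1 j ^ m ≤ an k0 al K1 (j + 1) ^ 5 := by
  have h1 := ev_all (ev_pow' (C := 8 ^ 5 * |Cn| * 4 ^ (K1 * m / al)) hm) al
  filter_upwards [h1, ev_small (show (0 : ℝ) < 1 / 4 by norm_num)] with k0 h1 hk j nn hnn
  have hk0 := hk.1
  have hk1 : k0 < 1 := by linarith [hk.2]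
  have h1 := h1 (j + 2)
  have hal0 : (0 : ℝ) < al := by
    have : 0 < al := by omega
    exact_mod_cast this
  have h6 : an k0 al K1 (j + 1) ^ 5 = ks k0 al (j + 2) ^ (5 * K1) / 8 ^ 5 := by
    unfold an
    rw [div_pow, ← Real.rpow_natCast, ← Real.rpow_mul (ks_pos hk0 al _).le]
    congr 2
    push_cast
    ring
  rw [h6]
  unfold qn
  set k := ks k0 al (j + 2) with hkd
  have hkp : 0 < k := ks_pos hk0 al _
  have hkp' : 0 < ks k0 al (j + 1) := ks_pos hk0 al _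
  have h2 : (ks k0 al (j + 1) ^ K1) ^ m ≤ 4 ^ (K1 * m / al) * k ^ (K1 * m / al) := by
    have h3 := ks_pow_le hk0 hk1 hal (j + 1) (a := K1 * m / al) (by positivity)
    rw [div_mul_cancel₀ _ hal0.ne'] at h3
    rw [← Real.rpow_natCast, ← Real.rpow_mul hkp'.le]
    exact h3
  have h3 : nn ≤ |Cn| * k ^ (-Nn) :=
    hnn.trans (mul_le_mul_of_nonneg_right (le_abs_self Cn) (by positivity))
  have h4 : nn * (ks k0 al (j + 1) ^ K1) ^ m ≤
      |Cn| * k ^ (-Nn) * (4 ^ (K1 * m / al) * k ^ (K1 * m / al)) := by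
    have h5 : (0 : ℝ) ≤ (ks k0 al (j + 1) ^ K1) ^ m := by positivity
    exact mul_le_mul h3 h2 h5 (by positivity)
  rw [le_div_iff₀ (by norm_num)]
  calc nn * (ks k0 al (j + 1) ^ K1) ^ m * 8 ^ 5
      ≤ |Cn| * k ^ (-Nn) * (4 ^ (K1 * m / al) * k ^ (K1 * m / al)) * 8 ^ 5 :=
        mul_le_mul_of_nonneg_right h4 (by norm_num)
    _ = (8 ^ 5 * |Cn| * 4 ^ (K1 * m / al) * k ^ (K1 * m / al)) * k ^ (-Nn) := by ring
    _ ≤ k ^ (5 * K1 + Nn) * k ^ (-Nn) := by gcongr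
    _ = k ^ (5 * K1) := by
      rw [← Real.rpow_add hkp]
      ring_nf

end Pool.Agent.ANC

namespace Pool.Agent.ANQ.Geo

variable {T : Type} [Fintype T] [DecidableEq T] [Nonempty T]

/-- the steps of one cell: at most one for each level -/
theorem psum_le (g : Geo T) (j : ℕ) (hlv : g.lv j ≤ g.lv (j + 1)) (L : T) (f : ℕ → ℝ)
    (hf : ∀ n, 0 ≤ f n) :
    ∑ i ∈ (Finset.range (g.ns j)).filter (fun i => g.sL j i = L), f (g.sn j i) ≤
      ∑ n ∈ Finset.Ico (g.lv j) (g.lv (j + 1)), f n := by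
  classical
  rcases Nat.eq_zero_or_pos (g.nc j) with h0 | h0
  · have h1 : g.ns j = 0 := by simp [ns, h0]
    rw [h1, Finset.range_zero, Finset.filter_empty, Finset.sum_empty]
    exact Finset.sum_nonneg fun n _ => hf n
  · have hlen : (g.clist j).length = g.nc j := by
      unfold clist nc
      exact Finset.length_toList _
    have hnd : (g.clist j).Nodup := by
      unfold clist
      exact Finset.nodup_toList _
    have hget : ∀ i, g.sL j i = (g.clist j)[i % g.nc j]'(by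
        rw [hlen]
        exact Nat.mod_lt _ h0) := by
      intro i
      unfold sL
      exact List.getD_eq_getElem _ _ _
    have hinj : Set.InjOn (g.sn j)
        ((Finset.range (g.ns j)).filter (fun i => g.sL j i = L) : Finset ℕ) := by
      intro i hi i' hi' h
      have h1 := (Finset.mem_filter.1 (Finset.mem_coe.1 hi)).2
      have h2 := (Finset.mem_filter.1 (Finset.mem_coe.1 hi')).2
      have h3 : i % g.nc j = i' % g.nc j := by
        have h4 : (g.clist j)[i % g.nc j]'(by rw [hlen]; exact Nat.mod_lt _ h0) =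
            (g.clist j)[i' % g.nc j]'(by rw [hlen]; exact Nat.mod_lt _ h0) := by
          rw [← hget, ← hget, h1, h2]
        exact (List.Nodup.getElem_inj_iff hnd).1 h4
      have h4 : i / g.nc j = i' / g.nc j := by
        unfold sn at h
        omega
      rw [← Nat.div_add_mod i (g.nc j), ← Nat.div_add_mod i' (g.nc j), h3, h4]
    rw [← Finset.sum_image (f := f) (g := g.sn j) (fun i hi i' hi' h => hinj
      (Finset.mem_coe.2 hi) (Finset.mem_coe.2 hi') h)]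
    refine Finset.sum_le_sum_of_subset_of_nonneg ?_ fun n _ _ => hf n
    intro n hn
    obtain ⟨i, hi, rfl⟩ := Finset.mem_image.1 hn
    have h1 := Finset.mem_range.1 (Finset.mem_filter.1 hi).1
    rw [Finset.mem_Ico]
    unfold sn
    unfold ns at h1
    have h2 : i / g.nc j < g.lv (j + 1) - g.lv j := Nat.div_lt_of_lt_mul (by
      rwa [mul_comm] at h1)
    generalize i / g.nc j = t at h2 ⊢
    omega

end Pool.Agent.ANQ.Geo
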