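import Pool.Agent.ANC.FarN
import Pool.Agent.ANS.StepFar3

/-!
# ANC / StepF3: the numbers `Far3Num` of the far rows of (H3) for `parV` (helper3)

`ev_far3` : `K = κ^(-A)`, `0 ≤ q ≤ κ^(-B)` (Part A: `A = 2`, `q` constant; Part B: `A = KB`, `q = κ^(-AB)`), and only
polynomial bounds of `e0`, `errm`, `bem`, `Cph`, `gm`.
-/

open Filter Topology Real

namespace Pool.Agent.ANC

variable {d : ℕ} {CM : ℝ} {c : Cst} {C1 c1 rho ρ : ℝ}

theorem ev_far3 (x : Ex d CM) (h : StC d c C1 c1 rho ρ) {A B : ℝ} (hA : 0 ≤ A) (hB : 0 ≤ B)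
    {al : ℕ} (hal : 2 ≤ al) :
    ∀ᶠ k0 in 𝓝[>] (0 : ℝ), ∀ j n cc : ℕ, LvN k0 al j n cc → ∀ (f : AND.Fix) (u : AND.UTol),
      f.C1 = C1 → f.c1 = c1 → u.rho = rho →
      ∀ eta q e0 errm bem Cph gm : ℝ, 0 ≤ q → q ≤ kap k0 n ^ (-B) →
        kap k0 n ^ (2 : ℝ) ≤ e0 → errm ≤ kap k0 n ^ (-8 : ℝ) →
        0 ≤ bem → bem ≤ kap k0 n ^ (-8 : ℝ) → 0 ≤ Cph → Cph ≤ kap k0 n ^ (-8 : ℝ) →
        kap k0 n ^ (8 : ℝ) ≤ gm →
      AND.Far3Num f (parV x c k0 eta) n (side k0 al j) (mu0 d c c1 * kap k0 n) 4 cc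
        (AND.farQ d f u (mu0 d c c1 * kap k0 n) (kap k0 n ^ (-A)) 4 cc)
        (AND.farν f u (mu0 d c c1 * kap k0 n) 4) q e0 errm bem Cph gm := by
  have hm := mu0_pos h.d0 h.pos h.hc1
  obtain ⟨ht0, ht1⟩ := tHc_pos h
  have hc1 := h.hc1
  have hC1 : 0 < C1 := by linarith [h.hC1]
  have hb := h.pos.b
  have hCz := h.pos.Cz
  have hCQ := CQ_pos h
  have hAQ := AQ_pos h
  set CT : ℝ := C1 * (2 + 12 * CQ d c C1 c1 rho) * (C1 + c.Cz * (4 + C1)) with hCT
  have hCT0 : 0 < CT := by positivity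
  have a1 := ev_tail 1 (A := 0) (B := 15 / 8 * c.b) le_rfl (by positivity) 0 x.v hal
  have a2 := ev_tail (4 * C1) (A := mu0 d c c1 / 2) (B := 3 / 16 * mu0 d c c1) (by positivity)
    (by positivity) 0 1 hal
  have a3 := ev_tail CT (A := mu0 d c c1 / 2 + AQ d c C1 c1 rho)
    (B := tHc c1 C1 rho * mu0 d c c1 / 32) (by positivity) (by positivity)
    (B + (7 * A + 6 * (d : ℝ)) + 10) 9 hal
  have a7 := ev_kap (ev_small (show (0 : ℝ) < c1 / 4 by positivity))
  filter_upwards [a1, a2, a3, a7, ev_small (show (0 : ℝ) < 1 / 256 by norm_num)]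
    with k0 a1 a2 a3 a7 hk j n cc hn f u hf1 hf2 hu eta q e0 errm bem Cph gm hq0 hq he herr hbe0 hbe
      hC0 hC hgm
  have hk0 := hk.1
  have hκ := kap_pos hk0 n
  have hκ1 : kap k0 n ≤ 1 := (kap_le hk0 n).trans (hk.2.trans (by norm_num))
  have a1 := a1 j n hn.lo hn.hi cc hn.cc
  have a2 := a2 j n hn.lo hn.hi cc hn.cc
  have a3 := a3 j n hn.lo hn.hi cc hn.cc
  have a7 := (a7 n).2
  have hs : kap k0 (n + 1) = kap k0 n / 4 := kap_succ k0 n
  have hν := farν_eq (d := d) (c := c) hf1 hf2 hu (kap k0 n)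
  have hQe := farQ_eqA h hκ hf1 hf2 hu A cc
  set κ := kap k0 n with hκd
  set Q := AND.farQ d f u (mu0 d c c1 * κ) (κ ^ (-A)) 4 cc with hQd
  set ν := AND.farν f u (mu0 d c c1 * κ) 4 with hνd
  set S : ℝ := (side k0 al j : ℝ) with hSd
  have hpos : ∀ y : ℝ, 0 < κ ^ y := fun y => Real.rpow_pos_of_pos hκ y
  have he0 : 0 < e0 := (hpos 2).trans_le he
  have hge1 : ∀ y : ℝ, 0 ≤ y → 1 ≤ κ ^ (-y) := fun y hy =>
    Real.one_le_rpow_of_pos_of_le_one_of_nonpos hκ hκ1 (by linarith)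
  rw [neg_zero, Real.rpow_zero, one_mul, zero_mul, Real.exp_zero, one_mul, one_mul] at a1
  rw [neg_zero, Real.rpow_zero, mul_one, Real.rpow_one] at a2
  refine ⟨he0, hbe0, hC0, ?_, ?_, ?_, ?_⟩
  · show Real.exp (-(15 / 8 * (c.b * κ * S))) ≤ κ ^ x.v
    refine le_trans (le_of_eq ?_) a1
    congr 1
    ring
  · rw [hf1, hf2]
    refine le_trans (le_of_eq ?_) (a2.trans a7)
    rw [mul_assoc]
    congr 2
    · congr 1
      push_cast
      ring
    · congr 1
      push_cast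
      ring
  · show 15 / 2 * (c.b * κ) ≤ ν
    rw [hν]
    have h1 := h.b1
    have h2 : 15 / 2 * c.b ≤ tHc c1 C1 rho * mu0 d c c1 / 8 := by linarith
    calc 15 / 2 * (c.b * κ) = 15 / 2 * c.b * κ := by ring
      _ ≤ _ := mul_le_mul_of_nonneg_right h2 hκ.le
  · -- the main inequality
    have hE1 : Real.exp (2 * (mu0 d c c1 * κ) * cc / (4 : ℕ)) =
        Real.exp (mu0 d c c1 / 2 * (κ * cc)) := by
      congr 1
      push_cast
      ring
    have hE2 : Real.exp (-(ν * S / 4)) =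
        Real.exp (-(tHc c1 C1 rho * mu0 d c c1 / 32 * (κ * S))) := by
      rw [hν]
      congr 1
      ring
    have hX1 : 1 ≤ Real.exp (AQ d c C1 c1 rho * (κ * cc)) := by
      apply Real.one_le_exp
      have : (0 : ℝ) ≤ cc := Nat.cast_nonneg _
      positivity
    have hT : 2 + 12 * q * Q ≤ (2 + 12 * CQ d c C1 c1 rho) * κ ^ (-(B + (7 * A + 6 * (d : ℝ)))) *
        Real.exp (AQ d c C1 c1 rho * (κ * cc)) := by
      have e1 : κ ^ (-(B + (7 * A + 6 * (d : ℝ)))) = κ ^ (-B) * κ ^ (-(7 * A + 6 * (d : ℝ))) := by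
        rw [← Real.rpow_add hκ]
        ring_nf
      have e2 : 12 * q * Q ≤ 12 * CQ d c C1 c1 rho * (κ ^ (-B) * κ ^ (-(7 * A + 6 * (d : ℝ)))) *
          Real.exp (AQ d c C1 c1 rho * (κ * cc)) := by
        rw [hQe]
        calc 12 * q * (CQ d c C1 c1 rho * κ ^ (-(7 * A + 6 * (d : ℝ))) *
              Real.exp (AQ d c C1 c1 rho * (κ * cc)))
            = q * (12 * CQ d c C1 c1 rho * κ ^ (-(7 * A + 6 * (d : ℝ))) *
              Real.exp (AQ d c C1 c1 rho * (κ * cc))) := by ring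
          _ ≤ κ ^ (-B) * (12 * CQ d c C1 c1 rho * κ ^ (-(7 * A + 6 * (d : ℝ))) *
              Real.exp (AQ d c C1 c1 rho * (κ * cc))) := by
              refine mul_le_mul_of_nonneg_right hq ?_
              have := hpos (-(7 * A + 6 * (d : ℝ)))
              positivity
          _ = _ := by ring
      have e3 : (2 : ℝ) ≤ 2 * (κ ^ (-B) * κ ^ (-(7 * A + 6 * (d : ℝ)))) *
          Real.exp (AQ d c C1 c1 rho * (κ * cc)) := by
        have h1 := hge1 B hB
        have h2 := hge1 (7 * A + 6 * (d : ℝ)) (by positivity)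
        have h3 : 1 ≤ κ ^ (-B) * κ ^ (-(7 * A + 6 * (d : ℝ))) :=
          one_le_mul_of_one_le_of_one_le h1 h2
        have h4 := one_le_mul_of_one_le_of_one_le h3 hX1
        linarith
      rw [e1]
      linarith
    -- the weights
    have hz2 : 1 / e0 ≤ κ ^ (-2 : ℝ) := by
      rw [Real.rpow_neg hκ.le, ← one_div]
      exact one_div_le_one_div_of_le (hpos 2) he
    have hW : AND.B3 f (parV x c k0 eta) n e0 errm bem Cph ≤
        (C1 + c.Cz * (4 + C1)) * κ ^ (-10 : ℝ) := by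
      have e10 : κ ^ (-8 : ℝ) * κ ^ (-2 : ℝ) = κ ^ (-10 : ℝ) := by
        rw [← Real.rpow_add hκ]
        norm_num
      have e9 : κ ^ (-8 : ℝ) * κ ^ (-1 : ℝ) ≤ κ ^ (-10 : ℝ) := by
        rw [← Real.rpow_add hκ]
        exact Real.rpow_le_rpow_of_exponent_ge hκ hκ1 (by norm_num)
      have w1 : Cph * C1 / e0 ≤ C1 * κ ^ (-10 : ℝ) := by
        calc Cph * C1 / e0 = C1 * (Cph * (1 / e0)) := by ring
          _ ≤ C1 * (κ ^ (-8 : ℝ) * κ ^ (-2 : ℝ)) := by
              refine mul_le_mul_of_nonneg_left ?_ hC1.le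
              exact mul_le_mul hC hz2 (by positivity) (hpos _).le
          _ = _ := by rw [e10]
      have w3 : bem * C1 / e0 ≤ C1 * κ ^ (-10 : ℝ) := by
        calc bem * C1 / e0 = C1 * (bem * (1 / e0)) := by ring
          _ ≤ C1 * (κ ^ (-8 : ℝ) * κ ^ (-2 : ℝ)) := by
              refine mul_le_mul_of_nonneg_left ?_ hC1.le
              exact mul_le_mul hbe hz2 (by positivity) (hpos _).le
          _ = _ := by rw [e10]
      have w2 : errm / (κ / 4) ≤ 4 * κ ^ (-10 : ℝ) := by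
        calc errm / (κ / 4) = 4 * (errm * κ⁻¹) := by field_simp
          _ ≤ 4 * (κ ^ (-8 : ℝ) * κ⁻¹) := by
              refine mul_le_mul_of_nonneg_left ?_ (by norm_num)
              exact mul_le_mul_of_nonneg_right herr (inv_nonneg.2 hκ.le)
          _ ≤ _ := by
              rw [← Real.rpow_neg_one]
              exact mul_le_mul_of_nonneg_left e9 (by norm_num)
      show Cph * f.C1 / e0 + c.Cz * (errm / kap k0 (n + 1) + bem * f.C1 / e0) ≤ _
      rw [hf1, hs]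
      have w4 : c.Cz * (errm / (κ / 4) + bem * C1 / e0) ≤
          c.Cz * (4 * κ ^ (-10 : ℝ) + C1 * κ ^ (-10 : ℝ)) :=
        mul_le_mul_of_nonneg_left (add_le_add w2 w3) hCz.le
      linarith
    have hKt : 0 ≤ (2 + 12 * CQ d c C1 c1 rho) * κ ^ (-(B + (7 * A + 6 * (d : ℝ)))) *
        Real.exp (AQ d c C1 c1 rho * (κ * cc)) := by
      have := hpos (-(B + (7 * A + 6 * (d : ℝ))))
      positivity
    have hW0 : 0 ≤ (C1 + c.Cz * (4 + C1)) * κ ^ (-10 : ℝ) := by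
      have := hpos (-10)
      positivity
    have hQ0 : 0 ≤ Q := by
      rw [hQe]
      have := hpos (-(7 * A + 6 * (d : ℝ)))
      positivity
    have hT0 : 0 ≤ 2 + 12 * q * Q := by positivity
    rw [hf1, hf2, hE1, hE2]
    set X1 := Real.exp (mu0 d c c1 / 2 * (κ * cc)) with hX1d
    set X2 := Real.exp (AQ d c C1 c1 rho * (κ * cc)) with hX2d
    set X3 := Real.exp (-(tHc c1 C1 rho * mu0 d c c1 / 32 * (κ * S))) with hX3d
    have hX10 : 0 < X1 := Real.exp_pos _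
    have hX20 : 0 < X2 := Real.exp_pos _
    have hX30 : 0 < X3 := Real.exp_pos _
    have hXX : Real.exp ((mu0 d c c1 / 2 + AQ d c C1 c1 rho) * (κ * cc)) = X1 * X2 := by
      rw [hX1d, hX2d, ← Real.exp_add]
      congr 1
      ring
    have hkk : κ ^ (-(B + (7 * A + 6 * (d : ℝ)) + 10)) =
        κ ^ (-(B + (7 * A + 6 * (d : ℝ)))) * κ ^ (-10 : ℝ) := by
      rw [← Real.rpow_add hκ]
      ring_nf
    rw [hXX, hkk] at a3
    have h1 : C1 * X1 * (2 + 12 * q * Q) * AND.B3 f (parV x c k0 eta) n e0 errm bem Cph * X3 ≤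
        C1 * X1 * ((2 + 12 * CQ d c C1 c1 rho) * κ ^ (-(B + (7 * A + 6 * (d : ℝ)))) * X2) *
          ((C1 + c.Cz * (4 + C1)) * κ ^ (-10 : ℝ)) * X3 := by
      refine mul_le_mul_of_nonneg_right ?_ hX30.le
      calc C1 * X1 * (2 + 12 * q * Q) * AND.B3 f (parV x c k0 eta) n e0 errm bem Cph
          ≤ C1 * X1 * (2 + 12 * q * Q) * ((C1 + c.Cz * (4 + C1)) * κ ^ (-10 : ℝ)) :=
            mul_le_mul_of_nonneg_left hW (by positivity)
        _ ≤ _ := by
            refine mul_le_mul_of_nonneg_right ?_ hW0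
            exact mul_le_mul_of_nonneg_left hT (by positivity)
    refine h1.trans ?_
    have h2 : C1 * X1 * ((2 + 12 * CQ d c C1 c1 rho) * κ ^ (-(B + (7 * A + 6 * (d : ℝ)))) * X2) *
          ((C1 + c.Cz * (4 + C1)) * κ ^ (-10 : ℝ)) * X3 =
        CT * (κ ^ (-(B + (7 * A + 6 * (d : ℝ)))) * κ ^ (-10 : ℝ)) * (X1 * X2 * X3) := by
      rw [hCT]
      ring
    rw [h2]
    refine a3.trans ?_
    have h3 : κ ^ (9 : ℝ) = κ ^ (8 : ℝ) * κ := by
      rw [← Real.rpow_add_one hκ.ne']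
      norm_num
    rw [h3]
    exact mul_le_mul hgm a7 hκ.le ((hpos 8).le.trans hgm)

end Pool.Agent.ANC
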