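import Pool.Agent.ANC.FarN
import Pool.Agent.ANS.TopH4

/-!
# ANC / StepH4: the numbers of the form bound (H4) in a step, for `parV` (helper18)

Level `n` of super-stage `j` (`LvN`), `κ = kap k0 n`, `s = side k0 x.al j`, `μ = m κ`.  Values: `e1 = κ^(1/150)`,
`e2 = κ^(E2)`, `ce = κ^(1/400)`, `cρ = 3 κ^(1/64) / c1`, `cm = min 1 (cl c1 / 4) c1 / 16`, form error of one cell
`ε ≤ 125 κ^(1/140)`.

* `sr_le`, `tl_le` : `SR, TL ≤ C κ^(-N)`;   `ev_eps` : `4 (30 κ^(1/140) + qV) ≤ 125 κ^(1/140)`;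
* `ev_floor` : tails with `⌊s / 2⌋`;
* `ev_nD, ev_nC, ev_nE, ev_cA` : the polynomial inequalities;
* `ev_kerN` : `kerN exp (-(ν / 4) ⌊s / 2⌋)` is smaller than every power of `κ`;
* `ev_h4` : THE STRUCTURE `NumH4` for `parV`.
-/

open Filter Topology Real

namespace Pool.Agent.ANC

variable {d : ℕ} {CM : ℝ} {c : Cst} {C1 c1 rho ρ : ℝ}

/-- tails with `⌊s / 2⌋` -/
theorem ev_floor (C : ℝ) {A B : ℝ} (hA : 0 ≤ A) (hB : 0 < B) (N M : ℝ) {al : ℕ} (hal : 2 ≤ al) :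
    ∀ᶠ k0 in 𝓝[>] (0 : ℝ), ∀ j n cc : ℕ, LvN k0 al j n cc →
      C * kap k0 n ^ (-N) * (Real.exp (A * (kap k0 n * cc)) *
        Real.exp (-(B * kap k0 n * ((side k0 al j / 2 : ℕ) : ℝ)))) ≤ kap k0 n ^ M := by
  filter_upwards [ev_tail (|C| * Real.exp (B / 2)) hA (B := B / 2) (by positivity) N M hal,
    ev_small one_pos] with k0 h hk j n cc hn
  have hκ := kap_pos hk.1 n
  have hκ1 : kap k0 n ≤ 1 := (kap_le hk.1 n).trans hk.2
  refine le_trans ?_ (h j n hn.lo hn.hi cc hn.cc)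
  set κ := kap k0 n with hκd
  obtain ⟨s, hs⟩ : ∃ s : ℕ, s = side k0 al j := ⟨_, rfl⟩
  rw [← hs]
  have h1 : (s : ℝ) / 2 - 1 / 2 ≤ ((s / 2 : ℕ) : ℝ) := by
    have h2 : s ≤ 2 * (s / 2) + 1 := by omega
    have h3 : (s : ℝ) ≤ 2 * ((s / 2 : ℕ) : ℝ) + 1 := by exact_mod_cast h2
    linarith
  have h2 : Real.exp (-(B * κ * ((s / 2 : ℕ) : ℝ))) ≤
      Real.exp (B / 2) * Real.exp (-(B / 2 * (κ * s))) := by
    rw [← Real.exp_add]
    apply Real.exp_le_exp.2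
    have h3 : B * κ * ((s : ℝ) / 2 - 1 / 2) ≤ B * κ * ((s / 2 : ℕ) : ℝ) :=
      mul_le_mul_of_nonneg_left h1 (by positivity)
    have h4 : B * κ ≤ B := mul_le_of_le_one_right hB.le hκ1
    linarith
  have h3 : 0 ≤ κ ^ (-N) := (Real.rpow_pos_of_pos hκ _).le
  have h4 : 0 ≤ Real.exp (A * (κ * cc)) := (Real.exp_pos _).le
  calc C * κ ^ (-N) * (Real.exp (A * (κ * cc)) * Real.exp (-(B * κ * ((s / 2 : ℕ) : ℝ))))
      ≤ |C| * κ ^ (-N) * (Real.exp (A * (κ * cc)) *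
        Real.exp (-(B * κ * ((s / 2 : ℕ) : ℝ)))) := by
        apply mul_le_mul_of_nonneg_right _ (by positivity)
        exact mul_le_mul_of_nonneg_right (le_abs_self C) h3
    _ ≤ |C| * κ ^ (-N) * (Real.exp (A * (κ * cc)) *
        (Real.exp (B / 2) * Real.exp (-(B / 2 * (κ * s))))) := by
        apply mul_le_mul_of_nonneg_left _ (by positivity)
        exact mul_le_mul_of_nonneg_left h2 h4
    _ = _ := by ring

/-- the constant of `sumC` -/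
noncomputable def SC (d : ℕ) (q : ℝ) : ℝ := (8 ^ d * d.factorial * 8) / q ^ (d + 1)

theorem SC_pos (d : ℕ) {q : ℝ} (hq : 0 < q) : 0 < SC d q := by
  unfold SC
  positivity

theorem sumC_eq (d : ℕ) {q κ : ℝ} (hq : 0 < q) (hκ : 0 < κ) :
    ANM.sumC d 0 (q * κ) = SC d q * κ ^ (-((d : ℝ) + 1)) := by
  unfold ANM.sumC SC
  have h1 : κ ^ (-((d : ℝ) + 1)) = (κ ^ (d + 1))⁻¹ := by
    rw [Real.rpow_neg hκ.le, ← Real.rpow_natCast]
    push_cast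
    rfl
  rw [h1, mul_pow]
  have h2 : q ^ (d + 1) ≠ 0 := (pow_pos hq _).ne'
  have h3 : κ ^ (d + 1) ≠ 0 := (pow_pos hκ _).ne'
  field_simp
  simp

/-- exponents of `SR`, `TL` -/
noncomputable def NS (d al : ℕ) : ℝ := 2 * al * d + d + 1

noncomputable def NTL (d al : ℕ) : ℝ := 4 * al + d + 2

/-- constants of `SR`, `TL` -/
noncomputable def CSR (d : ℕ) (m : ℝ) : ℝ := 129 ^ d + SC d (m / 2)

noncomputable def CTL (d : ℕ) (m : ℝ) : ℝ :=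
  d / 2 * 129 ^ 2 + 32 * d / m * SC d (m / 8) + 2 * d * 129 * SC d (m / 2)

theorem CSR_pos (d : ℕ) {m : ℝ} (hm : 0 < m) : 0 < CSR d m := by
  have := SC_pos d (half_pos hm)
  unfold CSR
  positivity

theorem CTL_nonneg (d : ℕ) {m : ℝ} (hm : 0 < m) : 0 ≤ CTL d m := by
  have h1 := SC_pos d (half_pos hm)
  have h2 := SC_pos d (show 0 < m / 8 by positivity)
  unfold CTL
  positivity

theorem pow_mono {κ a b : ℝ} (hκ : 0 < κ) (hκ1 : κ ≤ 1) (h : a ≤ b) : κ ^ b ≤ κ ^ a :=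
  Real.rpow_le_rpow_of_exponent_ge hκ hκ1 h

theorem side_one {κ : ℝ} (hκ : 0 < κ) (hκ1 : κ ≤ 1) {al s : ℕ}
    (hs : (s : ℝ) ≤ 32 * κ ^ (-(2 * al) : ℝ)) : 4 * (s : ℝ) + 1 ≤ 129 * κ ^ (-(2 * al) : ℝ) := by
  have h1 : (1 : ℝ) ≤ κ ^ (-(2 * al) : ℝ) :=
    Real.one_le_rpow_of_pos_of_le_one_of_nonpos hκ hκ1 (by
      have : (0 : ℝ) ≤ al := Nat.cast_nonneg _
      linarith)
  linarith

theorem sr_le {κ : ℝ} (hκ : 0 < κ) (hκ1 : κ ≤ 1) {m : ℝ} (hm : 0 < m) {al s : ℕ}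
    (hs : (s : ℝ) ≤ 32 * κ ^ (-(2 * al) : ℝ)) :
    ANF.Glob.SR d s (m * κ) ≤ CSR d m * κ ^ (-NS d al) := by
  unfold ANF.Glob.SR CSR
  have h1 := side_one hκ hκ1 hs
  have hd : (0 : ℝ) ≤ d := Nat.cast_nonneg _
  have hal : (0 : ℝ) ≤ al := Nat.cast_nonneg _
  have h2 : (4 * (s : ℝ) + 1) ^ d ≤ 129 ^ d * κ ^ (-NS d al) := by
    refine (pow_le_pow_left₀ (by positivity) h1 d).trans ?_
    rw [mul_pow, ← Real.rpow_natCast (κ ^ (-(2 * al) : ℝ)), ← Real.rpow_mul hκ.le]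
    apply mul_le_mul_of_nonneg_left _ (by positivity)
    apply pow_mono hκ hκ1
    unfold NS
    linarith only [hd]
  have h3 : ANM.sumC d 0 (m * κ / 2) ≤ SC d (m / 2) * κ ^ (-NS d al) := by
    have e1 : m * κ / 2 = m / 2 * κ := by ring
    rw [e1, sumC_eq d (half_pos hm) hκ]
    apply mul_le_mul_of_nonneg_left _ (SC_pos d (half_pos hm)).le
    apply pow_mono hκ hκ1
    unfold NS
    linarith only [mul_nonneg hal hd]
  rw [add_mul]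
  exact add_le_add h2 h3

theorem tl_le {κ : ℝ} (hκ : 0 < κ) (hκ1 : κ ≤ 1) {m : ℝ} (hm : 0 < m) {al s : ℕ}
    (hs : (s : ℝ) ≤ 32 * κ ^ (-(2 * al) : ℝ)) :
    ANF.Glob.TL d s (m * κ) ≤ CTL d m * κ ^ (-NTL d al) := by
  unfold ANF.Glob.TL CTL
  have h1 := side_one hκ hκ1 hs
  have hd : (0 : ℝ) ≤ d := Nat.cast_nonneg _
  have hal : (0 : ℝ) ≤ al := Nat.cast_nonneg _
  have e0 : (2 * ((2 * s : ℕ) : ℝ) + 1) = 4 * (s : ℝ) + 1 := by
    push_cast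
    ring
  rw [e0]
  have hS1 := SC_pos d (half_pos hm)
  have hS2 := SC_pos d (show 0 < m / 8 by positivity)
  have a1 : (d : ℝ) / 2 * (4 * (s : ℝ) + 1) ^ 2 ≤ d / 2 * 129 ^ 2 * κ ^ (-NTL d al) := by
    rw [mul_assoc]
    apply mul_le_mul_of_nonneg_left _ (by positivity)
    refine (pow_le_pow_left₀ (by positivity) h1 2).trans ?_
    rw [mul_pow, ← Real.rpow_natCast (κ ^ (-(2 * al) : ℝ)), ← Real.rpow_mul hκ.le]
    apply mul_le_mul_of_nonneg_left _ (by positivity)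
    apply pow_mono hκ hκ1
    unfold NTL
    push_cast
    linarith
  have a2 : 16 * d / (m * κ / 2) * ANM.sumC d 0 (m * κ / 2 / 4) ≤
      32 * d / m * SC d (m / 8) * κ ^ (-NTL d al) := by
    have e1 : m * κ / 2 / 4 = m / 8 * κ := by ring
    have e2 : 16 * (d : ℝ) / (m * κ / 2) = 32 * d / m * κ ^ (-1 : ℝ) := by
      rw [Real.rpow_neg_one]
      field_simp
      ring
    rw [e1, sumC_eq d (show 0 < m / 8 by positivity) hκ, e2]
    have e3 : 32 * (d : ℝ) / m * κ ^ (-1 : ℝ) * (SC d (m / 8) * κ ^ (-((d : ℝ) + 1))) =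
        32 * d / m * SC d (m / 8) * (κ ^ (-1 : ℝ) * κ ^ (-((d : ℝ) + 1))) := by ring
    rw [e3, ← Real.rpow_add hκ]
    apply mul_le_mul_of_nonneg_left _ (by positivity)
    apply pow_mono hκ hκ1
    unfold NTL
    linarith
  have a3 : 2 * d * (4 * (s : ℝ) + 1) * ANM.sumC d 0 (m * κ / 2) ≤
      2 * d * 129 * SC d (m / 2) * κ ^ (-NTL d al) := by
    have e1 : m * κ / 2 = m / 2 * κ := by ring
    rw [e1, sumC_eq d (half_pos hm) hκ]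
    calc 2 * d * (4 * (s : ℝ) + 1) * (SC d (m / 2) * κ ^ (-((d : ℝ) + 1)))
        ≤ 2 * d * (129 * κ ^ (-(2 * al) : ℝ)) * (SC d (m / 2) * κ ^ (-((d : ℝ) + 1))) := by
          have hp : 0 ≤ κ ^ (-((d : ℝ) + 1)) := (Real.rpow_pos_of_pos hκ _).le
          apply mul_le_mul_of_nonneg_right _ (by positivity)
          exact mul_le_mul_of_nonneg_left h1 (by positivity)
      _ = 2 * d * 129 * SC d (m / 2) * (κ ^ (-(2 * al) : ℝ) * κ ^ (-((d : ℝ) + 1))) := by ring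
      _ ≤ _ := by
          rw [← Real.rpow_add hκ]
          apply mul_le_mul_of_nonneg_left _ (by positivity)
          apply pow_mono hκ hκ1
          unfold NTL
          linarith
  calc (d : ℝ) / 2 * (4 * (s : ℝ) + 1) ^ 2 + (16 * d / (m * κ / 2) *
        ANM.sumC d 0 (m * κ / 2 / 4) + 2 * d * (4 * (s : ℝ) + 1) * ANM.sumC d 0 (m * κ / 2))
      ≤ d / 2 * 129 ^ 2 * κ ^ (-NTL d al) + (32 * d / m * SC d (m / 8) * κ ^ (-NTL d al) +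
        2 * d * 129 * SC d (m / 2) * κ ^ (-NTL d al)) := add_le_add a1 (add_le_add a2 a3)
    _ = _ := by ring

/-- the form error of one cell -/
theorem ev_eps (d : ℕ) (ρ C1 c1 : ℝ) : ∀ᶠ κ in 𝓝[>] (0 : ℝ),
    4 * (30 * κ ^ (1 / 140 : ℝ) + qV d ρ C1 c1 κ) ≤ 125 * κ ^ (1 / 140 : ℝ) := by
  filter_upwards [ev_q d ρ C1 c1 4 (show (1 / 140 : ℝ) < 9 / 256 by norm_num), ev_small one_pos]
    with κ h hk
  have h1 : 0 ≤ κ ^ (1 / 140 : ℝ) := Real.rpow_nonneg hk.1.le _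
  linarith

/-- values -/
noncomputable def E2 (d al : ℕ) : ℝ := NTL d al + 2

noncomputable def cmH (c : Cst) (c1 : ℝ) : ℝ := min 1 (c.cl * c1 / 4) * c1 / 16

theorem cmH_pos (hc : c.Pos) (hc1 : 0 < c1) : 0 < cmH c c1 := by
  have h1 := hc.cl
  have h2 : 0 < min 1 (c.cl * c1 / 4) := lt_min one_pos (by positivity)
  unfold cmH
  positivity

theorem cm_ok {eta κ : ℝ} (he : 0 ≤ eta) (hκ : 0 ≤ κ) (hc1 : 0 < c1) :
    cmH c c1 * (eta + κ) ≤ (eta + c.cl * (κ / 4) * c1) * c1 / 16 := by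
  have h1 : min 1 (c.cl * c1 / 4) * (eta + κ) ≤ eta + c.cl * (κ / 4) * c1 := by
    have h2 : min 1 (c.cl * c1 / 4) * eta ≤ 1 * eta :=
      mul_le_mul_of_nonneg_right (min_le_left _ _) he
    have h3 : min 1 (c.cl * c1 / 4) * κ ≤ c.cl * c1 / 4 * κ :=
      mul_le_mul_of_nonneg_right (min_le_right _ _) hκ
    linarith
  unfold cmH
  have h2 := mul_le_mul_of_nonneg_right h1 (show 0 ≤ c1 / 16 by positivity)
  linarith

theorem ex_v400 (x : Ex d CM) : x.v ≤ 1 / 400 := by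
  rw [x.v_eq]
  exact min_le_left _ _

/-- nE: `C e1 + C e2 ≤ ce κ^v` -/
theorem ev_nE (x : Ex d CM) (C : ℝ) (hC : 0 ≤ C) (al : ℕ) :
    ∀ᶠ κ in 𝓝[>] (0 : ℝ),
      C * κ ^ (1 / 150 : ℝ) + C * κ ^ E2 d al ≤ κ ^ (1 / 400 : ℝ) * κ ^ x.v := by
  have hv := ex_v400 x
  filter_upwards [ev_pow' (2 * C) (show (1 / 200 : ℝ) < 1 / 150 by norm_num), ev_small one_pos]
    with κ h hk
  obtain ⟨hκ, hκ1⟩ := hk
  have hd : (0 : ℝ) ≤ d := Nat.cast_nonneg _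
  have hal : (0 : ℝ) ≤ al := Nat.cast_nonneg _
  have h1 : κ ^ E2 d al ≤ κ ^ (1 / 150 : ℝ) := by
    apply pow_mono hκ hκ1
    unfold E2 NTL
    linarith
  have h2 : κ ^ (1 / 200 : ℝ) ≤ κ ^ (1 / 400 : ℝ) * κ ^ x.v := by
    rw [← Real.rpow_add hκ]
    apply pow_mono hκ hκ1
    linarith
  have h3 := mul_le_mul_of_nonneg_left h1 hC
  linarith

/-- nD: `C e1 C0m + C e2 TL ≤ D0 CD κ^v` -/
theorem ev_nD (x : Ex d CM) (hc : c.Pos) (C : ℝ) (hC : 0 ≤ C) {m : ℝ} (hm : 0 < m) (al : ℕ) :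
    ∀ᶠ k0 in 𝓝[>] (0 : ℝ), ∀ n s : ℕ, (s : ℝ) ≤ 32 * kap k0 n ^ (-(2 * al) : ℝ) →
      C * kap k0 n ^ (1 / 150 : ℝ) * (2 * (c.C0c * k0⁻¹)) +
        C * kap k0 n ^ E2 d al * ANF.Glob.TL d s (m * kap k0 n) ≤
      c.D0c * k0 ^ (-(1 - 2 * x.e)) * c.CD * kap k0 n ^ x.v := by
  have h5 := x.S5
  rw [x.eF_eq] at h5
  have hCT := CTL_nonneg d hm
  have hD := hc.D0c
  have hCD := hc.CD
  have hC0 := hc.C0c
  have a1 := ev_le (C * 2 * c.C0c) (b := 1 / 150 - x.v - 2 * x.e) (by linarith)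
    (show 0 < c.D0c * c.CD / 2 by positivity) 0
  have a2 := ev_le (C * CTL d m) (b := 1) one_pos (show 0 < c.D0c * c.CD / 2 by positivity) 0
  filter_upwards [a1, a2, ev_small one_pos] with k0 a1 a2 hk n s hs
  obtain ⟨hk0, hk1⟩ := hk
  rw [pow_zero, mul_one] at a1 a2
  rw [Real.rpow_one] at a2
  have hκ := kap_pos hk0 n
  have hκk := kap_le hk0 n
  have hκ1 : kap k0 n ≤ 1 := hκk.trans hk1
  have htl := tl_le (d := d) hκ hκ1 hm hs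
  set κ := kap k0 n with hκd
  have he := x.e_eq
  have hv := x.v_pos
  -- the first term
  have b1 : C * κ ^ (1 / 150 : ℝ) * (2 * (c.C0c * k0⁻¹)) ≤
      c.D0c * c.CD / 2 * (k0 ^ (-(1 - 2 * x.e)) * κ ^ x.v) := by
    have e1 : κ ^ (1 / 150 : ℝ) ≤ κ ^ x.v * k0 ^ (1 / 150 - x.v) := by
      have e2 : κ ^ (1 / 150 : ℝ) = κ ^ x.v * κ ^ (1 / 150 - x.v) := by
        rw [← Real.rpow_add hκ]
        ring_nf
      rw [e2]
      apply mul_le_mul_of_nonneg_left _ (Real.rpow_nonneg hκ.le _)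
      exact Real.rpow_le_rpow hκ.le hκk (by linarith)
    have e3 : k0 ^ (1 / 150 - x.v) * k0⁻¹ =
        k0 ^ (1 / 150 - x.v - 2 * x.e) * k0 ^ (-(1 - 2 * x.e)) := by
      rw [← Real.rpow_neg_one, ← Real.rpow_add hk0, ← Real.rpow_add hk0]
      ring_nf
    have p1 : 0 ≤ κ ^ x.v := Real.rpow_nonneg hκ.le _
    have p2 : 0 ≤ k0 ^ (-(1 - 2 * x.e)) := Real.rpow_nonneg hk0.le _
    have p3 : 0 ≤ k0⁻¹ := by positivity
    calc C * κ ^ (1 / 150 : ℝ) * (2 * (c.C0c * k0⁻¹))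
        ≤ C * (κ ^ x.v * k0 ^ (1 / 150 - x.v)) * (2 * (c.C0c * k0⁻¹)) := by gcongr
      _ = C * 2 * c.C0c * (k0 ^ (1 / 150 - x.v) * k0⁻¹) * κ ^ x.v := by ring
      _ = (C * 2 * c.C0c * k0 ^ (1 / 150 - x.v - 2 * x.e)) *
          (k0 ^ (-(1 - 2 * x.e)) * κ ^ x.v) := by
          rw [e3]
          ring
      _ ≤ _ := mul_le_mul_of_nonneg_right a1 (by positivity)
  -- the second term
  have b2 : C * κ ^ E2 d al * ANF.Glob.TL d s (m * κ) ≤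
      c.D0c * c.CD / 2 * (k0 ^ (-(1 - 2 * x.e)) * κ ^ x.v) := by
    have e1 : C * κ ^ E2 d al * ANF.Glob.TL d s (m * κ) ≤
        C * κ ^ E2 d al * (CTL d m * κ ^ (-NTL d al)) :=
      mul_le_mul_of_nonneg_left htl (mul_nonneg hC (Real.rpow_nonneg hκ.le _))
    have e2 : κ ^ E2 d al * κ ^ (-NTL d al) = κ ^ (2 : ℝ) := by
      rw [← Real.rpow_add hκ]
      unfold E2
      ring_nf
    have e3 : κ ^ (2 : ℝ) ≤ k0 * κ ^ x.v := by
      have f1 : κ ^ (2 : ℝ) = κ * κ ^ (1 : ℝ) := by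
        rw [Real.rpow_one, Real.rpow_two]
        ring
      rw [f1]
      have hv1 : x.v ≤ 1 := by linarith [x.v_lt]
      exact mul_le_mul hκk (pow_mono hκ hκ1 hv1) (Real.rpow_nonneg hκ.le _) hk0.le
    have e4 : 1 ≤ k0 ^ (-(1 - 2 * x.e)) :=
      Real.one_le_rpow_of_pos_of_le_one_of_nonpos hk0 hk1 (by rw [he]; norm_num)
    have p1 : 0 ≤ κ ^ x.v := Real.rpow_nonneg hκ.le _
    calc C * κ ^ E2 d al * ANF.Glob.TL d s (m * κ)
        ≤ C * κ ^ E2 d al * (CTL d m * κ ^ (-NTL d al)) := e1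
      _ = C * CTL d m * (κ ^ E2 d al * κ ^ (-NTL d al)) := by ring
      _ ≤ C * CTL d m * (k0 * κ ^ x.v) := by
          rw [e2]
          exact mul_le_mul_of_nonneg_left e3 (mul_nonneg hC hCT)
      _ = (C * CTL d m * k0) * (1 * κ ^ x.v) := by ring
      _ ≤ c.D0c * c.CD / 2 * (k0 ^ (-(1 - 2 * x.e)) * κ ^ x.v) := by
          apply mul_le_mul a2 _ (by positivity) (by positivity)
          exact mul_le_mul_of_nonneg_right e4 p1
  calc C * κ ^ (1 / 150 : ℝ) * (2 * (c.C0c * k0⁻¹)) + C * κ ^ E2 d al *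
        ANF.Glob.TL d s (m * κ)
      ≤ c.D0c * c.CD / 2 * (k0 ^ (-(1 - 2 * x.e)) * κ ^ x.v) +
        c.D0c * c.CD / 2 * (k0 ^ (-(1 - 2 * x.e)) * κ ^ x.v) := add_le_add b1 b2
    _ = _ := by ring

/-- nC: `C ε C0m + C e2 TL ≤ C00 CD κ^v` -/
theorem ev_nC (x : Ex d CM) (hc : c.Pos) (C : ℝ) (hC : 0 ≤ C) {m : ℝ} (hm : 0 < m) (al : ℕ) :
    ∀ᶠ k0 in 𝓝[>] (0 : ℝ), ∀ n s : ℕ, (s : ℝ) ≤ 32 * kap k0 n ^ (-(2 * al) : ℝ) →
      C * kap k0 n ^ (1 / 150 : ℝ) * (2 * (c.C0c * k0⁻¹)) +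
        C * kap k0 n ^ E2 d al * ANF.Glob.TL d s (m * kap k0 n) ≤
      c.C0c * k0⁻¹ * c.CD * kap k0 n ^ x.v := by
  have hv := ex_v400 x
  have hCT := CTL_nonneg d hm
  have hCD := hc.CD
  have hC0 := hc.C0c
  have a1 := ev_kap (ev_pow' (2 * C * 2 / c.CD) (show x.v < 1 / 150 by linarith))
  have a2 := ev_le (C * CTL d m) (b := 1) one_pos (show 0 < c.C0c * c.CD / 2 by positivity) 0
  filter_upwards [a1, a2, ev_small one_pos] with k0 a1 a2 hk n s hs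
  obtain ⟨hk0, hk1⟩ := hk
  rw [pow_zero, mul_one] at a2
  rw [Real.rpow_one] at a2
  have a1 := a1 n
  have hκ := kap_pos hk0 n
  have hκk := kap_le hk0 n
  have hκ1 : kap k0 n ≤ 1 := hκk.trans hk1
  have htl := tl_le (d := d) hκ hκ1 hm hs
  set κ := kap k0 n with hκd
  have p1 : 0 ≤ κ ^ x.v := Real.rpow_nonneg hκ.le _
  have p3 : 0 ≤ k0⁻¹ := by positivity
  have b1 : C * κ ^ (1 / 150 : ℝ) * (2 * (c.C0c * k0⁻¹)) ≤
      c.C0c * k0⁻¹ * c.CD * κ ^ x.v / 2 := by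
    have e1 : 2 * C * 2 * κ ^ (1 / 150 : ℝ) ≤ c.CD * κ ^ x.v := by
      have e2 : 2 * C * 2 / c.CD * κ ^ (1 / 150 : ℝ) =
          (2 * C * 2 * κ ^ (1 / 150 : ℝ)) / c.CD := by ring
      rw [e2, div_le_iff₀ hCD] at a1
      linarith
    have e3 : C * κ ^ (1 / 150 : ℝ) * (2 * (c.C0c * k0⁻¹)) =
        c.C0c * k0⁻¹ * (2 * C * 2 * κ ^ (1 / 150 : ℝ)) / 2 := by ring
    rw [e3]
    have e4 := mul_le_mul_of_nonneg_left e1 (show 0 ≤ c.C0c * k0⁻¹ by positivity)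
    linarith
  have b2 : C * κ ^ E2 d al * ANF.Glob.TL d s (m * κ) ≤ c.C0c * k0⁻¹ * c.CD * κ ^ x.v / 2 := by
    have e1 : C * κ ^ E2 d al * ANF.Glob.TL d s (m * κ) ≤
        C * κ ^ E2 d al * (CTL d m * κ ^ (-NTL d al)) :=
      mul_le_mul_of_nonneg_left htl (mul_nonneg hC (Real.rpow_nonneg hκ.le _))
    have e2 : κ ^ E2 d al * κ ^ (-NTL d al) = κ ^ (2 : ℝ) := by
      rw [← Real.rpow_add hκ]
      unfold E2
      ring_nf
    have e3 : κ ^ (2 : ℝ) ≤ k0 * κ ^ x.v := by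
      have f1 : κ ^ (2 : ℝ) = κ * κ ^ (1 : ℝ) := by
        rw [Real.rpow_one, Real.rpow_two]
        ring
      rw [f1]
      have hv1 : x.v ≤ 1 := by linarith [x.v_lt]
      exact mul_le_mul hκk (pow_mono hκ hκ1 hv1) (Real.rpow_nonneg hκ.le _) hk0.le
    have e4 : 1 ≤ k0⁻¹ := (one_le_inv₀ hk0).2 hk1
    calc C * κ ^ E2 d al * ANF.Glob.TL d s (m * κ)
        ≤ C * κ ^ E2 d al * (CTL d m * κ ^ (-NTL d al)) := e1
      _ = C * CTL d m * (κ ^ E2 d al * κ ^ (-NTL d al)) := by ring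
      _ ≤ C * CTL d m * (k0 * κ ^ x.v) := by
          rw [e2]
          exact mul_le_mul_of_nonneg_left e3 (mul_nonneg hC hCT)
      _ = (C * CTL d m * k0) * (1 * κ ^ x.v) := by ring
      _ ≤ c.C0c * c.CD / 2 * (k0⁻¹ * κ ^ x.v) := by
          apply mul_le_mul a2 _ (by positivity) (by positivity)
          exact mul_le_mul_of_nonneg_right e4 p1
      _ = _ := by ring
  linarith

/-- cA, cS, c1 -/
theorem ev_cA (hc : c.Pos) (hc1 : 0 < c1) : ∀ᶠ κ in 𝓝[>] (0 : ℝ),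
    3 * (3 * κ ^ (1 / 64 : ℝ) / c1) + 6 * κ ^ (1 / 400 : ℝ) ≤ c.Ce * cmH c c1 ∧
    2 * (3 * κ ^ (1 / 64 : ℝ) / c1) + 6 * κ ^ (1 / 400 : ℝ) ≤ c.dS ∧
    2 * (3 * κ ^ (1 / 64 : ℝ) / c1) + 6 * κ ^ (1 / 400 : ℝ) ≤ 1 := by
  have hcm := cmH_pos hc hc1
  have hCe := hc.Ce
  have hdS := hc.dS
  obtain ⟨e, he⟩ : ∃ e, e = min (c.Ce * cmH c c1) (min c.dS 1) := ⟨_, rfl⟩
  have he0 : 0 < e := by
    rw [he]
    exact lt_min (by positivity) (lt_min hdS one_pos)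
  have a1 := ev_le (9 / c1) (b := 1 / 64) (by norm_num) (half_pos he0) 0
  have a2 := ev_le 6 (b := 1 / 400) (by norm_num) (half_pos he0) 0
  filter_upwards [a1, a2, ev_small one_pos] with κ a1 a2 hk
  rw [pow_zero, mul_one] at a1 a2
  have p1 : 0 ≤ κ ^ (1 / 64 : ℝ) := Real.rpow_nonneg hk.1.le _
  have e1 : 3 * (3 * κ ^ (1 / 64 : ℝ) / c1) = 9 / c1 * κ ^ (1 / 64 : ℝ) := by ring
  have e2 : 2 * (3 * κ ^ (1 / 64 : ℝ) / c1) ≤ 9 / c1 * κ ^ (1 / 64 : ℝ) := by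
    have : 0 ≤ κ ^ (1 / 64 : ℝ) / c1 := by positivity
    have e3 : 9 / c1 * κ ^ (1 / 64 : ℝ) = 9 * (κ ^ (1 / 64 : ℝ) / c1) := by ring
    have e4 : 2 * (3 * κ ^ (1 / 64 : ℝ) / c1) = 6 * (κ ^ (1 / 64 : ℝ) / c1) := by ring
    rw [e3, e4]
    linarith
  have m1 : e ≤ c.Ce * cmH c c1 := by
    rw [he]
    exact min_le_left _ _
  have m2 : e ≤ c.dS := by
    rw [he]
    exact (min_le_right _ _).trans (min_le_left _ _)
  have m3 : e ≤ 1 := by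
    rw [he]
    exact (min_le_right _ _).trans (min_le_right _ _)
  refine ⟨?_, ?_, ?_⟩
  · rw [e1]
    linarith
  · linarith
  · linarith

/-- `kerN exp (-(ν / 4) ⌊s / 2⌋)` is smaller than every power of `κ` -/
theorem ev_kerN (h : StC d c C1 c1 rho ρ) (A M : ℝ) {al : ℕ} (hal : 2 ≤ al) :
    ∀ᶠ k0 in 𝓝[>] (0 : ℝ), ∀ j n cc : ℕ, LvN k0 al j n cc → ∀ (f : AND.Fix) (u : AND.UTol),
      f.C1 = C1 → f.c1 = c1 → u.rho = rho →
      ∀ Lm : ℝ, 0 ≤ Lm → Lm ≤ kap k0 n ^ (-1 : ℝ) →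
      AND.kerN f Lm (AND.farQ d f u (mu0 d c c1 * kap k0 n) (kap k0 n ^ (-A)) 4 cc)
        (mu0 d c c1 * kap k0 n) 4 cc *
        Real.exp (-(AND.farν f u (mu0 d c c1 * kap k0 n) 4 / 4 *
          ((side k0 al j / 2 : ℕ) : ℝ))) ≤ kap k0 n ^ M := by
  have hm := mu0_pos h.d0 h.pos h.hc1
  obtain ⟨ht0, ht1⟩ := tHc_pos h
  have hc1 := h.hc1
  obtain ⟨B, hB⟩ : ∃ B : ℝ, B = tHc c1 C1 rho * mu0 d c c1 / 32 := ⟨_, rfl⟩
  have hB0 : 0 < B := by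
    rw [hB]
    positivity
  obtain ⟨C, hC⟩ : ∃ C : ℝ, C = 2 * (4 * (1 + 1 / c1) ^ 2 * Real.exp (B / 2)) := ⟨_, rfl⟩
  have hC0 : 0 ≤ C := by
    rw [hC]
    positivity
  filter_upwards [ev_kerC h A hC0 0 M (θ := B / 2) (by positivity) hal,
    ev_decC h hC0 0 M (θ := B / 2) (by positivity) hal, ev_small one_pos]
    with k0 a1 a2 hk j n cc hn f u hf1 hf2 hu Lm hL0 hL
  have hκ := kap_pos hk.1 n
  have hκ1 : kap k0 n ≤ 1 := (kap_le hk.1 n).trans hk.2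
  have a1 := a1 j n cc hn f u hf1 hf2 hu Lm hL0 hL
  have a2 := a2 j n cc hn Lm hL0 hL
  rw [farν_eq hf1 hf2 hu]
  unfold AND.kerN
  rw [hf1, hf2]
  set κ := kap k0 n with hκd
  set kc := AND.kerC C1 Lm (AND.farQ d f u (mu0 d c c1 * κ) (κ ^ (-A)) 4 cc)
    (mu0 d c c1 * κ) 4 cc with hkc
  set dc := AND.decC C1 Lm (mu0 d c c1 * κ) 4 cc with hdc
  obtain ⟨s, hs⟩ : ∃ s : ℕ, s = side k0 al j := ⟨_, rfl⟩
  rw [← hs] at a1 a2 ⊢
  rw [neg_zero, Real.rpow_zero, mul_one] at a1 a2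
  have hkc0 : 0 ≤ kc := by
    have h1 : 0 ≤ AND.farQ d f u (mu0 d c c1 * κ) (κ ^ (-A)) 4 cc := by
      rw [farQ_eqA h hκ hf1 hf2 hu]
      have := CQ_pos h
      positivity
    rw [hkc]
    unfold AND.kerC
    positivity
  have h1 : (s : ℝ) / 2 - 1 / 2 ≤ ((s / 2 : ℕ) : ℝ) := by
    have h2 : s ≤ 2 * (s / 2) + 1 := by omega
    have h3 : (s : ℝ) ≤ 2 * ((s / 2 : ℕ) : ℝ) + 1 := by exact_mod_cast h2
    linarith
  have h2 : Real.exp (-(tHc c1 C1 rho * mu0 d c c1 / 8 * κ / 4 * ((s / 2 : ℕ) : ℝ))) ≤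
      Real.exp (B / 2) * Real.exp (-(B / 2 * (κ * s))) := by
    rw [← Real.exp_add]
    apply Real.exp_le_exp.2
    have e1 : tHc c1 C1 rho * mu0 d c c1 / 8 * κ / 4 = B * κ := by
      rw [hB]
      ring
    rw [e1]
    have h3 : B * κ * ((s : ℝ) / 2 - 1 / 2) ≤ B * κ * ((s / 2 : ℕ) : ℝ) :=
      mul_le_mul_of_nonneg_left h1 (by positivity)
    have h4 : B * κ ≤ B := mul_le_of_le_one_right hB0.le hκ1
    linarith
  have h3 : 0 ≤ 4 * (kc + dc ^ 2) * (1 + 1 / c1) ^ 2 := by positivity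
  calc 4 * (kc + dc ^ 2) * (1 + 1 / c1) ^ 2 *
        Real.exp (-(tHc c1 C1 rho * mu0 d c c1 / 8 * κ / 4 * ((s / 2 : ℕ) : ℝ)))
      ≤ 4 * (kc + dc ^ 2) * (1 + 1 / c1) ^ 2 *
        (Real.exp (B / 2) * Real.exp (-(B / 2 * (κ * s)))) := mul_le_mul_of_nonneg_left h2 h3
    _ = (C * (kc * Real.exp (-(B / 2 * (κ * s)))) +
        C * (dc ^ 2 * Real.exp (-(B / 2 * (κ * s))))) / 2 := by
        rw [hC]
        ring
    _ ≤ κ ^ M := by linarith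

/-- lower bound of the masses -/
noncomputable def mAV (c : Cst) (c1 : ℝ) (k0 : ℝ) (n : ℕ) : ℝ :=
  min (c.cl * c1 * c1) (c.cs * c1) * kap k0 (n + 1)

/-- exponent and constant of the anchor constant -/
noncomputable def NKa (d al : ℕ) : ℝ := 2 * al * d + 2 * al

noncomputable def CKa (d : ℕ) (c : Cst) (c1 : ℝ) : ℝ :=
  12 * 65 ^ d * (4 / min (c.cl * c1 * c1) (c.cs * c1) + d * 147 * (2 / c.D0c))

theorem ka_le (x : Ex d CM) (h : StC d c C1 c1 rho ρ) {k0 : ℝ} (hk : 0 < k0) (hk1 : k0 < 1)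
    {j n cc : ℕ} (hn : LvN k0 x.al j n cc) {Ki : ℝ}
    (hKi : Ki = c.D0c * k0 ^ (-(1 - 2 * x.e)) / 2) :
    ANF.Glob.KaC d (2 * side k0 x.al j + cc + 1) ((2 * (side k0 x.al j : ℝ) + 1) ^ d)
      (mAV c c1 k0 n) Ki ≤ CKa d c c1 * kap k0 n ^ (-NKa d x.al) := by
  have hκ := kap_pos hk n
  have hκ1 : kap k0 n ≤ 1 := (kap_le hk n).trans hk1.le
  have hs := hn.side_le hk hk1 x.al2
  have hcc := hn.cc_le hk
  have hs1 : kap k0 (n + 1) = kap k0 n / 4 := kap_succ k0 n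
  have hc1 := h.hc1
  have hcl := h.pos.cl
  have hcs := h.pos.cs
  have hD := h.pos.D0c
  unfold ANF.Glob.KaC CKa mAV
  rw [hs1]
  set κ := kap k0 n with hκd
  set s := side k0 x.al j with hsd
  obtain ⟨m1, hm1⟩ : ∃ m1, m1 = min (c.cl * c1 * c1) (c.cs * c1) := ⟨_, rfl⟩
  have hm10 : 0 < m1 := by
    rw [hm1]
    exact lt_min (by positivity) (by positivity)
  rw [← hm1]
  have hal : (2 : ℝ) ≤ x.al := by exact_mod_cast x.al2
  have hd0 : (0 : ℝ) ≤ d := Nat.cast_nonneg _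
  set q := κ ^ (-(2 * x.al) : ℝ) with hq
  have hq1 : 1 ≤ q := Real.one_le_rpow_of_pos_of_le_one_of_nonpos hκ hκ1 (by linarith)
  have hq2 : κ ^ (-2 : ℝ) ≤ q := pow_mono hκ hκ1 (by linarith)
  have hq3 : κ ^ (-1 : ℝ) ≤ q := pow_mono hκ hκ1 (by linarith)
  have hD1 : c.D0c / 2 ≤ Ki := by
    rw [hKi]
    have h1 : 1 ≤ k0 ^ (-(1 - 2 * x.e)) :=
      Real.one_le_rpow_of_pos_of_le_one_of_nonpos hk hk1.le (by rw [x.e_eq]; norm_num)
    have h2 := mul_le_mul_of_nonneg_left h1 hD.le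
    linarith
  have hKi0 : 0 < Ki := lt_of_lt_of_le (by positivity) hD1
  have b1 : (2 * (s : ℝ) + 1) ^ d ≤ 65 ^ d * κ ^ (-(2 * x.al * d) : ℝ) := by
    have e1 : 2 * (s : ℝ) + 1 ≤ 65 * q := by linarith
    refine (pow_le_pow_left₀ (by positivity) e1 d).trans (le_of_eq ?_)
    rw [mul_pow, hq, ← Real.rpow_natCast (κ ^ (-(2 * x.al) : ℝ)), ← Real.rpow_mul hκ.le]
    ring_nf
  have b2 : 1 / (m1 * (κ / 4)) ≤ 4 / m1 * q := by
    have e1 : 1 / (m1 * (κ / 4)) = 4 / m1 * κ ^ (-1 : ℝ) := by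
      rw [Real.rpow_neg_one]
      field_simp
    rw [e1]
    exact mul_le_mul_of_nonneg_left hq3 (by positivity)
  have b3 : (d : ℝ) * (2 * ((2 * s + cc + 1 : ℕ) : ℝ) + 1) / Ki ≤ d * 147 * (2 / c.D0c) * q := by
    have e1 : 2 * ((2 * s + cc + 1 : ℕ) : ℝ) + 1 ≤ 147 * q := by
      push_cast
      linarith
    have e2 : 1 / Ki ≤ 2 / c.D0c := by
      rw [div_le_div_iff₀ hKi0 hD]
      linarith
    have e3 : (d : ℝ) * (2 * ((2 * s + cc + 1 : ℕ) : ℝ) + 1) / Ki =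
        (d * (2 * ((2 * s + cc + 1 : ℕ) : ℝ) + 1)) * (1 / Ki) := by ring
    rw [e3]
    have e4 : (d : ℝ) * (2 * ((2 * s + cc + 1 : ℕ) : ℝ) + 1) ≤ d * (147 * q) :=
      mul_le_mul_of_nonneg_left e1 hd0
    calc (d * (2 * ((2 * s + cc + 1 : ℕ) : ℝ) + 1)) * (1 / Ki)
        ≤ (d * (147 * q)) * (2 / c.D0c) := mul_le_mul e4 e2 (by positivity) (by positivity)
      _ = _ := by ring
  have b4 : 1 / (m1 * (κ / 4)) + (d : ℝ) * (2 * ((2 * s + cc + 1 : ℕ) : ℝ) + 1) / Ki ≤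
      (4 / m1 + d * 147 * (2 / c.D0c)) * q := by
    rw [add_mul]
    exact add_le_add b2 b3
  have e5 : κ ^ (-NKa d x.al) = κ ^ (-(2 * x.al * d) : ℝ) * q := by
    rw [hq, ← Real.rpow_add hκ]
    unfold NKa
    ring_nf
  rw [e5]
  have p1 : 0 ≤ κ ^ (-(2 * x.al * d) : ℝ) := Real.rpow_nonneg hκ.le _
  calc 12 * (2 * (s : ℝ) + 1) ^ d * (1 / (m1 * (κ / 4)) +
        (d : ℝ) * (2 * ((2 * s + cc + 1 : ℕ) : ℝ) + 1) / Ki)
      ≤ 12 * (65 ^ d * κ ^ (-(2 * x.al * d) : ℝ)) *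
        ((4 / m1 + d * 147 * (2 / c.D0c)) * q) := by
        apply mul_le_mul _ b4 (by positivity) (by positivity)
        exact mul_le_mul_of_nonneg_left b1 (by norm_num)
    _ = _ := by ring

/-- THE NUMBERS OF (H4) IN A STEP -/
theorem ev_h4 (x : Ex d CM) (h : StC d c C1 c1 rho ρ) (A : ℝ) :
    ∀ᶠ k0 in 𝓝[>] (0 : ℝ), ∀ eta : ℝ, 0 ≤ eta → ∀ j n cc : ℕ, LvN k0 x.al j n cc →
      ∀ (f : AND.Fix) (u : AND.UTol), f.C1 = C1 → f.c1 = c1 → u.rho = rho →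
      u.Ki = c.D0c * k0 ^ (-(1 - 2 * x.e)) / 2 → 0 ≤ u.C0 → u.C0 ≤ 2 * (c.C0c * k0⁻¹) →
      ∀ Lm : ℝ, 0 ≤ Lm → Lm ≤ kap k0 n ^ (-1 : ℝ) →
      ∀ ε : ℝ, 0 ≤ ε → ε ≤ 125 * kap k0 n ^ (1 / 140 : ℝ) →
      ANF.Glob.NumH4 d (side k0 x.al j) n (parV x c k0 eta)
        (AND.farν f u (mu0 d c c1 * kap k0 n) 4 / 4)
        (AND.kerN f Lm (AND.farQ d f u (mu0 d c c1 * kap k0 n) (kap k0 n ^ (-A)) 4 cc)
          (mu0 d c c1 * kap k0 n) 4 cc) ε f.C1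
        (ANF.Glob.KaC d (2 * side k0 x.al j + cc + 1) ((2 * (side k0 x.al j : ℝ) + 1) ^ d)
          (mAV c c1 k0 n) u.Ki) u.C0
        (kap k0 n ^ (1 / 150 : ℝ)) (kap k0 n ^ E2 d x.al) (3 * kap k0 n ^ (1 / 64 : ℝ) / c1)
        (kap k0 n ^ (1 / 400 : ℝ)) (cmH c c1) := by
  have hm := mu0_pos h.d0 h.pos h.hc1
  obtain ⟨ht0, ht1⟩ := tHc_pos h
  have hc1 := h.hc1
  have hC1 : 0 < C1 := by linarith [h.hC1]
  obtain ⟨m, hmd⟩ : ∃ m : ℝ, m = tHc c1 C1 rho * mu0 d c c1 / 32 := ⟨_, rfl⟩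
  have hm0 : 0 < m := by
    rw [hmd]
    positivity
  have hCSR := CSR_pos d hm0
  have hd0 : (0 : ℝ) ≤ d := Nat.cast_nonneg _
  have hal0 : (0 : ℝ) ≤ x.al := Nat.cast_nonneg _
  -- the exponent of the tails
  obtain ⟨MH, hMH⟩ : ∃ MH : ℝ, MH = NS d x.al + NKa d x.al + E2 d x.al + 2 := ⟨_, rfl⟩
  obtain ⟨CA, hCA⟩ : ∃ CA : ℝ, CA = 4 * (C1 * CSR d m * CKa d c c1) := ⟨_, rfl⟩
  obtain ⟨CB, hCB⟩ : ∃ CB : ℝ, CB = C1 * (12 * (C1 * CSR d m) + 4 * 65 ^ d) := ⟨_, rfl⟩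
  have t1 := ev_kap (ev_le 250 (b := 1 / 140 - 1 / 150) (by norm_num)
    (show (0 : ℝ) < 1 / 2 by norm_num) 0)
  have t2 := ev_kap (ev_le 125 (b := 1 / 140) (by norm_num) one_pos 0)
  have t3 := ev_kap (ev_le CA (b := 1) one_pos (show (0 : ℝ) < 1 / 2 by norm_num) 0)
  have t4 := ev_kap (ev_le CB (b := 1) one_pos one_pos 0)
  have t5 := ev_kap (ev_cA h.pos hc1)
  have t6 := ev_kap (ev_nE x 4 (by norm_num) x.al)
  have t7 := ev_nD x h.pos (2 * (2 + 144 * (d : ℝ) ^ 2)) (by positivity) hm0 x.al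
  have t8 := ev_nC x h.pos (2 + 144 * (d : ℝ) ^ 2) (by positivity) hm0 x.al
  filter_upwards [ev_kerN h A MH x.al2, t1, t2, t3, t4, t5, t6, t7, t8,
    ev_small (show (0 : ℝ) < 1 / 256 by norm_num)] with k0 t0 t1 t2 t3 t4 t5 t6 t7 t8 hk eta he
    j n cc hn f u hf1 hf2 hu hKi hC00 hC01 Lm hL0 hL ε hε0 hε
  have hk0 := hk.1
  have hk1 : k0 < 1 := lt_of_le_of_lt hk.2 (by norm_num)
  have hκ := kap_pos hk0 n
  have hκ1 : kap k0 n ≤ 1 := (kap_le hk0 n).trans hk1.le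
  have hs := hn.side_le hk0 hk1 x.al2
  have t0 := t0 j n cc hn f u hf1 hf2 hu Lm hL0 hL
  have hka := ka_le x h hk0 hk1 hn hKi
  have t1 := t1 n
  have t2 := t2 n
  have t3 := t3 n
  have t4 := t4 n
  obtain ⟨u1, u2, u3⟩ := t5 n
  have t6 := t6 n
  have t7 := t7 n _ hs
  have t8 := t8 n _ hs
  rw [pow_zero, mul_one] at t1 t2 t3 t4
  rw [Real.rpow_one] at t3 t4
  have hν : AND.farν f u (mu0 d c c1 * kap k0 n) 4 / 4 = m * kap k0 n := by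
    rw [farν_eq hf1 hf2 hu, hmd]
    ring
  rw [hν] at t0 ⊢
  set κ := kap k0 n with hκd
  have hsr := sr_le (d := d) hκ hκ1 hm0 hs
  have hsr0 : 0 ≤ ANF.Glob.SR d (side k0 x.al j) (m * κ) := by
    unfold ANF.Glob.SR ANM.sumC
    positivity
  have htl0 : 0 ≤ ANF.Glob.TL d (side k0 x.al j) (m * κ) := by
    unfold ANF.Glob.TL ANM.sumC
    positivity
  obtain ⟨s, hsd⟩ : ∃ s : ℕ, s = side k0 x.al j := ⟨_, rfl⟩
  have hs16 : 2 ≤ s := by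
    have h1 := hn.side_ge hk0 hk1
    rw [← hκd, ← hsd] at h1
    have h2 : (2 : ℝ) ≤ κ ^ (-2 : ℝ) := by
      have h3 : κ ≤ 1 / 2 := ((kap_le hk0 n).trans hk.2).trans (by norm_num)
      rw [Real.rpow_neg hκ.le, Real.rpow_two]
      have h4 : κ ^ 2 ≤ (1 / 2) ^ 2 := pow_le_pow_left₀ hκ.le h3 2
      have h5 : 0 < κ ^ 2 := by positivity
      rw [le_inv_comm₀ (by norm_num) h5]
      linarith only [h4]
    exact_mod_cast h2.trans h1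
  rw [← hsd] at hsr hsr0 htl0 hka t0 t7 t8 hs ⊢
  set K := AND.kerN f Lm (AND.farQ d f u (mu0 d c c1 * κ) (κ ^ (-A)) 4 cc)
    (mu0 d c c1 * κ) 4 cc with hK
  set Ka := ANF.Glob.KaC d (2 * s + cc + 1) ((2 * (s : ℝ) + 1) ^ d) (mAV c c1 k0 n) u.Ki with hKad
  set SRs := ANF.Glob.SR d s (m * κ) with hSRs
  set TLs := ANF.Glob.TL d s (m * κ) with hTLs
  have hK0 : 0 ≤ K := by
    have h1 : 0 ≤ AND.farQ d f u (mu0 d c c1 * κ) (κ ^ (-A)) 4 cc := by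
      rw [farQ_eqA h hκ hf1 hf2 hu]
      have := CQ_pos h
      positivity
    rw [hK]
    unfold AND.kerN AND.kerC
    rw [hf2, hf1]
    positivity
  have hKiP : 0 < u.Ki := by
    rw [hKi]
    have := h.pos.D0c
    have : 0 < k0 ^ (-(1 - 2 * x.e)) := Real.rpow_pos_of_pos hk0 _
    positivity
  have hmA : 0 < mAV c c1 k0 n := by
    unfold mAV
    have h1 := h.pos.cl
    have h2 := h.pos.cs
    have h3 : 0 < min (c.cl * c1 * c1) (c.cs * c1) := lt_min (by positivity) (by positivity)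
    have h4 := kap_pos hk0 (n + 1)
    positivity
  have hKa0 : 0 ≤ Ka := ANF.Glob.KaC_nonneg (by positivity) hmA hKiP
  have hCKa : 0 ≤ CKa d c c1 := by
    have h1 := h.pos.cl
    have h2 := h.pos.cs
    have h3 := h.pos.D0c
    have h4 : 0 < min (c.cl * c1 * c1) (c.cs * c1) := lt_min (by positivity) (by positivity)
    unfold CKa
    positivity
  have hE0 : 0 ≤ Real.exp (-(m * κ * ((s / 2 : ℕ) : ℝ))) := (Real.exp_pos _).le
  -- `ε`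
  have hε1 : ε ≤ 1 := hε.trans t2
  have he1a : ε * (1 + ε) ≤ κ ^ (1 / 150 : ℝ) / 2 := by
    have e1 : κ ^ (1 / 140 : ℝ) = κ ^ (1 / 140 - 1 / 150 : ℝ) * κ ^ (1 / 150 : ℝ) := by
      rw [← Real.rpow_add hκ]
      norm_num
    have e2 : ε * (1 + ε) ≤ ε * 2 :=
      mul_le_mul_of_nonneg_left (by linarith only [hε1]) hε0
    have e3 : 0 ≤ κ ^ (1 / 150 : ℝ) := Real.rpow_nonneg hκ.le _
    have e4 := mul_le_mul_of_nonneg_right t1 e3
    rw [mul_assoc, ← e1] at e4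
    linarith only [e2, e4, hε]
  -- powers
  have pMH : ∀ N E : ℝ, N + E + 1 ≤ MH → κ ^ MH * κ ^ (-N) ≤ κ * κ ^ E := by
    intro N E hNE
    have e1 : κ * κ ^ E = κ ^ (E + 1) := by
      rw [Real.rpow_add_one hκ.ne']
      ring
    rw [e1, ← Real.rpow_add hκ]
    exact pow_mono hκ hκ1 (by linarith only [hNE])
  have hE2 : 1 / 150 ≤ E2 d x.al := by
    unfold E2 NTL
    linarith only [hal0, hd0]
  have hNS : 0 ≤ NS d x.al := by
    unfold NS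
    positivity
  have hNKa : 0 ≤ NKa d x.al := by
    unfold NKa
    positivity
  have hc2d : (2 * (s : ℝ) + 1) ^ d ≤ 65 ^ d * κ ^ (-NS d x.al) := by
    have hq1 : 1 ≤ κ ^ (-(2 * x.al) : ℝ) :=
      Real.one_le_rpow_of_pos_of_le_one_of_nonpos hκ hκ1 (by linarith only [hal0])
    have e1 : 2 * (s : ℝ) + 1 ≤ 65 * κ ^ (-(2 * x.al) : ℝ) := by linarith only [hs, hq1]
    refine (pow_le_pow_left₀ (by positivity) e1 d).trans ?_
    rw [mul_pow, ← Real.rpow_natCast (κ ^ (-(2 * x.al) : ℝ)), ← Real.rpow_mul hκ.le]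
    apply mul_le_mul_of_nonneg_left _ (by positivity)
    apply pow_mono hκ hκ1
    unfold NS
    linarith only [hd0]
  refine ⟨hs16, hκ, hκ1, x.v_pos.le, h.pos.b.le, he, ?_, hC00, ?_, ?_, ?_, ?_, ?_, ?_,
    h.pos.Ce.le, u1, u2, u3⟩
  · -- bmu
    show c.b * κ ≤ m * κ / 4
    have e1 := h.b1
    have e2 : c.b ≤ m / 4 := by
      rw [hmd]
      have e3 : 0 ≤ c.b := h.pos.b.le
      linarith only [e1, e3]
    calc c.b * κ ≤ m / 4 * κ := mul_le_mul_of_nonneg_right e2 hκ.le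
      _ = _ := by ring
  · -- he1
    rw [hf1]
    have e1 : K * Real.exp (-(m * κ * ((s / 2 : ℕ) : ℝ))) * (C1 * SRs) * (Ka * (1 + ε) ^ 2) ≤
        κ ^ MH * (C1 * (CSR d m * κ ^ (-NS d x.al))) *
          (CKa d c c1 * κ ^ (-NKa d x.al) * 4) := by
      have f0 : 1 + ε ≤ 2 := by linarith only [hε1]
      have f1 : (1 + ε) ^ 2 ≤ 4 :=
        (pow_le_pow_left₀ (by linarith only [hε0]) f0 2).trans (by norm_num)
      have f2 : C1 * SRs ≤ C1 * (CSR d m * κ ^ (-NS d x.al)) :=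
        mul_le_mul_of_nonneg_left hsr hC1.le
      have f3 : Ka * (1 + ε) ^ 2 ≤ CKa d c c1 * κ ^ (-NKa d x.al) * 4 :=
        mul_le_mul hka f1 (by positivity) (mul_nonneg hCKa (Real.rpow_nonneg hκ.le _))
      have f4 : 0 ≤ κ ^ MH := Real.rpow_nonneg hκ.le _
      have f5 : 0 ≤ κ ^ (-NS d x.al) := Real.rpow_nonneg hκ.le _
      exact mul_le_mul (mul_le_mul t0 f2 (by positivity) f4) f3 (by positivity) (by positivity)
    have e2 : κ ^ MH * (C1 * (CSR d m * κ ^ (-NS d x.al))) *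
        (CKa d c c1 * κ ^ (-NKa d x.al) * 4) =
        CA * (κ ^ MH * κ ^ (-(NS d x.al + NKa d x.al))) := by
      have f1 : κ ^ (-(NS d x.al + NKa d x.al)) = κ ^ (-NS d x.al) * κ ^ (-NKa d x.al) := by
        rw [← Real.rpow_add hκ]
        ring_nf
      rw [f1, hCA]
      ring
    have hCA0 : 0 ≤ CA := by
      rw [hCA]
      positivity
    have e3 := pMH (NS d x.al + NKa d x.al) (1 / 150) (by rw [hMH]; linarith only [hE2])
    have e4 := mul_le_mul_of_nonneg_left e3 hCA0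
    have e5 : 0 ≤ κ ^ (1 / 150 : ℝ) := Real.rpow_nonneg hκ.le _
    have e6 := mul_le_mul_of_nonneg_right t3 e5
    rw [e2] at e1
    linarith only [e1, e4, e6, he1a]
  · -- he2
    rw [hf1]
    have e1 : C1 * (12 * (C1 * SRs) + 4 * (2 * (s : ℝ) + 1) ^ d) ≤ CB * κ ^ (-NS d x.al) := by
      rw [hCB, mul_assoc]
      apply mul_le_mul_of_nonneg_left _ hC1.le
      rw [add_mul]
      apply add_le_add
      · calc 12 * (C1 * SRs) ≤ 12 * (C1 * (CSR d m * κ ^ (-NS d x.al))) :=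
              mul_le_mul_of_nonneg_left (mul_le_mul_of_nonneg_left hsr hC1.le) (by norm_num)
          _ = _ := by ring
      · calc 4 * (2 * (s : ℝ) + 1) ^ d ≤ 4 * (65 ^ d * κ ^ (-NS d x.al)) :=
              mul_le_mul_of_nonneg_left hc2d (by norm_num)
          _ = _ := by ring
    have e2 : 0 ≤ C1 * (12 * (C1 * SRs) + 4 * (2 * (s : ℝ) + 1) ^ d) := by positivity
    have hCB0 : 0 ≤ CB := by
      rw [hCB]
      positivity
    have e3 := pMH (NS d x.al) (E2 d x.al) (by rw [hMH]; linarith only [hNKa])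
    have f4 : 0 ≤ κ ^ MH := Real.rpow_nonneg hκ.le _
    have f5 : 0 ≤ κ ^ E2 d x.al := Real.rpow_nonneg hκ.le _
    calc K * Real.exp (-(m * κ * ((s / 2 : ℕ) : ℝ))) *
          (C1 * (12 * (C1 * SRs) + 4 * (2 * (s : ℝ) + 1) ^ d))
        ≤ κ ^ MH * (CB * κ ^ (-NS d x.al)) := mul_le_mul t0 e1 e2 f4
      _ = CB * (κ ^ MH * κ ^ (-NS d x.al)) := by ring
      _ ≤ CB * (κ * κ ^ E2 d x.al) := mul_le_mul_of_nonneg_left e3 hCB0
      _ = (CB * κ) * κ ^ E2 d x.al := by ring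
      _ ≤ 1 * κ ^ E2 d x.al := mul_le_mul_of_nonneg_right t4 f5
      _ = _ := one_mul _
  · -- nD
    show 2 * κ ^ (1 / 150 : ℝ) * (u.C0 * (2 + 144 * (d : ℝ) ^ 2)) + 2 * κ ^ E2 d x.al * TLs ≤
      c.D0c * k0 ^ (-(1 - 2 * x.e)) * c.CD * κ ^ x.v
    refine le_trans (add_le_add ?_ ?_) t7
    · have f1 : 0 ≤ κ ^ (1 / 150 : ℝ) := Real.rpow_nonneg hκ.le _
      calc 2 * κ ^ (1 / 150 : ℝ) * (u.C0 * (2 + 144 * (d : ℝ) ^ 2))
          = 2 * (2 + 144 * (d : ℝ) ^ 2) * κ ^ (1 / 150 : ℝ) * u.C0 := by ring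
        _ ≤ _ := mul_le_mul_of_nonneg_left hC01 (by positivity)
    · have f1 : 0 ≤ κ ^ E2 d x.al := Real.rpow_nonneg hκ.le _
      apply mul_le_mul_of_nonneg_right _ htl0
      apply mul_le_mul_of_nonneg_right _ f1
      linarith only [sq_nonneg (d : ℝ)]
  · -- nC
    show ε * (u.C0 * (2 + 144 * (d : ℝ) ^ 2)) + κ ^ E2 d x.al * TLs ≤
      c.C0c * k0⁻¹ * c.CD * κ ^ x.v
    refine le_trans (add_le_add ?_ ?_) t8
    · have f1 : 0 ≤ κ ^ (1 / 150 : ℝ) := Real.rpow_nonneg hκ.le _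
      have f2 : ε ≤ κ ^ (1 / 150 : ℝ) := by
        have f3 : ε ≤ ε * (1 + ε) := le_mul_of_one_le_right hε0 (by linarith only [hε0])
        have f4 : 0 ≤ κ ^ (1 / 150 : ℝ) := Real.rpow_nonneg hκ.le _
        linarith only [f3, f4, he1a]
      calc ε * (u.C0 * (2 + 144 * (d : ℝ) ^ 2))
          ≤ κ ^ (1 / 150 : ℝ) * (u.C0 * (2 + 144 * (d : ℝ) ^ 2)) :=
            mul_le_mul_of_nonneg_right f2 (by positivity)
        _ = (2 + 144 * (d : ℝ) ^ 2) * κ ^ (1 / 150 : ℝ) * u.C0 := by ring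
        _ ≤ _ := mul_le_mul_of_nonneg_left hC01 (by positivity)
    · have f1 : 0 ≤ κ ^ E2 d x.al := Real.rpow_nonneg hκ.le _
      apply mul_le_mul_of_nonneg_right _ htl0
      refine le_mul_of_one_le_left f1 ?_
      linarith only [sq_nonneg (d : ℝ)]
  · -- nE
    show 4 * κ ^ (1 / 150 : ℝ) + 2 * κ ^ E2 d x.al ≤ κ ^ (1 / 400 : ℝ) * κ ^ x.v
    have f1 : 0 ≤ κ ^ E2 d x.al := Real.rpow_nonneg hκ.le _
    linarith only [t6, f1]
  · -- cr0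
    have f1 : 0 ≤ κ ^ (1 / 64 : ℝ) := Real.rpow_nonneg hκ.le _
    positivity

end Pool.Agent.ANC
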