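import Pool.Agent.ANC.StepH4
import Pool.Agent.ANS.StepForm

/-!
# ANC / StepH4N: ALL NUMBERS `AND.H4Num` OF THE FORM FIELDS for `parV` (helper18)

* `ev_wd` : weak outcomes;   `ev_h4num` : `AND.H4Num` with `mA = mAV c c1 k0 n`, `e1 = κ^(1/150)`, `e2 = κ^(E2 d x.al)`,
  `cρ = 3 κ^(1/64) / c1`, `ce = κ^(1/400)`, `cm = cmH c c1`, `de = 30 κ^(1/140)`, `ze = κ^(1/64)`, `an = aeB`.
-/

open Filter Topology Real

namespace Pool.Agent.ANC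

variable {d : ℕ} {CM : ℝ} {c : Cst} {C1 c1 rho ρ : ℝ}

/-- weak outcomes -/
theorem ev_wd (x : Ex d CM) (hc : c.Pos) (hC : 0 < C1) (c1 : ℝ) :
    ∀ᶠ k0 in 𝓝[>] (0 : ℝ), ∀ eta : ℝ, 0 ≤ eta → eta ≤ k0 → ∀ n,
      (c.e0c * k0 ^ (x.e / 4 - 1) + c.Ce * aeB k0 eta x.vi n) * (eta * C1) +
        (2 * (3 * kap k0 n ^ (1 / 64 : ℝ) / c1) + 6 * kap k0 n ^ (1 / 400 : ℝ)) ≤ c.dS := by
  have hdS := hc.dS
  have hCe := hc.Ce
  have he0 := hc.e0c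
  have hvi := x.vi_pos
  have hee := x.e_eq
  have a1 := ev_le (c.e0c * C1) (b := x.e / 4) (by rw [hee]; norm_num)
    (show 0 < c.dS / 4 by positivity) 0
  have a2 := ev_le (c.Ce * C1 * 2) (b := x.vi / 32) (by positivity)
    (show 0 < c.dS / 4 by positivity) 0
  have a3 := ev_kap (ev_le (6 / c1) (b := 1 / 64) (by norm_num)
    (show 0 < c.dS / 4 by positivity) 0)
  have a4 := ev_kap (ev_le 6 (b := 1 / 400) (by norm_num) (show 0 < c.dS / 4 by positivity) 0)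
  filter_upwards [a1, a2, a3, a4, ev_small one_pos] with k0 a1 a2 a3 a4 hk eta he he1 n
  have hk0 := hk.1
  have hk1 := hk.2
  have a3 := a3 n
  have a4 := a4 n
  rw [pow_zero, mul_one] at a1 a2 a3 a4
  have hκ := kap_pos hk0 n
  have b1 := aeB_eta hk0 hk1 he he1 hvi (ex_vi1 x) n
  have b2 := (aeB_pos (vi := x.vi) hk0 he n).le
  have p0 : 0 ≤ k0 ^ (x.e / 4 - 1) := Real.rpow_nonneg hk0.le _
  have e1 : k0 ^ (x.e / 4 - 1) * eta ≤ k0 ^ (x.e / 4) := by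
    calc k0 ^ (x.e / 4 - 1) * eta ≤ k0 ^ (x.e / 4 - 1) * k0 := mul_le_mul_of_nonneg_left he1 p0
      _ = k0 ^ (x.e / 4) := by
        rw [Real.rpow_sub_one hk0.ne']
        field_simp
  have e2 : aeB k0 eta x.vi n * eta ≤ 2 * k0 ^ (x.vi / 32) := by
    refine le_trans (mul_le_mul_of_nonneg_left ?_ b2) b1
    linarith only [hκ]
  have e3 : c.e0c * C1 * (k0 ^ (x.e / 4 - 1) * eta) ≤ c.e0c * C1 * k0 ^ (x.e / 4) :=
    mul_le_mul_of_nonneg_left e1 (by positivity)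
  have e4 : c.Ce * C1 * (aeB k0 eta x.vi n * eta) ≤ c.Ce * C1 * (2 * k0 ^ (x.vi / 32)) :=
    mul_le_mul_of_nonneg_left e2 (by positivity)
  have e5 : (c.e0c * k0 ^ (x.e / 4 - 1) + c.Ce * aeB k0 eta x.vi n) * (eta * C1) =
      c.e0c * C1 * (k0 ^ (x.e / 4 - 1) * eta) + c.Ce * C1 * (aeB k0 eta x.vi n * eta) := by ring
  have e6 : 2 * (3 * kap k0 n ^ (1 / 64 : ℝ) / c1) = 6 / c1 * kap k0 n ^ (1 / 64 : ℝ) := by ring
  rw [e5, e6]
  linarith only [a1, a2, a3, a4, e3, e4]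

/-- ALL NUMBERS OF THE FORM FIELDS -/
theorem ev_h4num (x : Ex d CM) (h : StC d c C1 c1 rho ρ) (A : ℝ) :
    ∀ᶠ k0 in 𝓝[>] (0 : ℝ), ∀ eta : ℝ, 0 ≤ eta → eta ≤ k0 → ∀ j n cc : ℕ, LvN k0 x.al j n cc →
      ∀ (f : AND.Fix) (u : AND.UTol), f.C1 = C1 → f.c1 = c1 → u.rho = rho →
      u.Ki = c.D0c * k0 ^ (-(1 - 2 * x.e)) / 2 → 0 ≤ u.C0 → u.C0 ≤ 2 * (c.C0c * k0⁻¹) →
      u.dS ≤ 1 → ∀ Lm : ℝ, 0 ≤ Lm → Lm ≤ kap k0 n ^ (-1 : ℝ) →
      AND.H4Num f (parV x c k0 eta) n (side k0 x.al j) d u (kap k0 n ^ (9 / 256 : ℝ))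
        (30 * kap k0 n ^ (1 / 140 : ℝ)) (mu0 d c c1 * kap k0 n) (kap k0 n ^ (-A))
        (kap k0 n ^ (1 / 64 : ℝ)) Lm (aeB k0 eta x.vi n) (mAV c c1 k0 n)
        (kap k0 n ^ (1 / 150 : ℝ)) (kap k0 n ^ E2 d x.al) (3 * kap k0 n ^ (1 / 64 : ℝ) / c1)
        (kap k0 n ^ (1 / 400 : ℝ)) (cmH c c1) 4 cc (lV d ρ (kap k0 n)) := by
  have hm := mu0_pos h.d0 h.pos h.hc1
  obtain ⟨ht0, ht1⟩ := tHc_pos h
  have hc1 := h.hc1
  have hC1 : 0 < C1 := by linarith [h.hC1]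
  have hcl := h.pos.cl
  have hcs := h.pos.cs
  obtain ⟨t, ht⟩ : ∃ t : ℝ, t = tHc c1 C1 rho * mu0 d c c1 / 8 := ⟨_, rfl⟩
  have htp : 0 < t := by
    rw [ht]
    positivity
  have a1 := ev_kap (ev_small (show 0 < 4 / t by positivity))
  have a2 := ev_kap (ev_le 30 (b := 1 / 140) (by norm_num) (show (0 : ℝ) < 1 / 4 by norm_num) 0)
  have a3 := ev_kap (ev_q d ρ C1 c1 4 (show (0 : ℝ) < 9 / 256 by norm_num))
  have a4 := ev_kap (ev_le (3 / c1) (b := 1 / 64) (by norm_num)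
    (show (0 : ℝ) < 1 / 2 by norm_num) 0)
  have a5 := ev_kap (ev_le 1 (b := 1 / 64) (by norm_num) (half_pos hc1) 0)
  filter_upwards [ev_h4 x h A, ev_wd x h.pos hC1 c1, ev_kap (ev_eps d ρ C1 c1), a1, a2, a3, a4, a5,
    ev_small one_pos] with k0 h4 hwd heps a1 a2 a3 a4 a5 hk eta he he1 j n cc hn f u hf1 hf2 hu
    hKi hC00 hC01 hdS Lm hL0 hL
  have hk0 := hk.1
  have hκ := kap_pos hk0 n
  have a1 := (a1 n).2
  have a2 := a2 n
  have a3 := a3 n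
  have a4 := a4 n
  have a5 := a5 n
  rw [pow_zero, mul_one] at a2 a4 a5
  rw [one_mul] at a5
  rw [Real.rpow_zero] at a3
  have hs : kap k0 (n + 1) = kap k0 n / 4 := kap_succ k0 n
  have hκ' := kap_pos hk0 (n + 1)
  have hν : AND.farν f u (mu0 d c c1 * kap k0 n) 4 = t * kap k0 n := by
    rw [farν_eq hf1 hf2 hu, ht]
  have hq : AND.qStep f (lV d ρ (kap k0 n)) (kap k0 n ^ (9 / 256 : ℝ)) =
      qV d ρ C1 c1 (kap k0 n) := by rw [qV_eq, hf1, hf2]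
  have hq0 : 0 ≤ qV d ρ C1 c1 (kap k0 n) := qV_nonneg hC1 hκ
  have hde0 : 0 ≤ kap k0 n ^ (1 / 140 : ℝ) := Real.rpow_nonneg hκ.le _
  have hm1 : mAV c c1 k0 n ≤ c.cl * kap k0 (n + 1) * c1 * c1 := by
    unfold mAV
    have e1 := mul_le_mul_of_nonneg_right (min_le_left (c.cl * c1 * c1) (c.cs * c1)) hκ'.le
    have e2 : c.cl * c1 * c1 * kap k0 (n + 1) = c.cl * kap k0 (n + 1) * c1 * c1 := by ring
    rw [← e2]
    exact e1
  have hm2 : mAV c c1 k0 n ≤ c.cs * kap k0 (n + 1) * c1 := by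
    unfold mAV
    have e1 := mul_le_mul_of_nonneg_right (min_le_right (c.cl * c1 * c1) (c.cs * c1)) hκ'.le
    have e2 : c.cs * c1 * kap k0 (n + 1) = c.cs * kap k0 (n + 1) * c1 := by ring
    rw [← e2]
    exact e1
  have hm0 : 0 < mAV c c1 k0 n := by
    unfold mAV
    have h3 : 0 < min (c.cl * c1 * c1) (c.cs * c1) := lt_min (by positivity) (by positivity)
    positivity
  have h4' := h4 eta he j n cc hn f u hf1 hf2 hu hKi hC00 hC01 Lm hL0 hL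
    (4 * (30 * kap k0 n ^ (1 / 140 : ℝ) + qV d ρ C1 c1 (kap k0 n)))
    (by positivity) (heps n)
  refine
    { nu1 := ?_, nu0 := ?_, mA0 := hm0, mA1 := ?_, mA2 := ?_, h4 := ?_, dS := hdS, de0 := ?_,
      de1 := a2, q0 := ?_, q1 := ?_, cρ1 := ?_, cρ3 := ?_, ze3 := ?_, cm1 := ?_, wd := ?_ }
  · rw [hν]
    have e1 : t * kap k0 n ≤ t * (4 / t) := mul_le_mul_of_nonneg_left a1 htp.le
    have e2 : t * (4 / t) = 4 := by field_simp
    linarith only [e1, e2]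
  · rw [hν]
    positivity
  · rw [hf2]
    exact hm1
  · rw [hf2]
    exact hm2
  · rw [hq]
    exact h4'
  · positivity
  · rw [hq]
    exact hq0
  · rw [hq]
    linarith only [a3]
  · have e1 : 3 * kap k0 n ^ (1 / 64 : ℝ) / c1 = 3 / c1 * kap k0 n ^ (1 / 64 : ℝ) := by ring
    rw [e1]
    exact a4
  · rw [hf2]
  · rw [hf2]
    exact a5
  · rw [hf2]
    show cmH c c1 * (eta + kap k0 n) ≤ (eta + c.cl * kap k0 (n + 1) * c1) * c1 / 16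
    rw [hs]
    exact cm_ok he hκ.le hc1
  · rw [hf1]
    exact hwd eta he he1 n

end Pool.Agent.ANC
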