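import Pool.Agent.ANC.ParV
import Pool.Agent.ANS.StepDet

/-!
# ANC / StepN: THE NUMBERS OF A STEP for `parV`

Values at the level `κ = kap k0 n` in super-stage `j`: `al = κ^(9/256)`, `l = lV`, `K2 = κ^(-5/2)`, `K = κ^(-2)`,
`μ = mu0 κ`, `aa = 4`, `Bd = 1`, `q = 8 C1 / (cl c1)`, `ze = κ^(1/64)`, `gg = g0 / κ`, `σ = κ^vt / 28`, `tl = 1`,
`Lm = Lam + 1`, `tt = κ^(-7/8 + vt')`, `de = 30 κ^(1/140)`, `cρ = 3 ze / c1`.

* `ev_tail` : polynomial times `exp (A κ cc)` against `exp (- B κ side)`, for `cc ≤ 8 ks(j)^(-2)`;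
* `ev_rf`, `ev_farN`, `ev_farQ`, `ev_sch`, `ev_near` : the parts `rf`, `far`, `sch`, `near` of `AND.StepNum`.
-/

open Filter Topology Real

namespace Pool.Agent.ANC

/-- THE TAILS of super-stage `j` -/
theorem ev_tail (C : ℝ) {A B : ℝ} (hA : 0 ≤ A) (hB : 0 < B) (N M : ℝ) {al : ℕ} (hal : 2 ≤ al) :
    ∀ᶠ k0 in 𝓝[>] (0 : ℝ), ∀ j n : ℕ, lv k0 al j ≤ n → n < lv k0 al (j + 1) → ∀ cc : ℝ,
      cc ≤ 8 * ks k0 al j ^ (-2 : ℝ) →
      C * kap k0 n ^ (-N) * (Real.exp (A * (kap k0 n * cc)) *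
        Real.exp (-(B * (kap k0 n * side k0 al j)))) ≤ kap k0 n ^ M := by
  have h1 := ev_kap (ev_exp |C| N M (b := 1) (c := B / 2) one_pos (by positivity))
  have h2 := ev_small (show (0 : ℝ) < min (1 / 4) (√(B / (16 * (A + 1)))) by
    apply lt_min (by norm_num)
    apply Real.sqrt_pos.2
    positivity)
  filter_upwards [h1, h2] with k0 h1 hk j n hj1 hj2 cc hcc
  have hk0 := hk.1
  have hk1 : k0 < 1 := by
    have := hk.2.trans (min_le_left _ _)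
    linarith
  obtain ⟨q1, q2⟩ := kap_mem hk0 hj1 hj2
  set κ := kap k0 n with hκ
  have hκ0 : 0 < κ := kap_pos hk0 n
  have hκ1 : κ ≤ 1 := (kap_le hk0 n).trans hk1.le
  set K := ks k0 al j with hK
  set K' := ks k0 al (j + 1) with hK'
  have hK0 : 0 < K := ks_pos hk0 al j
  have hK'0 : 0 < K' := ks_pos hk0 al (j + 1)
  have hKk : K ≤ k0 := ks_le hk0 al j
  have hKal : K' ≤ K ^ 2 := (ks_succ_le hk0 al j).trans
    (pow_le_pow_of_le_one hK0.le (hKk.trans hk1.le) hal)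
  have hs := (side_rpow hk0 hk1 al j).1
  rw [← hK'] at hs
  set s : ℝ := (side k0 al j : ℝ) with hsd
  -- `κ side ≥ κ⁻¹`
  have e1 : κ ^ (-1 : ℝ) ≤ κ * s := by
    have h3 : κ ^ (-2 : ℝ) ≤ s :=
      (Real.rpow_le_rpow_of_nonpos hK'0 q1.le (by norm_num)).trans hs
    calc κ ^ (-1 : ℝ) = κ * κ ^ (-2 : ℝ) := by
          rw [← Real.rpow_one_add' hκ0.le (by norm_num)]
          norm_num
      _ ≤ κ * s := mul_le_mul_of_nonneg_left h3 hκ0.le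
  -- `A cc ≤ (B / 2) side`
  have e2 : A * cc ≤ B / 2 * s := by
    have h3 : K ^ (-2 : ℝ) * K ^ (-2 : ℝ) ≤ s := by
      have h4 : (K ^ 2) ^ (-2 : ℝ) ≤ K' ^ (-2 : ℝ) :=
        Real.rpow_le_rpow_of_nonpos hK'0 hKal (by norm_num)
      have h5 : (K ^ 2) ^ (-2 : ℝ) = K ^ (-2 : ℝ) * K ^ (-2 : ℝ) := by
        rw [pow_two, Real.mul_rpow hK0.le hK0.le]
      rw [← h5]
      exact h4.trans hs
    have h4 : 16 * (A + 1) ≤ B * K ^ (-2 : ℝ) := by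
      have h5 : K ≤ √(B / (16 * (A + 1))) := hKk.trans (hk.2.trans (min_le_right _ _))
      have h6 : K ^ 2 ≤ B / (16 * (A + 1)) := by
        rw [← Real.sq_sqrt (show (0 : ℝ) ≤ B / (16 * (A + 1)) by positivity)]
        exact pow_le_pow_left₀ hK0.le h5 2
      rw [le_div_iff₀ (by positivity)] at h6
      have h7 : K ^ (-2 : ℝ) = (K ^ 2)⁻¹ := by
        rw [Real.rpow_neg hK0.le]
        norm_cast
      rw [h7, ← div_eq_mul_inv, le_div_iff₀ (by positivity)]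
      linarith
    have h5 : 0 ≤ K ^ (-2 : ℝ) := (Real.rpow_pos_of_pos hK0 _).le
    have h6 : A * cc ≤ A * (8 * K ^ (-2 : ℝ)) := mul_le_mul_of_nonneg_left hcc hA
    have h7 : 16 * (A + 1) * K ^ (-2 : ℝ) ≤ B * K ^ (-2 : ℝ) * K ^ (-2 : ℝ) :=
      mul_le_mul_of_nonneg_right h4 h5
    have h8 : B * (K ^ (-2 : ℝ) * K ^ (-2 : ℝ)) ≤ B * s := mul_le_mul_of_nonneg_left h3 hB.le
    nlinarith
  have e3 : Real.exp (A * (κ * cc)) * Real.exp (-(B * (κ * s))) ≤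
      Real.exp (-(B / 2) * κ ^ (-1 : ℝ)) := by
    rw [← Real.exp_add]
    apply Real.exp_le_exp.2
    have h3 : κ * (A * cc) ≤ κ * (B / 2 * s) := mul_le_mul_of_nonneg_left e2 hκ0.le
    have h4 : B / 2 * κ ^ (-1 : ℝ) ≤ B / 2 * (κ * s) :=
      mul_le_mul_of_nonneg_left e1 (by positivity)
    nlinarith
  have hp : 0 ≤ κ ^ (-N) := (Real.rpow_pos_of_pos hκ0 _).le
  have e4 : 0 ≤ Real.exp (A * (κ * cc)) * Real.exp (-(B * (κ * s))) := by positivity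
  calc C * κ ^ (-N) * (Real.exp (A * (κ * cc)) * Real.exp (-(B * (κ * s))))
      ≤ |C| * κ ^ (-N) * (Real.exp (A * (κ * cc)) * Real.exp (-(B * (κ * s)))) := by
        apply mul_le_mul_of_nonneg_right _ e4
        exact mul_le_mul_of_nonneg_right (le_abs_self C) hp
    _ ≤ |C| * κ ^ (-N) * Real.exp (-(B / 2) * κ ^ (-1 : ℝ)) := by
        apply mul_le_mul_of_nonneg_left e3 (by positivity)
    _ ≤ κ ^ M := h1 n

/-! ### values -/

/-- `μ = mu0 κ` -/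
noncomputable def mu0 (d : ℕ) (c : Cst) (c1 : ℝ) : ℝ := min (c.cl * c1 / 64) (c.cs / 32) / d

/-- the rate constant `AND.tH` -/
noncomputable def tHc (c1 C1 rho : ℝ) : ℝ := (1 - √(1 - rho / 2)) / 2 * c1 / (4 * C1)

/-- order of the expansion -/
noncomputable def lV (d : ℕ) (ρ κ : ℝ) : ℕ :=
  ⌈8 / (ρ / 4) * ((3 * d + 3) * Real.log (κ ^ (-(5 / 2) : ℝ)))⌉₊

/-- change of the diagonal -/
noncomputable def rV (d : ℕ) (ρ C1 c1 κ : ℝ) : ℝ :=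
  2 * (4 * lV d ρ κ * (C1 + 1) / c1) * κ ^ (9 / 256 : ℝ)

/-- change of the form -/
noncomputable def qV (d : ℕ) (ρ C1 c1 κ : ℝ) : ℝ :=
  10 * (8 * lV d ρ κ * (C1 + 1) * κ ^ (9 / 256 : ℝ) / c1 ^ 2)

theorem rV_eq {d : ℕ} {ρ κ : ℝ} (f : AND.Fix) :
    AND.rStep f (lV d ρ κ) (κ ^ (9 / 256 : ℝ)) = rV d ρ f.C1 f.c1 κ := rfl

theorem qV_eq {d : ℕ} {ρ κ : ℝ} (f : AND.Fix) :
    AND.qStep f (lV d ρ κ) (κ ^ (9 / 256 : ℝ)) = qV d ρ f.C1 f.c1 κ := rfl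

theorem mu0_pos {d : ℕ} (hd : 0 < d) {c : Cst} (hc : c.Pos) {c1 : ℝ} (hc1 : 0 < c1) :
    0 < mu0 d c c1 := by
  unfold mu0
  have h1 : (0 : ℝ) < d := by exact_mod_cast hd
  have h2 := hc.cl
  have h3 := hc.cs
  have h4 : 0 < min (c.cl * c1 / 64) (c.cs / 32) := lt_min (by positivity) (by positivity)
  positivity

theorem mu0_le {d : ℕ} (hd : 0 < d) {c : Cst} {c1 : ℝ} :
    64 * (d * mu0 d c c1) ≤ c.cl * c1 ∧ 32 * (d * mu0 d c c1) ≤ c.cs := by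
  unfold mu0
  have h1 : (0 : ℝ) < d := by exact_mod_cast hd
  have h2 : (d : ℝ) * (min (c.cl * c1 / 64) (c.cs / 32) / d) =
      min (c.cl * c1 / 64) (c.cs / 32) := by
    field_simp
  rw [h2]
  have h3 := min_le_left (c.cl * c1 / 64) (c.cs / 32)
  have h4 := min_le_right (c.cl * c1 / 64) (c.cs / 32)
  constructor <;> linarith

theorem log_neg {κ a : ℝ} (hκ : 0 < κ) : Real.log (κ ^ (-a)) = a * Real.log (1 / κ) := by
  rw [Real.log_rpow hκ, one_div, Real.log_inv]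
  ring

/-- `l` is logarithmic: `C l κ^b ≤ κ^a`, and for powers -/
theorem ev_l (d : ℕ) (ρ C : ℝ) (m : ℕ) {a b : ℝ} (hab : a < b) :
    ∀ᶠ κ in 𝓝[>] (0 : ℝ), C * (lV d ρ κ : ℝ) ^ m * κ ^ b ≤ κ ^ a := by
  set D : ℝ := |8 / (ρ / 4) * ((3 * d + 3) * (5 / 2))| + 1 with hD
  have h1 := ev_pow (|C| * D ^ m) hab m
  filter_upwards [h1, ev_small (show (0 : ℝ) < Real.exp (-1) from Real.exp_pos _)]
    with κ h1 hκ
  have hκ0 := hκ.1
  have hlog : 1 ≤ Real.log (1 / κ) := by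
    rw [one_div, Real.log_inv]
    have := Real.log_le_log hκ0 hκ.2
    rw [Real.log_exp] at this
    linarith
  have h2 : (lV d ρ κ : ℝ) ≤ D * Real.log (1 / κ) := by
    unfold lV
    rw [log_neg hκ0]
    rcases le_or_gt 0 (8 / (ρ / 4) * ((3 * d + 3) * (5 / 2 * Real.log (1 / κ)))) with h3 | h3
    · refine (Nat.ceil_lt_add_one h3).le.trans ?_
      have h4 : 8 / (ρ / 4) * ((3 * d + 3) * (5 / 2)) ≤ D - 1 := by
        rw [hD]
        have := le_abs_self (8 / (ρ / 4) * ((3 * (d : ℝ) + 3) * (5 / 2)))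
        linarith
      have h5 := mul_le_mul_of_nonneg_right h4 (by linarith : 0 ≤ Real.log (1 / κ))
      have h6 : 8 / (ρ / 4) * ((3 * (d : ℝ) + 3) * (5 / 2 * Real.log (1 / κ))) =
          8 / (ρ / 4) * ((3 * d + 3) * (5 / 2)) * Real.log (1 / κ) := by ring
      rw [h6]
      nlinarith
    · rw [Nat.ceil_eq_zero.2 h3.le]
      have h4 : 0 ≤ D := by positivity
      have : 0 ≤ D * Real.log (1 / κ) := by positivity
      simpa using this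
  have h3 : (lV d ρ κ : ℝ) ^ m ≤ (D * Real.log (1 / κ)) ^ m :=
    pow_le_pow_left₀ (Nat.cast_nonneg _) h2 m
  have h4 : 0 ≤ κ ^ b := Real.rpow_nonneg hκ0.le _
  calc C * (lV d ρ κ : ℝ) ^ m * κ ^ b ≤ |C| * (D * Real.log (1 / κ)) ^ m * κ ^ b := by
        apply mul_le_mul_of_nonneg_right _ h4
        exact mul_le_mul (le_abs_self C) h3 (by positivity) (abs_nonneg C)
    _ = |C| * D ^ m * Real.log (1 / κ) ^ m * κ ^ b := by
        rw [mul_pow]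
        ring
    _ ≤ κ ^ a := h1

theorem ev_l' (d : ℕ) (ρ C : ℝ) (m : ℕ) {b e : ℝ} (hb : 0 < b) (he : 0 < e) :
    ∀ᶠ κ in 𝓝[>] (0 : ℝ), C * (lV d ρ κ : ℝ) ^ m * κ ^ b ≤ e := by
  filter_upwards [ev_l d ρ (C / e) m hb] with κ h
  rw [Real.rpow_zero] at h
  calc C * (lV d ρ κ : ℝ) ^ m * κ ^ b = e * (C / e * (lV d ρ κ : ℝ) ^ m * κ ^ b) := by
        field_simp
    _ ≤ e * 1 := mul_le_mul_of_nonneg_left h he.le
    _ = e := mul_one e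

/-- `r ≤ κ^(17/512)` with a constant -/
theorem ev_r (d : ℕ) (ρ C1 c1 C : ℝ) {a : ℝ} (ha : a < 9 / 256) :
    ∀ᶠ κ in 𝓝[>] (0 : ℝ), C * rV d ρ C1 c1 κ ≤ κ ^ a := by
  filter_upwards [ev_l d ρ (C * (2 * (4 * (C1 + 1) / c1))) 1 ha] with κ h
  refine le_trans (le_of_eq ?_) h
  unfold rV
  rw [pow_one]
  ring

theorem ev_q (d : ℕ) (ρ C1 c1 C : ℝ) {a : ℝ} (ha : a < 9 / 256) :
    ∀ᶠ κ in 𝓝[>] (0 : ℝ), C * qV d ρ C1 c1 κ ≤ κ ^ a := by
  filter_upwards [ev_l d ρ (C * (10 * (8 * (C1 + 1) / c1 ^ 2))) 1 ha] with κ h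
  refine le_trans (le_of_eq ?_) h
  unfold qV
  rw [pow_one]
  ring

theorem rV_nonneg {d : ℕ} {ρ C1 c1 κ : ℝ} (hC1 : 0 < C1) (hc1 : 0 < c1) (hκ : 0 < κ) :
    0 ≤ rV d ρ C1 c1 κ := by
  unfold rV
  have := Real.rpow_nonneg hκ.le (9 / 256 : ℝ)
  positivity

theorem qV_nonneg {d : ℕ} {ρ C1 c1 κ : ℝ} (hC1 : 0 < C1) (hκ : 0 < κ) :
    0 ≤ qV d ρ C1 c1 κ := by
  unfold qV
  have := Real.rpow_nonneg hκ.le (9 / 256 : ℝ)
  positivity

end Pool.Agent.ANC
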