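import Pool.Agent.ANC.StepN

/-!
# ANC / StepN2: the parts `rf`, `far`, `sch`, `near` of `AND.StepNum` for `parV` (helper32)
-/

open Filter Topology Real

namespace Pool.Agent.ANC

/-- conditions on the constants used by the steps -/
structure StC (d : ℕ) (c : Cst) (C1 c1 rho ρ : ℝ) : Prop where
  d0 : 0 < d
  pos : c.Pos
  hc1 : 0 < c1
  hcC : c1 ≤ C1
  hC1 : 1 ≤ C1
  rho0 : 0 < rho
  rho2 : rho ≤ 2
  ρ0 : 0 < ρ
  ρ2 : ρ ≤ 2
  b1 : 256 * c.b ≤ tHc c1 C1 rho * mu0 d c c1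
  dS1 : c.dS ≤ 1 / 2

/-- `n` is a level of super-stage `j`, `cc` is a length of the pieces -/
structure LvN (k0 : ℝ) (al j n cc : ℕ) : Prop where
  lo : lv k0 al j ≤ n
  hi : n < lv k0 al (j + 1)
  cc : (cc : ℝ) ≤ 8 * ks k0 al j ^ (-2 : ℝ)

theorem LvN.cc_le {k0 : ℝ} {al j n cc : ℕ} (h : LvN k0 al j n cc) (hk : 0 < k0) :
    (cc : ℝ) ≤ 8 * kap k0 n ^ (-2 : ℝ) := by
  refine h.cc.trans ?_
  have h1 : kap k0 n ≤ ks k0 al j := kap_anti hk h.lo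
  have h2 := Real.rpow_le_rpow_of_nonpos (kap_pos hk n) h1 (show (-2 : ℝ) ≤ 0 by norm_num)
  linarith

/-- `exp (A κ cc)` and the side -/
theorem LvN.side_ge {k0 : ℝ} {al j n cc : ℕ} (h : LvN k0 al j n cc) (hk : 0 < k0)
    (hk1 : k0 < 1) : kap k0 n ^ (-2 : ℝ) ≤ side k0 al j := by
  have h1 := (side_rpow hk hk1 al j).1
  have h2 := (kap_mem hk h.lo h.hi).1
  exact (Real.rpow_le_rpow_of_nonpos (ks_pos hk al (j + 1)) h2.le (by norm_num)).trans h1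

variable {d : ℕ} {CM : ℝ} {c : Cst} {C1 c1 rho ρ : ℝ}

theorem ev_rf (h : StC d c C1 c1 rho ρ) (al : ℕ) :
    ∀ᶠ k0 in 𝓝[>] (0 : ℝ), ∀ j n cc : ℕ, LvN k0 al j n cc → ∀ (f : AND.Fix) (u : AND.UTol),
      f.C1 = C1 → f.c1 = c1 → 0 ≤ u.Lam → u.Lam + 1 ≤ kap k0 n ^ (-1 : ℝ) →
      AND.RfNum f u d ρ (kap k0 n ^ (9 / 256 : ℝ)) (kap k0 n ^ (-(5 / 2) : ℝ))
        (((4 : ℕ) : ℝ) / (2 * (mu0 d c c1 * kap k0 n))) cc (lV d ρ (kap k0 n)) := by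
  have hm := mu0_pos h.d0 h.pos h.hc1
  have hc1 := h.hc1
  have hC1 : 0 < C1 := by linarith [h.hC1]
  have hρ := h.ρ0
  have h0 := ev_small (show (0 : ℝ) < 1 / 256 by norm_num)
  have e16 := ev_pow' (C := 16) (show (-(5 / 2) : ℝ) < 0 by norm_num)
  have eKC := ev_pow' (C := 16 * √((C1 + 1) / c1) * (C1 + 1) / c1)
    (show (-(5 / 2) : ℝ) < -1 by norm_num)
  have eKE := ev_pow' (C := Real.log (4 * (C1 + 1) / c1 + 1))
    (show (-(5 / 2) : ℝ) < 0 by norm_num)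
  have eM := ev_pow' (C := 4 / (2 * mu0 d c c1)) (show (-5 : ℝ) < -1 by norm_num)
  have ecc := ev_pow' (C := 8) (show (-(5 / 2) : ℝ) < -2 by norm_num)
  have el := ev_l d ρ 1 1 (show (-(5 / 2) : ℝ) < 0 by norm_num)
  have em1 := ev_l' d ρ 16 1 (show (0 : ℝ) < 9 / 256 by norm_num) h.hc1
  have em2 := ev_le 16 (b := 9 / 256) (by norm_num)
    (show 0 < (ρ / 4) ^ 2 * c1 by positivity) 0
  have esm := ev_l' d ρ (768 * (C1 + 1) ^ 3) 2 (show (0 : ℝ) < 9 / 256 by norm_num)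
    (show 0 < c1 ^ 4 by positivity)
  have hall := ev_kap (e16.and (eKC.and (eKE.and (eM.and (ecc.and (el.and (em1.and
    (em2.and esm))))))))
  filter_upwards [hall, h0] with k0 hall hk j n cc hn f u hf1 hf2 hu0 hu
  obtain ⟨e16, eKC, eKE, eM, ecc, el, em1, em2, esm⟩ := hall n
  have hk0 := hk.1
  have hκ := kap_pos hk0 n
  have hκ1 : kap k0 n ≤ 1 := (kap_le hk0 n).trans (hk.2.trans (by norm_num))
  set κ := kap k0 n with hκd
  rw [pow_zero, mul_one] at em2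
  rw [pow_one] at em1 el
  rw [Real.rpow_zero, mul_one] at e16 eKE el
  rw [one_mul] at el
  have hcc := hn.cc_le hk0
  rw [← hκd] at hcc
  refine ⟨h.ρ0, h.ρ2, Real.rpow_nonneg hκ.le _, Real.rpow_le_one hκ.le hκ1 (by norm_num),
    hu0, ?_, ?_, ?_, ?_⟩
  · rw [hf1, hf2]
    refine ⟨by linarith, by linarith [h.ρ2], h.hc1, by linarith [h.hcC], by linarith,
      sq_nonneg _, e16, ?_, eKE, by positivity, ?_, Nat.cast_nonneg _, ?_, ?_, el⟩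
    · have h1 : √(4 * (u.Lam + 1) ^ 2 * (C1 + 1) / c1) =
          2 * (u.Lam + 1) * √((C1 + 1) / c1) := by
        have h2 : 4 * (u.Lam + 1) ^ 2 * (C1 + 1) / c1 =
            (2 * (u.Lam + 1)) ^ 2 * ((C1 + 1) / c1) := by ring
        rw [h2, Real.sqrt_mul (sq_nonneg _), Real.sqrt_sq (by positivity)]
      rw [h1]
      have h3 : 16 * √((C1 + 1) / c1) * (C1 + 1) / c1 * (u.Lam + 1) ≤
          κ ^ (-(5 / 2) : ℝ) :=
        (mul_le_mul_of_nonneg_left hu (by positivity)).trans eKC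
      have h4 := mul_le_mul_of_nonneg_left h3 hc1.le
      refine le_trans (le_of_eq ?_) h4
      field_simp
      ring
    · have h1 : (κ ^ (-(5 / 2) : ℝ)) ^ 2 = κ ^ (-5 : ℝ) := by
        rw [← Real.rpow_natCast, ← Real.rpow_mul hκ.le]
        norm_num
      rw [h1]
      refine le_trans (le_of_eq ?_) eM
      rw [Real.rpow_neg_one]
      push_cast
      field_simp
    · exact hcc.trans ecc
    · exact Nat.le_ceil _
  · rw [hf2]
    exact em1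
  · rw [hf2]
    exact em2
  · rw [hf1, hf2]
    calc 768 * (lV d ρ κ : ℝ) ^ 2 * (C1 + 1) ^ 3 * κ ^ (9 / 256 : ℝ)
        = 768 * (C1 + 1) ^ 3 * (lV d ρ κ : ℝ) ^ 2 * κ ^ (9 / 256 : ℝ) := by ring
      _ ≤ c1 ^ 4 := esm

/-- `AND.tH` -/
theorem tH_eq {f : AND.Fix} {u : AND.UTol} (hf1 : f.C1 = C1) (hf2 : f.c1 = c1)
    (hu : u.rho = rho) : AND.tH f u = tHc c1 C1 rho := by
  unfold AND.tH AND.eH AND.lH tHc
  rw [hf1, hf2, hu]

theorem eH_pos (h : StC d c C1 c1 rho ρ) : 0 < (1 - √(1 - rho / 2)) / 2 ∧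
    (1 - √(1 - rho / 2)) / 2 ≤ 1 / 2 := by
  have h1 : √(1 - rho / 2) < 1 := by
    rw [show (1 : ℝ) = √1 by rw [Real.sqrt_one], Real.sqrt_lt_sqrt_iff
      (by rw [Real.sqrt_one]; linarith [h.rho2])]
    rw [Real.sqrt_one]
    linarith [h.rho0]
  have h2 := Real.sqrt_nonneg (1 - rho / 2)
  constructor <;> linarith

theorem tHc_pos (h : StC d c C1 c1 rho ρ) : 0 < tHc c1 C1 rho ∧ tHc c1 C1 rho ≤ 1 := by
  obtain ⟨h1, h2⟩ := eH_pos h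
  have h3 := h.hc1
  have h4 := h.hcC
  have h5 := h.hC1
  have h6 : 0 < C1 := by linarith
  unfold tHc
  constructor
  · positivity
  · rw [div_le_one (by positivity)]
    nlinarith

/-- FarNum -/
theorem ev_farN (x : Ex d CM) (h : StC d c C1 c1 rho ρ) :
    ∀ᶠ k0 in 𝓝[>] (0 : ℝ), ∀ (eta : ℝ), 0 < eta → eta ≤ k0 → ∀ (n : ℕ) (f : AND.Fix)
      (u : AND.UTol), f.C1 = C1 → f.c1 = c1 → u.rho = rho →
      ∀ {L : ℕ} [NeZero L] {X : Type} (Sf : AND.SiteF X) (F : AND.Fld (Kin.Tor d L))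
        (p : AND.Prof (Kin.Tor d L)) (v : Kin.Tor d L → X) (M : AND.Med (Kin.Tor d L)),
      AND.FarNum f (AND.tolAt (parV x c k0 eta) Sf n F p v M) u (rV d ρ C1 c1 (kap k0 n))
        (c.cl * kap k0 (n + 1)) (kap k0 n) (mu0 d c c1 * kap k0 n) (kap k0 n ^ (-2 : ℝ)) 1
        (8 * C1 / (c.cl * c1)) := by
  have hm := mu0_pos h.d0 h.pos h.hc1
  obtain ⟨hm1, hm2⟩ := mu0_le (c := c) (c1 := c1) h.d0
  have hc1 := h.hc1
  have hC1 : 0 < C1 := by linarith [h.hC1]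
  have hcl := h.pos.cl
  obtain ⟨he0, he1⟩ := eH_pos h
  have a1 := ev_le (2 * (1 + 2 * C1)) (b := 1) one_pos one_pos 0
  have a2 := ev_pow' (C := 1) (show (-2 : ℝ) < 0 by norm_num)
  have a3 := ev_pow' (C := 4 / c.cl) (show (-2 : ℝ) < -1 by norm_num)
  have a4 := ev_pow' (C := 1 / ((1 - √(1 - rho / 2)) / 2)) (show (-2 : ℝ) < 0 by norm_num)
  have a5 := ev_pow' (C := 1 / (c1 / 2)) (show (-2 : ℝ) < 0 by norm_num)
  have a6 := ev_pow' (C := 4 * C1 / (c1 / 2)) (show (-2 : ℝ) < 0 by norm_num)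
  have a7 := ev_pow' (C := 2 * C1) (show (-2 : ℝ) < 0 by norm_num)
  have a8 := ev_pow' (C := 2 / (c.cl * c1 / 8)) (show (-1 : ℝ) < 0 by norm_num)
  have a9 := ev_r d ρ C1 c1 (2 / c1) (show (0 : ℝ) < 9 / 256 by norm_num)
  have a10 := ev_r d ρ C1 c1 1 (show (0 : ℝ) < 9 / 256 by norm_num)
  have a11 := ev_le (mu0 d c c1) (b := 1) one_pos one_pos 0
  have hall := ev_kap (a2.and (a3.and (a4.and (a5.and (a6.and (a7.and (a8.and (a9.and
    (a10.and a11)))))))))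
  filter_upwards [hall, a1, ev_small (show (0 : ℝ) < 1 / 256 by norm_num)]
    with k0 hall a1 hk eta he1' he2' n f u hf1 hf2 hu L _ X Sf F p v M
  obtain ⟨a2, a3, a4, a5, a6, a7, a8, a9, a10, a11⟩ := hall n
  have hk0 := hk.1
  have hκ := kap_pos hk0 n
  have hκk : kap k0 n ≤ k0 := kap_le hk0 n
  have hκ1 : kap k0 n ≤ 1 := hκk.trans (hk.2.trans (by norm_num))
  have hs : kap k0 (n + 1) = kap k0 n / 4 := kap_succ k0 n
  have hr0 : 0 ≤ rV d ρ C1 c1 (kap k0 n) := rV_nonneg hC1 hc1 hκ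
  rw [Real.rpow_one, pow_zero, mul_one] at a1 a11
  rw [Real.rpow_zero] at a2 a4 a5 a6 a7 a8 a9 a10
  rw [mul_one] at a2 a4 a5 a6 a7 a8
  rw [one_mul] at a10
  have hd0 : (0 : ℝ) < d := by exact_mod_cast h.d0
  set κ := kap k0 n with hκd
  have hK0 : 0 < κ ^ (-2 : ℝ) := Real.rpow_pos_of_pos hκ _
  have hKκ : κ ^ (-2 : ℝ) * κ = κ ^ (-1 : ℝ) := by
    rw [← Real.rpow_add_one hκ.ne']
    norm_num
  refine ⟨by rw [hu]; exact h.rho0, by rw [hu]; exact h.rho2, hκ1, by rw [hf1]; exact h.hC1,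
    ?_, le_rfl, le_rfl, hr0, ?_, by positivity, a11, ?_, ?_, ?_, ?_, ?_, ?_, ?_⟩
  · rw [hs]
    positivity
  · rw [hf2]
    rw [div_mul_eq_mul_div, div_le_one hc1] at a9
    exact a9
  · rw [hs, hf2]
    calc 8 * (d : ℝ) * (mu0 d c c1 * κ) = 8 * (d * mu0 d c c1) * κ := by ring
      _ ≤ (c.cl * c1 / 8) * κ := mul_le_mul_of_nonneg_right (by linarith) hκ.le
      _ = _ := by ring
  · show 8 * (d : ℝ) * (mu0 d c c1 * κ) ≤ c.cs * kap k0 (n + 1)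
    rw [hs]
    calc 8 * (d : ℝ) * (mu0 d c c1 * κ) = 8 * (d * mu0 d c c1) * κ := by ring
      _ ≤ (c.cs / 4) * κ := mul_le_mul_of_nonneg_right (by linarith) hκ.le
      _ = _ := by ring
  · refine ⟨a2, ?_, ?_, ?_, ?_, ?_⟩
    · show 1 / κ ^ (-2 : ℝ) ≤ c.cl * kap k0 (n + 1)
      rw [hs, div_le_iff₀ hK0]
      have h1 : c.cl * (κ / 4) * κ ^ (-2 : ℝ) = c.cl / 4 * κ ^ (-1 : ℝ) := by
        rw [← hKκ]
        ring
      rw [h1]
      have h2 : 4 / c.cl * κ ^ (-1 : ℝ) ≤ κ ^ (-2 : ℝ) := a3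
      have h3 : 1 ≤ c.cl / 4 * κ ^ (-1 : ℝ) := by
        have h4 : κ ^ (-2 : ℝ) = κ ^ (-1 : ℝ) * κ ^ (-1 : ℝ) := by
          rw [← Real.rpow_add hκ]
          norm_num
        rw [h4] at h2
        have h5 : 0 < κ ^ (-1 : ℝ) := Real.rpow_pos_of_pos hκ _
        have h6 : 4 / c.cl ≤ κ ^ (-1 : ℝ) := le_of_mul_le_mul_right h2 h5
        rw [div_le_iff₀ hcl] at h6
        linarith
      exact h3
    · show 1 / κ ^ (-2 : ℝ) ≤ AND.eH u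
      unfold AND.eH AND.lH
      rw [hu]
      rw [div_le_iff₀ hK0]
      rw [div_le_iff₀ he0] at a4
      linarith
    · rw [hf2, div_le_iff₀ hK0]
      rw [div_le_iff₀ (by positivity)] at a5
      linarith
    · rw [hf1, hf2]
      rw [div_le_iff₀ (by positivity)] at a6
      linarith
    · rw [hf1]
      exact a7
  · rw [hs, hf2]
    have h1 : κ ^ (-2 : ℝ) * (c.cl * (κ / 4) * (c1 / 2)) = κ ^ (-1 : ℝ) * (c.cl * c1 / 8) := by
      rw [← hKκ]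
      ring
    rw [h1]
    rw [div_le_iff₀ (by positivity)] at a8
    have h2 : κ * rV d ρ C1 c1 κ ≤ 1 := by nlinarith
    linarith
  · show eta + κ * (2 * f.C1) ≤ 1
    rw [hf1]
    nlinarith
  · rw [le_div_iff₀ (by positivity)]
    have h1 := h.pos.cl1
    have h2 := h.hcC
    nlinarith
  · show κ * f.C1 ≤ _
    rw [hf1, hf2, hs]
    have h1 : 8 * C1 / (c.cl * c1) * (c.cl * (κ / 4) * (c1 / 2)) = κ * C1 := by
      field_simp
      ring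
    rw [h1]

/-- the constants of `farQ` -/
noncomputable def CQ (d : ℕ) (c : Cst) (C1 c1 rho : ℝ) : ℝ :=
  24 * ((6 * d).factorial * (16 / (tHc c1 C1 rho * mu0 d c c1)) ^ (6 * d)) * Real.exp 1

/-- the rate of `farQ` -/
noncomputable def AQ (d : ℕ) (c : Cst) (C1 c1 rho : ℝ) : ℝ :=
  (tHc c1 C1 rho + 2) * mu0 d c c1 / 4

theorem farQ_eq (h : StC d c C1 c1 rho ρ) {κ : ℝ} (hκ : 0 < κ) {f : AND.Fix}
    {u : AND.UTol} (hf1 : f.C1 = C1) (hf2 : f.c1 = c1) (hu : u.rho = rho) (cc : ℕ) :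
    AND.farQ d f u (mu0 d c c1 * κ) (κ ^ (-2 : ℝ)) 4 cc =
      CQ d c C1 c1 rho * κ ^ (-(14 + 6 * (d : ℝ))) *
        Real.exp (AQ d c C1 c1 rho * (κ * cc)) := by
  have hm := mu0_pos h.d0 h.pos h.hc1
  obtain ⟨ht0, ht1⟩ := tHc_pos h
  unfold AND.farQ ANM.KL
  rw [tH_eq hf1 hf2 hu]
  have e1 : (4 * ((4 : ℕ) : ℝ) / (tHc c1 C1 rho * (mu0 d c c1 * κ))) ^ (6 * d) =
      (16 / (tHc c1 C1 rho * mu0 d c c1)) ^ (6 * d) * κ ^ (-(6 * (d : ℝ))) := by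
    have e2 : (4 * ((4 : ℕ) : ℝ) / (tHc c1 C1 rho * (mu0 d c c1 * κ))) =
        16 / (tHc c1 C1 rho * mu0 d c c1) * κ⁻¹ := by
      push_cast
      field_simp
      norm_num
    rw [e2, mul_pow, Real.rpow_neg hκ.le, inv_pow]
    congr 2
    rw [← Real.rpow_natCast]
    push_cast
    rfl
  have e3 : (κ ^ (-2 : ℝ)) * (κ ^ (-2 : ℝ)) ^ 6 = κ ^ (-14 : ℝ) := by
    rw [← Real.rpow_natCast, ← Real.rpow_mul hκ.le, ← Real.rpow_add hκ]
    norm_num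
  have e4 : κ ^ (-(14 + 6 * (d : ℝ))) = κ ^ (-14 : ℝ) * κ ^ (-(6 * (d : ℝ))) := by
    rw [← Real.rpow_add hκ]
    ring_nf
  have e5 : Real.exp (AQ d c C1 c1 rho * (κ * cc)) * Real.exp 1 =
      Real.exp (tHc c1 C1 rho * (mu0 d c c1 * κ) * cc / (4 : ℕ) + 1) *
        Real.exp (2 * (mu0 d c c1 * κ) * cc / (4 : ℕ)) := by
    rw [← Real.exp_add, ← Real.exp_add]
    congr 1
    unfold AQ
    push_cast
    ring
  rw [e1, e4, CQ, ← e3]
  calc 6 * κ ^ (-2 : ℝ) * (4 * (κ ^ (-2 : ℝ)) ^ 6 * (((6 * d).factorial : ℝ) *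
        ((16 / (tHc c1 C1 rho * mu0 d c c1)) ^ (6 * d) * κ ^ (-(6 * (d : ℝ))))) *
        Real.exp (tHc c1 C1 rho * (mu0 d c c1 * κ) * cc / (4 : ℕ) + 1)) *
        Real.exp (2 * (mu0 d c c1 * κ) * cc / (4 : ℕ))
      = 24 * (((6 * d).factorial : ℝ) * (16 / (tHc c1 C1 rho * mu0 d c c1)) ^ (6 * d)) *
        (κ ^ (-2 : ℝ) * (κ ^ (-2 : ℝ)) ^ 6 * κ ^ (-(6 * (d : ℝ)))) *
        (Real.exp (tHc c1 C1 rho * (mu0 d c c1 * κ) * cc / (4 : ℕ) + 1) *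
        Real.exp (2 * (mu0 d c c1 * κ) * cc / (4 : ℕ))) := by ring
    _ = _ := by
      rw [← e5]
      ring

theorem farν_eq {f : AND.Fix} {u : AND.UTol} (hf1 : f.C1 = C1) (hf2 : f.c1 = c1)
    (hu : u.rho = rho) (κ : ℝ) : AND.farν f u (mu0 d c c1 * κ) 4 =
      tHc c1 C1 rho * mu0 d c c1 / 8 * κ := by
  unfold AND.farν ANM.nuL
  rw [tH_eq hf1 hf2 hu]
  push_cast
  ring

theorem CQ_pos (h : StC d c C1 c1 rho ρ) : 0 < CQ d c C1 c1 rho := by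
  have hm := mu0_pos h.d0 h.pos h.hc1
  obtain ⟨ht0, ht1⟩ := tHc_pos h
  unfold CQ
  positivity

theorem AQ_pos (h : StC d c C1 c1 rho ρ) : 0 < AQ d c C1 c1 rho := by
  have hm := mu0_pos h.d0 h.pos h.hc1
  obtain ⟨ht0, ht1⟩ := tHc_pos h
  unfold AQ
  positivity

/-- `Q exp (-ν s / 2)` is smaller than every power of `κ` -/
theorem ev_Qs (h : StC d c C1 c1 rho ρ) (C M : ℝ) {al : ℕ} (hal : 2 ≤ al) :
    ∀ᶠ k0 in 𝓝[>] (0 : ℝ), ∀ j n cc : ℕ, LvN k0 al j n cc → ∀ (f : AND.Fix) (u : AND.UTol),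
      f.C1 = C1 → f.c1 = c1 → u.rho = rho →
      C * (AND.farQ d f u (mu0 d c c1 * kap k0 n) (kap k0 n ^ (-2 : ℝ)) 4 cc *
        Real.exp (-(AND.farν f u (mu0 d c c1 * kap k0 n) 4 * side k0 al j / 2))) ≤
        kap k0 n ^ M := by
  have hm := mu0_pos h.d0 h.pos h.hc1
  obtain ⟨ht0, ht1⟩ := tHc_pos h
  filter_upwards [ev_tail (C * CQ d c C1 c1 rho) (AQ_pos h).le
    (B := tHc c1 C1 rho * mu0 d c c1 / 16) (by positivity) (14 + 6 * (d : ℝ)) M hal,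
    ev_small one_pos] with k0 h1 hk j n cc hn f u hf1 hf2 hu
  have hκ := kap_pos hk.1 n
  have h2 := h1 j n hn.lo hn.hi cc hn.cc
  rw [farQ_eq h hκ hf1 hf2 hu, farν_eq hf1 hf2 hu]
  refine le_trans (le_of_eq ?_) h2
  have e1 : -(tHc c1 C1 rho * mu0 d c c1 / 8 * kap k0 n * (side k0 al j : ℝ) / 2) =
      -(tHc c1 C1 rho * mu0 d c c1 / 16 * (kap k0 n * (side k0 al j : ℝ))) := by ring
  rw [e1]
  ring

end Pool.Agent.ANC
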