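import Pool.Agent.ANC.StepN2

/-!
# ANC / StepN3: the part `sch` of `AND.StepNum` for `parV` (helper32)
-/

open Filter Topology Real

namespace Pool.Agent.ANC

variable {d : ℕ} {CM : ℝ} {c : Cst} {C1 c1 rho ρ : ℝ}

/-- `C κ^(-2)` is below `κ^(-5/2)`: the prefactor of the decay dominates the lengths of the pieces -/
theorem ev_pf (h : StC d c C1 c1 rho ρ) (hCg : c.Cg = 5 / 2) (C A : ℝ) :
    ∀ᶠ κ in 𝓝[>] (0 : ℝ), ∀ cc : ℝ, cc ≤ 8 * κ ^ (-2 : ℝ) →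
      C * κ ^ (-1 : ℝ) * Real.exp (|A| * (κ * cc)) ≤ AND.pf κ c.b c.Cg := by
  have hb := h.pos.b
  have h1 := ev_exp |C| 1 0 (b := 3 / 2) (c := c.b / 2) (by norm_num) (by positivity)
  have h2 := ev_pow' (C := 16 * |A| / c.b) (show (-(5 / 2) : ℝ) < -2 by norm_num)
  filter_upwards [h1, h2, ev_small one_pos] with κ h1 h2 hκ cc hcc
  have hκ0 := hκ.1
  rw [Real.rpow_zero] at h1
  have e1 : κ * κ ^ (-(5 / 2) : ℝ) = κ ^ (-(3 / 2) : ℝ) := by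
    rw [← Real.rpow_one_add' hκ0.le (by norm_num)]
    norm_num
  have e2 : |A| * (κ * cc) ≤ c.b / 2 * κ ^ (-(3 / 2) : ℝ) := by
    have h3 : |A| * cc ≤ c.b / 2 * κ ^ (-(5 / 2) : ℝ) := by
      have h4 : |A| * cc ≤ |A| * (8 * κ ^ (-2 : ℝ)) :=
        mul_le_mul_of_nonneg_left hcc (abs_nonneg A)
      have h5 := mul_le_mul_of_nonneg_left h2 (by positivity : 0 ≤ c.b / 2)
      have h6 : c.b / 2 * (16 * |A| / c.b * κ ^ (-2 : ℝ)) = |A| * (8 * κ ^ (-2 : ℝ)) := by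
        field_simp
        ring
      linarith
    rw [← e1]
    calc |A| * (κ * cc) = κ * (|A| * cc) := by ring
      _ ≤ κ * (c.b / 2 * κ ^ (-(5 / 2) : ℝ)) := mul_le_mul_of_nonneg_left h3 hκ0.le
      _ = _ := by ring
  have e3 : AND.pf κ c.b c.Cg = Real.exp (c.b / 2 * κ ^ (-(3 / 2) : ℝ)) *
      Real.exp (c.b / 2 * κ ^ (-(3 / 2) : ℝ)) := by
    unfold AND.pf
    rw [← Real.exp_add, hCg, mul_assoc, e1]
    congr 1
    ring
  rw [e3]
  have hp : 0 ≤ κ ^ (-1 : ℝ) := (Real.rpow_pos_of_pos hκ0 _).le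
  have e4 : C * κ ^ (-1 : ℝ) ≤ Real.exp (c.b / 2 * κ ^ (-(3 / 2) : ℝ)) := by
    have h3 : C * κ ^ (-1 : ℝ) ≤ |C| * κ ^ (-1 : ℝ) :=
      mul_le_mul_of_nonneg_right (le_abs_self C) hp
    refine h3.trans ?_
    have h4 := mul_le_mul_of_nonneg_right h1
      (Real.exp_pos (c.b / 2 * κ ^ (-(3 / 2) : ℝ))).le
    rw [one_mul, mul_assoc, ← Real.exp_add] at h4
    have h5 : -(c.b / 2) * κ ^ (-(3 / 2) : ℝ) + c.b / 2 * κ ^ (-(3 / 2) : ℝ) = 0 := by ring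
    rw [h5, Real.exp_zero, mul_one] at h4
    exact h4
  exact mul_le_mul e4 (Real.exp_le_exp.2 e2) (Real.exp_pos _).le (Real.exp_pos _).le

theorem ev_sch (h : StC d c C1 c1 rho ρ) (hCg : c.Cg = 5 / 2) {v : ℝ} (hv : 0 < v)
    {al : ℕ} (hal : 2 ≤ al) :
    ∀ᶠ k0 in 𝓝[>] (0 : ℝ), ∀ j n cc : ℕ, LvN k0 al j n cc → ∀ (f : AND.Fix) (u : AND.UTol),
      f.C1 = C1 → f.c1 = c1 → u.rho = rho → ∀ Lm : ℝ, 0 ≤ Lm → Lm ≤ kap k0 n ^ (-1 : ℝ) →
      AND.FarSch (kap k0 n) c.b v c.Cg (side k0 al j)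
        (AND.farQ d f u (mu0 d c c1 * kap k0 n) (kap k0 n ^ (-2 : ℝ)) 4 cc)
        (AND.farν f u (mu0 d c c1 * kap k0 n) 4) (mu0 d c c1 * kap k0 n) 4 cc C1 c1
        (c.cl * kap k0 (n + 1) * (c1 / 2)) Lm (8 * C1 / (c.cl * c1))
        (kap k0 n ^ (1 / 64 : ℝ)) 1 := by
  have hm := mu0_pos h.d0 h.pos h.hc1
  obtain ⟨ht0, ht1⟩ := tHc_pos h
  have hc1 := h.hc1
  have hC1 : 0 < C1 := by linarith [h.hC1]
  have hcl := h.pos.cl
  have hb := h.pos.b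
  have hb1 := h.b1
  have hbm : 256 * c.b ≤ mu0 d c c1 := hb1.trans (by nlinarith)
  have a1 := ev_Qs h 1 (1 / 64 + v) hal
  have a2 := ev_Qs h (8 * (8 * C1 / (c.cl * c1)) * C1 / (c.cl / 4 * (c1 / 2)))
    3 hal
  have a3 := ev_kap (ev_pf h hCg (3 * (2 * C1) * Real.exp (mu0 d c c1) / (4 * mu0 d c c1))
    (mu0 d c c1 / 4))
  have a4 := ev_kap (ev_pf h hCg 1 c.b)
  have a5 := ev_tail (4 * C1) (A := mu0 d c c1 / 2) (B := mu0 d c c1 / 4) (by positivity)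
    (by positivity) 0 1 hal
  have a6 := ev_tail (1 / (c.cl / 4 * (c1 / 2)) * (4 * C1))
    (A := mu0 d c c1 / 2) (B := mu0 d c c1 / 2) (by positivity) (by positivity) 1 3 hal
  have a7 := ev_kap (ev_small (show (0 : ℝ) < c1 / 8 by positivity))
  filter_upwards [a1, a2, a3, a4, a5, a6, a7, ev_small (show (0 : ℝ) < 1 / 256 by norm_num)]
    with k0 a1 a2 a3 a4 a5 a6 a7 hk j n cc hn f u hf1 hf2 hu Lm hL0 hL
  have hk0 := hk.1
  have hκ := kap_pos hk0 n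
  have hκ1 : kap k0 n ≤ 1 := (kap_le hk0 n).trans (hk.2.trans (by norm_num))
  have a1 := a1 j n cc hn f u hf1 hf2 hu
  have a2 := a2 j n cc hn f u hf1 hf2 hu
  have hcc := hn.cc_le hk0
  have a3 := a3 n cc hcc
  have a4 := a4 n cc hcc
  have a5 := a5 j n hn.lo hn.hi cc hn.cc
  have a6 := a6 j n hn.lo hn.hi cc hn.cc
  have a7 := (a7 n).2
  have hs : kap k0 (n + 1) = kap k0 n / 4 := kap_succ k0 n
  have hν := farν_eq (d := d) (c := c) hf1 hf2 hu (kap k0 n)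
  set κ := kap k0 n with hκd
  set Q := AND.farQ d f u (mu0 d c c1 * κ) (κ ^ (-2 : ℝ)) 4 cc with hQd
  set ν := AND.farν f u (mu0 d c c1 * κ) 4 with hνd
  set S : ℝ := (side k0 al j : ℝ) with hSd
  have hS0 : 0 ≤ S := Nat.cast_nonneg _
  rw [one_mul] at a1
  rw [Real.rpow_one] at a5
  have hL2 : Lm ^ 2 ≤ κ ^ (-2 : ℝ) := by
    calc Lm ^ 2 ≤ (κ ^ (-1 : ℝ)) ^ 2 := pow_le_pow_left₀ hL0 hL 2
      _ = κ ^ (-2 : ℝ) := by
        rw [← Real.rpow_natCast, ← Real.rpow_mul hκ.le]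
        norm_num
  have h23 : κ ^ (-2 : ℝ) * κ ^ (3 : ℝ) = κ := by
    rw [← Real.rpow_add hκ]
    norm_num
  have hQ0 : 0 ≤ Q := by
    rw [hQd, farQ_eq h hκ hf1 hf2 hu]
    have := CQ_pos h
    have h5 := Real.rpow_pos_of_pos hκ (-(14 + 6 * (d : ℝ)))
    positivity
  have hinv : 1 ≤ κ ^ (-1 : ℝ) :=
    Real.one_le_rpow_of_pos_of_le_one_of_nonpos hκ hκ1 (by norm_num)
  refine ⟨hκ, hκ1, hv.le, hb.le, ?_, Real.rpow_nonneg hκ.le _, ?_, ?_, ?_, ?_, ?_, ?_, ?_, ?_⟩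
  · rw [hν]
    have h1 : 16 * c.b ≤ tHc c1 C1 rho * mu0 d c c1 / 8 := by linarith
    calc 16 * (c.b * κ) = 16 * c.b * κ := by ring
      _ ≤ _ := mul_le_mul_of_nonneg_right h1 hκ.le
  · rw [← Real.rpow_add hκ]
    exact a1
  · exact a1.trans (Real.rpow_le_one hκ.le hκ1 (by positivity))
  · rw [hs]
    have e1 : 8 * (8 * C1 / (c.cl * c1)) * C1 * Lm ^ 2 / (c.cl * (κ / 4) * (c1 / 2)) *
        (Q * Real.exp (-(ν * S / 2))) = κ⁻¹ * (Lm ^ 2 * (8 * (8 * C1 / (c.cl * c1)) * C1 /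
        (c.cl / 4 * (c1 / 2)) * (Q * Real.exp (-(ν * S / 2))))) := by
      field_simp
    rw [e1]
    have e2 : κ⁻¹ * κ = 1 := inv_mul_cancel₀ hκ.ne'
    have e4 : Lm ^ 2 * (8 * (8 * C1 / (c.cl * c1)) * C1 /
        (c.cl / 4 * (c1 / 2)) * (Q * Real.exp (-(ν * S / 2)))) ≤ κ := by
      rw [← h23]
      exact mul_le_mul hL2 a2 (by positivity) (Real.rpow_nonneg hκ.le _)
    have e3 := mul_le_mul_of_nonneg_left e4 (inv_nonneg.2 hκ.le)
    rw [e2] at e3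
    exact e3.trans (Real.one_le_rpow_of_pos_of_le_one_of_nonpos hκ hκ1 (by norm_num))
  · push_cast
    rw [le_div_iff₀ (by norm_num)]
    have : 4 * c.b * κ ≤ mu0 d c c1 * κ := mul_le_mul_of_nonneg_right (by linarith) hκ.le
    linarith
  · refine le_trans ?_ a3
    have e1 : Real.exp (mu0 d c c1 * κ) ≤ Real.exp (mu0 d c c1) :=
      Real.exp_le_exp.2 (by nlinarith)
    have e2 : Real.exp (mu0 d c c1 * κ * cc / (4 : ℕ)) =
        Real.exp (|mu0 d c c1 / 4| * (κ * cc)) := by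
      rw [abs_of_pos (by positivity)]
      congr 1
      push_cast
      ring
    rw [e2]
    refine mul_le_mul_of_nonneg_right ?_ (Real.exp_pos _).le
    rw [Real.rpow_neg_one]
    have e3 : 3 * (2 * C1) * Real.exp (mu0 d c c1) / (4 * mu0 d c c1) * κ⁻¹ =
        3 * (2 * C1) * Real.exp (mu0 d c c1) / (4 * (mu0 d c c1 * κ)) := by
      field_simp
    rw [e3]
    gcongr
  · have e1 : 1 * κ ^ (-1 : ℝ) * Real.exp (|c.b| * (κ * cc)) ≤ AND.pf κ c.b c.Cg := a4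
    rw [abs_of_pos hb, one_mul] at e1
    have e2 : Real.exp (c.b * (κ * cc)) * Real.exp (-(c.b * κ * cc)) = 1 := by
      rw [← Real.exp_add]
      have : c.b * (κ * (cc : ℝ)) + -(c.b * κ * cc) = 0 := by ring
      rw [this, Real.exp_zero]
    have e3 := mul_le_mul_of_nonneg_right e1 (Real.exp_pos (-(c.b * κ * (cc : ℝ)))).le
    refine le_trans ?_ e3
    rw [mul_assoc, e2, mul_one]
    exact hL
  · have e1 : 4 * C1 * Real.exp (2 * (mu0 d c c1 * κ) * cc / (4 : ℕ)) *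
        Real.exp (-(mu0 d c c1 * κ * S / (4 : ℕ))) =
        4 * C1 * κ ^ (-0 : ℝ) * (Real.exp (mu0 d c c1 / 2 * (κ * cc)) *
          Real.exp (-(mu0 d c c1 / 4 * (κ * S)))) := by
      rw [neg_zero, Real.rpow_zero, mul_one, mul_assoc]
      congr 2
      · congr 1
        push_cast
        ring
      · congr 1
        push_cast
        ring
    rw [e1]
    exact a5.trans a7
  · rw [hs]
    have e1 : Lm ^ 2 / (c.cl * (κ / 4) * (c1 / 2)) * (4 * C1 *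
        Real.exp (2 * (mu0 d c c1 * κ) * cc / (4 : ℕ)) *
        Real.exp (-(2 * (mu0 d c c1 * κ) * S / (4 : ℕ)))) =
        Lm ^ 2 * (1 / (c.cl / 4 * (c1 / 2)) * (4 * C1) * κ ^ (-1 : ℝ) *
        (Real.exp (mu0 d c c1 / 2 * (κ * cc)) *
          Real.exp (-(mu0 d c c1 / 2 * (κ * S))))) := by
      rw [Real.rpow_neg_one]
      have e2 : 2 * (mu0 d c c1 * κ) * (cc : ℝ) / ((4 : ℕ) : ℝ) =
          mu0 d c c1 / 2 * (κ * cc) := by
        push_cast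
        ring
      have e3 : 2 * (mu0 d c c1 * κ) * S / ((4 : ℕ) : ℝ) = mu0 d c c1 / 2 * (κ * S) := by
        push_cast
        ring
      rw [e2, e3]
      field_simp
    rw [e1]
    refine le_trans ?_ (h23.le.trans hκ1)
    exact mul_le_mul hL2 a6 (by positivity) (Real.rpow_nonneg hκ.le _)

end Pool.Agent.ANC
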