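import Pool.Agent.ANC.StepN2
import Pool.Agent.ANS.StepGood

/-!
# ANC / StepNr: the part `near` (`AND.NearNum`) of `AND.StepNum` for `parV` (helper31)

Values: `al = κ^(9/256)`, `r = rV`, `ze = κ^(1/64)`, `gg = g0 / κ`, `tt = κ^(-7/8 + 3 vt / 4)`, `σ = κ^(vt/2) / 28`, `tl = 1`
(`parV.vt = vt / 2`).  The row `h2` uses `r ≤ κ^(17/512)` and `2 vt < 1/256`.
-/

open Filter Topology Real

namespace Pool.Agent.ANC

variable {d : ℕ} {CM : ℝ} {c : Cst} {C1 c1 rho ρ : ℝ}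

theorem ex_vt2 (x : Ex d CM) : 2 * x.vt < 1 / 256 := by
  have h1 := x.vt_eq
  have h2 := min_le_left (x.e / 4) x.vi
  have h3 := x.e_eq
  linarith

/-- THE NEAR ROWS -/
theorem ev_nearNum (x : Ex d CM) (h : StC d c C1 c1 rho ρ) (CW CU : ℝ) {g0 : ℝ} (hg0 : 0 < g0) :
    ∀ᶠ k0 in 𝓝[>] (0 : ℝ), ∀ (eta : ℝ), 0 < eta → eta ≤ k0 → ∀ (n : ℕ) (f : AND.Fix),
      f.C1 = C1 → f.c1 = c1 → ∀ {X : Type} (Sf : AND.SiteF X) (Wa Wz e3 : ℕ → ℝ),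
      (∀ K ∈ Sf.Ks n, 0 ≤ Sf.s K ∧ 0 ≤ Wa K ∧ Wa K ≤ Sf.s K * (CW / kap k0 n) ∧
        0 ≤ Wz K ∧ Wz K ≤ Sf.s K * (CW / kap k0 n) ∧
        e3 K ≤ Sf.s K * (CU / kap k0 n * kap k0 n ^ (1 / 45 : ℝ))) →
      AND.NearNum f (parV x c k0 eta) Sf n (rV d ρ C1 c1 (kap k0 n)) (kap k0 n ^ (9 / 256 : ℝ))
        (kap k0 n ^ (1 / 64 : ℝ)) (g0 / kap k0 n) (kap k0 n ^ (-(7 / 8) + 3 / 4 * x.vt : ℝ))
        (kap k0 n ^ (x.vt / 2) / 28) 1 Wa Wz e3 := by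
  have hc1 := h.hc1
  have hC1 : 0 < C1 := by linarith [h.hC1]
  have hcl := h.pos.cl
  have hCz := h.pos.Cz
  have hv := x.v_lt
  have hvt := x.vt_pos
  have hvt2 := ex_vt2 x
  have b1 := ev_pow' (C := 2) (show x.v < 9 / 256 by linarith)
  have b2 := ev_r d ρ C1 c1 (8 * C1 / c1) (a := x.v) (by linarith)
  have b3 := ev_r d ρ C1 c1 1 (show (17 / 512 : ℝ) < 9 / 256 by norm_num)
  have b4 := ev_pow' (C := 48) (show -(7 / 8) + x.vt / 2 < -(7 / 8) + 3 / 4 * x.vt by linarith)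
  have b5 := ev_pow' (C := 6 * (29 ^ 3 * (16 * (2 / c1) ^ 4 * C1 ^ 3 / (c.cl / 4 * c1))))
    (show -(7 / 8) + x.vt / 2 < -(3 / 2) * x.vt - 1 + 17 / 128 by linarith)
  have b6 := ev_pow' (C := 6) (show -(7 / 8) + x.vt / 2 < 0 by linarith)
  have b7 := ev_pow' (C := 8 * |CU| / (c.Cz * g0 * c1)) (show x.v < 1 / 45 by linarith)
  have b8 := ev_r d ρ C1 c1 (8 * (8 * |CW| * C1 * (4 / c1 + 4 / c1 ^ 2) + |CW|) /
    (c.Cz * g0 * c1)) (a := x.v) (by linarith)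
  have b9 := ev_r d ρ C1 c1 (4 * |CW| / (c.Cz * g0 * c1)) (a := x.v) (by linarith)
  have b10 := ev_small (show 0 < 1 / (4 * C1) by positivity)
  have hall := ev_kap (b1.and (b2.and (b3.and (b4.and (b5.and (b6.and (b7.and (b8.and
    (b9.and b10)))))))))
  filter_upwards [hall, ev_small (show (0 : ℝ) < 1 / 2 by norm_num)] with k0 hall hk eta he he1 n f
    hf1 hf2 X Sf Wa Wz e3 hK
  obtain ⟨b1, b2, b3, b4, b5, b6, b7, b8, b9, b10⟩ := hall n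
  have hk0 := hk.1
  have hκ := kap_pos hk0 n
  have hκ1 : kap k0 n ≤ 1 := (kap_le hk0 n).trans (hk.2.trans (by norm_num))
  have hs : kap k0 (n + 1) = kap k0 n / 4 := kap_succ k0 n
  have hr0 := rV_nonneg (d := d) (ρ := ρ) hC1 hc1 hκ
  set κ := kap k0 n with hκd
  set r := rV d ρ C1 c1 κ with hrd
  rw [one_mul] at b3
  have hr1 : r ≤ 1 := b3.trans (Real.rpow_le_one hκ.le hκ1 (by norm_num))
  have hs0 : 0 < κ ^ (x.vt / 2) := Real.rpow_pos_of_pos hκ _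
  have hs1 : κ ^ (x.vt / 2) ≤ 1 := Real.rpow_le_one hκ.le hκ1 (by positivity)
  have hkv : 0 ≤ κ ^ x.v := Real.rpow_nonneg hκ.le _
  have key : ∀ W : ℝ, ∀ s : ℝ, W ≤ s * (CW / κ) → 0 ≤ s → W ≤ s / κ * |CW| := by
    intro W s hW hs
    refine hW.trans (le_of_eq_of_le (by ring : s * (CW / κ) = s / κ * CW) ?_)
    exact mul_le_mul_of_nonneg_left (le_abs_self CW) (by positivity)
  refine ⟨hκ1, Real.rpow_le_one hκ.le hκ1 (by norm_num), ?_, ?_, by positivity, ?_, ?_,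
    Real.rpow_nonneg hκ.le _, ?_, ?_, ?_⟩
  · rw [hf1, hf2]
    show κ ^ (9 / 256 : ℝ) + 2 * r / c1 * (2 * C1) ≤ κ ^ x.v
    have e1 : 2 * r / c1 * (2 * C1) = (8 * C1 / c1 * r) / 2 := by ring
    rw [e1]
    linarith
  · rw [hf1]
    show eta + κ * (2 * C1) ≤ 1
    have e1 : κ * (2 * C1) ≤ 1 / (4 * C1) * (2 * C1) :=
      mul_le_mul_of_nonneg_right b10.2 (by positivity)
    have e2 : 1 / (4 * C1) * (2 * C1) = 1 / 2 := by field_simp; norm_num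
    have e3 := he1.trans hk.2
    linarith
  · show κ ^ (x.vt / 2) / 28 ≤ 1
    linarith
  · show 28 * (κ ^ (x.vt / 2) / 28) ≤ κ ^ (x.vt / 2)
    linarith
  · rw [hf1, hf2]
    show 8 * κ ^ (-(7 / 8) + 3 / 4 * x.vt) + (1 + 1 / (κ ^ (x.vt / 2) / 28)) ^ 3 *
      (16 * (2 * r / c1) ^ 4 * C1 ^ 3 / (c.cl * kap k0 (n + 1) * c1)) + 1 ≤
      1 / 2 * κ ^ (x.vt / 2) * κ ^ (-(7 / 8) : ℝ)
    rw [hs]
    have e0 : κ ^ (x.vt / 2) * κ ^ (-(7 / 8) : ℝ) = κ ^ (-(7 / 8) + x.vt / 2) := by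
      rw [← Real.rpow_add hκ]
      congr 1
      ring
    rw [mul_assoc (1 / 2 : ℝ), e0]
    rw [Real.rpow_zero, mul_one] at b6
    -- the cube
    have e1 : 1 + 1 / (κ ^ (x.vt / 2) / 28) ≤ 29 * κ ^ (-(x.vt / 2)) := by
      rw [Real.rpow_neg hκ.le]
      have e2 : 1 / (κ ^ (x.vt / 2) / 28) = 28 * (κ ^ (x.vt / 2))⁻¹ := by
        field_simp
      rw [e2]
      have e3 : 1 ≤ (κ ^ (x.vt / 2))⁻¹ := (one_le_inv₀ hs0).2 hs1
      linarith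
    have e4 : (1 + 1 / (κ ^ (x.vt / 2) / 28)) ^ 3 ≤ 29 ^ 3 * κ ^ (-(3 / 2) * x.vt) := by
      have e5 : (κ ^ (-(x.vt / 2))) ^ 3 = κ ^ (-(3 / 2) * x.vt) := by
        rw [← Real.rpow_natCast, ← Real.rpow_mul hκ.le]
        congr 1
        push_cast
        ring
      calc (1 + 1 / (κ ^ (x.vt / 2) / 28)) ^ 3 ≤ (29 * κ ^ (-(x.vt / 2))) ^ 3 :=
            pow_le_pow_left₀ (by positivity) e1 3
        _ = 29 ^ 3 * κ ^ (-(3 / 2) * x.vt) := by rw [mul_pow, e5]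
    have e6 : r ^ 4 ≤ κ ^ (17 / 128 : ℝ) := by
      calc r ^ 4 ≤ (κ ^ (17 / 512 : ℝ)) ^ 4 := pow_le_pow_left₀ hr0 b3 4
        _ = κ ^ (17 / 128 : ℝ) := by
          rw [← Real.rpow_natCast, ← Real.rpow_mul hκ.le]
          congr 1
          norm_num
    have e7 : 16 * (2 * r / c1) ^ 4 * C1 ^ 3 / (c.cl * (κ / 4) * c1) =
        16 * (2 / c1) ^ 4 * C1 ^ 3 / (c.cl / 4 * c1) * (κ ^ (-1 : ℝ) * r ^ 4) := by
      rw [Real.rpow_neg_one]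
      field_simp
    have e8 : (1 + 1 / (κ ^ (x.vt / 2) / 28)) ^ 3 *
        (16 * (2 * r / c1) ^ 4 * C1 ^ 3 / (c.cl * (κ / 4) * c1)) ≤
        29 ^ 3 * (16 * (2 / c1) ^ 4 * C1 ^ 3 / (c.cl / 4 * c1)) *
          κ ^ (-(3 / 2) * x.vt - 1 + 17 / 128 : ℝ) := by
      have e9 : κ ^ (-(3 / 2) * x.vt - 1 + 17 / 128 : ℝ) =
          κ ^ (-(3 / 2) * x.vt) * (κ ^ (-1 : ℝ) * κ ^ (17 / 128 : ℝ)) := by
        rw [← Real.rpow_add hκ, ← Real.rpow_add hκ]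
        congr 1
        ring
      rw [e7, e9]
      have e10 : 0 ≤ κ ^ (-1 : ℝ) := Real.rpow_nonneg hκ.le _
      have e11 : 0 ≤ κ ^ (-(3 / 2) * x.vt) := Real.rpow_nonneg hκ.le _
      calc (1 + 1 / (κ ^ (x.vt / 2) / 28)) ^ 3 *
            (16 * (2 / c1) ^ 4 * C1 ^ 3 / (c.cl / 4 * c1) * (κ ^ (-1 : ℝ) * r ^ 4))
          ≤ (29 ^ 3 * κ ^ (-(3 / 2) * x.vt)) *
            (16 * (2 / c1) ^ 4 * C1 ^ 3 / (c.cl / 4 * c1) *
              (κ ^ (-1 : ℝ) * κ ^ (17 / 128 : ℝ))) := by gcongr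
        _ = _ := by ring
    rw [mul_assoc] at b5
    linarith
  · intro K hKm
    obtain ⟨s0, wa0, wa1, wz0, wz1, e31⟩ := hK K hKm
    rw [hf1, hf2]
    show e3 K + 2 * (Wa K + Wz K) * (2 * C1) * (2 * (2 * r / c1) + (2 * r / c1) ^ 2) ≤
      (Sf.s K * c.Cz * (g0 / κ) * κ ^ x.v / 2 - 2 * Wa K * r / c1) * (c1 / 2)
    have wa2 := key _ _ wa1 s0
    have wz2 := key _ _ wz1 s0
    set t : ℝ := Sf.s K / κ with htd
    have ht : 0 ≤ t := by positivity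
    have a1 : e3 K ≤ t * (|CU| * κ ^ (1 / 45 : ℝ)) := by
      refine e31.trans ?_
      have : Sf.s K * (CU / κ * κ ^ (1 / 45 : ℝ)) = t * (CU * κ ^ (1 / 45 : ℝ)) := by
        rw [htd]
        ring
      rw [this]
      apply mul_le_mul_of_nonneg_left _ ht
      exact mul_le_mul_of_nonneg_right (le_abs_self CU) (Real.rpow_nonneg hκ.le _)
    have a2 : 2 * (2 * r / c1) + (2 * r / c1) ^ 2 ≤ (4 / c1 + 4 / c1 ^ 2) * r := by
      have a3 : r ^ 2 ≤ r := by nlinarith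
      have a4 : 2 * (2 * r / c1) + (2 * r / c1) ^ 2 = 4 / c1 * r + 4 / c1 ^ 2 * r ^ 2 := by
        field_simp
        ring
      rw [a4, add_mul]
      gcongr
    have a5 : 2 * (Wa K + Wz K) * (2 * C1) * (2 * (2 * r / c1) + (2 * r / c1) ^ 2) ≤
        t * (8 * |CW| * C1 * (4 / c1 + 4 / c1 ^ 2) * r) := by
      calc 2 * (Wa K + Wz K) * (2 * C1) * (2 * (2 * r / c1) + (2 * r / c1) ^ 2)
          ≤ 2 * (t * |CW| + t * |CW|) * (2 * C1) * ((4 / c1 + 4 / c1 ^ 2) * r) := by gcongr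
        _ = _ := by ring
    have a6 : Sf.s K * c.Cz * (g0 / κ) * κ ^ x.v / 2 = t * (c.Cz * g0 * κ ^ x.v / 2) := by
      rw [htd]
      ring
    have a7 : 2 * Wa K * r / c1 * (c1 / 2) ≤ t * (|CW| * r) := by
      have : 2 * Wa K * r / c1 * (c1 / 2) = Wa K * r := by field_simp
      rw [this]
      calc Wa K * r ≤ (t * |CW|) * r := mul_le_mul_of_nonneg_right wa2 hr0
        _ = _ := by ring
    rw [sub_mul, a6]
    have hP : 0 < c.Cz * g0 * c1 := by positivity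
    have a8 : |CU| * κ ^ (1 / 45 : ℝ) ≤ c.Cz * g0 * κ ^ x.v / 2 * (c1 / 2) / 2 := by
      have := mul_le_mul_of_nonneg_left b7 hP.le
      have a9 : c.Cz * g0 * c1 * (8 * |CU| / (c.Cz * g0 * c1) * κ ^ (1 / 45 : ℝ)) =
          8 * (|CU| * κ ^ (1 / 45 : ℝ)) := by field_simp
      rw [a9] at this
      nlinarith
    have a10 : (8 * |CW| * C1 * (4 / c1 + 4 / c1 ^ 2) + |CW|) * r ≤
        c.Cz * g0 * κ ^ x.v / 2 * (c1 / 2) / 2 := by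
      have := mul_le_mul_of_nonneg_left b8 hP.le
      have a9 : c.Cz * g0 * c1 * (8 * (8 * |CW| * C1 * (4 / c1 + 4 / c1 ^ 2) + |CW|) /
          (c.Cz * g0 * c1) * r) = 8 * ((8 * |CW| * C1 * (4 / c1 + 4 / c1 ^ 2) + |CW|) * r) := by
        field_simp
      rw [a9] at this
      nlinarith
    have a11 := mul_le_mul_of_nonneg_left (add_le_add a8 a10) ht
    have a12 : t * (c.Cz * g0 * κ ^ x.v / 2 * (c1 / 2) / 2 +
        c.Cz * g0 * κ ^ x.v / 2 * (c1 / 2) / 2) =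
        t * (c.Cz * g0 * κ ^ x.v / 2) * (c1 / 2) := by ring
    rw [a12] at a11
    have a13 : t * (|CU| * κ ^ (1 / 45 : ℝ) +
        (8 * |CW| * C1 * (4 / c1 + 4 / c1 ^ 2) + |CW|) * r) =
        t * (|CU| * κ ^ (1 / 45 : ℝ)) + t * (8 * |CW| * C1 * (4 / c1 + 4 / c1 ^ 2) * r) +
          t * (|CW| * r) := by ring
    rw [a13] at a11
    linarith
  · intro K hKm
    obtain ⟨s0, wa0, wa1, wz0, wz1, e31⟩ := hK K hKm
    rw [hf2]
    show 2 * Wa K * r / c1 ≤ Sf.s K * c.Cz * (g0 / κ) * κ ^ x.v / 2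
    have wa2 := key _ _ wa1 s0
    set t : ℝ := Sf.s K / κ with htd
    have ht : 0 ≤ t := by positivity
    have hP : 0 < c.Cz * g0 * c1 := by positivity
    have a1 := mul_le_mul_of_nonneg_left b9 (show 0 ≤ t * (c.Cz * g0 / 2) by positivity)
    have a2 : t * (c.Cz * g0 / 2) * (4 * |CW| / (c.Cz * g0 * c1) * r) =
        2 * (t * |CW|) * r / c1 := by field_simp; ring
    rw [a2] at a1
    calc 2 * Wa K * r / c1 ≤ 2 * (t * |CW|) * r / c1 := by gcongr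
      _ ≤ t * (c.Cz * g0 / 2) * κ ^ x.v := a1
      _ = _ := by rw [htd]; ring

end Pool.Agent.ANC
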