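import Pool.Agent.ANC.StepNr
import Pool.Agent.ANC.FarN
import Pool.Agent.ANC.StepF3

/-!
# ANC / StepNum: `AND.StepNum0` for `parV` (helper31)

Values at the level `κ = kap k0 n` of super-stage `j`, both parts (`NV d al k0 n = ` all real numbers of a step):
`al = κ^(9/256)`, `tt = κ^(-7/8 + 3 vt / 4)`, `K = κ^(-KB)`, `K2 = κ^(-5/2)`, `μ = mu0 κ`, `aa = 4`, `Bd = 1`, `q = κ^(-AB)`,
`ze = κ^(1/64)`, `gg = g0 / κ`, `σ = κ^(vt/2) / 28`, `tl = 1`, `Lm = u.Lam + 1`, `om = κ^AB`, `e0 = ce κ`, `l = lV`.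
-/

open Filter Topology Real

namespace Pool.Agent.ANC

variable {d : ℕ} {CM : ℝ} {c : Cst} {C1 c1 rho ρ : ℝ}

/-- `WNum` depends only on the number of the elements -/
theorem WNum_card {f : AND.Fix} {r kl' k' K Bd q Lm om : ℝ} {L L' : ℕ}
    {W : Finset (Kin.Tor d L)} {W' : Finset (Kin.Tor d L')}
    (h : AND.WNum f r kl' k' K Bd q Lm om W') (hc : W'.card = W.card) :
    AND.WNum f r kl' k' K Bd q Lm om W where
  om0 := h.om0
  omC := by rw [← hc]; exact h.omC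
  omL := by rw [← hc]; exact h.omL
  inc := fun x hx => by
    have h1 : 0 < W'.card := by rw [hc]; exact Finset.card_pos.2 ⟨x, hx⟩
    obtain ⟨x', hx'⟩ := Finset.card_pos.1 h1
    exact h.inc x' hx'
  nq := by rw [← hc]; exact h.nq

/-- a set with `m` elements in a large torus -/
theorem exists_card (hd : 0 < d) (m : ℕ) : ∃ W : Finset (Kin.Tor d (m + 1)), W.card = m := by
  classical
  have h1 : m ≤ (Finset.univ : Finset (Kin.Tor d (m + 1))).card := by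
    have h2 : (Finset.univ : Finset (Kin.Tor d (m + 1))).card = (m + 1) ^ d := by
      rw [Finset.card_univ]
      simp [Kin.Tor]
    rw [h2]
    calc m ≤ m + 1 := Nat.le_succ m
      _ = (m + 1) ^ 1 := (pow_one _).symm
      _ ≤ (m + 1) ^ d := Nat.pow_le_pow_right (by omega) hd
  obtain ⟨W, -, hW⟩ := Finset.exists_subset_card_eq h1
  exact ⟨W, hW⟩

/-- ALL NUMBERS OF A STEP but those of the form fields, both parts -/
theorem ev_stepNum (x : Ex d CM) (h : StC d c C1 c1 rho ρ) (hCg : c.Cg = 5 / 2) (CW CU : ℝ)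
    {g0 ce : ℝ} (hg0 : 0 < g0) (hce : 0 < ce) (hce1 : ce ≤ c.cl * c1 / 8) (hce2 : ce ≤ c.cs / 4) :
    ∀ᶠ k0 in 𝓝[>] (0 : ℝ), ∀ eta : ℝ, 0 < eta → eta ≤ k0 →
      ∀ j n cc : ℕ, LvN k0 x.al j n cc → ∀ (f : AND.Fix) (u : AND.UTol),
      f.C1 = C1 → f.c1 = c1 → u.rho = rho → 0 ≤ u.Lam → u.Lam + 1 ≤ kap k0 n ^ (-1 : ℝ) →
      ∀ {X : Type} (Sf : AND.SiteF X) (Wa Wz e3 : ℕ → ℝ),
      (∀ K ∈ Sf.Ks n, 0 ≤ Sf.s K ∧ 0 ≤ Wa K ∧ Wa K ≤ Sf.s K * (CW / kap k0 n) ∧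
        0 ≤ Wz K ∧ Wz K ≤ Sf.s K * (CW / kap k0 n) ∧
        e3 K ≤ Sf.s K * (CU / kap k0 n * kap k0 n ^ (1 / 45 : ℝ))) →
      ∀ Cph errm bem : ℝ, errm ≤ kap k0 n ^ (-8 : ℝ) → 0 ≤ bem → bem ≤ kap k0 n ^ (-8 : ℝ) →
        0 ≤ Cph → Cph ≤ kap k0 n ^ (-8 : ℝ) →
      ∀ nW : ℕ, (nW : ℝ) ≤ (3 * (side k0 x.al j : ℝ)) ^ d →
      AND.StepNum0 f (parV x c k0 eta) Sf n (side k0 x.al j) d u (kap k0 n ^ (9 / 256 : ℝ))
        (kap k0 n ^ (-(7 / 8) + 3 / 4 * x.vt : ℝ)) ρ (kap k0 n ^ (-KB d x.al))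
        (kap k0 n ^ (-(5 / 2) : ℝ)) (mu0 d c c1 * kap k0 n) 1 (kap k0 n ^ (-AB d x.al))
        (kap k0 n ^ (1 / 64 : ℝ)) (g0 / kap k0 n) (kap k0 n ^ (x.vt / 2) / 28) 1 (u.Lam + 1)
        (kap k0 n ^ AB d x.al) (ce * kap k0 n) Cph errm bem 4 cc (lV d ρ (kap k0 n)) nW Wa Wz
        e3 := by
  have hc1 := h.hc1
  have hC1 : 0 < C1 := by linarith [h.hC1]
  have hcl := h.pos.cl
  have hCz := h.pos.Cz
  have hv := x.v_lt
  have hv0 := x.v_pos
  have hAB : 0 ≤ AB d x.al := by unfold AB; positivity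
  have hKB : 0 ≤ KB d x.al := by unfold KB; positivity
  have b1 := ev_pow' (C := 2) (show (0 : ℝ) < 9 / 256 by norm_num)
  have b2 := ev_r d ρ C1 c1 (8 * C1 / c1) (a := 0) (by norm_num)
  have b3 := ev_r d ρ C1 c1 1 (show (1 / 64 + x.v : ℝ) < 9 / 256 by linarith)
  have b4 := ev_small hce
  have b5 := ev_le 1 (b := 8 + 1) (by norm_num) (show 0 < c.Cz * g0 by positivity) 0
  have hall := ev_kap (b1.and (b2.and (b3.and (b4.and b5))))
  filter_upwards [ev_rf h x.al, ev_farNB x h x.al, ev_wnum h x.al2, ev_schB h hCg hv0 x.al2,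
    ev_nearNum x h CW CU hg0, ev_far3 x h hKB hAB x.al2, hall,
    ev_small (show (0 : ℝ) < 1 / 2 by norm_num)] with k0 hrf hfar hwn hsch hnear hfar3 hall hk
    eta he he1 j n cc hn f u hf1 hf2 hu hL0 hL X Sf Wa Wz e3 hK Cph errm bem herr hbe0 hbe hC0 hC
    nW hnW
  obtain ⟨b1, b2, b3, b4, b5⟩ := hall n
  have hk0 := hk.1
  have hκ := kap_pos hk0 n
  have hκ1 : kap k0 n ≤ 1 := (kap_le hk0 n).trans (hk.2.trans (by norm_num))
  have hs : kap k0 (n + 1) = kap k0 n / 4 := kap_succ k0 n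
  rw [Real.rpow_zero] at b1 b2
  rw [one_mul] at b3
  rw [pow_zero, mul_one, one_mul] at b5
  have hr : AND.rStep f (lV d ρ (kap k0 n)) (kap k0 n ^ (9 / 256 : ℝ)) =
      rV d ρ C1 c1 (kap k0 n) := by rw [rV_eq, hf1, hf2]
  have hc2 : f.c1 / 2 = c1 / 2 := by rw [hf2]
  have hLm0 : 0 ≤ u.Lam + 1 := by linarith
  refine
    { kl0 := ?_, k1 := hκ1, rf := ?_, far := ?_, wn := ?_, sch := ?_, lm := ?_, zer := ?_,
      near := ?_, e0A := ?_, e0S := ?_, far3 := ?_ }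
  · show 0 < c.cl * kap k0 (n + 1)
    have := kap_pos hk0 (n + 1)
    positivity
  · exact hrf j n cc hn f u hf1 hf2 hL0 hL
  · intro L _ F pp v M
    rw [hr]
    exact hfar eta he he1 n f u hf1 hf2 hu Sf F pp v M
  · intro L W hW
    rw [hr]
    obtain ⟨W', hW'⟩ := exists_card (d := d) h.d0 W.card
    refine WNum_card (hwn j n cc hn f hf1 hf2 (u.Lam + 1) hLm0 hL W' ?_) hW'
    rw [hW']
    refine le_trans ?_ hnW
    exact_mod_cast hW
  · have := hsch j n cc hn f u hf1 hf2 hu (u.Lam + 1) hLm0 hL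
    rw [hf1, hf2]
    exact this
  · rw [hr, hf1, hf2]
    have e1 : 2 * rV d ρ C1 c1 (kap k0 n) / c1 * (2 * C1) =
        (8 * C1 / c1 * rV d ρ C1 c1 (kap k0 n)) / 2 := by ring
    rw [e1]
    linarith
  · rw [hr]
    show rV d ρ C1 c1 (kap k0 n) ≤ kap k0 n ^ (1 / 64 : ℝ) * kap k0 n ^ x.v
    rw [← Real.rpow_add hκ]
    exact b3
  · rw [hr]
    exact hnear eta he he1 n f hf1 hf2 Sf Wa Wz e3 hK
  · rw [hc2]
    show ce * kap k0 n ≤ c.cl * kap k0 (n + 1) * (c1 / 2)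
    rw [hs]
    have := mul_le_mul_of_nonneg_right hce1 hκ.le
    linarith
  · show ce * kap k0 n ≤ c.cs * kap k0 (n + 1)
    rw [hs]
    have := mul_le_mul_of_nonneg_right hce2 hκ.le
    linarith
  · refine hfar3 j n cc hn f u hf1 hf2 hu eta (kap k0 n ^ (-AB d x.al)) (ce * kap k0 n) errm bem
      Cph (c.Cz * (g0 / kap k0 n)) (Real.rpow_nonneg hκ.le _) le_rfl ?_ herr hbe0 hbe hC0 hC ?_
    · have e1 : kap k0 n ^ (2 : ℝ) = kap k0 n * kap k0 n := by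
        rw [Real.rpow_two]
        ring
      rw [e1]
      exact mul_le_mul_of_nonneg_right b4.2 hκ.le
    · have e1 : kap k0 n ^ (8 + 1 : ℝ) = kap k0 n ^ (8 : ℝ) * kap k0 n := by
        rw [Real.rpow_add hκ, Real.rpow_one]
      rw [e1] at b5
      have e2 : c.Cz * (g0 / kap k0 n) = c.Cz * g0 / kap k0 n := by ring
      rw [e2, le_div_iff₀ hκ]
      exact b5

end Pool.Agent.ANC
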